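import Pool.Agent.H709R2.Param

/-! Weighted polynomial sums: bounds, Lipschitz estimates, derivatives. -/

open Real Set MeasureTheory Topology Filter
open scoped ENNReal

namespace Pool.Agent.W960.HR

noncomputable section

variable {S : Finset (ℕ × ℕ)}

/-- weighted polynomial sum -/
def Gs (a : S → ℝ) (e : S → ℕ × ℕ) (c : S → ℝ × ℝ) (z : ℝ × ℝ) : ℝ × ℝ :=
  ∑ m, (a m * (z.1 ^ (e m).1 * z.2 ^ (e m).2)) • c m

/-- derivative in the first variable -/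
def Gx (a : S → ℝ) (e : S → ℕ × ℕ) (c : S → ℝ × ℝ) (z : ℝ × ℝ) : ℝ × ℝ :=
  Gs (fun m => a m * (e m).1) (fun m => ((e m).1 - 1, (e m).2)) c z

/-- derivative in the second variable -/
def Gy (a : S → ℝ) (e : S → ℕ × ℕ) (c : S → ℝ × ℝ) (z : ℝ × ℝ) : ℝ × ℝ :=
  Gs (fun m => a m * (e m).2) (fun m => ((e m).1, (e m).2 - 1)) c z

lemma abs_fst_le (z : ℝ × ℝ) : |z.1| ≤ ‖z‖ := norm_fst_le z

lemma abs_snd_le (z : ℝ × ℝ) : |z.2| ≤ ‖z‖ := norm_snd_le z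

lemma abs_mono_le {x y ρ : ℝ} (hρ : 1 ≤ ρ) (hx : |x| ≤ ρ) (hy : |y| ≤ ρ) {i j d : ℕ}
    (h : i + j ≤ d) : |x ^ i * y ^ j| ≤ ρ ^ d := by
  rw [abs_mul, abs_pow, abs_pow]
  calc |x| ^ i * |y| ^ j ≤ ρ ^ i * ρ ^ j := by gcongr
    _ = ρ ^ (i + j) := (pow_add _ _ _).symm
    _ ≤ ρ ^ d := pow_le_pow_right₀ hρ h

lemma abs_pow_sub_le {x a ρ : ℝ} (hx : |x| ≤ ρ) (ha : |a| ≤ ρ) (i : ℕ) :
    |x ^ i - a ^ i| ≤ i * ρ ^ (i - 1) * |x - a| := by
  have hρ : 0 ≤ ρ := (abs_nonneg _).trans hx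
  induction i with
  | zero => simp
  | succ i ih =>
    have e : x ^ (i + 1) - a ^ (i + 1) = x * (x ^ i - a ^ i) + (x - a) * a ^ i := by ring
    rw [e]
    refine (abs_add_le _ _).trans ?_
    rw [abs_mul, abs_mul, abs_pow]
    have h1 : |x| * |x ^ i - a ^ i| ≤ i * ρ ^ i * |x - a| := by
      rcases Nat.eq_zero_or_pos i with hi | hi
      · subst hi; simp
      · calc |x| * |x ^ i - a ^ i| ≤ ρ * (i * ρ ^ (i - 1) * |x - a|) := by gcongr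
          _ = i * (ρ ^ (i - 1) * ρ) * |x - a| := by ring
          _ = i * ρ ^ i * |x - a| := by rw [← pow_succ, Nat.sub_add_cancel hi]
    have h2 : |x - a| * |a| ^ i ≤ ρ ^ i * |x - a| := by
      rw [mul_comm]
      gcongr
    calc |x| * |x ^ i - a ^ i| + |x - a| * |a| ^ i ≤ i * ρ ^ i * |x - a| + ρ ^ i * |x - a| :=
          add_le_add h1 h2
      _ = ((i + 1 : ℕ) : ℝ) * ρ ^ (i + 1 - 1) * |x - a| := by
          rw [Nat.add_sub_cancel]; push_cast; ring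

lemma abs_mono_sub_le {z w : ℝ × ℝ} {ρ : ℝ} (hρ : 1 ≤ ρ) (hz : ‖z‖ ≤ ρ) (hw : ‖w‖ ≤ ρ)
    {i j d : ℕ} (h : i + j ≤ d) :
    |z.1 ^ i * z.2 ^ j - w.1 ^ i * w.2 ^ j| ≤ d * ρ ^ (d - 1) * ‖z - w‖ := by
  have z1 := (abs_fst_le z).trans hz
  have z2 := (abs_snd_le z).trans hz
  have w1 := (abs_fst_le w).trans hw
  have w2 := (abs_snd_le w).trans hw
  have e : z.1 ^ i * z.2 ^ j - w.1 ^ i * w.2 ^ j =
      (z.1 ^ i - w.1 ^ i) * z.2 ^ j + w.1 ^ i * (z.2 ^ j - w.2 ^ j) := by ring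
  rw [e]
  refine (abs_add_le _ _).trans ?_
  rw [abs_mul, abs_mul, abs_pow, abs_pow]
  have hρ0 : 0 ≤ ρ := by linarith
  have d1 : |z.1 - w.1| ≤ ‖z - w‖ := abs_fst_le (z - w)
  have d2 : |z.2 - w.2| ≤ ‖z - w‖ := abs_snd_le (z - w)
  have a1 : |z.1 ^ i - w.1 ^ i| * |z.2| ^ j ≤ i * ρ ^ (d - 1) * ‖z - w‖ := by
    rcases Nat.eq_zero_or_pos i with hi | hi
    · subst hi; simp
    · calc |z.1 ^ i - w.1 ^ i| * |z.2| ^ j
          ≤ (i * ρ ^ (i - 1) * |z.1 - w.1|) * ρ ^ j := by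
            gcongr
            exact abs_pow_sub_le z1 w1 i
        _ = i * (ρ ^ (i - 1) * ρ ^ j) * |z.1 - w.1| := by ring
        _ = i * ρ ^ (i - 1 + j) * |z.1 - w.1| := by rw [pow_add]
        _ ≤ i * ρ ^ (d - 1) * ‖z - w‖ := by
            gcongr
            omega
  have a2 : |w.1| ^ i * |z.2 ^ j - w.2 ^ j| ≤ j * ρ ^ (d - 1) * ‖z - w‖ := by
    rcases Nat.eq_zero_or_pos j with hj | hj
    · subst hj; simp
    · calc |w.1| ^ i * |z.2 ^ j - w.2 ^ j|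
          ≤ ρ ^ i * (j * ρ ^ (j - 1) * |z.2 - w.2|) := by
            gcongr
            exact abs_pow_sub_le z2 w2 j
        _ = j * (ρ ^ i * ρ ^ (j - 1)) * |z.2 - w.2| := by ring
        _ = j * ρ ^ (i + (j - 1)) * |z.2 - w.2| := by rw [pow_add]
        _ ≤ j * ρ ^ (d - 1) * ‖z - w‖ := by
            gcongr
            omega
  have hij : (i:ℝ) + j ≤ d := by exact_mod_cast h
  calc |z.1 ^ i - w.1 ^ i| * |z.2| ^ j + |w.1| ^ i * |z.2 ^ j - w.2 ^ j|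
      ≤ i * ρ ^ (d - 1) * ‖z - w‖ + j * ρ ^ (d - 1) * ‖z - w‖ := add_le_add a1 a2
    _ = (i + j) * (ρ ^ (d - 1) * ‖z - w‖) := by ring
    _ ≤ d * (ρ ^ (d - 1) * ‖z - w‖) := mul_le_mul_of_nonneg_right hij (by positivity)
    _ = d * ρ ^ (d - 1) * ‖z - w‖ := by ring

lemma norm_Gs_le {a : S → ℝ} {e : S → ℕ × ℕ} {c : S → ℝ × ℝ} {z : ℝ × ℝ} {A M ρ : ℝ} {d : ℕ}
    (hA : ∀ m, |a m| ≤ A) (hM : ∀ m, ‖c m‖ ≤ M) (hρ : 1 ≤ ρ) (hz : ‖z‖ ≤ ρ)
    (hd : ∀ m, a m ≠ 0 → (e m).1 + (e m).2 ≤ d) : ‖Gs a e c z‖ ≤ S.card * (A * ρ ^ d * M) := by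
  unfold Gs
  refine (norm_sum_le _ _).trans ?_
  have hA0 : ∀ m : S, 0 ≤ A := fun m => (abs_nonneg _).trans (hA m)
  have : ∀ m ∈ Finset.univ (α := S), ‖(a m * (z.1 ^ (e m).1 * z.2 ^ (e m).2)) • c m‖ ≤ A * ρ ^ d * M := by
    intro m _
    rw [norm_smul, Real.norm_eq_abs, abs_mul]
    by_cases h0 : a m = 0
    · rw [h0, abs_zero, zero_mul, zero_mul]
      have h1 := hA0 m
      have h2 := (norm_nonneg _).trans (hM m)
      positivity
    · have h1 := abs_mono_le hρ ((abs_fst_le z).trans hz) ((abs_snd_le z).trans hz) (hd m h0)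
      have := hA0 m
      exact mul_le_mul (mul_le_mul (hA m) h1 (abs_nonneg _) this) (hM m) (norm_nonneg _)
        (by positivity)
  refine (Finset.sum_le_card_nsmul _ _ _ this).trans ?_
  rw [Finset.card_univ, Fintype.card_coe, nsmul_eq_mul]

lemma norm_Gs_sub_le {a : S → ℝ} {e : S → ℕ × ℕ} {c : S → ℝ × ℝ} {z w : ℝ × ℝ} {A M ρ : ℝ} {d : ℕ}
    (hA : ∀ m, |a m| ≤ A) (hM : ∀ m, ‖c m‖ ≤ M) (hρ : 1 ≤ ρ) (hz : ‖z‖ ≤ ρ) (hw : ‖w‖ ≤ ρ)
    (hd : ∀ m, a m ≠ 0 → (e m).1 + (e m).2 ≤ d) :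
    ‖Gs a e c z - Gs a e c w‖ ≤ S.card * (A * (d * ρ ^ (d - 1)) * M) * ‖z - w‖ := by
  unfold Gs
  rw [← Finset.sum_sub_distrib]
  refine (norm_sum_le _ _).trans ?_
  have hA0 : ∀ m : S, 0 ≤ A := fun m => (abs_nonneg _).trans (hA m)
  have : ∀ m ∈ Finset.univ (α := S), ‖(a m * (z.1 ^ (e m).1 * z.2 ^ (e m).2)) • c m -
      (a m * (w.1 ^ (e m).1 * w.2 ^ (e m).2)) • c m‖ ≤ A * (d * ρ ^ (d - 1)) * M * ‖z - w‖ := by
    intro m _
    rw [← sub_smul, ← mul_sub, norm_smul, Real.norm_eq_abs, abs_mul]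
    by_cases h0 : a m = 0
    · rw [h0, abs_zero, zero_mul, zero_mul]
      have h1 := hA0 m
      have h2 := (norm_nonneg _).trans (hM m)
      positivity
    · have h1 := abs_mono_sub_le hρ hz hw (hd m h0)
      have h2 := hA0 m
      calc |a m| * |z.1 ^ (e m).1 * z.2 ^ (e m).2 - w.1 ^ (e m).1 * w.2 ^ (e m).2| * ‖c m‖
          ≤ A * (d * ρ ^ (d - 1) * ‖z - w‖) * M :=
            mul_le_mul (mul_le_mul (hA m) h1 (abs_nonneg _) h2) (hM m) (norm_nonneg _)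
              (by positivity)
        _ = _ := by ring
  refine (Finset.sum_le_card_nsmul _ _ _ this).trans ?_
  rw [Finset.card_univ, Fintype.card_coe, nsmul_eq_mul]
  exact le_of_eq (by ring)

lemma hasFDerivAt_Gs (a : S → ℝ) (e : S → ℕ × ℕ) (c : S → ℝ × ℝ) (z : ℝ × ℝ) :
    HasFDerivAt (Gs a e c) ((ContinuousLinearMap.fst ℝ ℝ ℝ).smulRight (Gx a e c z) +
      (ContinuousLinearMap.snd ℝ ℝ ℝ).smulRight (Gy a e c z)) z := by
  unfold Gs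
  have h : ∀ m ∈ Finset.univ (α := S), HasFDerivAt
      (fun z : ℝ × ℝ => (a m * (z.1 ^ (e m).1 * z.2 ^ (e m).2)) • c m)
      ((ContinuousLinearMap.fst ℝ ℝ ℝ).smulRight ((a m * (e m).1 * (z.1 ^ ((e m).1 - 1) *
        z.2 ^ (e m).2)) • c m) + (ContinuousLinearMap.snd ℝ ℝ ℝ).smulRight
        ((a m * (e m).2 * (z.1 ^ (e m).1 * z.2 ^ ((e m).2 - 1))) • c m)) z := by
    intro m _
    have h1 : HasFDerivAt (fun z : ℝ × ℝ => z.1) (ContinuousLinearMap.fst ℝ ℝ ℝ) z := hasFDerivAt_fst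
    have h2 : HasFDerivAt (fun z : ℝ × ℝ => z.2) (ContinuousLinearMap.snd ℝ ℝ ℝ) z := hasFDerivAt_snd
    have h3 := (((h1.pow (e m).1).mul (h2.pow (e m).2)).const_mul (a m)).smul_const (c m)
    refine h3.congr_fderiv (ContinuousLinearMap.ext fun v => ?_)
    ext
    · simp only [ContinuousLinearMap.smulRight_apply, ContinuousLinearMap.smul_apply,
        ContinuousLinearMap.add_apply, ContinuousLinearMap.coe_fst', ContinuousLinearMap.coe_snd',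
        Prod.smul_fst, Prod.fst_add, smul_eq_mul, nsmul_eq_mul]
      ring
    · simp only [ContinuousLinearMap.smulRight_apply, ContinuousLinearMap.smul_apply,
        ContinuousLinearMap.add_apply, ContinuousLinearMap.coe_fst', ContinuousLinearMap.coe_snd',
        Prod.smul_snd, Prod.snd_add, smul_eq_mul, nsmul_eq_mul]
      ring
  have h4 := HasFDerivAt.fun_sum h
  refine h4.congr_fderiv ?_
  ext <;> simp [Gx, Gy, Gs, Finset.sum_add_distrib, Prod.fst_sum, Prod.snd_sum]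

lemma fld_eq_Gs (c : S → ℝ × ℝ) : H709R2.fld c = Gs (fun _ => 1) (fun m => m.1) c := by
  funext z
  unfold H709R2.fld Gs
  simp only [one_mul]

end

end Pool.Agent.W960.HR
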