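import Pool.Agent.W960.HR.Local
import Pool.Agent.W960.HR.Poly

/-! Regularity of a polynomial field from conditions in three charts. -/

open Real Set MeasureTheory Topology Filter
open scoped ENNReal

namespace Pool.Agent.W960.HR

noncomputable section

open Pool.Agent.H709R2 (fld)

variable {S : Finset (ℕ × ℕ)}

/-- derivative at a zero in a projective chart -/
lemma chart_deriv {n : ℕ} {X Xh : ℝ × ℝ → ℝ × ℝ} {L Lh : ℝ × ℝ →L[ℝ] ℝ × ℝ} {p : ℝ × ℝ}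
    (hx : p.1 ≠ 0) (hrel : ∀ z : ℝ × ℝ, z.1 ≠ 0 → X z = z.1 ^ n • Xh (1 / z.1, z.2 / z.1))
    (hL : HasFDerivAt X L p) (hLh : HasFDerivAt Xh Lh (1 / p.1, p.2 / p.1))
    (h0 : Xh (1 / p.1, p.2 / p.1) = 0) (v : ℝ × ℝ) :
    p.1 • L v = p.1 ^ n • Lh (-(1 / p.1) * v.1, v.2 - p.2 / p.1 * v.1) := by
  have d1 : HasDerivAt (fun t : ℝ => p.1 + t * v.1) v.1 0 := by
    simpa using ((hasDerivAt_id (0:ℝ)).mul_const v.1).const_add p.1
  have d2 : HasDerivAt (fun t : ℝ => p.2 + t * v.2) v.2 0 := by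
    simpa using ((hasDerivAt_id (0:ℝ)).mul_const v.2).const_add p.2
  have dl : HasDerivAt (fun t : ℝ => X (p.1 + t * v.1, p.2 + t * v.2)) (L v) 0 := by
    have h1 : HasDerivAt (fun t : ℝ => ((p.1 + t * v.1, p.2 + t * v.2) : ℝ × ℝ)) v 0 := d1.prodMk d2
    have h2 : HasFDerivAt X L ((fun t : ℝ => ((p.1 + t * v.1, p.2 + t * v.2) : ℝ × ℝ)) 0) := by
      simpa using hL
    exact h2.comp_hasDerivAt 0 h1
  have dq : HasDerivAt (fun t : ℝ => ((1 / (p.1 + t * v.1), (p.2 + t * v.2) / (p.1 + t * v.1)) : ℝ × ℝ))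
      (-v.1 / p.1 ^ 2, (v.2 * p.1 - p.2 * v.1) / p.1 ^ 2) 0 := by
    refine HasDerivAt.prodMk ?_ ?_
    · have h1 := d1.fun_inv (by simpa using hx)
      simp only [zero_mul, add_zero] at h1
      simpa only [one_div] using h1
    · have h1 := d2.fun_div d1 (by simpa using hx)
      simp only [zero_mul, add_zero] at h1
      exact h1
  have dr : HasDerivAt (fun t : ℝ => (p.1 + t * v.1) ^ n • Xh (1 / (p.1 + t * v.1),
      (p.2 + t * v.2) / (p.1 + t * v.1)))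
      (p.1 ^ n • Lh (-v.1 / p.1 ^ 2, (v.2 * p.1 - p.2 * v.1) / p.1 ^ 2)) 0 := by
    have h1 := d1.pow n
    have h2 : HasFDerivAt Xh Lh ((fun t : ℝ => ((1 / (p.1 + t * v.1),
        (p.2 + t * v.2) / (p.1 + t * v.1)) : ℝ × ℝ)) 0) := by
      simpa using hLh
    have h3 := h1.smul (h2.comp_hasDerivAt 0 dq)
    refine h3.congr_deriv ?_
    simp only [Function.comp, zero_mul, add_zero, h0, smul_zero, Pi.pow_apply]
  have hev : (fun t : ℝ => X (p.1 + t * v.1, p.2 + t * v.2)) =ᶠ[𝓝 0]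
      fun t : ℝ => (p.1 + t * v.1) ^ n • Xh (1 / (p.1 + t * v.1),
        (p.2 + t * v.2) / (p.1 + t * v.1)) := by
    have hc : ∀ᶠ t in 𝓝 (0:ℝ), p.1 + t * v.1 ≠ 0 :=
      d1.continuousAt.eventually_ne (by simpa using hx)
    filter_upwards [hc] with t ht
    exact hrel (p.1 + t * v.1, p.2 + t * v.2) ht
  have hun := dl.unique (dr.congr_of_eventuallyEq hev)
  rw [hun, smul_comm]
  congr 1
  rw [← map_smul]
  congr 1
  ext
  · simp only [Prod.smul_mk, smul_eq_mul]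
    field_simp
  · simp only [Prod.smul_mk, smul_eq_mul]
    field_simp

/-- exponents in the three charts -/
def e0 (m : S) : ℕ × ℕ := m.1

/-- exponents in the first chart at infinity -/
def e1 (n : ℕ) (m : S) : ℕ × ℕ := (n - m.1.1 - m.1.2, m.1.2)

/-- exponents in the second chart at infinity -/
def e2 (n : ℕ) (m : S) : ℕ × ℕ := (n - m.1.1 - m.1.2, m.1.1)

/-- the weights one -/
def one (_ : S) : ℝ := 1

/-- zeros in the unit square are nondegenerate -/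
def ND (e : S → ℕ × ℕ) (c : S → ℝ × ℝ) (t : ℝ) : Prop :=
  ∀ a b σ : ℝ, |a| ≤ 1 → |b| ≤ 1 → |σ| ≤ 1 → Gs one e c (a, b) = 0 →
    t ≤ ‖Gx one e c (a, b) + σ • Gy one e c (a, b)‖ ∧
    t ≤ ‖σ • Gx one e c (a, b) + Gy one e c (a, b)‖

lemma ND.lower {e : S → ℕ × ℕ} {c : S → ℝ × ℝ} {t : ℝ} (h : ND e c t) {z : ℝ × ℝ}
    (h1 : |z.1| ≤ 1) (h2 : |z.2| ≤ 1) (h0 : Gs one e c z = 0) (v : ℝ × ℝ) :
    t * ‖v‖ ≤ ‖v.1 • Gx one e c z + v.2 • Gy one e c z‖ := by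
  rcases eq_or_ne v 0 with hv | hv
  · rw [hv]; simp
  rw [Prod.norm_def, Real.norm_eq_abs, Real.norm_eq_abs]
  rcases le_total |v.2| |v.1| with hle | hle
  · have hv1 : v.1 ≠ 0 := by
      intro h3
      apply hv
      rw [h3, abs_zero] at hle
      have h4 : v.2 = 0 := abs_eq_zero.1 (le_antisymm hle (abs_nonneg _))
      ext
      · exact h3
      · exact h4
    rw [max_eq_left hle]
    have h3 := (h z.1 z.2 (v.2 / v.1) h1 h2 (by
      rw [abs_div]; exact div_le_one_of_le₀ hle (abs_nonneg _)) h0).1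
    have h4 : v.1 • Gx one e c z + v.2 • Gy one e c z =
        v.1 • (Gx one e c z + (v.2 / v.1) • Gy one e c z) := by
      rw [smul_add, smul_smul, mul_div_cancel₀ _ hv1]
    rw [h4, norm_smul, Real.norm_eq_abs, mul_comm]
    exact mul_le_mul_of_nonneg_left h3 (abs_nonneg _)
  · have hv1 : v.2 ≠ 0 := by
      intro h3
      apply hv
      rw [h3, abs_zero] at hle
      have h4 : v.1 = 0 := abs_eq_zero.1 (le_antisymm hle (abs_nonneg _))
      ext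
      · exact h4
      · exact h3
    rw [max_eq_right hle]
    have h3 := (h z.1 z.2 (v.1 / v.2) h1 h2 (by
      rw [abs_div]; exact div_le_one_of_le₀ hle (abs_nonneg _)) h0).2
    have h4 : v.1 • Gx one e c z + v.2 • Gy one e c z =
        v.2 • ((v.1 / v.2) • Gx one e c z + Gy one e c z) := by
      rw [smul_add, smul_smul, mul_div_cancel₀ _ hv1]
    rw [h4, norm_smul, Real.norm_eq_abs, mul_comm]
    exact mul_le_mul_of_nonneg_left h3 (abs_nonneg _)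

/-- conditions on the coefficients -/
structure Good (n : ℕ) (c : S → ℝ × ℝ) (M t : ℝ) : Prop where
  bd : ∀ m, ‖c m‖ ≤ M
  lead1 : ∀ s : ℝ, |s| ≤ 1 → t ≤ ‖Gs one (e1 n) c (0, s)‖
  lead2 : ∀ s : ℝ, |s| ≤ 1 → t ≤ ‖Gs one (e2 n) c (0, s)‖
  nd0 : ND e0 c t
  nd1 : ND (e1 n) c t
  nd2 : ND (e2 n) c t

lemma rel1 {n : ℕ} (hS : ∀ m ∈ S, m.1 + m.2 ≤ n) (c : S → ℝ × ℝ) (z : ℝ × ℝ) (hz : z.1 ≠ 0) :
    fld c z = z.1 ^ n • Gs one (e1 n) c (1 / z.1, z.2 / z.1) := by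
  unfold fld Gs
  rw [Finset.smul_sum]
  refine Finset.sum_congr rfl fun m _ => ?_
  rw [smul_smul]
  congr 1
  simp only [one, e1, one_mul]
  have h := hS m.1 m.2
  have h2 : z.1 ^ n = z.1 ^ m.1.1 * z.1 ^ m.1.2 * z.1 ^ (n - m.1.1 - m.1.2) := by
    rw [← pow_add, ← pow_add]; congr 1; omega
  rw [h2, div_pow, div_pow, one_pow]
  field_simp

lemma rel2 {n : ℕ} (hS : ∀ m ∈ S, m.1 + m.2 ≤ n) (c : S → ℝ × ℝ) (z : ℝ × ℝ) (hz : z.1 ≠ 0) :
    fld c z.swap = z.1 ^ n • Gs one (e2 n) c (1 / z.1, z.2 / z.1) := by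
  unfold fld Gs
  rw [Finset.smul_sum]
  refine Finset.sum_congr rfl fun m _ => ?_
  rw [smul_smul]
  congr 1
  simp only [one, e2, one_mul, Prod.fst_swap, Prod.snd_swap]
  have h := hS m.1 m.2
  have h2 : z.1 ^ n = z.1 ^ m.1.1 * z.1 ^ m.1.2 * z.1 ^ (n - m.1.1 - m.1.2) := by
    rw [← pow_add, ← pow_add]; congr 1; omega
  rw [h2, div_pow, div_pow, one_pow]
  field_simp

lemma hasFDerivAt_fld (c : S → ℝ × ℝ) (z : ℝ × ℝ) :
    HasFDerivAt (fld c) ((ContinuousLinearMap.fst ℝ ℝ ℝ).smulRight (Gx one e0 c z) +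
      (ContinuousLinearMap.snd ℝ ℝ ℝ).smulRight (Gy one e0 c z)) z := by
  rw [fld_eq_Gs]
  exact hasFDerivAt_Gs one e0 c z

lemma fderiv_fld (c : S → ℝ × ℝ) (z v : ℝ × ℝ) :
    fderiv ℝ (fld c) z v = v.1 • Gx one e0 c z + v.2 • Gy one e0 c z := by
  rw [(hasFDerivAt_fld c z).fderiv]
  simp

lemma norm_comb_le (v a b : ℝ × ℝ) {A : ℝ} (ha : ‖a‖ ≤ A) (hb : ‖b‖ ≤ A) :
    ‖v.1 • a + v.2 • b‖ ≤ 2 * A * ‖v‖ := by
  refine (norm_add_le _ _).trans ?_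
  rw [norm_smul, norm_smul, Real.norm_eq_abs, Real.norm_eq_abs]
  have h1 : |v.1| * ‖a‖ ≤ ‖v‖ * A := mul_le_mul (abs_fst_le v) ha (norm_nonneg _) (norm_nonneg _)
  have h2 : |v.2| * ‖b‖ ≤ ‖v‖ * A := mul_le_mul (abs_snd_le v) hb (norm_nonneg _) (norm_nonneg _)
  linarith

end

end Pool.Agent.W960.HR
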