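import Pool.Agent.W960.HR.Chart

/-! Regularity of a polynomial field from conditions in three charts: conclusion. -/

open Real Set MeasureTheory Topology Filter
open scoped ENNReal

namespace Pool.Agent.W960.HR

noncomputable section

open Pool.Agent.H709R2 (fld)

variable {S : Finset (ℕ × ℕ)} {n : ℕ} {c : S → ℝ × ℝ} {M N t : ℝ}

lemma gx_le (hS : ∀ m ∈ S, m.1 + m.2 ≤ n) (hN : (S.card : ℝ) ≤ N) (hM : ∀ m, ‖c m‖ ≤ M)
    (hM0 : 0 ≤ M) {ρ : ℝ} (hρ : 1 ≤ ρ) {z : ℝ × ℝ} (hz : ‖z‖ ≤ ρ) :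
    ‖Gx one e0 c z‖ ≤ N * (n * ρ ^ (n - 1) * M) ∧ ‖Gy one e0 c z‖ ≤ N * (n * ρ ^ (n - 1) * M) := by
  have hρ0 : 0 ≤ ρ := by linarith
  constructor
  · refine (norm_Gs_le (A := n) (M := M) (ρ := ρ) (d := n - 1) ?_ hM hρ hz ?_).trans ?_
    · intro m
      simp only [one, e0, one_mul, Nat.abs_cast]
      have := hS m.1 m.2
      exact_mod_cast (by omega : m.1.1 ≤ n)
    · intro m hm
      simp only [one, e0, one_mul, ne_eq, Nat.cast_eq_zero] at hm ⊢
      have := hS m.1 m.2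
      omega
    · exact mul_le_mul_of_nonneg_right hN (by positivity)
  · refine (norm_Gs_le (A := n) (M := M) (ρ := ρ) (d := n - 1) ?_ hM hρ hz ?_).trans ?_
    · intro m
      simp only [one, e0, one_mul, Nat.abs_cast]
      have := hS m.1 m.2
      exact_mod_cast (by omega : m.1.2 ≤ n)
    · intro m hm
      simp only [one, e0, one_mul, ne_eq, Nat.cast_eq_zero] at hm ⊢
      have := hS m.1 m.2
      omega
    · exact mul_le_mul_of_nonneg_right hN (by positivity)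

lemma gx_sub_le (hS : ∀ m ∈ S, m.1 + m.2 ≤ n) (hN : (S.card : ℝ) ≤ N) (hM : ∀ m, ‖c m‖ ≤ M)
    (hM0 : 0 ≤ M) {ρ : ℝ} (hρ : 1 ≤ ρ) {z w : ℝ × ℝ} (hz : ‖z‖ ≤ ρ) (hw : ‖w‖ ≤ ρ) :
    ‖Gx one e0 c z - Gx one e0 c w‖ ≤
        N * (n * ((n - 1 : ℕ) * ρ ^ (n - 1 - 1)) * M) * ‖z - w‖ ∧
      ‖Gy one e0 c z - Gy one e0 c w‖ ≤
        N * (n * ((n - 1 : ℕ) * ρ ^ (n - 1 - 1)) * M) * ‖z - w‖ := by
  have hρ0 : 0 ≤ ρ := by linarith
  constructor
  · refine (norm_Gs_sub_le (A := n) (M := M) (ρ := ρ) (d := n - 1) ?_ hM hρ hz hw ?_).trans ?_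
    · intro m
      simp only [one, e0, one_mul, Nat.abs_cast]
      have := hS m.1 m.2
      exact_mod_cast (by omega : m.1.1 ≤ n)
    · intro m hm
      simp only [one, e0, one_mul, ne_eq, Nat.cast_eq_zero] at hm ⊢
      have := hS m.1 m.2
      omega
    · exact mul_le_mul_of_nonneg_right (mul_le_mul_of_nonneg_right hN (by positivity))
        (norm_nonneg _)
  · refine (norm_Gs_sub_le (A := n) (M := M) (ρ := ρ) (d := n - 1) ?_ hM hρ hz hw ?_).trans ?_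
    · intro m
      simp only [one, e0, one_mul, Nat.abs_cast]
      have := hS m.1 m.2
      exact_mod_cast (by omega : m.1.2 ≤ n)
    · intro m hm
      simp only [one, e0, one_mul, ne_eq, Nat.cast_eq_zero] at hm ⊢
      have := hS m.1 m.2
      omega
    · exact mul_le_mul_of_nonneg_right (mul_le_mul_of_nonneg_right hN (by positivity))
        (norm_nonneg _)

/-- Euler's identity up to lower order -/
lemma euler (hS : ∀ m ∈ S, m.1 + m.2 ≤ n) (hN : (S.card : ℝ) ≤ N) (hM : ∀ m, ‖c m‖ ≤ M)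
    (hM0 : 0 ≤ M) {z : ℝ × ℝ} (hz : 1 ≤ ‖z‖) :
    ‖fderiv ℝ (fld c) z z - (n:ℝ) • fld c z‖ ≤ N * (n * ‖z‖ ^ (n - 1) * M) := by
  have e : fderiv ℝ (fld c) z z - (n:ℝ) • fld c z =
      Gs (fun m => (m.1.1 : ℝ) + m.1.2 - n) e0 c z := by
    rw [fderiv_fld]
    unfold Gx Gy Gs fld
    rw [Finset.smul_sum, Finset.smul_sum, Finset.smul_sum, ← Finset.sum_add_distrib,
      ← Finset.sum_sub_distrib]
    refine Finset.sum_congr rfl fun m _ => ?_
    rw [smul_smul, smul_smul, smul_smul, ← add_smul, ← sub_smul]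
    congr 1
    simp only [one, e0, one_mul]
    have h1 : z.1 * ((m.1.1 : ℝ) * (z.1 ^ (m.1.1 - 1) * z.2 ^ m.1.2)) =
        m.1.1 * (z.1 ^ m.1.1 * z.2 ^ m.1.2) := by
      rcases Nat.eq_zero_or_pos m.1.1 with h | h
      · rw [h]; simp
      · obtain ⟨k, hk⟩ := Nat.exists_eq_add_of_le' h
        rw [hk, Nat.add_sub_cancel, pow_succ]
        ring
    have h2 : z.2 * ((m.1.2 : ℝ) * (z.1 ^ m.1.1 * z.2 ^ (m.1.2 - 1))) =
        m.1.2 * (z.1 ^ m.1.1 * z.2 ^ m.1.2) := by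
      rcases Nat.eq_zero_or_pos m.1.2 with h | h
      · rw [h]; simp
      · obtain ⟨k, hk⟩ := Nat.exists_eq_add_of_le' h
        rw [hk, Nat.add_sub_cancel, pow_succ]
        ring
    rw [h1, h2]
    ring
  rw [e]
  refine (norm_Gs_le (A := n) (M := M) (ρ := ‖z‖) (d := n - 1) ?_ hM hz le_rfl ?_).trans ?_
  · intro m
    have := hS m.1 m.2
    have h1 : (m.1.1 : ℝ) + m.1.2 ≤ n := by exact_mod_cast this
    have h2 : (0:ℝ) ≤ (m.1.1 : ℝ) + m.1.2 := by positivity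
    rw [abs_le]
    constructor <;> linarith
  · intro m hm
    have := hS m.1 m.2
    simp only [e0]
    rcases this.lt_or_eq with h | h
    · omega
    · exfalso
      apply hm
      have h1 : (m.1.1 : ℝ) + m.1.2 = n := by exact_mod_cast h
      linarith
  · exact mul_le_mul_of_nonneg_right hN (by positivity)

lemma lead_lower {e : S → ℕ × ℕ} (he : ∀ m, (e m).1 + (e m).2 ≤ n) (hN : (S.card : ℝ) ≤ N)
    (hM : ∀ m, ‖c m‖ ≤ M) (hM0 : 0 ≤ M) {h s : ℝ} (hs : |s| ≤ 1) (hh : |h| ≤ 1)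
    (hhs : 4 * (N * (n * M)) * |h| ≤ t) (hl : t ≤ ‖Gs one e c (0, s)‖) :
    t / 2 ≤ ‖Gs one e c (h, s)‖ := by
  have h1 := norm_Gs_sub_le (a := one) (e := e) (c := c) (z := (h, s)) (w := (0, s)) (A := 1)
    (M := M) (ρ := 1) (d := n) (fun m => by simp [one]) hM le_rfl
    (by rw [Prod.norm_def]; exact max_le hh hs)
    (by rw [Prod.norm_def]; exact max_le (by simp) hs) (fun m _ => he m)
  have h2 : ‖((h, s) : ℝ × ℝ) - (0, s)‖ = |h| := by
    rw [Prod.norm_def]; simp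
  rw [h2, one_pow, mul_one, one_mul] at h1
  have h3 : (S.card : ℝ) * (n * M) * |h| ≤ t / 4 := by
    have : (S.card : ℝ) * (n * M) * |h| ≤ N * (n * M) * |h| := by gcongr
    linarith
  have h4 := norm_sub_norm_le (Gs one e c (0, s)) (Gs one e c (h, s))
  rw [norm_sub_rev] at h4
  have h5 : 0 ≤ t := by
    refine le_trans ?_ hhs
    have : 0 ≤ N := (Nat.cast_nonneg _).trans hN
    positivity
  linarith

lemma Good.inf_lower (hS : ∀ m ∈ S, m.1 + m.2 ≤ n) (hn : 1 ≤ n) (hN : (S.card : ℝ) ≤ N)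
    (hN1 : 1 ≤ N) (hM1 : 1 ≤ M) (ht : 0 < t) (ht1 : t ≤ 1) (hg : Good n c M t) {z : ℝ × ℝ}
    (hz : 4 * (N * (n * M)) / t ≤ ‖z‖) : t / 2 * ‖z‖ ^ n ≤ ‖fld c z‖ := by
  have hn1 : (1:ℝ) ≤ n := by exact_mod_cast hn
  have hNM : 1 ≤ N * (n * M) := one_le_mul_of_one_le_of_one_le hN1
    (one_le_mul_of_one_le_of_one_le hn1 hM1)
  have hz1 : 1 ≤ ‖z‖ := by
    refine le_trans ?_ hz
    rw [le_div_iff₀ ht]
    linarith
  have hz0 : 0 < ‖z‖ := by linarith
  rw [div_le_iff₀ ht] at hz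
  have key : ∀ x y : ℝ, |x| = ‖z‖ → |y| ≤ |x| → ∀ e : S → ℕ × ℕ, (∀ m, (e m).1 + (e m).2 ≤ n) →
      (∀ s : ℝ, |s| ≤ 1 → t ≤ ‖Gs one e c (0, s)‖) →
      t / 2 ≤ ‖Gs one e c (1 / x, y / x)‖ := by
    intro x y hx hy e he hl
    have hx0 : 0 < |x| := by rw [hx]; exact hz0
    refine lead_lower he hN hg.bd (by linarith) (s := y / x) (h := 1 / x) ?_ ?_ ?_ (hl _ ?_)
    · rw [abs_div]; exact div_le_one_of_le₀ hy (abs_nonneg _)
    · rw [abs_div, abs_one, hx]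
      exact div_le_one_of_le₀ hz1 (norm_nonneg _)
    · rw [abs_div, abs_one, hx, mul_one_div, div_le_iff₀ hz0]
      linarith
    · rw [abs_div]; exact div_le_one_of_le₀ hy (abs_nonneg _)
  rcases le_total |z.2| |z.1| with hle | hle
  · have hzn : |z.1| = ‖z‖ := by
      rw [Prod.norm_def, Real.norm_eq_abs, Real.norm_eq_abs, max_eq_left hle]
    have hz10 : z.1 ≠ 0 := by
      intro h; rw [h, abs_zero] at hzn; linarith
    rw [rel1 hS c z hz10, norm_smul, norm_pow, Real.norm_eq_abs, hzn, mul_comm]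
    refine mul_le_mul_of_nonneg_left ?_ (by positivity)
    refine key z.1 z.2 hzn hle (e1 n) ?_ hg.lead1
    intro m
    have := hS m.1 m.2
    simp only [e1]; omega
  · have hzn : |z.2| = ‖z‖ := by
      rw [Prod.norm_def, Real.norm_eq_abs, Real.norm_eq_abs, max_eq_right hle]
    have hz10 : z.2 ≠ 0 := by
      intro h; rw [h, abs_zero] at hzn; linarith
    have h1 := rel2 hS c z.swap (by simpa using hz10)
    rw [Prod.swap_swap] at h1
    rw [h1, norm_smul, norm_pow, Real.norm_eq_abs, Prod.fst_swap, Prod.snd_swap, hzn, mul_comm]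
    refine mul_le_mul_of_nonneg_left ?_ (by positivity)
    refine key z.2 z.1 hzn hle (e2 n) ?_ hg.lead2
    intro m
    have := hS m.1 m.2
    simp only [e2]; omega

/-- lower bound for the derivative at a zero -/
lemma Good.zero_lower (hS : ∀ m ∈ S, m.1 + m.2 ≤ n) (ht : 0 < t) (hg : Good n c M t)
    {p : ℝ × ℝ} (hp : fld c p = 0) (v : ℝ × ℝ) :
    t / 2 * (max 1 ‖p‖ ^ n / max 1 ‖p‖ ^ 2) * ‖v‖ ≤ ‖fderiv ℝ (fld c) p v‖ := by
  rcases le_or_gt ‖p‖ 1 with hp1 | hp1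
  · rw [max_eq_left hp1, one_pow, one_pow, div_one, mul_one, fderiv_fld]
    have h1 := hg.nd0.lower ((abs_fst_le p).trans hp1) ((abs_snd_le p).trans hp1)
      (by rw [fld_eq_Gs] at hp; exact hp) v
    have : t / 2 * ‖v‖ ≤ t * ‖v‖ := by
      have := norm_nonneg v
      nlinarith
    linarith
  rw [max_eq_right hp1.le]
  -- common part of the two charts
  have key : ∀ (X : ℝ × ℝ → ℝ × ℝ) (L : ℝ × ℝ →L[ℝ] ℝ × ℝ) (q w : ℝ × ℝ) (e : S → ℕ × ℕ),
      |q.1| = ‖p‖ → |q.2| ≤ |q.1| → ND e c t →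
      (∀ z : ℝ × ℝ, z.1 ≠ 0 → X z = z.1 ^ n • Gs one e c (1 / z.1, z.2 / z.1)) →
      HasFDerivAt X L q → X q = 0 → t / 2 * (‖p‖ ^ n / ‖p‖ ^ 2) * ‖w‖ ≤ ‖L w‖ := by
    intro X L q w e hq hq2 hnd hrel hL h0
    have hq0 : 0 < |q.1| := by rw [hq]; linarith
    have hq1 : q.1 ≠ 0 := abs_pos.1 hq0
    have h00 : Gs one e c (1 / q.1, q.2 / q.1) = 0 := by
      have h1 := hrel q hq1
      rw [h0] at h1
      rcases smul_eq_zero.1 h1.symm with h2 | h2
      · exact absurd h2 (pow_ne_zero _ hq1)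
      · exact h2
    have h1 := chart_deriv hq1 hrel hL (hasFDerivAt_Gs one e c _) h00 w
    set a : ℝ × ℝ := (-(1 / q.1) * w.1, w.2 - q.2 / q.1 * w.1) with ha
    have h2 := congrArg norm h1
    rw [norm_smul, norm_smul, norm_pow, Real.norm_eq_abs, hq] at h2
    have h3 : t * ‖a‖ ≤ ‖((ContinuousLinearMap.fst ℝ ℝ ℝ).smulRight (Gx one e c (1 / q.1, q.2 / q.1)) +
      (ContinuousLinearMap.snd ℝ ℝ ℝ).smulRight (Gy one e c (1 / q.1, q.2 / q.1))) a‖ := by
      have := hnd.lower (z := (1 / q.1, q.2 / q.1)) (by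
        simp only [abs_div, abs_one, hq]
        exact div_le_one_of_le₀ hp1.le (norm_nonneg _)) (by
        simp only [abs_div]
        exact div_le_one_of_le₀ hq2 (abs_nonneg _)) h00 a
      simpa using this
    have h4 : ‖w‖ ≤ 2 * ‖p‖ * ‖a‖ := by
      have a1 : |w.1| ≤ ‖p‖ * ‖a‖ := by
        have h5 : w.1 = -(q.1 * a.1) := by
          simp only [ha]; field_simp
        rw [h5, abs_neg, abs_mul, hq]
        exact mul_le_mul_of_nonneg_left (abs_fst_le a) (norm_nonneg _)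
      have a2 : |w.2| ≤ 2 * ‖p‖ * ‖a‖ := by
        have h5 : w.2 = a.2 + q.2 / q.1 * w.1 := by
          simp only [ha]; ring
        rw [h5]
        refine (abs_add_le _ _).trans ?_
        rw [abs_mul, abs_div]
        have h6 : |q.2| / |q.1| ≤ 1 := div_le_one_of_le₀ hq2 (abs_nonneg _)
        have h7 : |q.2| / |q.1| * |w.1| ≤ 1 * (‖p‖ * ‖a‖) :=
          mul_le_mul h6 a1 (abs_nonneg _) (by norm_num)
        have h8 := abs_snd_le a
        have h9 : ‖a‖ ≤ ‖p‖ * ‖a‖ := by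
          have := norm_nonneg a
          nlinarith
        linarith
      rw [Prod.norm_def, Real.norm_eq_abs, Real.norm_eq_abs]
      refine max_le (a1.trans ?_) a2
      have : 0 ≤ ‖p‖ * ‖a‖ := by positivity
      linarith
    have hp0 : 0 < ‖p‖ := by linarith
    have h5 : t / 2 * (‖p‖ ^ n / ‖p‖ ^ 2) * ‖w‖ ≤ ‖p‖ ^ n * (t * ‖a‖) / ‖p‖ := by
      calc t / 2 * (‖p‖ ^ n / ‖p‖ ^ 2) * ‖w‖ ≤ t / 2 * (‖p‖ ^ n / ‖p‖ ^ 2) * (2 * ‖p‖ * ‖a‖) := by
            gcongr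
        _ = ‖p‖ ^ n * (t * ‖a‖) / ‖p‖ := by field_simp
    refine h5.trans ?_
    rw [div_le_iff₀ hp0, mul_comm ‖L w‖, h2]
    gcongr
  rcases le_total |p.2| |p.1| with hle | hle
  · have hzn : |p.1| = ‖p‖ := by
      rw [Prod.norm_def, Real.norm_eq_abs, Real.norm_eq_abs, max_eq_left hle]
    exact key (fld c) _ p v (e1 n) hzn hle hg.nd1 (rel1 hS c)
      ((hasFDerivAt_fld c p).differentiableAt.hasFDerivAt) hp
  · have hzn : |p.2| = ‖p‖ := by
      rw [Prod.norm_def, Real.norm_eq_abs, Real.norm_eq_abs, max_eq_right hle]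
    have hsw : HasFDerivAt (fun z : ℝ × ℝ => z.swap)
        ((ContinuousLinearMap.snd ℝ ℝ ℝ).prod (ContinuousLinearMap.fst ℝ ℝ ℝ)) p.swap :=
      (hasFDerivAt_snd (𝕜 := ℝ) (p := p.swap)).prodMk (hasFDerivAt_fst (𝕜 := ℝ) (p := p.swap))
    have hd : HasFDerivAt (fld c) (fderiv ℝ (fld c) p) ((fun z : ℝ × ℝ => z.swap) p.swap) := by
      simp only [Prod.swap_swap]
      exact (hasFDerivAt_fld c p).differentiableAt.hasFDerivAt
    have h1 := key (fun z => fld c z.swap) _ p.swap v.swap (e2 n) (by simpa using hzn)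
      (by simpa using hle) hg.nd2 (rel2 hS c) (hd.comp p.swap hsw) (by simpa using hp)
    have h2 : ‖v.swap‖ = ‖v‖ := by
      rw [Prod.norm_def, Prod.norm_def, Prod.fst_swap, Prod.snd_swap, max_comm]
    rw [h2] at h1
    simpa using h1

end

end Pool.Agent.W960.HR
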