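import Pool.Agent.W960.HR.Chart2

/-! Regularity of a polynomial field from conditions in three charts: explicit constants. -/

open Real Set MeasureTheory Topology Filter
open scoped ENNReal

namespace Pool.Agent.W960.HR

noncomputable section

open Pool.Agent.H709R2 (fld)

variable {S : Finset (ℕ × ℕ)} {n : ℕ} {c : S → ℝ × ℝ} {M N t : ℝ}

lemma one_add_inv_pow_le {n : ℕ} (hn : 1 ≤ n) : (1 + 1 / (n:ℝ)) ^ n ≤ 3 := by
  have hn0 : (0:ℝ) < n := by exact_mod_cast hn
  have h1 : 1 + 1 / (n:ℝ) ≤ Real.exp (1 / n) := by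
    rw [add_comm]; exact Real.add_one_le_exp _
  calc (1 + 1 / (n:ℝ)) ^ n ≤ Real.exp (1 / n) ^ n := by gcongr
    _ = Real.exp 1 := by
        rw [← Real.exp_nat_mul]; congr 1; field_simp
    _ ≤ 3 := by linarith [Real.exp_one_lt_d9]

/-- regularity -/
theorem reg_of_good (hS : ∀ m ∈ S, m.1 + m.2 ≤ n) (hn : 1 ≤ n) (hN : (S.card : ℝ) ≤ N)
    (hN1 : 1 ≤ N) (hM1 : 1 ≤ M) (ht : 0 < t) (ht1 : t ≤ 1) (hg : Good n c M t) :
    Reg (fld c) (6 * (N * (n * M)) / t) (t / (200 * (N * (n ^ 2 * M))))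
      (96 * (N * (n * M)) ^ 2 / t ^ 2) := by
  have hn1 : (1:ℝ) ≤ n := by exact_mod_cast hn
  have hn0 : (0:ℝ) < n := by linarith
  set A : ℝ := N * (n * M) with hA
  have hA1 : 1 ≤ A := one_le_mul_of_one_le_of_one_le hN1 (one_le_mul_of_one_le_of_one_le hn1 hM1)
  have hA0 : 0 < A := by linarith
  have hM0 : 0 ≤ M := by linarith
  set R : ℝ := 6 * A / t with hR
  have hR0 : 0 < R := by positivity
  have hRA : 6 * A ≤ R := by
    rw [hR, le_div_iff₀ ht]; nlinarith
  have hR1 : 1 ≤ R := by linarith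
  -- infinity
  have hinf : ∀ z : ℝ × ℝ, R ^ 2 ≤ 2 * ‖z‖ ^ 2 → 4 * A / t ≤ ‖z‖ := by
    intro z hz
    have h1 : (4 * A / t) ^ 2 ≤ ‖z‖ ^ 2 := by
      have h2 : (4 * A / t) ^ 2 = 4 / 9 * R ^ 2 := by rw [hR]; ring
      rw [h2]
      have : 0 ≤ R ^ 2 := by positivity
      linarith
    exact abs_le_of_sq_le_sq' h1 (norm_nonneg _) |>.2
  have hinf2 : ∀ z : ℝ × ℝ, R ^ 2 ≤ 2 * ‖z‖ ^ 2 → fld c z ≠ 0 := by
    intro z hz h0
    have h1 := hinf z hz
    have h2 := hg.inf_lower hS hn hN hN1 hM1 ht ht1 h1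
    rw [h0, norm_zero] at h2
    have h3 : 0 < ‖z‖ := lt_of_lt_of_le (by positivity) h1
    have : 0 < t / 2 * ‖z‖ ^ n := by positivity
    linarith
  have hΛ : 96 * A ^ 2 / t ^ 2 = 4 * (4 * A * R / t) := by
    rw [hR]; field_simp; ring
  have hpow : ∀ ρ : ℝ, 0 < ρ → ρ ^ (n - 1) * ρ = ρ ^ n := by
    intro ρ hρ
    rw [← pow_succ, Nat.sub_add_cancel hn]
  refine ⟨?_, ?_, ?_⟩
  · refine inf_zone (k := n) hR0 (by positivity) fun z hz => ?_
    have h1 := hinf z hz
    have hz1 : 1 ≤ ‖z‖ := by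
      refine le_trans ?_ h1
      rw [le_div_iff₀ ht]; linarith
    have hz0 : 0 < ‖z‖ := by linarith
    have h2 := hg.inf_lower hS hn hN hN1 hM1 ht ht1 h1
    refine ⟨hinf2 z hz, fun v => ?_, ?_⟩
    · rw [fderiv_fld]
      obtain ⟨g1, g2⟩ := gx_le hS hN hg.bd hM0 hz1 (le_refl ‖z‖)
      have h3 := norm_comb_le v _ _ g1 g2
      calc 2 * ‖v.1 • Gx one e0 c z + v.2 • Gy one e0 c z‖ * ‖z‖
          ≤ 2 * (2 * (N * (n * ‖z‖ ^ (n - 1) * M)) * ‖v‖) * ‖z‖ := by gcongr
        _ = 4 * A * (‖z‖ ^ (n - 1) * ‖z‖) * ‖v‖ := by rw [hA]; ring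
        _ = 4 * A * ‖z‖ ^ n * ‖v‖ := by rw [hpow _ hz0]
        _ ≤ 96 * A ^ 2 / t ^ 2 * (t / 2 * ‖z‖ ^ n) * ‖v‖ := by
            refine mul_le_mul_of_nonneg_right ?_ (norm_nonneg _)
            have e : 96 * A ^ 2 / t ^ 2 * (t / 2 * ‖z‖ ^ n) = 48 * A * (A / t) * ‖z‖ ^ n := by
              field_simp; ring
            rw [e]
            have hAt : 1 ≤ A / t := by rw [le_div_iff₀ ht]; linarith
            refine mul_le_mul_of_nonneg_right ?_ (by positivity)
            nlinarith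
        _ ≤ 96 * A ^ 2 / t ^ 2 * ‖fld c z‖ * ‖v‖ := by gcongr
    · have h3 := euler hS hN hg.bd hM0 hz1
      calc ‖fderiv ℝ (fld c) z z - (n:ℝ) • fld c z‖ * (3 * ‖z‖)
          ≤ N * (n * ‖z‖ ^ (n - 1) * M) * (3 * ‖z‖) := by gcongr
        _ = 3 * A * (‖z‖ ^ (n - 1) * ‖z‖) := by rw [hA]; ring
        _ = 3 * A * ‖z‖ ^ n := by rw [hpow _ hz0]
        _ = R * (t / 2 * ‖z‖ ^ n) := by rw [hR]; field_simp; ring
        _ ≤ R * ‖fld c z‖ := by gcongr
  · intro p hp
    set ρ : ℝ := max 1 ‖p‖ with hρ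
    have hρ1 : 1 ≤ ρ := le_max_left _ _
    have hρ0 : 0 < ρ := by linarith
    have hpR : ρ ≤ R := by
      refine max_le hR1 ?_
      by_contra hcon
      push Not at hcon
      refine hinf2 p ?_ hp
      have := pow_le_pow_left₀ hR0.le hcon.le 2
      nlinarith [sq_nonneg ‖p‖]
    set μ : ℝ := t / 2 * (ρ ^ n / ρ ^ 2) with hμ
    have hμ0 : 0 < μ := by positivity
    set r : ℝ := t / (200 * (N * (n ^ 2 * M))) with hr
    have hB : 1 ≤ N * (n ^ 2 * M) := one_le_mul_of_one_le_of_one_le hN1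
      (one_le_mul_of_one_le_of_one_le (one_le_pow₀ hn1) hM1)
    have hr0 : 0 < r := by positivity
    have hrn : r ≤ 1 / n := by
      rw [hr, div_le_div_iff₀ (by positivity) hn0]
      have e : N * (n ^ 2 * M) = (N * (n * M)) * n := by ring
      have : t * n ≤ (N * (n * M)) * n := mul_le_mul_of_nonneg_right (ht1.trans hA1) hn0.le
      nlinarith
    rw [hΛ]
    refine local_zone (μ := μ) (Λ₁ := 4 * A * R / t) (κ := 12 * (N * (n ^ 2 * M)) / t)
      (fun z => (hasFDerivAt_fld c z).differentiableAt) hp hμ0 ?_ (by positivity) hr0 ?_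
      (fun v => hg.zero_lower hS ht hp v) (fun v => ?_) (fun z hz v => ?_)
    · rw [le_div_iff₀ ht]; nlinarith
    · rw [hr]
      have e : 8 * (12 * (N * (n ^ 2 * M)) / t) * (t / (200 * (N * (n ^ 2 * M)))) = 96 / 200 := by
        have : N * ((n:ℝ) ^ 2 * M) ≠ 0 := by positivity
        field_simp
        ring
      rw [e]; norm_num
    · rw [fderiv_fld]
      obtain ⟨g1, g2⟩ := gx_le hS hN hg.bd hM0 hρ1 (le_max_right 1 ‖p‖)
      refine (norm_comb_le v _ _ g1 g2).trans ?_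
      refine mul_le_mul_of_nonneg_right ?_ (norm_nonneg _)
      have e1 : 2 * (N * (n * ρ ^ (n - 1) * M)) = 2 * A * ρ ^ n / ρ := by
        rw [← hpow ρ hρ0, hA]; field_simp
      have e2 : 4 * A * R / t * μ = 2 * A * ρ ^ n / ρ * (R / ρ) := by
        rw [hμ]; field_simp; ring
      rw [e1, e2]
      have h3 : 1 ≤ R / ρ := by rw [le_div_iff₀ hρ0]; linarith
      have h4 : 0 ≤ 2 * A * ρ ^ n / ρ := by positivity
      nlinarith
    · set ρ' : ℝ := ρ * (1 + 1 / n) with hρ'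
      have hρρ' : ρ ≤ ρ' := by
        rw [hρ']
        have : 0 < 1 / (n:ℝ) := by positivity
        nlinarith
      have hzp : ‖z‖ ≤ ρ' := by
        have h1 := norm_add_le (z - p) p
        rw [sub_add_cancel] at h1
        have h2 : ‖p‖ ≤ ρ := le_max_right _ _
        have h3 : 1 / (n:ℝ) ≤ ρ * (1 / n) := by
          have : 0 < 1 / (n:ℝ) := by positivity
          nlinarith
        rw [hρ', mul_add, mul_one]
        linarith
      obtain ⟨g1, g2⟩ := gx_sub_le hS hN hg.bd hM0 (hρ1.trans hρρ') hzp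
        ((le_max_right 1 ‖p‖).trans hρρ')
      rw [fderiv_fld, fderiv_fld]
      have e1 : v.1 • Gx one e0 c z + v.2 • Gy one e0 c z -
          (v.1 • Gx one e0 c p + v.2 • Gy one e0 c p) =
          v.1 • (Gx one e0 c z - Gx one e0 c p) + v.2 • (Gy one e0 c z - Gy one e0 c p) := by
        rw [smul_sub, smul_sub]; abel
      rw [e1]
      refine (norm_comb_le v _ _ g1 g2).trans ?_
      refine mul_le_mul_of_nonneg_right ?_ (norm_nonneg _)
      rw [← mul_assoc]
      refine mul_le_mul_of_nonneg_right ?_ (norm_nonneg _)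
      have key : ((n - 1 : ℕ) : ℝ) * ρ' ^ (n - 1 - 1) ≤ n * (3 * (ρ ^ n / ρ ^ 2)) := by
        rcases Nat.lt_or_ge 1 n with h2 | h2
        · have a1 : ((n - 1 : ℕ) : ℝ) ≤ n := by exact_mod_cast Nat.sub_le _ _
          have a2 : ρ' ^ (n - 1 - 1) ≤ 3 * (ρ ^ n / ρ ^ 2) := by
            have a3 : ρ' ^ (n - 1 - 1) * ρ' ^ 2 = ρ' ^ n := by
              rw [← pow_add]; congr 1; omega
            have a4 : ρ' ^ n ≤ 3 * ρ ^ n := by
              rw [hρ', mul_pow, mul_comm]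
              exact mul_le_mul_of_nonneg_right (one_add_inv_pow_le hn) (by positivity)
            have a5 : ρ ^ 2 ≤ ρ' ^ 2 := pow_le_pow_left₀ hρ0.le hρρ' 2
            rw [mul_div_assoc', le_div_iff₀ (by positivity)]
            have a6 : 0 ≤ ρ' ^ (n - 1 - 1) := by
              have : 0 ≤ ρ' := hρ0.le.trans hρρ'
              positivity
            nlinarith
          exact mul_le_mul a1 a2 (by
            have : 0 ≤ ρ' := hρ0.le.trans hρρ'
            positivity) hn0.le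
        · have : n = 1 := by omega
          rw [this]
          simp
          positivity
      calc 2 * (N * (n * (((n - 1 : ℕ) : ℝ) * ρ' ^ (n - 1 - 1)) * M))
          ≤ 2 * (N * (n * (n * (3 * (ρ ^ n / ρ ^ 2))) * M)) := by
            have : 0 ≤ N := by linarith
            gcongr
        _ = 12 * (N * (n ^ 2 * M)) / t * μ := by
            rw [hμ]; field_simp; ring
  · intro p hp v hv h0
    have h1 := hg.zero_lower hS ht hp v
    rw [h0, norm_zero] at h1
    have h2 : 0 < ‖v‖ := norm_pos_iff.2 hv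
    have h3 : 0 < max 1 ‖p‖ := lt_of_lt_of_le one_pos (le_max_left _ _)
    have : 0 < t / 2 * (max 1 ‖p‖ ^ n / max 1 ‖p‖ ^ 2) * ‖v‖ := by positivity
    linarith

end

end Pool.Agent.W960.HR
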