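import Pool.Agent.H709U.Z1
import Pool.Agent.H709R2.Indicatrix
import Pool.Agent.H709Q.M

/-! Counting the branches of a family which moves in a Lipschitz way. -/

open Real Set MeasureTheory Topology Filter
open scoped ENNReal

namespace Pool.Agent.W960.HR

open Pool.Agent.H709Q (Maj majRules)

/-- the piece of a point -/
noncomputable def pc (b ℓ : ℝ) (k : ℕ) (s : ℝ) : ℕ := ⌊(s - b) * (k + 1) / ℓ⌋₊

lemma pc_le {b ℓ : ℝ} (hℓ : 0 < ℓ) (k : ℕ) {s : ℝ} (hs : s ∈ Icc b (b + ℓ)) : pc b ℓ k s ≤ k + 1 := by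
  unfold pc
  apply Nat.floor_le_of_le
  rw [div_le_iff₀ hℓ]
  push_cast
  have h1 : s - b ≤ ℓ := by linarith [hs.2]
  have h2 : (0:ℝ) ≤ (k:ℝ) + 1 := by positivity
  nlinarith

lemma pc_close {b ℓ : ℝ} (hℓ : 0 < ℓ) (k : ℕ) {s t : ℝ} (hs : s ∈ Icc b (b + ℓ))
    (ht : t ∈ Icc b (b + ℓ)) (h : pc b ℓ k s = pc b ℓ k t) : |s - t| ≤ ℓ / (k + 1) := by
  have hk : (0:ℝ) < (k:ℝ) + 1 := by positivity
  have e : ∀ x ∈ Icc b (b + ℓ), (pc b ℓ k x : ℝ) ≤ (x - b) * (k + 1) / ℓ ∧
      (x - b) * (k + 1) / ℓ < pc b ℓ k x + 1 := by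
    intro x hx
    refine ⟨Nat.floor_le ?_, Nat.lt_floor_add_one _⟩
    have : 0 ≤ x - b := by linarith [hx.1]
    positivity
  obtain ⟨h1, h2⟩ := e s hs
  obtain ⟨h3, h4⟩ := e t ht
  rw [h] at h1 h2
  have h5 : |(s - b) * (k + 1) / ℓ - (t - b) * (k + 1) / ℓ| ≤ 1 := by
    rw [abs_le]; constructor <;> linarith
  have h6 : (s - b) * (k + 1) / ℓ - (t - b) * (k + 1) / ℓ = (s - t) * ((k + 1) / ℓ) := by ring
  rw [h6, abs_mul, abs_of_pos (by positivity : (0:ℝ) < ((k:ℝ) + 1) / ℓ)] at h5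
  rw [le_div_iff₀ hk]
  rw [← mul_div_assoc, div_le_iff₀ hℓ] at h5
  linarith

/-- a family which is Lipschitz in the second variable, modulo `π` -/
theorem lip_maj {A : Set (ℝ × ℝ)} {b ℓ L : ℝ} (hℓ : 0 < ℓ) (hL : 0 ≤ L)
    (hA : ∀ q ∈ A, q.1 ∈ Ioo 0 π ∧ q.2 ∈ Icc b (b + ℓ))
    (hp : ∀ q ∈ A, ∀ q' ∈ A, ∃ k : ℤ, |q'.1 - q.1 - k * π| ≤ L * |q'.2 - q.2|) :
    Maj (fun α => ({s | (α, s) ∈ A}.encard : ℝ≥0∞)) (12 * L * ℓ) := by
  set J : ℕ → ℕ → Set ℝ := fun k i => {α | ∃ s, (α, s) ∈ A ∧ pc b ℓ k s = i} with hJ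
  have hJv : ∀ k i, volume (J k i) ≤ ENNReal.ofReal (6 * (L * (ℓ / (k + 1)))) := by
    intro k i
    set δ : ℝ := L * (ℓ / (k + 1)) with hδ
    have hδ0 : 0 ≤ δ := by positivity
    have hsubI : J k i ⊆ Ioo 0 π := by
      rintro α ⟨s, hs, -⟩
      exact (hA _ hs).1
    rcases le_or_gt π δ with hπ | hπ
    · refine (measure_mono hsubI).trans ?_
      rw [Real.volume_Ioo]
      exact ENNReal.ofReal_le_ofReal (by linarith)
    rcases (J k i).eq_empty_or_nonempty with h0 | ⟨a, s₀, ha, has⟩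
    · rw [h0]; simp
    have hsub : J k i ⊆ Icc (a - δ) (a + δ) ∪ (Icc (a + π - δ) (a + π + δ) ∪
        Icc (a - π - δ) (a - π + δ)) := by
      rintro α ⟨s, hs, hsi⟩
      obtain ⟨m, hm⟩ := hp _ ha _ hs
      simp only at hm
      have h1 : |s - s₀| ≤ ℓ / (k + 1) :=
        pc_close hℓ k (hA _ hs).2 (hA _ ha).2 (by rw [hsi, has])
      have h2 : |α - a - m * π| ≤ δ := hm.trans (mul_le_mul_of_nonneg_left h1 hL)
      have h3 := (hA _ hs).1
      have h4 := (hA _ ha).1
      simp only [mem_Ioo] at h3 h4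
      rw [abs_le] at h2
      have hm2 : m < 2 := by
        by_contra hcon
        have : (2:ℝ) ≤ m := by exact_mod_cast not_lt.1 hcon
        nlinarith [pi_pos]
      have hm3 : -2 < m := by
        by_contra hcon
        have : (m:ℝ) ≤ -2 := by exact_mod_cast not_lt.1 hcon
        nlinarith [pi_pos]
      have hm4 : m = -1 ∨ m = 0 ∨ m = 1 := by omega
      rcases hm4 with h | h | h
      · rw [h] at h2
        push_cast at h2
        refine Or.inr (Or.inr ⟨?_, ?_⟩) <;> linarith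
      · rw [h] at h2
        push_cast at h2
        refine Or.inl ⟨?_, ?_⟩ <;> linarith
      · rw [h] at h2
        push_cast at h2
        refine Or.inr (Or.inl ⟨?_, ?_⟩) <;> linarith
    refine (measure_mono hsub).trans ((measure_union_le _ _).trans
      ((add_le_add le_rfl (measure_union_le _ _)).trans ?_))
    rw [Real.volume_Icc, Real.volume_Icc, Real.volume_Icc]
    rw [← ENNReal.ofReal_add (by linarith) (by linarith), ← ENNReal.ofReal_add (by linarith) (by linarith)]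
    exact ENNReal.ofReal_le_ofReal (by linarith)
  set G : ℕ → ℝ → ℝ≥0∞ := fun k β =>
    ∑ i ∈ Finset.range (k + 2), (toMeasurable volume (J k i)).indicator (fun _ => (1:ℝ≥0∞)) β
    with hG
  have hGm : ∀ k, Measurable (G k) := by
    intro k
    refine Finset.measurable_fun_sum _ fun j _ => ?_
    exact measurable_const.indicator (measurableSet_toMeasurable _ _)
  have hGi : ∀ k, ∫⁻ β in Ioo 0 π, G k β ≤ ENNReal.ofReal (12 * L * ℓ) := by
    intro k
    have e1 : ∫⁻ β in Ioo 0 π, G k β ≤ ∑ i ∈ Finset.range (k + 2), volume (J k i) := by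
      refine (setLIntegral_le_lintegral _ _).trans ?_
      simp only [hG]
      rw [lintegral_finsetSum _ (fun j _ =>
        (measurable_const.indicator (measurableSet_toMeasurable _ _)))]
      refine Finset.sum_le_sum fun i _ => ?_
      rw [lintegral_indicator (measurableSet_toMeasurable _ _)]
      simp
    refine e1.trans ((Finset.sum_le_sum fun i _ => hJv k i).trans ?_)
    rw [Finset.sum_const, Finset.card_range, nsmul_eq_mul]
    have e2 : ((k + 2 : ℕ) : ℝ≥0∞) = ENNReal.ofReal ((k:ℝ) + 2) := by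
      rw [← ENNReal.ofReal_natCast]; push_cast; rfl
    rw [e2, ← ENNReal.ofReal_mul (by positivity)]
    apply ENNReal.ofReal_le_ofReal
    have hk : (0:ℝ) < (k:ℝ) + 1 := by positivity
    have e3 : ((k:ℝ) + 2) * (6 * (L * (ℓ / (k + 1)))) = 6 * (L * ℓ) * (((k:ℝ) + 2) / (k + 1)) := by
      field_simp
    rw [e3]
    have e4 : ((k:ℝ) + 2) / (k + 1) ≤ 2 := by
      rw [div_le_iff₀ hk]
      have : (0:ℝ) ≤ k := by positivity
      linarith
    have e5 : 0 ≤ 6 * (L * ℓ) := by positivity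
    nlinarith
  refine ⟨fun β => liminf (fun k => G k β) atTop, Measurable.liminf hGm, ?_, ?_⟩
  · intro β _
    refine H709R2.encard_le_of_finset fun F hF => ?_
    have hsep : ∃ k₀ : ℕ, ∀ k ≥ k₀, ∀ x ∈ F, ∀ y ∈ F, pc b ℓ k x = pc b ℓ k y → x = y := by
      have hfin : ∀ q ∈ F ×ˢ F, ∃ k₀ : ℕ, ∀ k ≥ k₀, pc b ℓ k q.1 = pc b ℓ k q.2 → q.1 = q.2 := by
        rintro ⟨x, y⟩ hxyF
        by_cases hxy : x = y
        · exact ⟨0, fun k _ _ => hxy⟩
        · have hd : 0 < |x - y| := abs_pos.2 (sub_ne_zero.2 hxy)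
          obtain ⟨k₀, hk₀⟩ := exists_nat_gt (ℓ / |x - y|)
          refine ⟨k₀, fun k hk hfl => ?_⟩
          exfalso
          rw [Finset.mem_product] at hxyF
          have h1 := pc_close hℓ k (hA _ (hF hxyF.1)).2 (hA _ (hF hxyF.2)).2 hfl
          have h4 : (k₀ : ℝ) ≤ k := by exact_mod_cast hk
          rw [div_lt_iff₀ hd] at hk₀
          rw [le_div_iff₀ (by positivity)] at h1
          simp only at h1
          nlinarith
      choose! kk hkk using hfin
      refine ⟨(F ×ˢ F).sup kk, fun k hk x hx y hy h => ?_⟩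
      have hm : (x, y) ∈ F ×ˢ F := Finset.mk_mem_product hx hy
      exact hkk (x, y) hm k ((Finset.le_sup hm).trans hk) h
    obtain ⟨k₀, hk₀⟩ := hsep
    refine le_liminf_of_le (by isBoundedDefault) ?_
    filter_upwards [eventually_ge_atTop k₀] with k hk
    have hcard : (F.image fun x : ℝ => pc b ℓ k x).card = F.card :=
      Finset.card_image_of_injOn fun x hx y hy h => hk₀ k hk x hx y hy h
    have hsub : F.image (fun x : ℝ => pc b ℓ k x) ⊆ Finset.range (k + 2) := by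
      intro i hi
      obtain ⟨x, hx, rfl⟩ := Finset.mem_image.1 hi
      rw [Finset.mem_range]
      have := pc_le hℓ k (hA _ (hF hx)).2
      simp only at this
      omega
    calc (F.card : ℝ≥0∞) = ∑ j ∈ F.image (fun x : ℝ => pc b ℓ k x), (1:ℝ≥0∞) := by
          rw [Finset.sum_const, hcard]; simp
      _ ≤ ∑ j ∈ F.image (fun x : ℝ => pc b ℓ k x),
          (toMeasurable volume (J k j)).indicator (fun _ => (1:ℝ≥0∞)) β := by
          refine Finset.sum_le_sum fun j hj => ?_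
          obtain ⟨x, hx, rfl⟩ := Finset.mem_image.1 hj
          have h2 : β ∈ toMeasurable volume (J k (pc b ℓ k x)) :=
            subset_toMeasurable _ _ ⟨x, hF hx, rfl⟩
          rw [indicator_of_mem h2]
      _ ≤ G k β := Finset.sum_le_sum_of_subset hsub
  · refine (lintegral_liminf_le hGm).trans ?_
    refine liminf_le_of_le (by isBoundedDefault) fun b hb => ?_
    obtain ⟨k, hk⟩ := hb.exists
    exact hk.trans (hGi k)

/-- majorants of countable sums -/
lemma maj_tsum {N : ℕ → ℝ → ℝ≥0∞} {K : ℕ → ℝ} {S : ℝ} (hK : ∀ i, 0 ≤ K i) (hS : HasSum K S)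
    (h : ∀ i, Maj (N i) (K i)) : Maj (fun α => ∑' i, N i α) S := majRules.2.2.1 N K S hK hS h

/-- the number of elements of a countable union -/
lemma encard_iUnion_le {β : Type*} (A : ℕ → Set β) :
    ((⋃ i, A i).encard : ℝ≥0∞) ≤ ∑' i, ((A i).encard : ℝ≥0∞) := by
  let _ : MeasurableSpace β := ⊤
  have h1 : ∀ t : Set β, Measure.count t = (t.encard : ℝ≥0∞) := fun t =>
    Measure.count_apply (MeasurableSpace.measurableSet_top)
  simp only [← h1]
  exact measure_iUnion_le A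

end Pool.Agent.W960.HR
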