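import Pool.Agent.W960.HR.Turn
import Pool.Agent.W960.HR.Lip

/-! Closed orbits of rotated fields, in a zone where the field turns slowly along the rays, which
cross a given ray in a given window. -/

open Real Set MeasureTheory Topology Filter
open scoped ENNReal

namespace Pool.Agent.W960.HR

open Pool.Agent.H709R2 (rot wedge ClosedOrbit)
open Pool.Agent.H709U
open Pool.Agent.H709Q (Maj)

lemma eq_of_meet {Y : ℝ × ℝ → ℝ × ℝ} (hY : ContDiff ℝ 2 Y) {C D : Set (ℝ × ℝ)}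
    (hC : ClosedOrbit Y C) (hD : ClosedOrbit Y D) {z : ℝ × ℝ} (h1 : z ∈ C) (h2 : z ∈ D) :
    C = D := by
  obtain ⟨γ, T, hT, hγ, hper, -, rfl⟩ := hC
  obtain ⟨γ', T', hT', hγ', hper', -, rfl⟩ := hD
  obtain ⟨s, hs⟩ := h1
  obtain ⟨s', hs'⟩ := h2
  exact HP.orbits_eq hY hT hT' hγ hγ' hper hper' (hs.trans hs'.symm)

/-- closed orbits in a zone which cross a ray in a window -/
theorem class_maj {X : ℝ × ℝ → ℝ × ℝ} (hX : ContDiff ℝ 2 X) {p : ℝ × ℝ} {I : Set ℝ}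
    (hI : I.OrdConnected) {L : ℝ} (hL0 : 0 ≤ L)
    (hL : ∀ z, z ≠ p → lg p z ∈ I → X z ≠ 0 ∧ |A0 X p z| ≤ L * H709R2.sq (X z))
    {b ℓ : ℝ} (hℓ : 0 < ℓ) (θ : ℝ) :
    Maj (fun α => ({C | ClosedOrbit (rf X α) C ∧ p ∉ C ∧ (∀ z ∈ C, lg p z ∈ I) ∧
      ∃ u ∈ Icc b (b + ℓ), pt p u θ ∈ C}.encard : ℝ≥0∞)) (12 * L * ℓ) := by
  classical
  set S : ℝ → Set (Set (ℝ × ℝ)) := fun α => {C | ClosedOrbit (rf X α) C ∧ p ∉ C ∧
    (∀ z ∈ C, lg p z ∈ I) ∧ ∃ u ∈ Icc b (b + ℓ), pt p u θ ∈ C} with hS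
  have hch : ∀ α C, ∃ u : ℝ, C ∈ S α → u ∈ Icc b (b + ℓ) ∧ pt p u θ ∈ C := by
    intro α C
    by_cases h : C ∈ S α
    · obtain ⟨u, hu1, hu2⟩ := h.2.2.2
      exact ⟨u, fun _ => ⟨hu1, hu2⟩⟩
    · exact ⟨0, fun h' => absurd h' h⟩
  choose u hu using hch
  set A : Set (ℝ × ℝ) := {q | q.1 ∈ Ioo 0 π ∧ ∃ C ∈ S q.1, q.2 = u q.1 C} with hA
  have hmaj : Maj (fun α => ({s | (α, s) ∈ A}.encard : ℝ≥0∞)) (12 * L * ℓ) := by
    refine lip_maj (b := b) hℓ hL0 ?_ ?_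
    · rintro ⟨α, s⟩ ⟨h1, C, hC, h2⟩
      simp only at h1 h2 hC
      refine ⟨h1, ?_⟩
      show s ∈ Icc b (b + ℓ)
      rw [h2]
      exact (hu α C hC).1
    · rintro ⟨α, s⟩ ⟨h1, C, hC, h2⟩ ⟨α', s'⟩ ⟨h1', C', hC', h2'⟩
      simp only at h1 h2 hC h1' h2' hC' ⊢
      rw [h2, h2']
      exact pair hX hI hL0 hL h1 h1' hC.1 hC'.1 hC.2.1 hC'.2.1 hC.2.2.1 hC'.2.2.1 (hu α C hC).2
        (hu α' C' hC').2
  refine maj_mono (fun α hα => ?_) le_rfl hmaj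
  refine ENat.toENNReal_le.2 ?_
  refine Set.encard_le_encard_of_injOn (f := u α) ?_ ?_
  · intro C hC
    exact ⟨hα, C, hC, rfl⟩
  · intro C hC D hD h
    have h1 := (hu α C hC).2
    have h2 := (hu α D hD).2
    rw [← h] at h2
    exact eq_of_meet (HP.rf_smooth hX α) hC.1 hD.1 h1 h2

end Pool.Agent.W960.HR
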