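import Pool.Agent.W960.HQ.Graph

/-! Two disjoint closed curves which meet a common ray: at the smallest radial gap the tangents are
parallel. -/

open Real Set MeasureTheory Topology Filter
open scoped ENNReal

namespace Pool.Agent.W960.HR

/-- the smallest radial gap between two closed curves is attained at parallel tangents -/
theorem contact_complex {c₁ y₁ c₂ y₂ : ℝ → ℂ} {T₁ T₂ : ℝ} (hT₁ : 0 < T₁) (hT₂ : 0 < T₂)
    (h1 : ∀ t, HasDerivAt c₁ (y₁ t) t) (h2 : ∀ t, HasDerivAt c₂ (y₂ t) t)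
    (hy1 : Continuous y₁) (hy2 : Continuous y₂)
    (p1 : ∀ t, c₁ (t + T₁) = c₁ t) (p2 : ∀ t, c₂ (t + T₂) = c₂ t)
    (n1 : ∀ t, c₁ t ≠ 0) (n2 : ∀ t, c₂ t ≠ 0)
    (hdis : ∀ s t, c₁ s ≠ c₂ t) {a b ρ₀ : ℝ} (hρ₀ : 0 < ρ₀) (hab : c₂ b = ρ₀ * c₁ a) :
    ∃ s t ρ : ℝ, 0 < ρ ∧ c₂ t = ρ * c₁ s ∧ |Real.log ρ| ≤ |Real.log ρ₀| ∧
      (y₁ s).re * (y₂ t).im - (y₁ s).im * (y₂ t).re = 0 := by
  have hc1 : Continuous c₁ := continuous_iff_continuousAt.mpr fun t => (h1 t).continuousAt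
  have hc2 : Continuous c₂ := continuous_iff_continuousAt.mpr fun t => (h2 t).continuousAt
  set F : ℝ × ℝ → ℂ := fun q => c₂ q.2 / c₁ q.1 with hF
  have hFc : Continuous F := (hc2.comp continuous_snd).div (hc1.comp continuous_fst) fun q => n1 _
  have hFn : ∀ q, F q ≠ 0 := fun q => div_ne_zero (n2 _) (n1 _)
  set g : ℝ × ℝ → ℝ := fun q => |Real.log ‖F q‖| with hg
  have hgc : Continuous g := by
    have : Continuous fun q => Real.log ‖F q‖ :=
      Continuous.log hFc.norm fun q => norm_ne_zero_iff.2 (hFn q)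
    exact this.abs
  set K : Set (ℝ × ℝ) := {q | q ∈ Icc 0 T₁ ×ˢ Icc 0 T₂ ∧ (F q).im = 0 ∧ 0 ≤ (F q).re} with hK
  have hKc : IsCompact K := by
    have : K = (Icc 0 T₁ ×ˢ Icc 0 T₂) ∩ ({q | (F q).im = 0} ∩ {q | 0 ≤ (F q).re}) := by
      ext q; simp only [hK, mem_ofPred_eq, mem_inter_iff]
    rw [this]
    refine (isCompact_Icc.prod isCompact_Icc).inter_right (IsClosed.inter ?_ ?_)
    · exact isClosed_eq (Complex.continuous_im.comp hFc) continuous_const
    · exact isClosed_le continuous_const (Complex.continuous_re.comp hFc)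
  -- every pair can be moved into the fundamental domain
  have hshift : ∀ q : ℝ × ℝ, ∃ q' ∈ Icc 0 T₁ ×ˢ Icc 0 T₂, F q' = F q := by
    intro q
    obtain ⟨s, hs, hs'⟩ := (show Function.Periodic c₁ T₁ from p1).exists_mem_Ico₀ hT₁ q.1
    obtain ⟨t, ht, ht'⟩ := (show Function.Periodic c₂ T₂ from p2).exists_mem_Ico₀ hT₂ q.2
    refine ⟨(s, t), ⟨⟨hs.1, hs.2.le⟩, ⟨ht.1, ht.2.le⟩⟩, ?_⟩
    simp only [hF]
    rw [← hs', ← ht']
  have hFab : F (a, b) = ρ₀ := by
    simp only [hF]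
    rw [hab, mul_div_assoc, div_self (n1 a), mul_one]
  have hKne : K.Nonempty := by
    obtain ⟨q', hq', hFq'⟩ := hshift (a, b)
    refine ⟨q', hq', ?_, ?_⟩
    · rw [hFq', hFab]; simp
    · rw [hFq', hFab]; simpa using hρ₀.le
  obtain ⟨q₀, hq₀, hmin⟩ := hKc.exists_isMinOn hKne hgc.continuousOn
  have hmin' : ∀ q, (F q).im = 0 → 0 ≤ (F q).re → g q₀ ≤ g q := by
    intro q hq1 hq2
    obtain ⟨q', hq', hFq'⟩ := hshift q
    have h3 : q' ∈ K := ⟨hq', by rw [hFq']; exact hq1, by rw [hFq']; exact hq2⟩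
    have h4 : g q₀ ≤ g q' := hmin h3
    have h5 : g q' = g q := by simp only [hg]; rw [hFq']
    rwa [h5] at h4
  obtain ⟨-, him, hre⟩ := hq₀
  set ρ := (F q₀).re with hρ
  have hFρ : F q₀ = (ρ : ℂ) := by
    apply Complex.ext
    · simp [hρ]
    · simp [him]
  have hρpos : 0 < ρ := by
    rcases hre.lt_or_eq with h | h
    · exact h
    · exfalso
      apply hFn q₀
      rw [hFρ, ← h]; simp
  have hgq₀ : g q₀ = |Real.log ρ| := by
    simp only [hg]
    rw [hFρ, Complex.norm_real, Real.norm_eq_abs, abs_of_pos hρpos]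
  have hc : c₂ q₀.2 = ρ * c₁ q₀.1 := by
    have : c₂ q₀.2 / c₁ q₀.1 = (ρ : ℂ) := hFρ
    rw [div_eq_iff (n1 _)] at this
    exact this
  refine ⟨q₀.1, q₀.2, ρ, hρpos, hc, ?_, ?_⟩
  · rw [← hgq₀]
    have h3 := hmin' (a, b) (by rw [hFab]; simp) (by rw [hFab]; simpa using hρ₀.le)
    refine h3.trans (le_of_eq ?_)
    simp only [hg]
    rw [hFab, Complex.norm_real, Real.norm_eq_abs, abs_of_pos hρ₀]
  by_contra hΔ
  set Δ := (y₁ q₀.1).re * (y₂ q₀.2).im - (y₁ q₀.1).im * (y₂ q₀.2).re with hΔdef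
  -- strict differentiability
  have s1 : HasStrictDerivAt c₁ (y₁ q₀.1) q₀.1 :=
    hasStrictDerivAt_of_hasDerivAt_of_continuousAt (Eventually.of_forall h1) hy1.continuousAt
  have s2 : HasStrictDerivAt c₂ (y₂ q₀.2) q₀.2 :=
    hasStrictDerivAt_of_hasDerivAt_of_continuousAt (Eventually.of_forall h2) hy2.continuousAt
  have t1 := s1.hasStrictFDerivAt.comp q₀ (hasStrictFDerivAt_fst (𝕜 := ℝ) (p := q₀))
  have t2 := s2.hasStrictFDerivAt.comp q₀ (hasStrictFDerivAt_snd (𝕜 := ℝ) (p := q₀))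
  have t1i := (hasStrictFDerivAt_inv' (𝕜 := ℝ) (n1 q₀.1)).comp q₀ t1
  have t3 := t2.mul t1i
  have hstrict : HasStrictFDerivAt F _ q₀ := t3.congr_of_eventuallyEq (by
    refine Eventually.of_forall fun q => ?_
    simp only [hF, Pi.mul_apply, div_eq_mul_inv])
  set L := (c₂ q₀.2 •
        (-((ContinuousLinearMap.mulLeftRight ℝ ℂ) (c₁ q₀.1)⁻¹) (c₁ q₀.1)⁻¹) ∘SL
          ContinuousLinearMap.toSpanSingleton ℝ (y₁ q₀.1) ∘SL ContinuousLinearMap.fst ℝ ℝ ℝ +
      (c₁ q₀.1)⁻¹ • ContinuousLinearMap.toSpanSingleton ℝ (y₂ q₀.2) ∘SL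
        ContinuousLinearMap.snd ℝ ℝ ℝ) with hL
  have hLv : ∀ v : ℝ × ℝ, L v = (v.2 * y₂ q₀.2 - ρ * v.1 * y₁ q₀.1) / c₁ q₀.1 := by
    intro v
    simp only [hL, ContinuousLinearMap.add_apply, ContinuousLinearMap.smul_apply,
      ContinuousLinearMap.comp_apply, ContinuousLinearMap.neg_apply,
      ContinuousLinearMap.toSpanSingleton_apply, ContinuousLinearMap.coe_fst',
      ContinuousLinearMap.coe_snd', ContinuousLinearMap.mulLeftRight_apply, smul_eq_mul,
      Complex.real_smul]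
    rw [hc]
    have := n1 q₀.1
    field_simp
    ring
  have hsurj : L.range = ⊤ := by
    rw [LinearMap.range_eq_top]
    intro w
    set w' : ℂ := w * c₁ q₀.1 with hw'
    refine ⟨(((y₂ q₀.2).re * w'.im - (y₂ q₀.2).im * w'.re) / Δ / ρ,
      ((y₁ q₀.1).re * w'.im - (y₁ q₀.1).im * w'.re) / Δ), ?_⟩
    show L _ = w
    rw [hLv, div_eq_iff (n1 _), ← hw']
    have hρ0 := hρpos.ne'
    apply Complex.ext
    · simp only [Complex.sub_re, Complex.mul_re, Complex.ofReal_re, Complex.ofReal_im, Complex.mul_im]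
      field_simp
      rw [hΔdef]
      ring
    · simp only [Complex.sub_im, Complex.mul_im, Complex.ofReal_re, Complex.ofReal_im, Complex.mul_re]
      field_simp
      rw [hΔdef]
      ring
  have hmap := hstrict.map_nhds_eq_of_surj hsurj
  have hrange : range F ∈ 𝓝 (F q₀) := by
    rw [← hmap, mem_map]
    refine Filter.mem_of_superset univ_mem ?_
    intro q _
    exact ⟨q, rfl⟩
  have hρ1 : Real.log ρ ≠ 0 := by
    intro h
    have h3 : ρ = 1 := by
      have := Real.exp_log hρpos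
      rw [h, Real.exp_zero] at this
      exact this.symm
    apply hdis q₀.1 q₀.2
    rw [hc, h3]; simp
  -- a smaller gap
  have hlim : Tendsto (fun ε : ℝ => ((Real.exp ((1 - ε) * Real.log ρ) : ℝ) : ℂ)) (𝓝 0)
      (𝓝 (F q₀)) := by
    have hcont : Continuous fun ε : ℝ => ((Real.exp ((1 - ε) * Real.log ρ) : ℝ) : ℂ) := by
      fun_prop
    have := hcont.tendsto 0
    rw [sub_zero, one_mul, Real.exp_log hρpos] at this
    rw [hFρ]
    exact this
  have hev := hlim.eventually hrange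
  rw [Metric.eventually_nhds_iff] at hev
  obtain ⟨η, hη, hev⟩ := hev
  set ε := min (η / 2) 1 with hε
  have hε0 : 0 < ε := by positivity
  have hε1 : ε ≤ 1 := min_le_right _ _
  have hε2 : ε < η := lt_of_le_of_lt (min_le_left _ _) (by linarith)
  obtain ⟨q', hq'⟩ := hev (y := ε) (by rw [Real.dist_eq, sub_zero, abs_of_pos hε0]; exact hε2)
  have h3 := hmin' q' (by rw [hq']; exact Complex.ofReal_im _)
    (by rw [hq', Complex.ofReal_re]; exact (Real.exp_pos _).le)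
  have h4 : g q' = (1 - ε) * |Real.log ρ| := by
    simp only [hg]
    rw [hq', Complex.norm_real, Real.norm_eq_abs, abs_of_pos (Real.exp_pos _), Real.log_exp,
      abs_mul, abs_of_nonneg (by linarith)]
  rw [h4, hgq₀] at h3
  have h5 : 0 < |Real.log ρ| := abs_pos.2 hρ1
  nlinarith

end Pool.Agent.W960.HR
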