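import Pool.Agent.W960.HR.Net

/-! Sums of squares of monomials of degree at most `n` and of their derivatives. -/

open Real Set MeasureTheory Topology Filter
open scoped ENNReal

namespace Pool.Agent.W960.HR

noncomputable section

/-- the exponents of all monomials of degree at most `n` -/
def T (n : ℕ) : Finset (ℕ × ℕ) :=
  (Finset.range (n + 1) ×ˢ Finset.range (n + 1)).filter fun m => m.1 + m.2 ≤ n

lemma mem_T {n : ℕ} {m : ℕ × ℕ} : m ∈ T n ↔ m.1 + m.2 ≤ n := by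
  unfold T
  rw [Finset.mem_filter, Finset.mem_product, Finset.mem_range, Finset.mem_range]
  constructor
  · exact fun h => h.2
  · intro h
    exact ⟨⟨by omega, by omega⟩, h⟩

lemma sum_sq_identity (q : ℝ) (k : ℕ) :
    (1 - q) ^ 3 * ∑ i ∈ Finset.range (k + 1), (i:ℝ) ^ 2 * q ^ (i - 1) =
      1 + q - q ^ k * (((k:ℝ) + 1) ^ 2 - (2 * (k:ℝ) ^ 2 + 2 * k - 1) * q + (k:ℝ) ^ 2 * q ^ 2) := by
  induction k with
  | zero => simp
  | succ k ih =>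
    rw [Finset.sum_range_succ, mul_add, ih, Nat.add_sub_cancel, pow_succ]
    push_cast
    ring

lemma geom_le {q : ℝ} (hq0 : 0 ≤ q) (hq1 : q < 1) (k : ℕ) :
    (1 - q) ^ 2 * ∑ i ∈ Finset.range (k + 1), (i:ℝ) ^ 2 * q ^ (i - 1) ≤
      2 * ∑ i ∈ Finset.range (k + 1), q ^ i := by
  have h1 := sum_sq_identity q k
  have h2 : (1 - q) * ∑ i ∈ Finset.range (k + 1), q ^ i = 1 - q ^ (k + 1) := by
    have := mul_neg_geom_sum q (k + 1)
    exact this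
  have h3 : 0 < 1 - q := by linarith
  have h4 : (1 - q) * ((1 - q) ^ 2 * ∑ i ∈ Finset.range (k + 1), (i:ℝ) ^ 2 * q ^ (i - 1)) ≤
      (1 - q) * (2 * ∑ i ∈ Finset.range (k + 1), q ^ i) := by
    have e1 : (1 - q) * ((1 - q) ^ 2 * ∑ i ∈ Finset.range (k + 1), (i:ℝ) ^ 2 * q ^ (i - 1)) =
        (1 - q) ^ 3 * ∑ i ∈ Finset.range (k + 1), (i:ℝ) ^ 2 * q ^ (i - 1) := by ring
    have e2 : (1 - q) * (2 * ∑ i ∈ Finset.range (k + 1), q ^ i) = 2 * (1 - q ^ (k + 1)) := by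
      rw [← h2]; ring
    rw [e1, e2, h1]
    have e3 : 2 * (1 - q ^ (k + 1)) - (1 + q - q ^ k * (((k:ℝ) + 1) ^ 2 -
        (2 * (k:ℝ) ^ 2 + 2 * k - 1) * q + (k:ℝ) ^ 2 * q ^ 2)) =
        (1 - q) + q ^ k * ((2 * k + 1) * (1 - q) + (k:ℝ) ^ 2 * (1 - q) ^ 2) := by
      rw [pow_succ]; ring
    have e4 : 0 ≤ (1 - q) + q ^ k * ((2 * k + 1) * (1 - q) + (k:ℝ) ^ 2 * (1 - q) ^ 2) := by
      have : 0 ≤ 1 - q := h3.le
      positivity
    linarith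
  exact le_of_mul_le_mul_left h4 h3

lemma geom_le' {q : ℝ} (hq0 : 0 ≤ q) {k n : ℕ} (hk : k ≤ n) :
    ∑ i ∈ Finset.range (k + 1), (i:ℝ) ^ 2 * q ^ (i - 1) ≤
      (n:ℝ) ^ 2 * ∑ i ∈ Finset.range (k + 1), q ^ i := by
  rw [Finset.sum_range_succ', Finset.sum_range_succ]
  have h1 : ∑ i ∈ Finset.range k, (((i + 1 : ℕ) : ℝ)) ^ 2 * q ^ (i + 1 - 1) ≤
      (n:ℝ) ^ 2 * ∑ i ∈ Finset.range k, q ^ i := by
    rw [Finset.mul_sum]
    refine Finset.sum_le_sum fun i hi => ?_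
    rw [Nat.add_sub_cancel]
    rw [Finset.mem_range] at hi
    have : ((i + 1 : ℕ) : ℝ) ≤ n := by exact_mod_cast (by omega : i + 1 ≤ n)
    gcongr
  have h2 : 0 ≤ (n:ℝ) ^ 2 * q ^ k := by positivity
  simp only [Nat.cast_zero]
  rw [mul_add]
  simp only [ne_eq, OfNat.ofNat_ne_zero, not_false_eq_true, zero_pow, zero_mul, add_zero]
  linarith

lemma sum_T (n : ℕ) (f : ℕ → ℕ → ℝ) :
    ∑ m ∈ T n, f m.1 m.2 = ∑ j ∈ Finset.range (n + 1), ∑ i ∈ Finset.range (n - j + 1), f i j := by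
  rw [Finset.sum_sigma']
  refine Finset.sum_nbij' (fun m => ⟨m.2, m.1⟩) (fun p => (p.2, p.1)) ?_ ?_ ?_ ?_ ?_
  · intro m hm
    rw [mem_T] at hm
    simp only [Finset.mem_sigma, Finset.mem_range]
    omega
  · intro p hp
    simp only [Finset.mem_sigma, Finset.mem_range] at hp
    rw [mem_T]
    simp only
    omega
  · intro m _; rfl
  · intro p _; rfl
  · intro m _; rfl

lemma sum_T_swap (n : ℕ) (f : ℕ → ℕ → ℝ) : ∑ m ∈ T n, f m.1 m.2 = ∑ m ∈ T n, f m.2 m.1 := by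
  refine Finset.sum_nbij' (fun m => (m.2, m.1)) (fun m => (m.2, m.1)) ?_ ?_ ?_ ?_ ?_
  · intro m hm
    rw [mem_T] at hm ⊢
    simp only; omega
  · intro m hm
    rw [mem_T] at hm ⊢
    simp only; omega
  · intro m _; rfl
  · intro m _; rfl
  · intro m _; rfl

/-- the sum of the squares of the monomials -/
def K0 (n : ℕ) (q r : ℝ) : ℝ := ∑ m ∈ T n, q ^ m.1 * r ^ m.2

/-- the sum of the squares of the first derivatives -/
def K1 (n : ℕ) (q r : ℝ) : ℝ := ∑ m ∈ T n, (m.1:ℝ) ^ 2 * q ^ (m.1 - 1) * r ^ m.2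

lemma K1_le {n : ℕ} {q r : ℝ} (hq0 : 0 ≤ q) (hr : 0 ≤ r) : K1 n q r ≤ (n:ℝ) ^ 2 * K0 n q r := by
  unfold K1 K0
  rw [sum_T n fun i j => (i:ℝ) ^ 2 * q ^ (i - 1) * r ^ j, sum_T n fun i j => q ^ i * r ^ j,
    Finset.mul_sum]
  refine Finset.sum_le_sum fun j hj => ?_
  rw [← Finset.sum_mul, ← Finset.sum_mul, ← mul_assoc]
  exact mul_le_mul_of_nonneg_right (geom_le' hq0 (Nat.sub_le _ _)) (by positivity)

lemma K1_le' {n : ℕ} {q r : ℝ} (hq0 : 0 ≤ q) (hq1 : q < 1) (hr : 0 ≤ r) :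
    (1 - q) ^ 2 * K1 n q r ≤ 2 * K0 n q r := by
  unfold K1 K0
  rw [sum_T n fun i j => (i:ℝ) ^ 2 * q ^ (i - 1) * r ^ j, sum_T n fun i j => q ^ i * r ^ j,
    Finset.mul_sum, Finset.mul_sum]
  refine Finset.sum_le_sum fun j hj => ?_
  rw [← Finset.sum_mul, ← Finset.sum_mul, ← mul_assoc, ← mul_assoc]
  exact mul_le_mul_of_nonneg_right (geom_le hq0 hq1 _) (by positivity)

/-- permutations of the exponents in the charts -/
def Perm (n : ℕ) (e : T n → ℕ × ℕ) : Prop := ∀ f : ℕ × ℕ → ℝ, ∑ m : T n, f (e m) = ∑ m ∈ T n, f m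

lemma perm0 (n : ℕ) : Perm n e0 := by
  intro f
  exact Finset.sum_coe_sort (T n) f

lemma perm1 (n : ℕ) : Perm n (e1 n) := by
  intro f
  have h1 : ∑ m : T n, f (e1 n m) = ∑ m ∈ T n, f (n - m.1 - m.2, m.2) :=
    Finset.sum_coe_sort (T n) (fun m => f (n - m.1 - m.2, m.2))
  rw [h1]
  refine Finset.sum_nbij' (fun m => (n - m.1 - m.2, m.2)) (fun m => (n - m.1 - m.2, m.2))
    ?_ ?_ ?_ ?_ ?_
  · intro m hm
    rw [mem_T] at hm ⊢
    simp only; omega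
  · intro m hm
    rw [mem_T] at hm ⊢
    simp only; omega
  · intro m hm
    rw [mem_T] at hm
    ext
    · simp only; omega
    · rfl
  · intro m hm
    rw [mem_T] at hm
    ext
    · simp only; omega
    · rfl
  · intro m _; rfl

lemma perm2 (n : ℕ) : Perm n (e2 n) := by
  intro f
  have h1 : ∑ m : T n, f (e2 n m) = ∑ m ∈ T n, f (n - m.1 - m.2, m.1) :=
    Finset.sum_coe_sort (T n) (fun m => f (n - m.1 - m.2, m.1))
  rw [h1]
  refine Finset.sum_nbij' (fun m => (n - m.1 - m.2, m.1)) (fun m => (m.2, n - m.1 - m.2))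
    ?_ ?_ ?_ ?_ ?_
  · intro m hm
    rw [mem_T] at hm ⊢
    simp only; omega
  · intro m hm
    rw [mem_T] at hm ⊢
    simp only; omega
  · intro m hm
    rw [mem_T] at hm
    ext
    · rfl
    · simp only; omega
  · intro m hm
    rw [mem_T] at hm
    ext
    · simp only; omega
    · rfl
  · intro m _; rfl

lemma sum_wF {n : ℕ} {e : T n → ℕ × ℕ} (he : Perm n e) (z : ℝ × ℝ) :
    ∑ m, wF e z m ^ 2 = K0 n (z.1 ^ 2) (z.2 ^ 2) := by
  unfold K0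
  rw [← he fun m => (z.1 ^ 2) ^ m.1 * (z.2 ^ 2) ^ m.2]
  refine Finset.sum_congr rfl fun m _ => ?_
  simp only [wF, one]
  ring

lemma sum_wdx {n : ℕ} {e : T n → ℕ × ℕ} (he : Perm n e) (z : ℝ × ℝ) :
    ∑ m, wd e z (1, 0) m ^ 2 = K1 n (z.1 ^ 2) (z.2 ^ 2) := by
  unfold K1
  rw [← he fun m => (m.1:ℝ) ^ 2 * (z.1 ^ 2) ^ (m.1 - 1) * (z.2 ^ 2) ^ m.2]
  refine Finset.sum_congr rfl fun m _ => ?_
  simp only [wd, one]
  ring

lemma sum_wdy {n : ℕ} {e : T n → ℕ × ℕ} (he : Perm n e) (z : ℝ × ℝ) :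
    ∑ m, wd e z (0, 1) m ^ 2 = K1 n (z.2 ^ 2) (z.1 ^ 2) := by
  unfold K1
  rw [sum_T_swap n fun i j => (i:ℝ) ^ 2 * (z.2 ^ 2) ^ (i - 1) * (z.1 ^ 2) ^ j,
    ← he fun m => (m.2:ℝ) ^ 2 * (z.2 ^ 2) ^ (m.2 - 1) * (z.1 ^ 2) ^ m.1]
  refine Finset.sum_congr rfl fun m _ => ?_
  simp only [wd, one]
  ring

lemma K0_swap (n : ℕ) (q r : ℝ) : K0 n q r = K0 n r q := by
  unfold K0
  rw [sum_T_swap n fun i j => q ^ i * r ^ j]
  exact Finset.sum_congr rfl fun m _ => mul_comm _ _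

lemma K0_ge_one (n : ℕ) {q r : ℝ} (hq : 0 ≤ q) (hr : 0 ≤ r) : 1 ≤ K0 n q r := by
  unfold K0
  have h1 : ((0, 0) : ℕ × ℕ) ∈ T n := by rw [mem_T]; simp
  calc (1:ℝ) = q ^ ((0, 0) : ℕ × ℕ).1 * r ^ ((0, 0) : ℕ × ℕ).2 := by simp
    _ ≤ ∑ m ∈ T n, q ^ m.1 * r ^ m.2 :=
        Finset.single_le_sum (f := fun m : ℕ × ℕ => q ^ m.1 * r ^ m.2)
          (fun m _ => by positivity) h1

end

end Pool.Agent.W960.HR
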