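import Pool.Agent.W960.HR.Gauss
import Pool.Agent.W960.HR.Wts

/-! Probability that a Gaussian polynomial field has a zero in a small cell. -/

open Real Set MeasureTheory Topology Filter ProbabilityTheory
open scoped ENNReal

namespace Pool.Agent.W960.HR

noncomputable section

variable {S : Finset (ℕ × ℕ)} {n : ℕ} {M N : ℝ}

/-- independent standard Gaussian vectors -/
def GP (S : Finset (ℕ × ℕ)) : Measure (S → ℝ × ℝ) :=
  Measure.pi fun _ : S => (gaussianReal 0 1).prod (gaussianReal 0 1)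

instance : IsProbabilityMeasure (GP S) := by unfold GP; infer_instance

lemma split (A : Set (S → ℝ)) :
    GP S {c | (fun m => (c m).1) ∈ A ∧ (fun m => (c m).2) ∈ A} = GQ S A * GQ S A := by
  have h := measurePreserving_arrowProdEquivProdArrow ℝ ℝ S (fun _ => gaussianReal 0 1)
    (fun _ => gaussianReal 0 1)
  have h1 := h.measure_preimage_equiv (A ×ˢ A)
  rw [Measure.prod_prod] at h1
  exact h1

lemma lin_fst (w : S → ℝ) (c : S → ℝ × ℝ) : (lin w c).1 = sl w (fun m => (c m).1) := by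
  unfold lin sl
  rw [Prod.fst_sum]
  rfl

lemma lin_snd (w : S → ℝ) (c : S → ℝ × ℝ) : (lin w c).2 = sl w (fun m => (c m).2) := by
  unfold lin sl
  rw [Prod.snd_sum]
  rfl

/-- first order expansion -/
lemma taylor {e : S → ℕ × ℕ} (he : ∀ m, (e m).1 + (e m).2 ≤ n) (hN : (S.card : ℝ) ≤ N)
    {c : S → ℝ × ℝ} (hM : ∀ m, ‖c m‖ ≤ M) (hM0 : 0 ≤ M) {z w : ℝ × ℝ} (hz : ‖z‖ ≤ 1)
    (hw : ‖w‖ ≤ 1) :
    ‖Gs one e c z - Gs one e c w - ((z - w).1 • Gx one e c w + (z - w).2 • Gy one e c w)‖ ≤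
      2 * (N * (n ^ 2 * M)) * ‖z - w‖ ^ 2 := by
  set L : ℝ × ℝ → (ℝ × ℝ →L[ℝ] ℝ × ℝ) := fun x =>
    (ContinuousLinearMap.fst ℝ ℝ ℝ).smulRight (Gx one e c x) +
      (ContinuousLinearMap.snd ℝ ℝ ℝ).smulRight (Gy one e c x) with hL
  have hN0 : 0 ≤ N := (Nat.cast_nonneg _).trans hN
  have hLv : ∀ x v : ℝ × ℝ, L x v = v.1 • Gx one e c x + v.2 • Gy one e c x := by
    intro x v
    simp [hL]
  have hb : ∀ x ∈ segment ℝ w z, ‖L x - L w‖ ≤ 2 * (N * (n ^ 2 * M)) * ‖z - w‖ := by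
    intro x hx
    have hx1 : ‖x‖ ≤ 1 := by
      have hc : Convex ℝ (Metric.closedBall (0 : ℝ × ℝ) 1) := convex_closedBall _ _
      have := hc.segment_subset (show w ∈ Metric.closedBall (0 : ℝ × ℝ) 1 by simpa using hw)
        (show z ∈ Metric.closedBall (0 : ℝ × ℝ) 1 by simpa using hz) hx
      simpa using this
    have hxw : ‖x - w‖ ≤ ‖z - w‖ := by
      obtain ⟨a, b, ha, hb, hab, rfl⟩ := hx
      have : a • w + b • z - w = b • (z - w) := by
        have ha' : a = 1 - b := by linarith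
        rw [ha', sub_smul, one_smul, smul_sub]; abel
      rw [this, norm_smul, Real.norm_eq_abs, abs_of_nonneg hb]
      have hb1 : b ≤ 1 := by linarith
      exact mul_le_of_le_one_left (norm_nonneg _) hb1
    refine ContinuousLinearMap.opNorm_le_bound _ (by positivity) fun v => ?_
    obtain ⟨g1, g2⟩ := gxe_sub_le he hN hM hM0 hx1 hw
    have e1 : (L x - L w) v = v.1 • (Gx one e c x - Gx one e c w) +
        v.2 • (Gy one e c x - Gy one e c w) := by
      rw [sub_apply, hLv, hLv, smul_sub, smul_sub]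
      abel
    rw [e1]
    have hA : 0 ≤ N * (n ^ 2 * M) := by positivity
    have g1' := g1.trans (mul_le_mul_of_nonneg_left hxw hA)
    have g2' := g2.trans (mul_le_mul_of_nonneg_left hxw hA)
    refine (norm_comb_le v _ _ g1' g2').trans (le_of_eq (by ring))
  have hm := (convex_segment w z).norm_image_sub_le_of_norm_hasFDerivWithin_le'
    (f := Gs one e c) (f' := L) (φ := L w) (C := 2 * (N * (n ^ 2 * M)) * ‖z - w‖)
    (fun x _ => (hasFDerivAt_Gs one e c x).hasFDerivWithinAt) hb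
    (left_mem_segment ℝ w z) (right_mem_segment ℝ w z)
  rw [hLv] at hm
  refine hm.trans (le_of_eq (by ring))

/-- The probability that there is a zero in a small cell. -/
theorem cell_prob {e : S → ℕ × ℕ} (he : ∀ m, (e m).1 + (e m).2 ≤ n)
    (hN : (S.card : ℝ) ≤ N) {z₀ : ℝ × ℝ} (hz₀ : ‖z₀‖ ≤ 1) {hx hy δ τ s : ℝ} (hx0 : 0 ≤ hx)
    (hy0 : 0 ≤ hy) (hτ : 0 < τ) (hτ1 : τ ≤ 1 / 4) (hM : 0 ≤ M) (hs : 1 ≤ s)
    (h0 : ∑ m, wF e z₀ m ^ 2 = s ^ 2)
    (h1 : hx ^ 2 * ∑ m, wd e z₀ (1, 0) m ^ 2 ≤ τ ^ 2 * s ^ 2)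
    (h2 : hy ^ 2 * ∑ m, wd e z₀ (0, 1) m ^ 2 ≤ τ ^ 2 * s ^ 2) :
    GP S {c | (∀ m, ‖c m‖ ≤ M) ∧ ∃ z : ℝ × ℝ, ‖z‖ ≤ 1 ∧ |z.1 - z₀.1| ≤ hx ∧ |z.2 - z₀.2| ≤ hy ∧
      ‖z - z₀‖ ≤ δ ∧ Gs one e c z = 0} ≤
      ENNReal.ofReal ((8 * τ + 4 * (2 * (N * (n ^ 2 * M)) * δ ^ 2)) ^ 2) := by
  have hN0 : 0 ≤ N := (Nat.cast_nonneg _).trans hN
  set C : ℝ := 2 * (N * (n ^ 2 * M)) * δ ^ 2 with hC
  have hC0 : 0 ≤ C := by positivity
  have hs0 : 0 < s := by linarith
  set wx : S → ℝ := fun m => hx * wd e z₀ (1, 0) m with hwx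
  set wy : S → ℝ := fun m => hy * wd e z₀ (0, 1) m with hwy
  have hwx2 : ∑ m, wx m ^ 2 ≤ τ ^ 2 * s ^ 2 := by
    have : ∑ m, wx m ^ 2 = hx ^ 2 * ∑ m, wd e z₀ (1, 0) m ^ 2 := by
      rw [Finset.mul_sum]
      exact Finset.sum_congr rfl fun m _ => by simp only [hwx]; ring
    rw [this]; exact h1
  have hwy2 : ∑ m, wy m ^ 2 ≤ τ ^ 2 * s ^ 2 := by
    have : ∑ m, wy m ^ 2 = hy ^ 2 * ∑ m, wd e z₀ (0, 1) m ^ 2 := by
      rw [Finset.mul_sum]
      exact Finset.sum_congr rfl fun m _ => by simp only [hwy]; ring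
    rw [this]; exact h2
  set A : Set (S → ℝ) := {a | |sl (wF e z₀) a| ≤ 2 * |sl wx a| + C} ∪
    {a | |sl (wF e z₀) a| ≤ 2 * |sl wy a| + C} with hA
  have hAp : GQ S A ≤ ENNReal.ofReal (8 * τ + 4 * C) := by
    have p1 := small_form (h := 2) hs0 h0 hτ hwx2 (by norm_num) (by linarith) hC0
    have p2 := small_form (h := 2) hs0 h0 hτ hwy2 (by norm_num) (by linarith) hC0
    refine (measure_union_le _ _).trans ((add_le_add p1 p2).trans ?_)
    rw [← ENNReal.ofReal_add (by positivity) (by positivity)]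
    apply ENNReal.ofReal_le_ofReal
    have : 2 * C / s ≤ 2 * C := div_le_self (by positivity) hs
    linarith
  have key : ∀ (a : S → ℝ) (p q : ℝ), |p| ≤ hx → |q| ≤ hy →
      |sl (wF e z₀) a + (p * sl (wd e z₀ (1, 0)) a + q * sl (wd e z₀ (0, 1)) a)| ≤ C → a ∈ A := by
    intro a p q hp hq hle
    have e1 : |sl wx a| = hx * |sl (wd e z₀ (1, 0)) a| := by
      have : sl wx a = hx * sl (wd e z₀ (1, 0)) a := by
        unfold sl
        rw [Finset.mul_sum]
        exact Finset.sum_congr rfl fun m _ => by simp only [hwx]; ring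
      rw [this, abs_mul, abs_of_nonneg hx0]
    have e2 : |sl wy a| = hy * |sl (wd e z₀ (0, 1)) a| := by
      have : sl wy a = hy * sl (wd e z₀ (0, 1)) a := by
        unfold sl
        rw [Finset.mul_sum]
        exact Finset.sum_congr rfl fun m _ => by simp only [hwy]; ring
      rw [this, abs_mul, abs_of_nonneg hy0]
    have h3 : |sl (wF e z₀) a| ≤ |sl wx a| + |sl wy a| + C := by
      have t1 : |p * sl (wd e z₀ (1, 0)) a| ≤ |sl wx a| := by
        rw [abs_mul, e1]; exact mul_le_mul_of_nonneg_right hp (abs_nonneg _)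
      have t2 : |q * sl (wd e z₀ (0, 1)) a| ≤ |sl wy a| := by
        rw [abs_mul, e2]; exact mul_le_mul_of_nonneg_right hq (abs_nonneg _)
      have t3 := abs_add_le (p * sl (wd e z₀ (1, 0)) a) (q * sl (wd e z₀ (0, 1)) a)
      have t4 := abs_sub (sl (wF e z₀) a + (p * sl (wd e z₀ (1, 0)) a + q * sl (wd e z₀ (0, 1)) a))
        (p * sl (wd e z₀ (1, 0)) a + q * sl (wd e z₀ (0, 1)) a)
      rw [add_sub_cancel_right] at t4
      linarith
    rcases le_total |sl wy a| |sl wx a| with h | h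
    · left
      show |sl (wF e z₀) a| ≤ 2 * |sl wx a| + C
      linarith
    · right
      show |sl (wF e z₀) a| ≤ 2 * |sl wy a| + C
      linarith
  have hsub : {c : S → ℝ × ℝ | (∀ m, ‖c m‖ ≤ M) ∧ ∃ z : ℝ × ℝ, ‖z‖ ≤ 1 ∧ |z.1 - z₀.1| ≤ hx ∧
      |z.2 - z₀.2| ≤ hy ∧ ‖z - z₀‖ ≤ δ ∧ Gs one e c z = 0} ⊆
      {c | (fun m => (c m).1) ∈ A ∧ (fun m => (c m).2) ∈ A} := by
    rintro c ⟨hcM, z, hz1, hz2, hz3, hz4, hz0⟩
    have ht := taylor he hN hcM hM hz1 hz₀
    rw [hz0, zero_sub] at ht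
    have hC' : 2 * (N * (n ^ 2 * M)) * ‖z - z₀‖ ^ 2 ≤ C := by
      rw [hC]
      gcongr
    have ht2 : ‖Gs one e c z₀ + ((z - z₀).1 • Gx one e c z₀ + (z - z₀).2 • Gy one e c z₀)‖ ≤ C := by
      rw [← norm_neg]
      refine le_trans (le_of_eq ?_) (ht.trans hC')
      congr 1
      abel
    have e3 : Gs one e c z₀ + ((z - z₀).1 • Gx one e c z₀ + (z - z₀).2 • Gy one e c z₀) =
        lin (wF e z₀) c + ((z - z₀).1 • lin (wd e z₀ (1, 0)) c +
          (z - z₀).2 • lin (wd e z₀ (0, 1)) c) := by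
      rw [lin_wF, lin_wd, lin_wd]
      simp
    rw [e3] at ht2
    constructor
    · refine key _ (z - z₀).1 (z - z₀).2 hz2 hz3 ?_
      have := (norm_fst_le _).trans ht2
      simp only [Prod.fst_add, Prod.smul_fst, lin_fst, smul_eq_mul, Real.norm_eq_abs] at this
      exact this
    · refine key _ (z - z₀).1 (z - z₀).2 hz2 hz3 ?_
      have := (norm_snd_le _).trans ht2
      simp only [Prod.snd_add, Prod.smul_snd, lin_snd, smul_eq_mul, Real.norm_eq_abs] at this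
      exact this
  refine (measure_mono hsub).trans ?_
  rw [split]
  refine (mul_le_mul' hAp hAp).trans ?_
  rw [← ENNReal.ofReal_mul (by positivity)]
  exact ENNReal.ofReal_le_ofReal (le_of_eq (by ring))

end

end Pool.Agent.W960.HR
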