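import Pool.Agent.W960.HR.Exp

/-! The expected number of closed orbits of a random polynomial field: conclusion. -/

open Real Set MeasureTheory Topology Filter
open scoped ENNReal

namespace Pool.Agent.W960.HR

noncomputable section

open Pool.Agent.H709R2 (fld rot rotc rot_fld NP measurable_NP continuous_rotc exists_poly)
open Pool.Agent.H709Q (Maj)

variable {S : Finset (ℕ × ℕ)} {n : ℕ}

/-- the number of closed orbits integrated over the rotations -/
def Phi (c : S → ℝ × ℝ) : ℝ≥0∞ := ∫⁻ α in Ioo 0 π, NP (rotc α c)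

/-- the reciprocal of the probability at level `k` -/
def lk (n : ℕ) (k : ℕ) : ℝ := n ^ 3 * 2 ^ k

/-- the size of the coefficients at level `k` -/
def Mk (n : ℕ) (W : ℝ) (k : ℕ) : ℝ := 2 * n * W * lk n k

/-- the nondegeneracy at level `k` -/
def tk (n : ℕ) (D W : ℝ) (k : ℕ) : ℝ :=
  1 / (100000 * (D ^ 2 * (16 * (n ^ 4 * Mk n W k)) ^ 3 * lk n k))

lemma lk_ge {n : ℕ} (hn : 1 ≤ n) (k : ℕ) : 1 ≤ lk n k := by
  have hn1 : (1:ℝ) ≤ n := by exact_mod_cast hn
  have h2 : (1:ℝ) ≤ 2 ^ k := one_le_pow₀ (by norm_num)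
  exact one_le_mul_of_one_le_of_one_le (one_le_pow₀ hn1) h2

lemma mk_ge {n : ℕ} (hn : 1 ≤ n) {W : ℝ} (hW : 1 ≤ W) (k : ℕ) : 1 ≤ Mk n W k := by
  have hn1 : (1:ℝ) ≤ n := by exact_mod_cast hn
  have h2 := lk_ge hn k
  have h3 : 1 ≤ (n:ℝ) * W := one_le_mul_of_one_le_of_one_le hn1 hW
  unfold Mk
  have h4 : 2 * n * W * lk n k = 2 * ((n * W) * lk n k) := by ring
  rw [h4]
  have := one_le_mul_of_one_le_of_one_le h3 h2
  linarith

lemma tk_pos {n : ℕ} (hn : 1 ≤ n) {D W : ℝ} (hD : 1 ≤ D) (hW : 1 ≤ W) (k : ℕ) :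
    0 < tk n D W k ∧ tk n D W k ≤ 1 := by
  have hn1 : (1:ℝ) ≤ n := by exact_mod_cast hn
  have h1 := mk_ge hn hW k
  have h2 := lk_ge hn k
  have h3 : 1 ≤ (n:ℝ) ^ 4 * Mk n W k :=
    one_le_mul_of_one_le_of_one_le (one_le_pow₀ hn1) h1
  have h4 : 1 ≤ (16 * ((n:ℝ) ^ 4 * Mk n W k)) ^ 3 := one_le_pow₀ (by linarith)
  have h5 : 1 ≤ D ^ 2 * (16 * ((n:ℝ) ^ 4 * Mk n W k)) ^ 3 * lk n k :=
    one_le_mul_of_one_le_of_one_le (one_le_mul_of_one_le_of_one_le (one_le_pow₀ hD) h4) h2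
  unfold tk
  refine ⟨by positivity, ?_⟩
  rw [div_le_one (by positivity)]
  linarith

/-- the bound at level `k` -/
def bk (n : ℕ) (D W : ℝ) (k : ℕ) : ℝ :=
  700000 * (24 + 32 * Real.log (n * D * W) + 5 * k)

lemma log_level {n : ℕ} (hn : 1 ≤ n) {D W : ℝ} (hD : 1 ≤ D) (hW : 1 ≤ W) (k : ℕ) :
    700000 * (1 + Real.log (n * Mk n W k / tk n D W k)) ≤ bk n D W k := by
  have hn1 : (1:ℝ) ≤ n := by exact_mod_cast hn
  have hn0 : (0:ℝ) < n := by linarith
  have hD0 : 0 < D := by linarith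
  have hW0 : 0 < W := by linarith
  have e1 : n * Mk n W k / tk n D W k = 6553600000 * (D ^ 2 * W ^ 4 * n ^ 32) * (2 ^ k) ^ 5 := by
    unfold tk Mk lk
    field_simp
    ring
  have e2 : D ^ 2 * W ^ 4 * (n:ℝ) ^ 32 ≤ (n * D * W) ^ 32 := by
    rw [mul_pow, mul_pow]
    have h1 : D ^ 2 ≤ D ^ 32 := pow_le_pow_right₀ hD (by norm_num)
    have h2 : W ^ 4 ≤ W ^ 32 := pow_le_pow_right₀ hW (by norm_num)
    calc D ^ 2 * W ^ 4 * (n:ℝ) ^ 32 ≤ D ^ 32 * W ^ 32 * (n:ℝ) ^ 32 := by gcongr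
      _ = _ := by ring
  have e3 : (6553600000 : ℝ) ≤ Real.exp 23 := by
    have h1 : Real.exp 23 = Real.exp 1 ^ 23 := by rw [← Real.exp_nat_mul]; norm_num
    rw [h1]
    calc (6553600000 : ℝ) ≤ (27 / 10) ^ 23 := by norm_num
      _ ≤ Real.exp 1 ^ 23 := by
          gcongr
          linarith [Real.exp_one_gt_d9]
  have e4 : Real.log (n * Mk n W k / tk n D W k) ≤ 23 + 32 * Real.log (n * D * W) + 5 * k := by
    rw [e1]
    have h1 : 6553600000 * (D ^ 2 * W ^ 4 * (n:ℝ) ^ 32) * (2 ^ k) ^ 5 ≤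
        Real.exp 23 * (n * D * W) ^ 32 * (Real.exp k) ^ 5 := by
      have h2 : (2:ℝ) ^ k ≤ Real.exp k := by
        have h3 : (2:ℝ) ≤ Real.exp 1 := by linarith [Real.exp_one_gt_d9]
        calc (2:ℝ) ^ k ≤ Real.exp 1 ^ k := by gcongr
          _ = Real.exp k := by rw [← Real.exp_nat_mul]; congr 1; ring
      gcongr
    refine (Real.log_le_log (by positivity) h1).trans ?_
    rw [Real.log_mul (by positivity) (by positivity), Real.log_mul (by positivity) (by positivity),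
      Real.log_exp, Real.log_pow, Real.log_pow, Real.log_exp]
    push_cast
    exact le_rfl
  unfold bk
  exact mul_le_mul_of_nonneg_left (by linarith) (by norm_num)

lemma bk_ge (hn : 1 ≤ n) {D W : ℝ} (hD : 1 ≤ D) (hW : 1 ≤ W) (k : ℕ) : 1 ≤ bk n D W k := by
  have hn1 : (1:ℝ) ≤ n := by exact_mod_cast hn
  have h1 : 0 ≤ Real.log (n * D * W) := Real.log_nonneg
    (one_le_mul_of_one_le_of_one_le (one_le_mul_of_one_le_of_one_le hn1 hD) hW)
  have h3 : (0:ℝ) ≤ k := Nat.cast_nonneg k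
  unfold bk
  linarith

/-- the integral over the rotations, pointwise -/
lemma phi_le_bk (hF : Full n S) {D W : ℝ} (hD : 1 ≤ D) (hW : 1 ≤ W) (k : ℕ) {c : S → ℝ × ℝ}
    (hg : Good n c (Mk n W k) (tk n D W k)) :
    Phi c ≤ ENNReal.ofReal (bk n D W k) * (1 + n * NZ c) ∧ NZ c ≤ (n:ℝ≥0∞) ^ 2 := by
  obtain ⟨Z, hZc, hNZ, g, hg1, hg2, hg3⟩ := phi_le hF (mk_ge hF.one_le hW k)
    (tk_pos hF.one_le hD hW k).1 (tk_pos hF.one_le hD hW k).2 hg
  have hb := bk_ge hF.one_le hD hW k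
  constructor
  · unfold Phi
    refine (setLIntegral_mono' measurableSet_Ioo hg2).trans (hg3.trans ?_)
    rw [hNZ]
    have e1 : ENNReal.ofReal (bk n D W k) * (1 + n * (Z.card : ℝ≥0∞)) =
        ENNReal.ofReal (bk n D W k * (1 + n * Z.card)) := by
      rw [ENNReal.ofReal_mul (by linarith), ENNReal.ofReal_add (by norm_num) (by positivity),
        ENNReal.ofReal_one, ENNReal.ofReal_mul (by positivity), ENNReal.ofReal_natCast,
        ENNReal.ofReal_natCast]
    rw [e1]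
    apply ENNReal.ofReal_le_ofReal
    exact mul_le_mul_of_nonneg_right (log_level hF.one_le hD hW k) (by positivity)
  · rw [hNZ]
    exact_mod_cast hZc

/-- layers -/
lemma phi_le_tsum (hF : Full n S) {D W : ℝ} (hD : 1 ≤ D) (hW : 1 ≤ W) (c : S → ℝ × ℝ) :
    Phi c ≤ ENNReal.ofReal (bk n D W 0) * (1 + n * NZ c) + ∑' k : ℕ,
      {c : S → ℝ × ℝ | ¬ Good n c (Mk n W k) (tk n D W k)}.indicator
        (fun _ => ENNReal.ofReal (bk n D W (k + 1) * (2 * n ^ 3))) c := by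
  have hn1 : (1:ℝ) ≤ n := by exact_mod_cast hF.one_le
  by_cases h : ∃ k, Good n c (Mk n W k) (tk n D W k)
  · classical
    have hs := Nat.find_spec h
    have hm := fun j => Nat.find_min h (m := j)
    set k := Nat.find h with hk
    rcases Nat.eq_zero_or_pos k with h0 | h0
    · rw [h0] at hs
      exact (phi_le_bk hF hD hW 0 hs).1.trans le_self_add
    · obtain ⟨j, hj⟩ := Nat.exists_eq_add_of_le' h0
      have h1 : ¬ Good n c (Mk n W j) (tk n D W j) := hm j (by omega)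
      have h2 : ENNReal.ofReal (bk n D W (j + 1) * (2 * n ^ 3)) ≤ ∑' k : ℕ,
          {c : S → ℝ × ℝ | ¬ Good n c (Mk n W k) (tk n D W k)}.indicator
            (fun _ => ENNReal.ofReal (bk n D W (k + 1) * (2 * n ^ 3))) c := by
        refine le_trans ?_ (ENNReal.le_tsum j)
        rw [indicator_of_mem (show c ∈ {c : S → ℝ × ℝ | ¬ Good n c (Mk n W j) (tk n D W j)} from h1)]
      rw [hj] at hs
      obtain ⟨h3, h4⟩ := phi_le_bk hF hD hW (j + 1) hs
      refine h3.trans (le_trans ?_ (h2.trans le_add_self))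
      have hb := bk_ge hF.one_le hD hW (j + 1)
      rw [ENNReal.ofReal_mul (by linarith)]
      refine mul_le_mul_right ?_ _
      calc 1 + (n:ℝ≥0∞) * NZ c ≤ 1 + (n:ℝ≥0∞) * (n:ℝ≥0∞) ^ 2 := by gcongr
        _ = ENNReal.ofReal (1 + n * n ^ 2) := by
            rw [ENNReal.ofReal_add (by norm_num) (by positivity), ENNReal.ofReal_one,
              ENNReal.ofReal_mul (by positivity), ENNReal.ofReal_pow (by positivity),
              ENNReal.ofReal_natCast]
        _ ≤ ENNReal.ofReal (2 * n ^ 3) := by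
            apply ENNReal.ofReal_le_ofReal
            have : (1:ℝ) ≤ (n:ℝ) ^ 3 := one_le_pow₀ hn1
            nlinarith
  · push Not at h
    have h1 : ∑' k : ℕ, {c : S → ℝ × ℝ | ¬ Good n c (Mk n W k) (tk n D W k)}.indicator
        (fun _ => ENNReal.ofReal (bk n D W (k + 1) * (2 * n ^ 3))) c = ⊤ := by
      rw [eq_top_iff]
      have h2 : ∀ k : ℕ, (1:ℝ≥0∞) ≤ {c : S → ℝ × ℝ | ¬ Good n c (Mk n W k) (tk n D W k)}.indicator
          (fun _ => ENNReal.ofReal (bk n D W (k + 1) * (2 * n ^ 3))) c := by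
        intro k
        rw [indicator_of_mem (show c ∈ {c : S → ℝ × ℝ | ¬ Good n c (Mk n W k) (tk n D W k)} from h k)]
        rw [← ENNReal.ofReal_one]
        apply ENNReal.ofReal_le_ofReal
        have h5 := bk_ge hF.one_le hD hW (k + 1)
        have h6 : (1:ℝ) ≤ (n:ℝ) ^ 3 := one_le_pow₀ hn1
        nlinarith
      calc (⊤ : ℝ≥0∞) = ∑' _ : ℕ, (1:ℝ≥0∞) := (ENNReal.tsum_const_eq_top_of_ne_zero one_ne_zero).symm
        _ ≤ _ := ENNReal.tsum_le_tsum h2
    rw [h1]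
    simp

/-- invariance under rotations -/
def RotInv (μ : S → Measure (ℝ × ℝ)) : Prop := ∀ m α, (μ m).map (rot α) = μ m

lemma prob_level (hF : Full n S) (μ : S → Measure (ℝ × ℝ)) [∀ m, IsProbabilityMeasure (μ m)]
    {D W : ℝ} (hD1 : 1 ≤ D) (hW1 : 1 ≤ W) (hD : Dens μ D) (hW : Mom μ W) (k : ℕ) :
    Measure.pi μ {c | ¬ Good n c (Mk n W k) (tk n D W k)} ≤ ENNReal.ofReal (2 / lk n k) := by
  have hn := hF.one_le
  have hn1 : (1:ℝ) ≤ n := by exact_mod_cast hn
  obtain ⟨ht, ht1⟩ := tk_pos hn hD1 hW1 k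
  refine (prob_bad hF μ hD1 (by linarith) hD hW (mk_ge hn hW1 k) ht ht1).trans ?_
  apply ENNReal.ofReal_le_ofReal
  have hlk := lk_ge hn k
  have hlk0 : 0 < lk n k := by linarith
  have e1 : 4 * (n:ℝ) ^ 2 * W / Mk n W k ^ 2 ≤ 1 / lk n k := by
    unfold Mk
    rw [div_le_div_iff₀ (by positivity) hlk0]
    have h2 : 4 * (n:ℝ) ^ 2 * W * lk n k ≤ 4 * (n:ℝ) ^ 2 * (W * lk n k) ^ 2 := by
      have h3 : W * lk n k ≤ (W * lk n k) ^ 2 := by
        have := one_le_mul_of_one_le_of_one_le hW1 hlk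
        nlinarith
      calc 4 * (n:ℝ) ^ 2 * W * lk n k = 4 * (n:ℝ) ^ 2 * (W * lk n k) := by ring
        _ ≤ _ := by gcongr
    calc 4 * (n:ℝ) ^ 2 * W * lk n k ≤ 4 * (n:ℝ) ^ 2 * (W * lk n k) ^ 2 := h2
      _ = 1 * (2 * n * W * lk n k) ^ 2 := by ring
  have e2 : 100000 * (D ^ 2 * (16 * ((n:ℝ) ^ 4 * Mk n W k)) ^ 3 * tk n D W k) = 1 / lk n k := by
    have hM := mk_ge hn hW1 k
    have hM0 : 0 < Mk n W k := by linarith
    have hD0 : 0 < D := by linarith
    unfold tk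
    field_simp
  rw [e2]
  have : 2 / lk n k = 1 / lk n k + 1 / lk n k := by ring
  linarith

/-- almost all vectors of coefficients are good at some level -/
lemma ae_good (hF : Full n S) (μ : S → Measure (ℝ × ℝ)) [∀ m, IsProbabilityMeasure (μ m)]
    {D W : ℝ} (hD1 : 1 ≤ D) (hW1 : 1 ≤ W) (hD : Dens μ D) (hW : Mom μ W) :
    ∀ᵐ c ∂Measure.pi μ, ∃ k, Good n c (Mk n W k) (tk n D W k) := by
  have hn1 : (1:ℝ) ≤ n := by exact_mod_cast hF.one_le
  rw [ae_iff]
  have h1 : ∀ k : ℕ, Measure.pi μ {c : S → ℝ × ℝ | ¬ ∃ k, Good n c (Mk n W k) (tk n D W k)} ≤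
      ENNReal.ofReal (2 * (1 / 2) ^ k) := by
    intro k
    refine (measure_mono ?_).trans ((prob_level hF μ hD1 hW1 hD hW k).trans
      (ENNReal.ofReal_le_ofReal ?_))
    · intro c hc hg
      exact hc ⟨k, hg⟩
    · unfold lk
      have h3 : (1:ℝ) ≤ (n:ℝ) ^ 3 := one_le_pow₀ hn1
      have h4 : (0:ℝ) < 2 ^ k := by positivity
      have h5 : (1 / 2 : ℝ) ^ k = 1 / 2 ^ k := by rw [one_div, one_div, inv_pow]
      rw [h5, mul_one_div]
      apply div_le_div_of_nonneg_left (by norm_num) h4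
      nlinarith
  have h2 : Tendsto (fun k : ℕ => ENNReal.ofReal (2 * (1 / 2) ^ k)) atTop (𝓝 0) := by
    have h3 : Tendsto (fun k : ℕ => (2:ℝ) * (1 / 2) ^ k) atTop (𝓝 (2 * 0)) :=
      (tendsto_pow_atTop_nhds_zero_of_lt_one (by norm_num) (by norm_num)).const_mul 2
    rw [mul_zero] at h3
    have h4 := (ENNReal.tendsto_ofReal h3)
    rwa [ENNReal.ofReal_zero] at h4
  exact le_antisymm (ge_of_tendsto' h2 h1) zero_le

/-- the integral over the rotations, in the mean -/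
theorem lintegral_phi (hF : Full n S) (μ : S → Measure (ℝ × ℝ)) [∀ m, IsProbabilityMeasure (μ m)]
    {D W : ℝ} (hD1 : 1 ≤ D) (hW1 : 1 ≤ W) (hD : Dens μ D) (hW : Mom μ W) :
    ∫⁻ c, Phi c ∂Measure.pi μ ≤
      ENNReal.ofReal (220000000 * (1 + Real.log (n * D * W))) *
        (1 + n * ∫⁻ c, NZ c ∂Measure.pi μ) := by
  have hn := hF.one_le
  have hn1 : (1:ℝ) ≤ n := by exact_mod_cast hn
  have hn0 : (0:ℝ) < n := by linarith
  set P := Measure.pi μ with hP
  set l := Real.log (n * D * W) with hl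
  have hl0 : 0 ≤ l := Real.log_nonneg
    (one_le_mul_of_one_le_of_one_le (one_le_mul_of_one_le_of_one_le hn1 hD1) hW1)
  have hb : ∀ k, 0 ≤ bk n D W k := fun k => by linarith [bk_ge hn hD1 hW1 k]
  set E : ℕ → Set (S → ℝ × ℝ) := fun k =>
    toMeasurable P {c | ¬ Good n c (Mk n W k) (tk n D W k)} with hE
  set T : (S → ℝ × ℝ) → ℝ≥0∞ := fun c => ∑' k : ℕ,
      (E k).indicator (fun _ => ENNReal.ofReal (bk n D W (k + 1) * (2 * n ^ 3))) c with hT
  have hTm : Measurable T := Measurable.tsum fun k =>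
    measurable_const.indicator (measurableSet_toMeasurable _ _)
  have h1 : ∀ c : S → ℝ × ℝ, Phi c ≤ ENNReal.ofReal (bk n D W 0) * (1 + n * NZ c) + T c := by
    intro c
    refine (phi_le_tsum hF hD1 hW1 c).trans (add_le_add le_rfl (ENNReal.tsum_le_tsum fun k => ?_))
    exact indicator_le_indicator_of_subset (subset_toMeasurable _ _) (fun _ => zero_le) c
  refine (lintegral_mono h1).trans ?_
  rw [lintegral_add_right _ hTm, lintegral_const_mul' _ _ ENNReal.ofReal_ne_top,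
    lintegral_add_left measurable_const, lintegral_const, measure_univ, mul_one,
    lintegral_const_mul' _ _ (ENNReal.natCast_ne_top n)]
  set Y := 1 + (n:ℝ≥0∞) * ∫⁻ c, NZ c ∂P with hY
  have hTi : ∫⁻ c, T c ∂P ≤ ENNReal.ofReal (191000000 * (1 + l)) := by
    simp only [hT]
    rw [lintegral_tsum fun k =>
      (measurable_const.indicator (measurableSet_toMeasurable _ _)).aemeasurable]
    have h2 : ∀ k, ∫⁻ c, (E k).indicator
        (fun _ => ENNReal.ofReal (bk n D W (k + 1) * (2 * n ^ 3))) c ∂P ≤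
        ENNReal.ofReal (bk n D W (k + 1) * (4 * (1 / 2) ^ k)) := by
      intro k
      rw [lintegral_indicator (measurableSet_toMeasurable _ _), setLIntegral_const,
        measure_toMeasurable]
      refine (mul_le_mul_right (prob_level hF μ hD1 hW1 hD hW k) _).trans ?_
      have h3 := hb (k + 1)
      rw [← ENNReal.ofReal_mul (by positivity)]
      apply ENNReal.ofReal_le_ofReal
      have h5 : (1 / 2 : ℝ) ^ k = 1 / 2 ^ k := by rw [one_div, one_div, inv_pow]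
      rw [h5]
      unfold lk
      refine le_of_eq ?_
      field_simp
      ring
    set a : ℝ := 700000 * (24 + 32 * l) with ha
    set b : ℝ := 3500000 with hbd
    have hbk : ∀ k, bk n D W k = a + b * k := by
      intro k
      unfold bk
      rw [ha, hbd, ← hl]; ring
    have hs1 : HasSum (fun k : ℕ => ((1 / 2 : ℝ)) ^ k) 2 := hasSum_geometric_two
    have hs2 : HasSum (fun k : ℕ => (k : ℝ) * (1 / 2) ^ k) 2 := by
      have := hasSum_coe_mul_geometric_of_norm_lt_one (r := (1 / 2 : ℝ)) (by norm_num)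
      norm_num at this ⊢
      exact this
    have hs : HasSum (fun k : ℕ => bk n D W (k + 1) * (4 * (1 / 2) ^ k)) (8 * a + 16 * b) := by
      have h3 := ((hs1.mul_left (4 * (a + b))).add (hs2.mul_left (4 * b)))
      have e : 4 * (a + b) * 2 + 4 * b * 2 = 8 * a + 16 * b := by ring
      rw [e] at h3
      have e' : (fun k : ℕ => bk n D W (k + 1) * (4 * (1 / 2) ^ k)) =
          fun k : ℕ => 4 * (a + b) * (1 / 2) ^ k + 4 * b * (k * (1 / 2) ^ k) := by
        funext k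
        rw [hbk]
        push_cast
        ring
      rw [e']
      exact h3
    refine (ENNReal.tsum_le_tsum h2).trans ?_
    rw [← ENNReal.ofReal_tsum_of_nonneg (fun k => mul_nonneg (hb _) (by positivity)) hs.summable,
      hs.tsum_eq]
    apply ENNReal.ofReal_le_ofReal
    rw [ha, hbd]
    linarith
  have hY1 : 1 ≤ Y := le_self_add
  have h4 : ENNReal.ofReal (191000000 * (1 + l)) ≤ ENNReal.ofReal (191000000 * (1 + l)) * Y :=
    le_mul_of_one_le_right zero_le hY1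
  calc ENNReal.ofReal (bk n D W 0) * Y + ∫⁻ c, T c ∂P
      ≤ ENNReal.ofReal (bk n D W 0) * Y + ENNReal.ofReal (191000000 * (1 + l)) * Y :=
        add_le_add le_rfl (hTi.trans h4)
    _ = ENNReal.ofReal (bk n D W 0 + 191000000 * (1 + l)) * Y := by
        rw [← add_mul, ← ENNReal.ofReal_add (hb 0) (by positivity)]
    _ ≤ ENNReal.ofReal (220000000 * (1 + l)) * Y := by
        refine mul_le_mul_left (ENNReal.ofReal_le_ofReal ?_) _
        unfold bk
        rw [← hl, Nat.cast_zero]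
        linarith

lemma measurePreserving_rotc' (μ : S → Measure (ℝ × ℝ)) [∀ m, IsProbabilityMeasure (μ m)]
    (hR : RotInv μ) (α : ℝ) :
    MeasurePreserving (rotc α : (S → ℝ × ℝ) → (S → ℝ × ℝ)) (Measure.pi μ) (Measure.pi μ) :=
  measurePreserving_pi μ μ fun m => ⟨(H709R2.continuous_rot α).measurable, hR m α⟩

/-- **The expected number of closed orbits.** -/
theorem expected (hF : Full n S) (μ : S → Measure (ℝ × ℝ)) [∀ m, IsProbabilityMeasure (μ m)]
    {D W : ℝ} (hD1 : 1 ≤ D) (hW1 : 1 ≤ W) (hD : Dens μ D) (hW : Mom μ W) (hR : RotInv μ) :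
    ∫⁻ c, NP c ∂Measure.pi μ ≤
      ENNReal.ofReal (80000000 * (1 + Real.log (n * D * W))) *
        (1 + n * ∫⁻ c, NZ c ∂Measure.pi μ) := by
  have hn1 : (1:ℝ) ≤ n := by exact_mod_cast hF.one_le
  have hl0 : 0 ≤ Real.log (n * D * W) := Real.log_nonneg
    (one_le_mul_of_one_le_of_one_le (one_le_mul_of_one_le_of_one_le hn1 hD1) hW1)
  have h1 : ∀ α, ∫⁻ c, NP (rotc α c) ∂Measure.pi μ = ∫⁻ c, NP c ∂Measure.pi μ := fun α =>
    (measurePreserving_rotc' μ hR α).lintegral_comp measurable_NP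
  have hmeas : Measurable (Function.uncurry fun (α : ℝ) (c : S → ℝ × ℝ) => NP (rotc α c)) :=
    measurable_NP.comp continuous_rotc.measurable
  have h2 : ∫⁻ c, Phi c ∂Measure.pi μ = ENNReal.ofReal π * ∫⁻ c, NP c ∂Measure.pi μ := by
    unfold Phi
    rw [← lintegral_lintegral_swap (μ := volume.restrict (Ioo 0 π)) (ν := Measure.pi μ)
      (f := fun (α : ℝ) (c : S → ℝ × ℝ) => NP (rotc α c)) hmeas.aemeasurable]
    simp only [h1]
    rw [lintegral_const, Measure.restrict_apply_univ, Real.volume_Ioo, sub_zero, mul_comm]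
  have h3 := lintegral_phi hF μ hD1 hW1 hD hW
  rw [h2] at h3
  set Y := 1 + (n:ℝ≥0∞) * ∫⁻ c, NZ c ∂Measure.pi μ with hY
  have h4 : ENNReal.ofReal 3 * ∫⁻ c, NP c ∂Measure.pi μ ≤
      ENNReal.ofReal 3 * (ENNReal.ofReal (80000000 * (1 + Real.log (n * D * W))) * Y) := by
    rw [← mul_assoc, ← ENNReal.ofReal_mul (by norm_num)]
    refine le_trans ?_ (h3.trans (mul_le_mul_left (ENNReal.ofReal_le_ofReal ?_) _))
    · gcongr
      exact Real.pi_gt_three.le
    · nlinarith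
  exact (ENNReal.mul_le_mul_iff_right (by simp) ENNReal.ofReal_ne_top).1 h4

/-- the expected number of zeros is at most `n ^ 2` -/
lemma lintegral_NZ_le (hF : Full n S) (μ : S → Measure (ℝ × ℝ)) [∀ m, IsProbabilityMeasure (μ m)]
    {D W : ℝ} (hD1 : 1 ≤ D) (hW1 : 1 ≤ W) (hD : Dens μ D) (hW : Mom μ W) :
    ∫⁻ c, NZ c ∂Measure.pi μ ≤ (n:ℝ≥0∞) ^ 2 := by
  have h1 : ∀ᵐ c ∂Measure.pi μ, NZ c ≤ (n:ℝ≥0∞) ^ 2 := by
    filter_upwards [ae_good hF μ hD1 hW1 hD hW] with c hc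
    obtain ⟨k, hk⟩ := hc
    exact (phi_le_bk hF hD1 hW1 k hk).2
  refine (lintegral_mono_ae h1).trans ?_
  rw [lintegral_const, measure_univ, mul_one]

end

end Pool.Agent.W960.HR
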