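import Pool.Agent.W960.HR.Rect
import Pool.Agent.W960.HR.Exp2

/-! The mean number of zeros of a Gaussian polynomial field in the unit square. -/

open Real Set MeasureTheory Topology Filter ProbabilityTheory
open scoped ENNReal

namespace Pool.Agent.W960.HR

noncomputable section

variable {n : ℕ}

/-- intervals of suitable length -/
def Iv (n : ℕ) (x₀ r : ℝ) : Prop :=
  0 < r ∧ ∀ x ∈ Icc x₀ (x₀ + r), |x| ≤ 1 ∧ (r ≤ 1 - x ^ 2 ∨ r * n ≤ 1)

/-- the lengths -/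
def len (A a : ℕ) : ℝ := if a < A then (1 / 2) ^ (a + 1) else (1 / 2) ^ A

lemma len_pos (A a : ℕ) : 0 < len A a := by
  unfold len
  split_ifs <;> positivity

lemma iv_pos {A a : ℕ} (hA : n ≤ 2 ^ A) (ha : a ≤ A) : Iv n (1 - (1 / 2) ^ a) (len A a) := by
  refine ⟨len_pos A a, fun x hx => ?_⟩
  have hp : (0:ℝ) < (1 / 2) ^ a := by positivity
  have hp1 : (1 / 2 : ℝ) ^ a ≤ 1 := pow_le_one₀ (by norm_num) (by norm_num)
  have h0 : 0 ≤ x := by linarith [hx.1]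
  unfold len at hx ⊢
  split_ifs at hx ⊢ with h
  · have e : (1 / 2 : ℝ) ^ (a + 1) = (1 / 2) ^ a / 2 := by rw [pow_succ]; ring
    have h1 : x ≤ 1 - (1 / 2) ^ (a + 1) := by
      have := hx.2
      rw [e] at this ⊢
      linarith
    refine ⟨?_, Or.inl ?_⟩
    · rw [abs_of_nonneg h0]
      have : (0:ℝ) < (1 / 2) ^ (a + 1) := by positivity
      linarith
    · nlinarith
  · have haA : a = A := by omega
    have h1 : x ≤ 1 := by
      have := hx.2
      rw [haA] at this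
      linarith
    refine ⟨by rw [abs_of_nonneg h0]; exact h1, Or.inr ?_⟩
    have h2 : (n:ℝ) ≤ 2 ^ A := by exact_mod_cast hA
    calc (1 / 2 : ℝ) ^ A * n ≤ (1 / 2) ^ A * 2 ^ A := by gcongr
      _ = 1 := by rw [← mul_pow]; norm_num

lemma iv_neg {x₀ r : ℝ} (h : Iv n x₀ r) : Iv n (-x₀ - r) r := by
  refine ⟨h.1, fun x hx => ?_⟩
  have h1 := h.2 (-x) ⟨by linarith [hx.2], by linarith [hx.1]⟩
  rw [abs_neg, neg_sq] at h1
  exact h1

/-- covering of the interval `[-1,1]` -/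
lemma cover (A : ℕ) (hA : n ≤ 2 ^ A) : ∃ F : Finset (ℝ × ℝ), F.card ≤ 2 * (A + 1) ∧
    (∀ p ∈ F, Iv n p.1 p.2) ∧ ∀ x : ℝ, |x| ≤ 1 → ∃ p ∈ F, x ∈ Icc p.1 (p.1 + p.2) := by
  classical
  set f : ℕ → ℝ × ℝ := fun a => (1 - (1 / 2) ^ a, len A a) with hf
  set g : ℕ → ℝ × ℝ := fun a => (-(1 - (1 / 2) ^ a) - len A a, len A a) with hg
  refine ⟨(Finset.range (A + 1)).image f ∪ (Finset.range (A + 1)).image g, ?_, ?_, ?_⟩
  · refine (Finset.card_union_le _ _).trans ?_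
    have h1 := Finset.card_image_le (s := Finset.range (A + 1)) (f := f)
    have h2 := Finset.card_image_le (s := Finset.range (A + 1)) (f := g)
    rw [Finset.card_range] at h1 h2
    omega
  · intro p hp
    rw [Finset.mem_union, Finset.mem_image, Finset.mem_image] at hp
    rcases hp with ⟨a, ha, rfl⟩ | ⟨a, ha, rfl⟩
    · rw [Finset.mem_range] at ha
      exact iv_pos hA (by omega)
    · rw [Finset.mem_range] at ha
      exact iv_neg (iv_pos hA (by omega))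
  · have key : ∀ x : ℝ, 0 ≤ x → x ≤ 1 → ∃ a ∈ Finset.range (A + 1),
        x ∈ Icc (1 - (1 / 2) ^ a) (1 - (1 / 2) ^ a + len A a) := by
      intro x h0 h1
      set a := Nat.findGreatest (fun a => 1 - (1 / 2 : ℝ) ^ a ≤ x) A with ha
      have haA : a ≤ A := Nat.findGreatest_le A
      have h2 : 1 - (1 / 2 : ℝ) ^ a ≤ x :=
        Nat.findGreatest_spec (P := fun a => 1 - (1 / 2 : ℝ) ^ a ≤ x) (Nat.zero_le A)
          (by simpa using h0)
      refine ⟨a, Finset.mem_range.2 (by omega), h2, ?_⟩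
      unfold len
      split_ifs with h
      · have h3 := Nat.findGreatest_is_greatest (P := fun a => 1 - (1 / 2 : ℝ) ^ a ≤ x)
          (n := A) (k := a + 1) (by omega) (by omega)
        have e : (1 / 2 : ℝ) ^ (a + 1) = (1 / 2) ^ a / 2 := by rw [pow_succ]; ring
        simp only [not_le] at h3
        rw [e] at h3 ⊢
        linarith
      · have : a = A := by omega
        rw [this]; linarith
    intro x hx
    rw [abs_le] at hx
    rcases le_total 0 x with h | h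
    · obtain ⟨a, ha, h1⟩ := key x h hx.2
      exact ⟨f a, Finset.mem_union_left _ (Finset.mem_image_of_mem f ha), h1⟩
    · obtain ⟨a, ha, h1⟩ := key (-x) (by linarith) (by linarith)
      refine ⟨g a, Finset.mem_union_right _ (Finset.mem_image_of_mem g ha), ?_⟩
      simp only [hg]
      constructor
      · linarith [h1.2]
      · linarith [h1.1]

lemma K1_of_iv {x₀ r : ℝ} (h : Iv n x₀ r) {x p : ℝ} (hx : x ∈ Icc x₀ (x₀ + r)) (hp : 0 ≤ p) :
    r ^ 2 * K1 n (x ^ 2) p ≤ 2 * K0 n (x ^ 2) p := by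
  obtain ⟨hr, h2⟩ := h
  obtain ⟨h3, h4⟩ := h2 x hx
  have hK0 := K0_ge_one n (sq_nonneg x) hp
  have hK1 : 0 ≤ K1 n (x ^ 2) p := by
    unfold K1
    exact Finset.sum_nonneg fun m _ => by positivity
  rcases h4 with h4 | h4
  · have h5 : r ^ 2 ≤ (1 - x ^ 2) ^ 2 := by gcongr
    calc r ^ 2 * K1 n (x ^ 2) p ≤ (1 - x ^ 2) ^ 2 * K1 n (x ^ 2) p := by gcongr
      _ ≤ 2 * K0 n (x ^ 2) p := K1_le' (sq_nonneg x) (by linarith) hp
  · have h5 : r ^ 2 * (n:ℝ) ^ 2 ≤ 1 := by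
      rw [← mul_pow]
      exact pow_le_one₀ (by positivity) h4
    calc r ^ 2 * K1 n (x ^ 2) p ≤ r ^ 2 * ((n:ℝ) ^ 2 * K0 n (x ^ 2) p) := by
          gcongr
          exact K1_le (sq_nonneg x) hp
      _ = (r ^ 2 * (n:ℝ) ^ 2) * K0 n (x ^ 2) p := by ring
      _ ≤ 1 * K0 n (x ^ 2) p := by gcongr
      _ ≤ 2 * K0 n (x ^ 2) p := by linarith

lemma encard_biUnion_le' {ι β : Type*} (s : Finset ι) (A : ι → Set β) :
    ((⋃ i ∈ s, A i).encard : ℝ≥0∞) ≤ ∑ i ∈ s, ((A i).encard : ℝ≥0∞) := by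
  let _ : MeasurableSpace β := ⊤
  have h1 : ∀ t : Set β, Measure.count t = (t.encard : ℝ≥0∞) := fun t =>
    Measure.count_apply (MeasurableSpace.measurableSet_top)
  simp only [← h1]
  exact measure_biUnion_finset_le s A

/-- The mean number of zeros in the unit square. -/
theorem square_maj {e : T n → ℕ × ℕ} (hP : Perm n e) (he : ∀ m, (e m).1 + (e m).2 ≤ n) {A : ℕ}
    (hA : n ≤ 2 ^ A) :
    ∃ g : (T n → ℝ × ℝ) → ℝ≥0∞, Measurable g ∧ (∀ c, (({z : ℝ × ℝ | |z.1| ≤ 1 ∧ |z.2| ≤ 1 ∧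
      Gs one e c z = 0}.encard : ℕ∞) : ℝ≥0∞) ≤ g c) ∧
      ∫⁻ c, g c ∂GP (T n) ≤ ENNReal.ofReal (648 * (A + 1) ^ 2) := by
  obtain ⟨F, hF1, hF2, hF3⟩ := cover (n := n) A hA
  have h1 : ∀ q ∈ F ×ˢ F, ∃ g : (T n → ℝ × ℝ) → ℝ≥0∞, Measurable g ∧
      (∀ c, (({z : ℝ × ℝ | z.1 ∈ Icc q.1.1 (q.1.1 + q.1.2) ∧
      z.2 ∈ Icc q.2.1 (q.2.1 + q.2.2) ∧ Gs one e c z = 0}.encard : ℕ∞) : ℝ≥0∞) ≤ g c) ∧
      ∫⁻ c, g c ∂GP (T n) ≤ ENNReal.ofReal 162 := by
    rintro ⟨p, q⟩ hpq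
    rw [Finset.mem_product] at hpq
    have ip := hF2 p hpq.1
    have iq := hF2 q hpq.2
    have e2 : (√2 : ℝ) ^ 2 = 2 := Real.sq_sqrt (by norm_num)
    have := rect_maj (e := e) he (x₀ := p.1) (y₀ := q.1) (κ := √2) ip.1 iq.1 (by positivity)
      (fun z hz1 hz2 => by
        rw [sum_wF hP, sum_wdx hP, sum_wdy hP, e2]
        refine ⟨?_, K0_ge_one n (sq_nonneg _) (sq_nonneg _), K1_of_iv ip hz1 (sq_nonneg _), ?_⟩
        · rw [Prod.norm_def]
          exact max_le (ip.2 _ hz1).1 (iq.2 _ hz2).1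
        · rw [K0_swap]
          exact K1_of_iv iq hz2 (sq_nonneg _))
    rw [e2] at this
    norm_num at this ⊢
    exact this
  choose! g hg1 hg2 hg3 using h1
  refine ⟨fun c => ∑ q ∈ F ×ˢ F, g q c, Finset.measurable_fun_sum _ fun q hq => hg1 q hq, ?_, ?_⟩
  · intro c
    have h2 : {z : ℝ × ℝ | |z.1| ≤ 1 ∧ |z.2| ≤ 1 ∧ Gs one e c z = 0} ⊆
        ⋃ q ∈ F ×ˢ F, {z : ℝ × ℝ | z.1 ∈ Icc q.1.1 (q.1.1 + q.1.2) ∧
          z.2 ∈ Icc q.2.1 (q.2.1 + q.2.2) ∧ Gs one e c z = 0} := by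
      rintro z ⟨hz1, hz2, hz0⟩
      obtain ⟨p, hp, hzp⟩ := hF3 z.1 hz1
      obtain ⟨q, hq, hzq⟩ := hF3 z.2 hz2
      simp only [mem_iUnion]
      exact ⟨(p, q), Finset.mk_mem_product hp hq, hzp, hzq, hz0⟩
    refine (ENat.toENNReal_le.2 (encard_le_encard h2)).trans
      ((encard_biUnion_le' _ _).trans (Finset.sum_le_sum fun q hq => hg2 q hq c))
  · rw [lintegral_finsetSum _ fun q hq => hg1 q hq]
    refine (Finset.sum_le_card_nsmul _ _ _ hg3).trans ?_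
    rw [Finset.card_product, nsmul_eq_mul, ← ENNReal.ofReal_natCast,
      ← ENNReal.ofReal_mul (by positivity)]
    apply ENNReal.ofReal_le_ofReal
    have h3 : (F.card : ℝ) ≤ 2 * (A + 1) := by exact_mod_cast hF1
    push_cast
    calc (F.card : ℝ) * F.card * 162 ≤ (2 * (A + 1)) * (2 * (A + 1)) * 162 := by gcongr
      _ = 648 * (A + 1) ^ 2 := by ring

/-- The zeros in the plane and the zeros in the three charts. -/
lemma NZ_le_charts (c : T n → ℝ × ℝ) :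
    NZ c ≤ (({z : ℝ × ℝ | |z.1| ≤ 1 ∧ |z.2| ≤ 1 ∧ Gs one e0 c z = 0}.encard : ℕ∞) : ℝ≥0∞) +
      ((({z : ℝ × ℝ | |z.1| ≤ 1 ∧ |z.2| ≤ 1 ∧ Gs one (e1 n) c z = 0}.encard : ℕ∞) : ℝ≥0∞) +
      (({z : ℝ × ℝ | |z.1| ≤ 1 ∧ |z.2| ≤ 1 ∧ Gs one (e2 n) c z = 0}.encard : ℕ∞) : ℝ≥0∞)) := by
  have hS : ∀ m ∈ T n, m.1 + m.2 ≤ n := fun m hm => mem_T.1 hm
  set A0 : Set (ℝ × ℝ) := {z : ℝ × ℝ | |z.1| ≤ 1 ∧ |z.2| ≤ 1 ∧ Gs one e0 c z = 0} with hA0
  set A1 : Set (ℝ × ℝ) := {z : ℝ × ℝ | |z.1| ≤ 1 ∧ |z.2| ≤ 1 ∧ Gs one (e1 n) c z = 0} with hA1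
  set A2 : Set (ℝ × ℝ) := {z : ℝ × ℝ | |z.1| ≤ 1 ∧ |z.2| ≤ 1 ∧ Gs one (e2 n) c z = 0} with hA2
  set B1 : Set (ℝ × ℝ) := {z : ℝ × ℝ | 1 < |z.1| ∧ |z.2| ≤ |z.1| ∧ H709R2.fld c z = 0} with hB1
  set B2 : Set (ℝ × ℝ) := {z : ℝ × ℝ | 1 < |z.2| ∧ |z.1| ≤ |z.2| ∧ H709R2.fld c z = 0} with hB2
  have h1 : {z : ℝ × ℝ | H709R2.fld c z = 0} ⊆ A0 ∪ (B1 ∪ B2) := by
    intro z hz
    by_cases hz1 : |z.1| ≤ 1 ∧ |z.2| ≤ 1
    · left
      refine ⟨hz1.1, hz1.2, ?_⟩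
      have : H709R2.fld c z = Gs one e0 c z := by rw [fld_eq_Gs]; rfl
      rw [← this]; exact hz
    · right
      rcases le_total |z.2| |z.1| with h | h
      · left
        refine ⟨?_, h, hz⟩
        by_contra hcon
        exact hz1 ⟨not_lt.1 hcon, h.trans (not_lt.1 hcon)⟩
      · right
        refine ⟨?_, h, hz⟩
        by_contra hcon
        exact hz1 ⟨h.trans (not_lt.1 hcon), not_lt.1 hcon⟩
  have hb1 : B1.encard ≤ A1.encard := by
    refine Set.encard_le_encard_of_injOn (f := fun z : ℝ × ℝ => (1 / z.1, z.2 / z.1)) ?_ ?_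
    · rintro z ⟨hz1, hz2, hz0⟩
      have hz : z.1 ≠ 0 := by
        intro h; rw [h, abs_zero] at hz1; linarith
      refine ⟨?_, ?_, ?_⟩
      · simp only
        rw [abs_div, abs_one]
        exact div_le_one_of_le₀ hz1.le (abs_nonneg _)
      · simp only
        rw [abs_div]
        exact div_le_one_of_le₀ hz2 (abs_nonneg _)
      · have h2 := rel1 hS c z hz
        rw [hz0] at h2
        exact (smul_eq_zero.1 h2.symm).resolve_left (pow_ne_zero n hz)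
    · rintro z ⟨hz1, -, -⟩ w ⟨hw1, -, -⟩ h
      have hz : z.1 ≠ 0 := by
        intro h; rw [h, abs_zero] at hz1; linarith
      have hw : w.1 ≠ 0 := by
        intro h; rw [h, abs_zero] at hw1; linarith
      simp only [Prod.mk.injEq, one_div, inv_inj] at h
      obtain ⟨h2, h3⟩ := h
      rw [h2] at h3
      rw [div_left_inj' hw] at h3
      exact Prod.ext h2 h3
  have hb2 : B2.encard ≤ A2.encard := by
    refine Set.encard_le_encard_of_injOn (f := fun z : ℝ × ℝ => (1 / z.2, z.1 / z.2)) ?_ ?_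
    · rintro z ⟨hz1, hz2, hz0⟩
      have hz : z.swap.1 ≠ 0 := by
        intro h
        rw [Prod.fst_swap] at h
        rw [h, abs_zero] at hz1; linarith
      refine ⟨?_, ?_, ?_⟩
      · simp only
        rw [abs_div, abs_one]
        exact div_le_one_of_le₀ hz1.le (abs_nonneg _)
      · simp only
        rw [abs_div]
        exact div_le_one_of_le₀ hz2 (abs_nonneg _)
      · have h2 := rel2 hS c z.swap hz
        rw [Prod.swap_swap, hz0] at h2
        exact (smul_eq_zero.1 h2.symm).resolve_left (pow_ne_zero n hz)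
    · rintro z ⟨hz1, -, -⟩ w ⟨hw1, -, -⟩ h
      have hz : z.2 ≠ 0 := by
        intro h; rw [h, abs_zero] at hz1; linarith
      have hw : w.2 ≠ 0 := by
        intro h; rw [h, abs_zero] at hw1; linarith
      simp only [Prod.mk.injEq, one_div, inv_inj] at h
      obtain ⟨h2, h3⟩ := h
      rw [h2] at h3
      rw [div_left_inj' hw] at h3
      exact Prod.ext h3 h2
  have h2 : ({z : ℝ × ℝ | H709R2.fld c z = 0}.encard : ℕ∞) ≤ A0.encard + (A1.encard + A2.encard) :=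
    (encard_le_encard h1).trans ((encard_union_le _ _).trans
      (add_le_add le_rfl ((encard_union_le _ _).trans (add_le_add hb1 hb2))))
  unfold NZ
  exact_mod_cast ENat.toENNReal_le.2 h2

lemma clog_le {n : ℕ} (hn : 1 ≤ n) : ((Nat.clog 2 n : ℕ) : ℝ) + 1 ≤ 2 * (1 + Real.log n) := by
  have hn0 : (0:ℝ) < n := by exact_mod_cast hn
  have hn1 : (1:ℝ) ≤ n := by exact_mod_cast hn
  have hl : 0 ≤ Real.log n := Real.log_nonneg hn1
  rcases Nat.lt_or_ge 1 n with h | h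
  · have h1 := Nat.pow_pred_clog_lt_self (b := 2) (by norm_num) h
    have hc : 1 ≤ Nat.clog 2 n := Nat.clog_pos (by norm_num) h
    have h2 : ((2:ℝ)) ^ (Nat.clog 2 n - 1) ≤ n := by
      rw [Nat.pred_eq_sub_one] at h1
      exact_mod_cast h1.le
    have h3 := Real.log_le_log (by positivity) h2
    rw [Real.log_pow, Nat.cast_sub hc] at h3
    have h4 : (1 / 2 : ℝ) < Real.log 2 := by linarith [Real.log_two_gt_d9]
    push_cast at h3
    have h5 : (1:ℝ) ≤ Nat.clog 2 n := by exact_mod_cast hc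
    nlinarith
  · have : n = 1 := by omega
    subst this
    simp

/-- **The mean number of zeros of a Gaussian polynomial field.** -/
theorem NZ_maj (hn : 1 ≤ n) :
    ∃ g : (T n → ℝ × ℝ) → ℝ≥0∞, Measurable g ∧ (∀ c, NZ c ≤ g c) ∧
      ∫⁻ c, g c ∂GP (T n) ≤ ENNReal.ofReal (7776 * (1 + Real.log n) ^ 2) := by
  have hA : n ≤ 2 ^ Nat.clog 2 n := Nat.le_pow_clog (by norm_num) n
  have hd0 : ∀ m : T n, (e0 m).1 + (e0 m).2 ≤ n := fun m => mem_T.1 m.2
  have hd1 : ∀ m : T n, (e1 n m).1 + (e1 n m).2 ≤ n := fun m => by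
    have := mem_T.1 m.2
    simp only [e1]; omega
  have hd2 : ∀ m : T n, (e2 n m).1 + (e2 n m).2 ≤ n := fun m => by
    have := mem_T.1 m.2
    simp only [e2]; omega
  obtain ⟨g0, a0, b0, c0⟩ := square_maj (perm0 n) hd0 hA
  obtain ⟨g1, a1, b1, c1⟩ := square_maj (perm1 n) hd1 hA
  obtain ⟨g2, a2, b2, c2⟩ := square_maj (perm2 n) hd2 hA
  refine ⟨fun c => g0 c + (g1 c + g2 c), a0.add (a1.add a2), fun c => ?_, ?_⟩
  · exact (NZ_le_charts c).trans (add_le_add (b0 c) (add_le_add (b1 c) (b2 c)))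
  · rw [lintegral_add_left a0, lintegral_add_left a1]
    refine (add_le_add c0 (add_le_add c1 c2)).trans ?_
    rw [← ENNReal.ofReal_add (by positivity) (by positivity),
      ← ENNReal.ofReal_add (by positivity) (by positivity)]
    apply ENNReal.ofReal_le_ofReal
    have h1 := clog_le hn
    have h2 : (0:ℝ) ≤ (Nat.clog 2 n : ℕ) := Nat.cast_nonneg _
    have h3 : (((Nat.clog 2 n : ℕ) : ℝ) + 1) ^ 2 ≤ (2 * (1 + Real.log n)) ^ 2 := by gcongr
    nlinarith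

end

end Pool.Agent.W960.HR
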