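import Pool.Agent.W960.HR.Turn

/-! A closed orbit along which the direction of the field changes slowly on the scale of the
distance to a centre crosses one of finitely many rays near its nearest or farthest point. -/

open Real Set MeasureTheory Topology Filter
open scoped ENNReal

namespace Pool.Agent.W960.HR

open Pool.Agent.H709R2 (rot wedge ClosedOrbit)
open Pool.Agent.H709U
open Pool.Agent.W960.HQ (exists_angle_lift)

lemma exists_mul_mem {x y d : ℝ} (hd : 0 < d) (h : d ≤ |x - y|) : ∃ m : ℤ, m * d ∈ uIcc x y := by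
  rcases le_total x y with hxy | hxy
  · refine ⟨⌈x / d⌉, ?_⟩
    rw [uIcc_of_le hxy]
    have h1 := Int.le_ceil (x / d)
    have h2 := (Int.ceil_lt_add_one (x / d)).le
    rw [abs_of_nonpos (by linarith)] at h
    constructor
    · rwa [div_le_iff₀ hd] at h1
    · have h3 : (⌈x / d⌉ : ℝ) * d ≤ (x / d + 1) * d := mul_le_mul_of_nonneg_right h2 hd.le
      have h4 : (x / d + 1) * d = x + d := by field_simp
      linarith
  · refine ⟨⌈y / d⌉, ?_⟩
    rw [uIcc_of_ge hxy]
    have h1 := Int.le_ceil (y / d)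
    have h2 := (Int.ceil_lt_add_one (y / d)).le
    rw [abs_of_nonneg (by linarith)] at h
    constructor
    · rwa [div_le_iff₀ hd] at h1
    · have h3 : (⌈y / d⌉ : ℝ) * d ≤ (y / d + 1) * d := mul_le_mul_of_nonneg_right h2 hd.le
      have h4 : (y / d + 1) * d = y + d := by field_simp
      linarith

lemma pt_reduce (p : ℝ × ℝ) (u : ℝ) {J : ℕ} (hJ : 0 < J) (m : ℤ) :
    ∃ j < J, pt p u (m * (2 * π / J)) = pt p u (2 * π * j / J) := by
  have hJ' : (J : ℤ) ≠ 0 := by exact_mod_cast hJ.ne'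
  have hJr : (J : ℝ) ≠ 0 := by exact_mod_cast hJ.ne'
  refine ⟨(m % J).toNat, ?_, ?_⟩
  · have h1 := Int.emod_nonneg m hJ'
    have h2 := Int.emod_lt_of_pos m (show (0:ℤ) < J by exact_mod_cast hJ)
    omega
  · have h1 := Int.emod_nonneg m hJ'
    have h3 : (((m % J).toNat : ℕ) : ℝ) = ((m % J : ℤ) : ℝ) := by
      have : (((m % J).toNat : ℤ) : ℝ) = ((m % J : ℤ) : ℝ) := by rw [Int.toNat_of_nonneg h1]
      rw [← this]; norm_cast
    have h4 : (m : ℝ) = ((m % J : ℤ) : ℝ) + J * ((m / J : ℤ) : ℝ) := by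
      have := Int.emod_add_mul_ediv m J
      have h5 : ((m % J + J * (m / J) : ℤ) : ℝ) = (m : ℝ) := by rw [this]
      push_cast at h5 ⊢
      linarith
    have h5 : (m:ℝ) * (2 * π / J) = 2 * π * ((m % J : ℤ) : ℝ) / J + ((m / J : ℤ) : ℝ) * (2 * π) := by
      rw [h4]
      field_simp
    rw [h3, h5]
    unfold pt
    rw [Real.cos_add_int_mul_two_pi, Real.sin_add_int_mul_two_pi]

/-- crossing one of the reference rays -/
theorem cross {X : ℝ × ℝ → ℝ × ℝ} (hX : ContDiff ℝ 2 X) {p : ℝ × ℝ} {α : ℝ} {γ : ℝ → ℝ × ℝ}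
    {T : ℝ} (hO : Orb (rf X α) γ T) (hp : ∀ t, γ t ≠ p) {Λ : ℝ} (hΛ : 0 ≤ Λ)
    (hd : ∀ t v, H709R2.sq (fderiv ℝ X (γ t) v) * H709R2.sq (γ t - p) ≤
      Λ ^ 2 * H709R2.sq (X (γ t)) * H709R2.sq v)
    {t₀ : ℝ} (hW : W X p α (γ t₀) = 0) {J : ℕ} (hJ : 26 * (Λ + 1) ≤ J) :
    ∃ j < J, ∃ u, |u - lg p (γ t₀)| ≤ 1 ∧ pt p u (2 * π * j / J) ∈ range γ := by
  have hJ0 : 0 < J := by
    have : (0:ℝ) < J := by linarith
    exact_mod_cast this
  have hrfc : ContDiff ℝ 2 (rf X α) := HP.rf_smooth hX α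
  have hγc : Continuous γ := continuous_iff_continuousAt.mpr fun t => (hO.ode t).continuousAt
  have hc0 : ∀ t, γ t - p ≠ 0 := fun t => sub_ne_zero.2 (hp t)
  set c : ℝ → ℂ := fun t => toC (γ t - p) with hc
  set y : ℝ → ℂ := fun t => toC (rf X α (γ t)) with hy
  set z : ℝ → ℂ := fun t => toC (fderiv ℝ (rf X α) (γ t) (rf X α (γ t))) with hz
  have hcd : ∀ t, HasDerivAt c (y t) t := fun t => hasDerivAt_toC ((hO.ode t).sub_const p)
  have hyd : ∀ t, HasDerivAt y (z t) t := fun t => hasDerivAt_toC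
    (((hrfc.differentiable (by norm_num)) (γ t)).hasFDerivAt.comp_hasDerivAt t (hO.ode t))
  have hyc : Continuous y := continuous_toC.comp (hrfc.continuous.comp hγc)
  have hzc : Continuous z := by
    refine continuous_toC.comp ?_
    exact ((hrfc.continuous_fderiv (by norm_num)).comp hγc).clm_apply (hrfc.continuous.comp hγc)
  have hcc : Continuous c := continuous_toC.comp (hγc.sub continuous_const)
  have hcne : ∀ t, c t ≠ 0 := fun t => toC_ne (hc0 t)
  have hyne : ∀ t, y t ≠ 0 := fun t => toC_ne (hO.ne t)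
  have hper : ∀ t, γ (t + T) = γ t := hO.per
  have hcper : c T = c 0 := by
    have := hper 0
    rw [zero_add] at this
    simp only [hc, this]
  have hyper : y T = y 0 := by
    have := hper 0
    rw [zero_add] at this
    simp only [hy, this]
  obtain ⟨Θ, hΘd, hΘ, -⟩ := exists_angle_lift hcd hyc hcper hcne
  obtain ⟨Ψ, hΨd, hΨ, -⟩ := exists_angle_lift hyd hzc hyper hyne
  have hΘre : ∀ t, (γ t - p).1 = ‖c t‖ * cos (Θ t) := by
    intro t
    have := congrArg Complex.re (hΘ t)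
    rw [Complex.re_ofReal_mul, Complex.exp_ofReal_mul_I_re] at this
    exact this
  have hΘim : ∀ t, (γ t - p).2 = ‖c t‖ * sin (Θ t) := by
    intro t
    have := congrArg Complex.im (hΘ t)
    rw [Complex.im_ofReal_mul, Complex.exp_ofReal_mul_I_im] at this
    exact this
  have hΨre : ∀ t, (rf X α (γ t)).1 = ‖y t‖ * cos (Ψ t) := by
    intro t
    have := congrArg Complex.re (hΨ t)
    rw [Complex.re_ofReal_mul, Complex.exp_ofReal_mul_I_re] at this
    exact this
  have hΨim : ∀ t, (rf X α (γ t)).2 = ‖y t‖ * sin (Ψ t) := by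
    intro t
    have := congrArg Complex.im (hΨ t)
    rw [Complex.im_ofReal_mul, Complex.exp_ofReal_mul_I_im] at this
    exact this
  have hnc : ∀ t, 0 < ‖c t‖ := fun t => norm_pos_iff.2 (hcne t)
  have hny : ∀ t, 0 < ‖y t‖ := fun t => norm_pos_iff.2 (hyne t)
  have hnc2 : ∀ t, ‖c t‖ ^ 2 = H709R2.sq (γ t - p) := fun t => by
    rw [← Complex.normSq_eq_norm_sq]; exact normSq_toC _
  have hny2 : ∀ t, ‖y t‖ ^ 2 = H709R2.sq (X (γ t)) := fun t => by
    rw [← Complex.normSq_eq_norm_sq]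
    simp only [hy]
    rw [normSq_toC]
    exact H709R2.sq_rot _ _
  set φ : ℝ → ℝ := fun t => Ψ t - Θ t with hφ
  set q : ℝ → ℝ := fun t => ‖y t‖ / ‖c t‖ with hq
  have hqc : Continuous q := hyc.norm.div hcc.norm fun t => (hnc t).ne'
  have hq0 : ∀ t, 0 < q t := fun t => div_pos (hny t) (hnc t)
  have hWφ : ∀ t, W X p α (γ t) = ‖c t‖ * ‖y t‖ * cos (φ t) := by
    intro t
    have h1 : W X p α (γ t) = (γ t - p).1 * (rf X α (γ t)).1 + (γ t - p).2 * (rf X α (γ t)).2 := rfl
    rw [h1, hΘre, hΘim, hΨre, hΨim]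
    simp only [hφ]
    rw [cos_sub]
    ring
  have hVφ : ∀ t, wedge (γ t - p) (rf X α (γ t)) = ‖c t‖ * ‖y t‖ * sin (φ t) := by
    intro t
    have h1 : wedge (γ t - p) (rf X α (γ t)) =
      (γ t - p).1 * (rf X α (γ t)).2 - (γ t - p).2 * (rf X α (γ t)).1 := rfl
    rw [h1, hΘre, hΘim, hΨre, hΨim]
    simp only [hφ]
    rw [sin_sub]
    ring
  have hΘd' : ∀ t, HasDerivAt Θ (q t * sin (φ t)) t := by
    intro t
    refine (hΘd t).congr_deriv ?_
    simp only [hy, hc]
    rw [im_div, hVφ, ← hnc2]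
    simp only [hq]
    have := (hnc t).ne'
    field_simp
  have hΨd' : ∀ t, |(z t / y t).im| ≤ Λ * q t := by
    intro t
    refine (Complex.abs_im_le_norm _).trans ?_
    rw [norm_div, div_le_iff₀ (hny t)]
    have h1 : fderiv ℝ (rf X α) (γ t) (rf X α (γ t)) = rot α (fderiv ℝ X (γ t) (rf X α (γ t))) := by
      have hXd := ((hX.differentiable (by norm_num)) (γ t)).hasFDerivAt
      have h2 : HasFDerivAt (rf X α) _ (γ t) :=
        (((hXd.fst).const_mul (cos α)).sub ((hXd.snd).const_mul (sin α))).prodMk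
        (((hXd.fst).const_mul (sin α)).add ((hXd.snd).const_mul (cos α)))
      rw [h2.fderiv]
      unfold rot
      ext <;> simp
    have h2 : ‖z t‖ ^ 2 = H709R2.sq (fderiv ℝ X (γ t) (rf X α (γ t))) := by
      rw [← Complex.normSq_eq_norm_sq]
      simp only [hz]
      rw [normSq_toC, h1, H709R2.sq_rot]
    have h3 := hd t (rf X α (γ t))
    have h4 : H709R2.sq (rf X α (γ t)) = ‖y t‖ ^ 2 := by
      rw [hny2]; exact H709R2.sq_rot _ _
    rw [← h2, ← hnc2, h4, ← hny2] at h3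
    have h5 : 0 ≤ Λ * q t * ‖y t‖ := mul_nonneg (mul_nonneg hΛ (hq0 t).le) (hny t).le
    refine abs_le_of_sq_le_sq' ?_ h5 |>.2
    simp only [hq]
    have e : (Λ * (‖y t‖ / ‖c t‖) * ‖y t‖) ^ 2 = Λ ^ 2 * ‖y t‖ ^ 2 * ‖y t‖ ^ 2 / ‖c t‖ ^ 2 := by
      have := (hnc t).ne'
      field_simp
    rw [e, le_div_iff₀ (by have := hnc t; positivity)]
    exact h3
  -- the time change
  set τ : ℝ → ℝ := fun t => ∫ s in t₀..t, q s with hτ
  have hτd : ∀ t, HasDerivAt τ (q t) t := fun t => (hqc.integral_hasStrictDerivAt t₀ t).hasDerivAt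
  have hτc : Continuous τ := continuous_iff_continuousAt.mpr fun t => (hτd t).continuousAt
  have hτ0 : τ t₀ = 0 := by simp [hτ]
  have hτm : Monotone τ := monotone_of_deriv_nonneg (fun t => (hτd t).differentiableAt)
    fun t => by rw [(hτd t).deriv]; exact (hq0 t).le
  obtain ⟨q₀, hq₀, hqq₀⟩ : ∃ q₀, 0 < q₀ ∧ ∀ t, q₀ ≤ q t := by
    obtain ⟨s, -, hs⟩ := (isCompact_Icc (a := (0:ℝ)) (b := T)).exists_isMinOn
      ⟨0, left_mem_Icc.2 hO.pos.le⟩ hqc.continuousOn
    refine ⟨q s, hq0 s, fun t => ?_⟩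
    have hqp : Function.Periodic q T := by
      intro t
      simp only [hq, hy, hc, hper]
    obtain ⟨s', hs', hs''⟩ := hqp.exists_mem_Ico₀ hO.pos t
    rw [hs'']
    exact hs ⟨hs'.1, hs'.2.le⟩
  set h : ℝ := 1 / (2 * (Λ + 1)) with hh
  have hh0 : 0 < h := by positivity
  have hh1 : h ≤ 1 / 2 := by
    rw [hh]
    apply one_div_le_one_div_of_le (by norm_num)
    linarith
  have hhΛ : (Λ + 1) * h = 1 / 2 := by
    rw [hh]; field_simp
  obtain ⟨t₁, ht₁, hτ₁⟩ : ∃ t₁, t₀ ≤ t₁ ∧ τ t₁ = h := by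
    have h1 : h ≤ τ (t₀ + h / q₀) := by
      have hm : Monotone fun t => τ t - q₀ * t := by
        refine monotone_of_deriv_nonneg (fun t => ?_) fun t => ?_
        · exact ((hτd t).sub ((hasDerivAt_id t).const_mul q₀)).differentiableAt
        · have : HasDerivAt (fun t => τ t - q₀ * t) (q t - q₀ * 1) t :=
            (hτd t).sub ((hasDerivAt_id t).const_mul q₀)
          rw [this.deriv]
          linarith [hqq₀ t]
      have h2 : t₀ ≤ t₀ + h / q₀ := by
        have : 0 < h / q₀ := by positivity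
        linarith
      have h3 := hm h2
      simp only [hτ0] at h3
      have h4 : q₀ * (t₀ + h / q₀) = q₀ * t₀ + h := by
        field_simp
      linarith
    have h2 : t₀ ≤ t₀ + h / q₀ := by
      have : 0 < h / q₀ := by positivity
      linarith
    obtain ⟨t₁, ht, ht'⟩ := intermediate_value_Icc h2 hτc.continuousOn
      (show h ∈ Icc (τ t₀) (τ (t₀ + h / q₀)) from ⟨by rw [hτ0]; exact hh0.le, h1⟩)
    exact ⟨t₁, ht.1, ht'⟩
  have hφd : ∀ t, HasDerivAt φ ((z t / y t).im - q t * sin (φ t)) t := fun t => (hΨd t).sub (hΘd' t)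
  have hφb : ∀ t, |(z t / y t).im - q t * sin (φ t)| ≤ (Λ + 1) * q t := by
    intro t
    refine (abs_sub _ _).trans ?_
    rw [abs_mul, abs_of_pos (hq0 t), add_mul, one_mul]
    refine add_le_add (hΨd' t) ?_
    have := abs_sin_le_one (φ t)
    nlinarith [hq0 t]
  have hφl : ∀ t ∈ Icc t₀ t₁, |φ t - φ t₀| ≤ 1 / 2 := by
    intro t ht
    have hτt : (Λ + 1) * τ t ≤ 1 / 2 := by
      rw [← hhΛ]
      exact mul_le_mul_of_nonneg_left (by rw [← hτ₁]; exact hτm ht.2) (by linarith)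
    have m1 : Monotone fun t => (Λ + 1) * τ t - φ t := by
      have hD : ∀ t, HasDerivAt (fun t => (Λ + 1) * τ t - φ t)
          ((Λ + 1) * q t - ((z t / y t).im - q t * sin (φ t))) t :=
        fun t => ((hτd t).const_mul _).sub (hφd t)
      refine monotone_of_deriv_nonneg (fun t => (hD t).differentiableAt) fun t => ?_
      rw [(hD t).deriv]
      have := (abs_le.1 (hφb t)).2
      linarith
    have m2 : Monotone fun t => (Λ + 1) * τ t + φ t := by
      have hD : ∀ t, HasDerivAt (fun t => (Λ + 1) * τ t + φ t)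
          ((Λ + 1) * q t + ((z t / y t).im - q t * sin (φ t))) t :=
        fun t => ((hτd t).const_mul _).add (hφd t)
      refine monotone_of_deriv_nonneg (fun t => (hD t).differentiableAt) fun t => ?_
      rw [(hD t).deriv]
      have := (abs_le.1 (hφb t)).1
      linarith
    have a1 := m1 ht.1
    have a2 := m2 ht.1
    simp only [hτ0, mul_zero] at a1 a2
    rw [abs_le]
    constructor <;> linarith
  have hcosφ : cos (φ t₀) = 0 := by
    have h1 := hWφ t₀
    rw [hW] at h1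
    rcases mul_eq_zero.1 h1.symm with h2 | h2
    · exact absurd h2 (mul_pos (hnc _) (hny _)).ne'
    · exact h2
  obtain ⟨σ, hσ, hσs⟩ : ∃ σ : ℝ, (σ = 1 ∨ σ = -1) ∧ sin (φ t₀) = σ := by
    have h1 := sin_sq_add_cos_sq (φ t₀)
    rw [hcosφ] at h1
    have h2 : (sin (φ t₀) - 1) * (sin (φ t₀) + 1) = 0 := by linarith
    rcases mul_eq_zero.1 h2 with h2 | h2
    · exact ⟨1, Or.inl rfl, by linarith⟩
    · exact ⟨-1, Or.inr rfl, by linarith⟩
  have hσσ : σ * σ = 1 := by rcases hσ with h | h <;> rw [h] <;> norm_num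
  have hsin : ∀ t ∈ Icc t₀ t₁, 1 / 2 ≤ σ * sin (φ t) := by
    intro t ht
    have h1 := (Real.abs_sin_sub_sin_le (φ t) (φ t₀)).trans (hφl t ht)
    rw [hσs, abs_le] at h1
    have h2 : σ * sin (φ t) = 1 + σ * (sin (φ t) - σ) := by rw [mul_sub, hσσ]; ring
    rw [h2]
    rcases hσ with h | h
    · rw [h] at h1 ⊢; linarith
    · rw [h] at h1 ⊢; linarith
  have hΘ1 : h / 2 ≤ |Θ t₀ - Θ t₁| := by
    have hm : MonotoneOn (fun t => σ * Θ t - τ t / 2) (Icc t₀ t₁) := by
      have hD : ∀ t, HasDerivAt (fun t => σ * Θ t - τ t / 2) (σ * (q t * sin (φ t)) - q t / 2) t :=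
        fun t => ((hΘd' t).const_mul σ).sub ((hτd t).div_const 2)
      refine monotoneOn_of_deriv_nonneg (convex_Icc _ _)
        (fun t _ => (hD t).continuousAt.continuousWithinAt)
        (fun t _ => (hD t).differentiableAt.differentiableWithinAt) fun t ht => ?_
      rw [interior_Icc] at ht
      rw [(hD t).deriv]
      have h1 := hsin t (Ioo_subset_Icc_self ht)
      nlinarith [hq0 t]
    have h1 := hm (left_mem_Icc.2 ht₁) (right_mem_Icc.2 ht₁) ht₁
    simp only [hτ0, hτ₁] at h1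
    have h2 : h / 2 ≤ σ * (Θ t₁ - Θ t₀) := by linarith
    refine h2.trans ((le_abs_self _).trans ?_)
    rw [abs_mul, abs_sub_comm (Θ t₁)]
    have : |σ| = 1 := by rcases hσ with h | h <;> rw [h] <;> norm_num
    rw [this, one_mul]
  have hJr : (0:ℝ) < J := by exact_mod_cast hJ0
  have hstep : 2 * π / J ≤ h / 2 := by
    rw [hh, div_div, div_le_div_iff₀ hJr (by positivity)]
    have := Real.pi_lt_d2
    nlinarith
  obtain ⟨m, hm⟩ := exists_mul_mem (by positivity : 0 < 2 * π / J) (hstep.trans hΘ1)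
  have hΘc : Continuous Θ := continuous_iff_continuousAt.mpr fun t => (hΘd t).continuousAt
  obtain ⟨t, ht, hΘt⟩ := intermediate_value_uIcc (a := t₀) (b := t₁) hΘc.continuousOn hm
  rw [uIcc_of_le ht₁] at ht
  obtain ⟨j, hj, hjp⟩ := pt_reduce p (lg p (γ t)) hJ0 m
  have hsq : ∀ t, 0 < H709R2.sq (γ t - p) := fun t => H709R2.sq_pos (hc0 t)
  have hlg : ∀ t, Real.exp (lg p (γ t)) = ‖c t‖ := by
    intro t
    unfold lg
    rw [← Real.log_sqrt (hsq t).le, Real.exp_log (Real.sqrt_pos.2 (hsq t)), ← hnc2,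
      Real.sqrt_sq (hnc t).le]
  have hpt : ∀ t, pt p (lg p (γ t)) (Θ t) = γ t := by
    intro t
    have hre := hΘre t
    have hi := hΘim t
    unfold pt
    rw [hlg]
    apply Prod.ext
    · simp only [Prod.fst_sub] at hre ⊢
      linarith
    · simp only [Prod.snd_sub] at hi ⊢
      linarith
  have hlgd : ∀ t, HasDerivAt (fun t => lg p (γ t)) (q t * cos (φ t)) t := by
    intro t
    have h := hO.ode t
    have h1 : HasDerivAt (fun t => (γ t).1 - p.1) (rf X α (γ t)).1 t := (h.fst).sub_const _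
    have h2 : HasDerivAt (fun t => (γ t).2 - p.2) (rf X α (γ t)).2 t := (h.snd).sub_const _
    have h3 := (h1.pow 2).add (h2.pow 2)
    have h4 : HasDerivAt (fun t => H709R2.sq (γ t - p)) _ t := h3
    have h5 := (h4.log (hsq t).ne').div_const 2
    refine h5.congr_deriv ?_
    have h6 := hWφ t
    have h7 : W X p α (γ t) = (γ t - p).1 * (rf X α (γ t)).1 + (γ t - p).2 * (rf X α (γ t)).2 := rfl
    rw [h7] at h6
    simp only [hq]
    have h8 := (hnc t).ne'
    rw [← hnc2]
    simp only [Prod.fst_sub, Prod.snd_sub] at h6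
    field_simp
    push_cast
    linarith
  refine ⟨j, hj, lg p (γ t), ?_, ?_⟩
  · have b1 : ∀ t, |q t * cos (φ t)| ≤ q t := by
      intro t
      rw [abs_mul, abs_of_pos (hq0 t)]
      have := abs_cos_le_one (φ t)
      nlinarith [hq0 t]
    have m1 : Monotone fun t => τ t - lg p (γ t) := by
      have hD : ∀ t, HasDerivAt (fun t => τ t - lg p (γ t)) (q t - q t * cos (φ t)) t :=
        fun t => (hτd t).sub (hlgd t)
      refine monotone_of_deriv_nonneg (fun t => (hD t).differentiableAt) fun t => ?_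
      rw [(hD t).deriv]
      have := (abs_le.1 (b1 t)).2
      linarith
    have m2 : Monotone fun t => τ t + lg p (γ t) := by
      have hD : ∀ t, HasDerivAt (fun t => τ t + lg p (γ t)) (q t + q t * cos (φ t)) t :=
        fun t => (hτd t).add (hlgd t)
      refine monotone_of_deriv_nonneg (fun t => (hD t).differentiableAt) fun t => ?_
      rw [(hD t).deriv]
      have := (abs_le.1 (b1 t)).1
      linarith
    have a1 := m1 ht.1
    have a2 := m2 ht.1
    have a3 := hτm ht.2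
    rw [hτ₁] at a3
    simp only [hτ0] at a1 a2
    rw [abs_le]
    constructor <;> linarith
  · rw [← hjp, ← hΘt, hpt]
    exact ⟨t, rfl⟩

end Pool.Agent.W960.HR
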