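import Pool.Agent.H709U.TopR

/-! The averaged bound per scale in terms of the number of zeros of the field. -/

open Real Set MeasureTheory Topology Filter
open scoped ENNReal

namespace Pool.Agent.W960.HR

noncomputable section

open Pool.Agent.H709R2 (rot wedge field ClosedOrbit)
open Pool.Agent.H709U
open Pool.Agent.H709Q (Maj)

theorem scale_dyadic {n : ℕ} {P Q : MvPolynomial (Fin 2) ℝ}
    (hP : P.totalDegree ≤ n) (hQ : Q.totalDegree ≤ n) {Z : Finset (ℝ × ℝ)}
    (hZ : ∀ p, field P Q p = 0 → p ∈ Z) {r : ℝ}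
    (hr : 0 < r) {m : ℕ} (hm : 1 ≤ m) :
    Maj (fun α => ((ClD P Q r (2 ^ m * r) α).encard : ℝ≥0∞)) (4 * π * n * Z.card * m) := by
  classical
  have h1 : ∀ i ∈ Z ×ˢ Finset.range m, Maj (fun α =>
      ({C | C ∈ ClD P Q (2 ^ i.2 * r) (2 * (2 ^ i.2 * r)) α ∧ InBox i.1 C}.encard : ℝ≥0∞))
      (4 * π * n) := fun i _ => scale_maj hP hQ i.1 (by positivity)
  have h2 := maj_sum _ _ (4 * π * n) (by positivity) h1
  refine maj_mono ?_ ?_ h2
  · intro α hα
    apply encard_biUnion_le'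
    rintro C ⟨hC, ⟨x₀, hx₀, y₀, hy₀, hbig⟩, hsm⟩
    obtain ⟨p, hp0, hp⟩ := t3' (field P Q) (H709R2.contDiff_field P Q) α C hC
    -- the diameter is attained
    obtain ⟨γ, T, hT, hγ, hper, hnc, rfl⟩ := hC
    have hcont : Continuous γ := continuous_iff_continuousAt.2 fun t => (hγ t).continuousAt
    have hcomp : IsCompact (range γ) :=
      (show Function.Periodic γ T from hper).compact_of_continuous hT.ne' hcont
    obtain ⟨⟨x, y⟩, hxy, hmax⟩ := (hcomp.prod hcomp).exists_isMaxOn ⟨(x₀, y₀), hx₀, hy₀⟩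
      (f := fun q : (ℝ × ℝ) × (ℝ × ℝ) => √((q.1.1 - q.2.1) ^ 2 + (q.1.2 - q.2.2) ^ 2))
      (by fun_prop)
    set D := √((x.1 - y.1) ^ 2 + (x.2 - y.2) ^ 2) with hD
    have hmax' : ∀ a ∈ range γ, ∀ b ∈ range γ, √((a.1 - b.1) ^ 2 + (a.2 - b.2) ^ 2) ≤ D :=
      fun a ha b hb => hmax (show (a, b) ∈ range γ ×ˢ range γ from ⟨ha, hb⟩)
    have hrD : r ≤ D := hbig.trans (hmax' x₀ hx₀ y₀ hy₀)
    have hDR : D ≤ 2 ^ m * r := hsm x hxy.1 y hxy.2
    -- the dyadic scale
    have hex : ∃ k, k < m ∧ 2 ^ k * r ≤ D ∧ D ≤ 2 * (2 ^ k * r) := by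
      have h0 : ∃ k, D ≤ 2 * (2 ^ k * r) := ⟨m - 1, by
        have h5 : (2:ℝ) * (2 ^ (m - 1) * r) = 2 ^ m * r := by
          rw [← mul_assoc, ← pow_succ', Nat.sub_add_cancel hm]
        rw [h5]
        exact hDR⟩
      refine ⟨Nat.find h0, ?_, ?_, Nat.find_spec h0⟩
      · have h5 : Nat.find h0 ≤ m - 1 := Nat.find_min' h0 (by
          have h5 : (2:ℝ) * (2 ^ (m - 1) * r) = 2 ^ m * r := by
            rw [← mul_assoc, ← pow_succ', Nat.sub_add_cancel hm]
          rw [h5]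
          exact hDR)
        omega
      · rcases Nat.eq_zero_or_pos (Nat.find h0) with h5 | h5
        · rw [h5, pow_zero, one_mul]
          exact hrD
        · have h6 := Nat.find_min h0 (show Nat.find h0 - 1 < Nat.find h0 by omega)
          rw [not_le, ← mul_assoc, ← pow_succ', Nat.sub_add_cancel h5] at h6
          exact h6.le
    obtain ⟨k, hkm, hk1, hk2⟩ := hex
    simp only [mem_iUnion]
    refine ⟨(p, k), ?_, ?_, hp⟩
    · rw [Finset.mem_product]
      exact ⟨hZ p hp0, Finset.mem_range.2 hkm⟩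
    · exact ⟨⟨γ, T, hT, hγ, hper, hnc, rfl⟩, ⟨x, hxy.1, y, hxy.2, hk1⟩,
        fun a ha b hb => (hmax' a ha b hb).trans hk2⟩
  · rw [Finset.card_product, Finset.card_range]
    push_cast
    exact le_of_eq (by ring)

/-- the averaged bound for diameters in a range -/
theorem scale_range {n : ℕ} {P Q : MvPolynomial (Fin 2) ℝ} (hP : P.totalDegree ≤ n)
    (hQ : Q.totalDegree ≤ n) {Z : Finset (ℝ × ℝ)} (hZ : ∀ p, field P Q p = 0 → p ∈ Z)
    {r R : ℝ} (hr : 0 < r) (hR : r ≤ R) :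
    Maj (fun α => ((ClD P Q r R α).encard : ℝ≥0∞))
      (4 * π * n * Z.card * (1 + Real.logb 2 (R / r))) := by
  set m : ℕ := ⌊Real.logb 2 (R / r)⌋₊ + 1 with hm
  have hlog : 0 ≤ Real.logb 2 (R / r) := Real.logb_nonneg (by norm_num) (by
    rw [le_div_iff₀ hr, one_mul]
    exact hR)
  refine maj_mono ?_ ?_ (scale_dyadic hP hQ hZ hr (m := m) (by omega))
  · intro α _
    apply ENat.toENNReal_le.2
    apply encard_le_encard
    rintro C ⟨hC, hbig, hsm⟩
    refine ⟨hC, hbig, fun x hx y hy => (hsm x hx y hy).trans ?_⟩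
    have h1 : Real.logb 2 (R / r) ≤ m := by
      rw [hm]
      push_cast
      exact (Nat.lt_floor_add_one _).le
    have hRp : 0 < R := hr.trans_le hR
    have h2 : R / r ≤ 2 ^ m := by
      have h3 : R / r = (2:ℝ) ^ Real.logb 2 (R / r) :=
        (Real.rpow_logb (by norm_num) (by norm_num) (by positivity)).symm
      rw [h3, ← Real.rpow_natCast]
      exact Real.rpow_le_rpow_of_exponent_le (by norm_num) h1
    rwa [div_le_iff₀ hr] at h2
  · have h1 : (m : ℝ) ≤ 1 + Real.logb 2 (R / r) := by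
      rw [hm]
      push_cast
      have := Nat.floor_le hlog
      linarith
    gcongr

end

end Pool.Agent.W960.HR
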