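import Pool.Agent.W960.HR.Zone
import Pool.Agent.W960.HR.Scale
import Pool.Agent.H709U.TopR
import Pool.Agent.H709U.Top

/-! The averaged bound for the number of closed orbits of the rotations of a regular field. -/

open Real Set MeasureTheory Topology Filter
open scoped ENNReal

namespace Pool.Agent.W960.HR

open Pool.Agent.H709R2 (rot wedge ClosedOrbit field)
open Pool.Agent.H709U
open Pool.Agent.H709U.Z1aux (encard_mono' encard_biUnion)
open Pool.Agent.H709Q (Maj)

/-- regularity of a field near infinity and near its zeros -/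
structure Reg (X : ℝ × ℝ → ℝ × ℝ) (R r Λ : ℝ) : Prop where
  inf : ZC X 0 (-1) (Real.log R) Λ
  zero : ∀ p, X p = 0 → ZC X p 1 (Real.log r) Λ
  nondeg : ∀ p, X p = 0 → ∀ v, v ≠ 0 → fderiv ℝ X p v ≠ 0

/-- finitely many nondegenerate zeros -/
lemma zeros_finite {n : ℕ} {P Q : MvPolynomial (Fin 2) ℝ} (hP : P.totalDegree ≤ n)
    (hQ : Q.totalDegree ≤ n) (hne : P ≠ 0 ∨ Q ≠ 0)
    (hnd : ∀ p, field P Q p = 0 → ∀ v, v ≠ 0 → fderiv ℝ (field P Q) p v ≠ 0) :
    ∃ Z : Finset (ℝ × ℝ), Z.card ≤ n ^ 2 ∧ ∀ z, field P Q z = 0 ↔ z ∈ Z := by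
  obtain ⟨h, P₁, Q₁, hPh, hQh, hrel, hP₁, hQ₁⟩ := b1 n P Q hP hQ hne
  obtain ⟨Z, hZc, hZ⟩ := b3 n P₁ Q₁ hP₁ hQ₁ hrel
  refine ⟨Z, hZc, fun z => ?_⟩
  rw [← hZ]
  set H : ℝ × ℝ → ℝ := fun p => MvPolynomial.eval ![p.1, p.2] h with hH
  have hX : field P Q = fun p => H p • field P₁ Q₁ p := by
    funext p
    rw [hPh, hQh]
    unfold field
    simp only [map_mul, hH]
    rfl
  refine ⟨fun hz => ?_, fun hz => by rw [hX]; simp only [hz, smul_zero]⟩
  have hHz : H z ≠ 0 := by
    intro h0
    have d1 : HasFDerivAt H (fderiv ℝ H z) z :=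
      (((H709R2.contDiff_evalPoly h (m := 1)).differentiable (by norm_num)) z).hasFDerivAt
    have d2 : HasFDerivAt (field P₁ Q₁) (fderiv ℝ (field P₁ Q₁) z) z :=
      (((H709R2.contDiff_field P₁ Q₁ (m := 1)).differentiable (by norm_num)) z).hasFDerivAt
    have d3 := d1.smul d2
    have hv : ∀ v, fderiv ℝ H z v = 0 → fderiv ℝ (field P Q) z v = 0 := by
      intro v hv
      rw [hX]
      have : fderiv ℝ (fun p => H p • field P₁ Q₁ p) z = _ := HasFDerivAt.fderiv d3
      rw [this]
      simp [h0, hv]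
    set a := fderiv ℝ H z (1, 0) with ha
    set b := fderiv ℝ H z (0, 1) with hb
    by_cases hab : a = 0 ∧ b = 0
    · exact hnd z hz (1, 0) (by simp) (hv _ hab.1)
    · refine hnd z hz (b, -a) ?_ (hv _ ?_)
      · intro h1
        apply hab
        simp only [Prod.mk_eq_zero, neg_eq_zero] at h1
        exact ⟨h1.2, h1.1⟩
      · have e : ((b, -a) : ℝ × ℝ) = b • ((1, 0) : ℝ × ℝ) + (-a) • ((0, 1) : ℝ × ℝ) := by
          ext <;> simp
        rw [e, map_add, map_smul, map_smul, ← ha, ← hb]
        simp only [smul_eq_mul]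
        ring
  rw [hX] at hz
  simp only at hz
  rcases smul_eq_zero.1 hz with h1 | h1
  · exact absurd h1 hHz
  · exact h1

lemma lg_le_iff {p z : ℝ × ℝ} (h : z ≠ p) {ρ : ℝ} (hρ : 0 < ρ) :
    lg p z ≤ Real.log ρ ↔ H709R2.sq (z - p) ≤ ρ ^ 2 := by
  have hs : 0 < H709R2.sq (z - p) := H709R2.sq_pos (sub_ne_zero.2 h)
  unfold lg
  rw [div_le_iff₀ (by norm_num), ← Real.log_le_log_iff hs (by positivity), Real.log_pow]
  push_cast
  rw [mul_comm]

lemma le_lg_iff {p z : ℝ × ℝ} (h : z ≠ p) {ρ : ℝ} (hρ : 0 < ρ) :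
    Real.log ρ ≤ lg p z ↔ ρ ^ 2 ≤ H709R2.sq (z - p) := by
  have hs : 0 < H709R2.sq (z - p) := H709R2.sq_pos (sub_ne_zero.2 h)
  unfold lg
  rw [le_div_iff₀ (by norm_num), ← Real.log_le_log_iff (by positivity) hs, Real.log_pow]
  push_cast
  rw [mul_comm]

lemma encard_union_le'' {β : Type*} (s t : Set β) :
    ((s ∪ t).encard : ℝ≥0∞) ≤ (s.encard : ℝ≥0∞) + (t.encard : ℝ≥0∞) := by
  have h1 : ((s ∪ t).encard : ℝ≥0∞) ≤ ((s.encard + t.encard : ℕ∞) : ℝ≥0∞) :=
    ENat.toENNReal_le.2 (encard_union_le _ _)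
  rwa [ENat.toENNReal_add] at h1

/-- The averaged bound for a regular field. -/
theorem det {n : ℕ} (hn : 1 ≤ n) {P Q : MvPolynomial (Fin 2) ℝ} (hP : P.totalDegree ≤ n)
    (hQ : Q.totalDegree ≤ n) {R r Λ : ℝ} (hR : 1 ≤ R) (hr : 0 < r) (hr1 : r ≤ 1) (hΛ : 1 ≤ Λ)
    (hreg : Reg (field P Q) R r Λ) :
    ∃ Z : Finset (ℝ × ℝ), Z.card ≤ n ^ 2 ∧ (∀ z, field P Q z = 0 ↔ z ∈ Z) ∧
    Maj (fun α => ((Cl P Q α).encard : ℝ≥0∞))
      (25000 * (1 + n * Z.card * (1 + Real.log (R * Λ ^ 2 / r)))) := by
  have hX2 : ContDiff ℝ 2 (field P Q) := H709R2.contDiff_field P Q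
  have hR0 : 0 < R := by linarith
  have hΛ0 : 0 < Λ := by linarith
  have hne : P ≠ 0 ∨ Q ≠ 0 := by
    by_contra hcon
    push Not at hcon
    have h1 := (hreg.inf (R, 0) (by
      intro h
      have := congrArg Prod.fst h
      simp at this
      linarith) (by
        have h2 : Real.log R ≤ lg 0 ((R, 0) : ℝ × ℝ) := by
          rw [le_lg_iff _ hR0]
          · unfold H709R2.sq; simp
          · intro h
            have := congrArg Prod.fst h
            simp at this
            linarith
        linarith)).1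
    apply h1
    rw [hcon.1, hcon.2]
    unfold field
    simp
  obtain ⟨Z, hZc, hZ⟩ := zeros_finite hP hQ hne hreg.nondeg
  refine ⟨Z, hZc, hZ, ?_⟩
  have hZR : ∀ p, field P Q p = 0 → H709R2.sq p ≤ R ^ 2 := by
    intro p hp
    by_contra hcon
    push Not at hcon
    have hp0 : p ≠ 0 := by
      intro h
      rw [h] at hcon
      unfold H709R2.sq at hcon
      simp at hcon
      nlinarith
    have h2 : Real.log R ≤ lg 0 p := by
      rw [le_lg_iff hp0 hR0, sub_zero]
      exact hcon.le
    exact (hreg.inf p hp0 (by linarith)).1 hp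
  set d : ℝ := r / (2 * Λ) with hd
  have hd0 : 0 < d := by positivity
  set D : ℝ := 8 * R * Λ with hD
  have hdD : d ≤ D := by
    rw [hd, hD, div_le_iff₀ (by positivity)]
    have : 1 ≤ R * Λ := by nlinarith
    nlinarith
  -- the pieces
  set S1 : (ℝ × ℝ) → ℝ → Set (Set (ℝ × ℝ)) := fun p α => {C | ClosedOrbit (rf (field P Q) α) C ∧
    p ∉ C ∧ ∀ z ∈ C, 1 * (lg p z - Real.log r) ≤ -Real.log Λ} with hS1
  set v : ℝ := Real.log (2 * R * Λ) with hv
  set S2 : (ℝ × ℝ) → ℝ → Set (Set (ℝ × ℝ)) := fun p α => {C | C ∈ Cl P Q α ∧ InBox p C ∧ p ∉ C ∧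
    ∃ z ∈ C, v ≤ lg p z ∧ lg p z ≤ v + 1} with hS2
  set S3 : ℝ → Set (Set (ℝ × ℝ)) := fun α => {C | ClosedOrbit (rf (field P Q) α) C ∧
    (0 : ℝ × ℝ) ∉ C ∧ ∀ z ∈ C, (-1) * (lg 0 z - Real.log R) ≤ -Real.log Λ} with hS3
  have m1 : Maj (fun α => ∑ p ∈ Z, ((S1 p α).encard : ℝ≥0∞)) (∑ p ∈ Z, 4000) :=
    Z1aux.maj_sum Z _ _ (fun _ _ => by norm_num) fun p hp =>
      zone hX2 (Or.inl rfl) hΛ (hreg.zero p ((hZ p).2 hp))
  have m2 : Maj (fun α => ∑ p ∈ Z, ((S2 p α).encard : ℝ≥0∞)) (∑ p ∈ Z, 8000 * ((n:ℝ) + 1)) :=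
    Z1aux.maj_sum Z _ _ (fun _ _ => by positivity) fun p _ => h4' n P Q hP hQ p v
  have m3 : Maj (fun α => ((S3 α).encard : ℝ≥0∞)) 4000 := zone hX2 (Or.inr rfl) hΛ hreg.inf
  have m4 := scale_range hP hQ (fun p hp => (hZ p).1 hp) hd0 hdD
  have hlog : 0 ≤ Real.logb 2 (D / d) := by
    apply Real.logb_nonneg (by norm_num)
    rw [le_div_iff₀ hd0]; linarith
  have m := Z1aux.maj_add (by positivity) (by positivity) (Z1aux.maj_add
    (Finset.sum_nonneg fun _ _ => by norm_num) (Finset.sum_nonneg fun _ _ => by positivity) m1 m2)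
    (Z1aux.maj_add (by norm_num) (by positivity) m3 m4)
  refine Z1aux.maj_mono (fun α hα => ?_) ?_ m
  · -- covering
    have hcov : Cl P Q α ⊆ ((⋃ p ∈ Z, S1 p α) ∪ (⋃ p ∈ Z, S2 p α)) ∪ (S3 α ∪ ClD P Q d D α) := by
      intro C hC
      have hC' : ClosedOrbit (rf (field P Q) α) C := hC
      obtain ⟨p, hp0, hbox⟩ := t3' (field P Q) hX2 α C hC'
      have hCne : ∀ z ∈ C, field P Q z ≠ 0 := by
        intro z hz h0
        apply HP.ne_zero (HP.rf_smooth hX2 α) hC' hz
        unfold rf rot
        rw [h0]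
        ext <;> simp
      have hpC : p ∉ C := fun h => hCne p h hp0
      have hpZ : p ∈ Z := (hZ p).1 hp0
      by_cases hsmall : ∀ x ∈ C, ∀ y ∈ C, √((x.1 - y.1) ^ 2 + (x.2 - y.2) ^ 2) ≤ d
      · -- small closed orbits
        left; left
        simp only [mem_iUnion]
        refine ⟨p, hpZ, hC', hpC, fun z hz => ?_⟩
        have hzp : z ≠ p := fun h => hpC (h ▸ hz)
        have h1 := box_of_diam hbox hsmall hz
        rw [mem_prod] at h1
        obtain ⟨⟨h2, h3⟩, h4, h5⟩ := h1
        have h6 : lg p z ≤ Real.log (r / Λ) := by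
          rw [lg_le_iff hzp (by positivity)]
          unfold H709R2.sq
          have e : r / Λ = 2 * d := by rw [hd]; field_simp
          rw [e]
          simp only [Prod.fst_sub, Prod.snd_sub]
          nlinarith
        rw [Real.log_div hr.ne' hΛ0.ne'] at h6
        linarith
      · push Not at hsmall
        obtain ⟨x, hx, y, hy, hxy⟩ := hsmall
        by_cases hbig : ∀ x ∈ C, ∀ y ∈ C, √((x.1 - y.1) ^ 2 + (x.2 - y.2) ^ 2) ≤ D
        · right; right
          exact ⟨hC, ⟨x, hx, y, hy, hxy.le⟩, hbig⟩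
        · push Not at hbig
          obtain ⟨x', hx', y', hy', hxy'⟩ := hbig
          by_cases hfar : ∀ z ∈ C, (R * Λ) ^ 2 ≤ H709R2.sq z
          · right; left
            have h0C : (0 : ℝ × ℝ) ∉ C := by
              intro h
              have := hfar 0 h
              unfold H709R2.sq at this
              simp at this
              rcases this with h2 | h2 <;> linarith
            refine ⟨hC', h0C, fun z hz => ?_⟩
            have hz0 : z ≠ 0 := fun h => h0C (h ▸ hz)
            have h1 : Real.log (R * Λ) ≤ lg 0 z := by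
              rw [le_lg_iff hz0 (by positivity), sub_zero]
              exact hfar z hz
            rw [Real.log_mul hR0.ne' hΛ0.ne'] at h1
            linarith
          · push Not at hfar
            obtain ⟨z₀, hz₀, hz₀s⟩ := hfar
            left; right
            simp only [mem_iUnion]
            refine ⟨p, hpZ, hC, hbox, hpC, ?_⟩
            -- norms
            have hpn : ‖toC p‖ ≤ R := by
              rw [norm_toC]
              exact Real.sqrt_le_iff.2 ⟨hR0.le, hZR p hp0⟩
            have hRΛ : R ≤ R * Λ := by nlinarith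
            have hz₀n : ‖toC z₀‖ ≤ R * Λ := by
              rw [norm_toC]
              exact Real.sqrt_le_iff.2 ⟨by positivity, hz₀s.le⟩
            have hsub : ∀ a b : ℝ × ℝ, toC a - toC b = toC (a - b) := by
              intro a b
              apply Complex.ext <;> simp [toC]
            have hdist : D < ‖toC x' - toC y'‖ := by
              rw [hsub, norm_toC]
              unfold H709R2.sq
              exact hxy'
            have hfar' : ∃ w ∈ C, 4 * R * Λ ≤ ‖toC w‖ := by
              by_contra hcon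
              push Not at hcon
              have h1 := norm_sub_le (toC x') (toC y')
              have h2 := hcon x' hx'
              have h3 := hcon y' hy'
              rw [hD] at hdist
              linarith
            obtain ⟨w, hw, hwn⟩ := hfar'
            have hw2 : v ≤ lg p w := by
              rw [hv, le_lg_iff (show w ≠ p from fun h => hpC (h ▸ hw)) (by positivity)]
              have h1 : 2 * R * Λ ≤ ‖toC (w - p)‖ := by
                rw [← hsub]
                have := norm_sub_norm_le (toC w) (toC p)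
                nlinarith
              have h2 := pow_le_pow_left₀ (by positivity) h1 2
              rw [norm_toC, Real.sq_sqrt (by unfold H709R2.sq; positivity)] at h2
              exact h2
            have hz2 : lg p z₀ ≤ v := by
              rw [hv, lg_le_iff (show z₀ ≠ p from fun h => hpC (h ▸ hz₀)) (by positivity)]
              have h1 : ‖toC (z₀ - p)‖ ≤ 2 * R * Λ := by
                rw [← hsub]
                have := norm_sub_le (toC z₀) (toC p)
                linarith
              have h2 := pow_le_pow_left₀ (norm_nonneg _) h1 2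
              rw [norm_toC, Real.sq_sqrt (by unfold H709R2.sq; positivity)] at h2
              exact h2
            -- intermediate value
            obtain ⟨γ, T, hO, hCr⟩ := m0 (field P Q) hX2 α C hC'
            have hγp : ∀ t, γ t ≠ p := fun t ht => hpC (by rw [hCr]; exact ⟨t, ht⟩)
            have hlc : Continuous fun t => lg p (γ t) :=
              continuous_iff_continuousAt.mpr fun t => (hasDerivAt_lg hO hγp t).continuousAt
            rw [hCr] at hw hz₀
            obtain ⟨s, rfl⟩ := hw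
            obtain ⟨t, rfl⟩ := hz₀
            obtain ⟨u, hu⟩ := mem_range_of_exists_le_of_exists_ge hlc ⟨t, hz2⟩ ⟨s, hw2⟩
            refine ⟨γ u, by rw [hCr]; exact ⟨u, rfl⟩, ?_, ?_⟩
            · exact le_of_eq hu.symm
            · have : lg p (γ u) = v := hu
              linarith
    refine (encard_mono' hcov).trans ?_
    refine (encard_union_le'' _ _).trans (add_le_add ?_ ?_)
    · refine (encard_union_le'' _ _).trans (add_le_add (encard_biUnion _ _) (encard_biUnion _ _))
    · exact encard_union_le'' _ _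
  · -- the constants
    rw [Finset.sum_const, Finset.sum_const, nsmul_eq_mul, nsmul_eq_mul]
    have hZr : (Z.card : ℝ) ≤ (n:ℝ) ^ 2 := by exact_mod_cast hZc
    have hn1 : (1:ℝ) ≤ n := by exact_mod_cast hn
    set l : ℝ := Real.log (R * Λ ^ 2 / r) with hl
    have hl0 : 0 ≤ l := by
      apply Real.log_nonneg
      rw [le_div_iff₀ hr]
      nlinarith [one_le_pow₀ hΛ (n := 2)]
    have hDd : D / d = 16 * (R * Λ ^ 2 / r) := by
      rw [hD, hd]; field_simp; ring
    have hlogb : Real.logb 2 (D / d) ≤ 4 + 2 * l := by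
      rw [hDd, Real.logb_mul (by norm_num) (by positivity)]
      have e1 : Real.logb 2 16 = 4 := by
        rw [show (16:ℝ) = 2 ^ (4:ℝ) by norm_num]
        exact Real.logb_rpow (by norm_num) (by norm_num)
      rw [e1]
      have e2 : Real.logb 2 (R * Λ ^ 2 / r) ≤ 2 * l := by
        unfold Real.logb
        rw [← hl, div_le_iff₀ (Real.log_pos (by norm_num))]
        have := Real.log_two_gt_d9
        nlinarith
      linarith
    set z : ℝ := (Z.card : ℝ) with hz
    have hz0 : 0 ≤ z := Nat.cast_nonneg _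
    have hnz : z ≤ n * z := by nlinarith
    have hπ : 4 * π ≤ 13 := by linarith [Real.pi_lt_d2]
    have h5 : 4 * π * (n:ℝ) * z * (1 + Real.logb 2 (D / d)) ≤ 13 * (n:ℝ) * z * (5 + 2 * l) := by
      refine mul_le_mul ?_ (by linarith) (by positivity) (by positivity)
      have : 4 * π * (n:ℝ) ≤ 13 * n := mul_le_mul_of_nonneg_right hπ (by positivity)
      exact mul_le_mul_of_nonneg_right this hz0
    have h6 : 0 ≤ (n:ℝ) * z * l := by positivity
    nlinarith

end Pool.Agent.W960.HR
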