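import Pool.Agent.W960.HR.Net
import Pool.Agent.W960.HR.Chart3
import Pool.Agent.H709R2.WFin

/-! The expected number of closed orbits of a random polynomial field. -/

open Real Set MeasureTheory Topology Filter
open scoped ENNReal

namespace Pool.Agent.W960.HR

noncomputable section

open Pool.Agent.H709R2 (fld rot rotc rot_fld NP measurable_NP continuous_rotc exists_poly)
open Pool.Agent.H709U
open Pool.Agent.H709Q (Maj)

variable {S : Finset (ℕ × ℕ)} {n : ℕ} {M t : ℝ}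

/-- exponents of the monomials of degree at most `n` which are used in the charts -/
structure Full (n : ℕ) (S : Finset (ℕ × ℕ)) : Prop where
  deg : ∀ m ∈ S, m.1 + m.2 ≤ n
  h00 : (0, 0) ∈ S
  h10 : (1, 0) ∈ S
  h01 : (0, 1) ∈ S
  hn0 : (n, 0) ∈ S
  hn1 : (n - 1, 0) ∈ S
  hn2 : (n - 1, 1) ∈ S
  h0n : (0, n) ∈ S
  h1n : (0, n - 1) ∈ S
  h2n : (1, n - 1) ∈ S

lemma Full.one_le (h : Full n S) : 1 ≤ n := by
  have := h.deg _ h.h10
  simpa using this

lemma card_le (h : Full n S) : (S.card : ℝ) ≤ 4 * n ^ 2 := by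
  have h1 : S ⊆ Finset.range (n + 1) ×ˢ Finset.range (n + 1) := by
    intro m hm
    have := h.deg m hm
    rw [Finset.mem_product, Finset.mem_range, Finset.mem_range]
    omega
  have h2 := Finset.card_le_card h1
  rw [Finset.card_product, Finset.card_range] at h2
  have h3 : (S.card : ℝ) ≤ (n + 1) * (n + 1) := by exact_mod_cast h2
  have h4 : (1:ℝ) ≤ n := by exact_mod_cast h.one_le
  nlinarith

/-- the number of zeros of the field -/
def NZ (c : S → ℝ × ℝ) : ℝ≥0∞ := (({z : ℝ × ℝ | fld c z = 0}.encard : ℕ∞) : ℝ≥0∞)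

/-- the integral over the rotations for a good vector of coefficients -/
theorem phi_le (hF : Full n S) (hM1 : 1 ≤ M) (ht : 0 < t) (ht1 : t ≤ 1) {c : S → ℝ × ℝ}
    (hg : Good n c M t) :
    ∃ Z : Finset (ℝ × ℝ), Z.card ≤ n ^ 2 ∧ NZ c = (Z.card : ℝ≥0∞) ∧
    Maj (fun α => NP (rotc α c)) (700000 * (1 + Real.log (n * M / t)) * (1 + n * Z.card)) := by
  have hn := hF.one_le
  have hn1 : (1:ℝ) ≤ n := by exact_mod_cast hn
  have hN1 : (1:ℝ) ≤ 4 * n ^ 2 := by nlinarith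
  obtain ⟨P, Q, hP, hQ, hPQ⟩ := exists_poly c
  have hdeg : S.sup (fun m => m.1 + m.2) ≤ n := Finset.sup_le hF.deg
  have hreg := reg_of_good hF.deg hn (card_le hF) hN1 hM1 ht ht1 hg
  rw [← hPQ] at hreg
  set A : ℝ := 4 * n ^ 2 * (n * M) with hA
  have hA1 : 1 ≤ A := one_le_mul_of_one_le_of_one_le hN1 (one_le_mul_of_one_le_of_one_le hn1 hM1)
  have hB : 1 ≤ 4 * (n:ℝ) ^ 2 * (n ^ 2 * M) := one_le_mul_of_one_le_of_one_le hN1
    (one_le_mul_of_one_le_of_one_le (one_le_pow₀ hn1) hM1)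
  have ht2 : t ^ 2 ≤ 1 := pow_le_one₀ ht.le ht1
  obtain ⟨Z, hZc, hZ, hdet⟩ := det hn (hP.trans hdeg) (hQ.trans hdeg) (R := 6 * A / t)
    (r := t / (200 * (4 * n ^ 2 * (n ^ 2 * M)))) (Λ := 96 * A ^ 2 / t ^ 2)
    (by rw [le_div_iff₀ ht]; linarith) (by positivity)
    (by rw [div_le_one (by positivity)]; linarith)
    (by rw [le_div_iff₀ (by positivity)]; nlinarith) hreg
  have hcl : ∀ α, NP (rotc α c) = ((Cl P Q α).encard : ℝ≥0∞) := by
    intro α
    unfold NP Cl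
    have : rf (H709R2.field P Q) α = fld (rotc α c) := by
      funext z
      unfold rf
      rw [hPQ, rot_fld]
    rw [this]
  have hNZ : NZ c = (Z.card : ℝ≥0∞) := by
    unfold NZ
    have h1 : {z : ℝ × ℝ | fld c z = 0} = (Z : Set (ℝ × ℝ)) := by
      ext z
      rw [mem_ofPred_eq, ← hPQ, hZ, Finset.mem_coe]
    rw [h1, Set.encard_coe_eq_coe_finsetCard]
    simp
  refine ⟨Z, hZc, hNZ, Z1aux.maj_mono (fun α _ => le_of_eq (hcl α)) ?_ hdet⟩
  set x : ℝ := n * M / t with hx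
  have hx1 : 1 ≤ x := by
    rw [hx, le_div_iff₀ ht]
    have : 1 ≤ (n:ℝ) * M := one_le_mul_of_one_le_of_one_le hn1 hM1
    linarith
  have e1 : 6 * A / t * (96 * A ^ 2 / t ^ 2) ^ 2 / (t / (200 * (4 * n ^ 2 * (n ^ 2 * M)))) =
      45298483200 * ((n:ℝ) ^ 19 * M ^ 6 / t ^ 6) := by
    rw [hA]
    field_simp
    ring
  have e2 : (n:ℝ) ^ 19 * M ^ 6 / t ^ 6 ≤ x ^ 19 := by
    rw [hx, div_pow, mul_pow]
    have h1 : M ^ 6 ≤ M ^ 19 := pow_le_pow_right₀ hM1 (by norm_num)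
    have h2 : t ^ 19 ≤ t ^ 6 := pow_le_pow_of_le_one ht.le ht1 (by norm_num)
    gcongr
  have e3 : (45298483200 : ℝ) ≤ Real.exp 25 := by
    have h1 : Real.exp 25 = Real.exp 1 ^ 25 := by rw [← Real.exp_nat_mul]; norm_num
    rw [h1]
    calc (45298483200 : ℝ) ≤ (27 / 10) ^ 25 := by norm_num
      _ ≤ Real.exp 1 ^ 25 := by
          gcongr
          linarith [Real.exp_one_gt_d9]
  have e4 : Real.log (6 * A / t * (96 * A ^ 2 / t ^ 2) ^ 2 /
      (t / (200 * (4 * n ^ 2 * (n ^ 2 * M))))) ≤ 25 + 19 * Real.log x := by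
    rw [e1]
    have h1 : 45298483200 * ((n:ℝ) ^ 19 * M ^ 6 / t ^ 6) ≤ Real.exp 25 * x ^ 19 :=
      mul_le_mul e3 e2 (by positivity) (by positivity)
    refine (Real.log_le_log (by positivity) h1).trans ?_
    rw [Real.log_mul (by positivity) (by positivity), Real.log_exp, Real.log_pow]
    push_cast
    exact le_rfl
  have hl : 0 ≤ Real.log x := Real.log_nonneg hx1
  set w : ℝ := n * (Z.card : ℝ) with hw
  have hw0 : 0 ≤ w := by positivity
  have h5 : 25000 * (1 + w * (1 + Real.log (6 * A / t * (96 * A ^ 2 / t ^ 2) ^ 2 /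
      (t / (200 * (4 * n ^ 2 * (n ^ 2 * M))))))) ≤ 25000 * (1 + w * (1 + (25 + 19 * Real.log x))) := by
    gcongr
  refine h5.trans ?_
  nlinarith [mul_nonneg hw0 hl]

/-- second moments -/
def Mom (μ : S → Measure (ℝ × ℝ)) (W : ℝ) : Prop :=
  ∀ m, ∫⁻ w, ENNReal.ofReal (w.1 ^ 2 + w.2 ^ 2) ∂μ m ≤ ENNReal.ofReal W

lemma prob_big (μ : S → Measure (ℝ × ℝ)) [∀ m, IsProbabilityMeasure (μ m)] {W : ℝ} (hW0 : 0 ≤ W)
    (hW : Mom μ W) (hM : 0 < M) {N : ℝ} (hN : (S.card : ℝ) ≤ N) :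
    Measure.pi μ {c | ¬ ∀ m, ‖c m‖ ≤ M} ≤ ENNReal.ofReal (N * W / M ^ 2) := by
  have hsub : {c : S → ℝ × ℝ | ¬ ∀ m, ‖c m‖ ≤ M} ⊆
      ⋃ m ∈ (Finset.univ : Finset S), {c | M < ‖c m‖} := by
    intro c hc
    simp only [mem_ofPred_eq, not_forall, not_le] at hc
    obtain ⟨m, hm⟩ := hc
    simp only [mem_iUnion]
    exact ⟨m, Finset.mem_univ m, hm⟩
  refine (measure_mono hsub).trans ((measure_biUnion_finset_le _ _).trans ?_)
  have h1 : ∀ m ∈ (Finset.univ : Finset S), Measure.pi μ {c | M < ‖c m‖} ≤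
      ENNReal.ofReal (W / M ^ 2) := by
    intro m _
    have hms : MeasurableSet {w : ℝ × ℝ | M < ‖w‖} :=
      (isOpen_lt continuous_const continuous_norm).measurableSet
    have h2 : Measure.pi μ {c | M < ‖c m‖} = μ m {w | M < ‖w‖} :=
      (measurePreserving_eval μ m).measure_preimage hms.nullMeasurableSet
    rw [h2]
    have h3 : {w : ℝ × ℝ | M < ‖w‖} ⊆
        {w | ENNReal.ofReal (M ^ 2) ≤ ENNReal.ofReal (w.1 ^ 2 + w.2 ^ 2)} := by
      intro w hw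
      have hw' : M < ‖w‖ := hw
      apply ENNReal.ofReal_le_ofReal
      have h4 := norm_sq_le_sq w
      unfold H709R2.sq at h4
      have h5 := pow_le_pow_left₀ hM.le hw'.le 2
      linarith
    refine (measure_mono h3).trans ?_
    have h4 := mul_meas_ge_le_lintegral (μ := μ m)
      (f := fun w : ℝ × ℝ => ENNReal.ofReal (w.1 ^ 2 + w.2 ^ 2)) (by fun_prop)
      (ENNReal.ofReal (M ^ 2))
    have h5 := h4.trans (hW m)
    rw [ENNReal.ofReal_div_of_pos (by positivity),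
      ENNReal.le_div_iff_mul_le (Or.inl (by simp; positivity)) (Or.inl ENNReal.ofReal_ne_top),
      mul_comm]
    exact h5
  refine (Finset.sum_le_card_nsmul _ _ _ h1).trans ?_
  rw [Finset.card_univ, Fintype.card_coe, nsmul_eq_mul, ← ENNReal.ofReal_natCast,
    ← ENNReal.ofReal_mul (by positivity)]
  apply ENNReal.ofReal_le_ofReal
  rw [mul_div_assoc]
  gcongr

/-- the probability of the bad coefficients -/
theorem prob_bad (hF : Full n S) (μ : S → Measure (ℝ × ℝ)) [∀ m, IsProbabilityMeasure (μ m)]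
    {D W : ℝ} (hD1 : 1 ≤ D) (hW0 : 0 ≤ W) (hD : Dens μ D) (hW : Mom μ W) (hM1 : 1 ≤ M)
    (ht : 0 < t) (ht1 : t ≤ 1) :
    Measure.pi μ {c | ¬ Good n c M t} ≤ ENNReal.ofReal (4 * n ^ 2 * W / M ^ 2 +
      100000 * (D ^ 2 * (16 * (n ^ 4 * M)) ^ 3 * t)) := by
  have hn := hF.one_le
  have hn1 : (1:ℝ) ≤ n := by exact_mod_cast hn
  have hN1 : (1:ℝ) ≤ 4 * n ^ 2 := by nlinarith
  have hD0 : 0 ≤ D := by linarith
  set B : ℝ := 4 * (4 * n ^ 2 * (n ^ 2 * M)) with hB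
  have hB16 : 16 * ((n:ℝ) ^ 4 * M) = B := by rw [hB]; ring
  have hB1 : 1 ≤ B := by
    have : 1 ≤ 4 * (n:ℝ) ^ 2 * (n ^ 2 * M) := one_le_mul_of_one_le_of_one_le hN1
      (one_le_mul_of_one_le_of_one_le (one_le_pow₀ hn1) hM1)
    linarith
  have he0 : ∀ m : S, (e0 m).1 + (e0 m).2 ≤ n := fun m => hF.deg m.1 m.2
  have he1 : ∀ m : S, (e1 n m).1 + (e1 n m).2 ≤ n := fun m => by
    have := hF.deg m.1 m.2
    simp only [e1]; omega
  have he2 : ∀ m : S, (e2 n m).1 + (e2 n m).2 ≤ n := fun m => by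
    have := hF.deg m.1 m.2
    simp only [e2]; omega
  have a0 : e1 n (⟨(n, 0), hF.hn0⟩ : S) = (0, 0) := by simp [e1]
  have a1 : e1 n (⟨(n - 1, 0), hF.hn1⟩ : S) = (1, 0) := by
    simp only [e1, Prod.mk.injEq, and_true]; omega
  have a2 : e1 n (⟨(n - 1, 1), hF.hn2⟩ : S) = (0, 1) := by
    simp only [e1, Prod.mk.injEq, and_true]; omega
  have b0 : e2 n (⟨(0, n), hF.h0n⟩ : S) = (0, 0) := by simp [e2]
  have b1 : e2 n (⟨(0, n - 1), hF.h1n⟩ : S) = (1, 0) := by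
    simp only [e2, Prod.mk.injEq, and_true]; omega
  have b2 : e2 n (⟨(1, n - 1), hF.h2n⟩ : S) = (0, 1) := by
    simp only [e2, Prod.mk.injEq, and_true]; omega
  have p1 := prob_big μ hW0 hW (by linarith : 0 < M) (card_le hF)
  have p2 := prob_lead μ hD0 hD he1 hn (card_le hF) hN1 hM1 ht ht1 a0
  have p3 := prob_lead μ hD0 hD he2 hn (card_le hF) hN1 hM1 ht ht1 b0
  have p4 := prob_nd μ hD0 hD he0 hn (card_le hF) hN1 hM1 ht ht1
    (m₀ := ⟨(0, 0), hF.h00⟩) (m₁ := ⟨(1, 0), hF.h10⟩) (m₂ := ⟨(0, 1), hF.h01⟩) rfl rfl rfl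
  have p5 := prob_nd μ hD0 hD he1 hn (card_le hF) hN1 hM1 ht ht1 a0 a1 a2
  have p6 := prob_nd μ hD0 hD he2 hn (card_le hF) hN1 hM1 ht ht1 b0 b1 b2
  rw [← hB] at p2 p3 p4 p5 p6
  have hsub : {c : S → ℝ × ℝ | ¬ Good n c M t} ⊆ {c | ¬ ∀ m, ‖c m‖ ≤ M} ∪
      ({c | (∀ m, ‖c m‖ ≤ M) ∧ ∃ s : ℝ, |s| ≤ 1 ∧ ‖Gs one (e1 n) c (0, s)‖ < t} ∪
      ({c | (∀ m, ‖c m‖ ≤ M) ∧ ∃ s : ℝ, |s| ≤ 1 ∧ ‖Gs one (e2 n) c (0, s)‖ < t} ∪
      ({c | (∀ m, ‖c m‖ ≤ M) ∧ ¬ ND e0 c t} ∪ ({c | (∀ m, ‖c m‖ ≤ M) ∧ ¬ ND (e1 n) c t} ∪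
        {c | (∀ m, ‖c m‖ ≤ M) ∧ ¬ ND (e2 n) c t})))) := by
    intro c hc
    by_cases c1 : ∀ m, ‖c m‖ ≤ M
    · right
      by_cases c2 : ∃ s : ℝ, |s| ≤ 1 ∧ ‖Gs one (e1 n) c (0, s)‖ < t
      · left; exact ⟨c1, c2⟩
      right
      by_cases c3 : ∃ s : ℝ, |s| ≤ 1 ∧ ‖Gs one (e2 n) c (0, s)‖ < t
      · left; exact ⟨c1, c3⟩
      right
      by_cases c4 : ND e0 c t
      · right
        by_cases c5 : ND (e1 n) c t
        · right
          refine ⟨c1, fun c6 => hc ⟨c1, ?_, ?_, c4, c5, c6⟩⟩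
          · intro s hs
            by_contra hcon
            exact c2 ⟨s, hs, not_le.1 hcon⟩
          · intro s hs
            by_contra hcon
            exact c3 ⟨s, hs, not_le.1 hcon⟩
        · left; exact ⟨c1, c5⟩
      · left; exact ⟨c1, c4⟩
    · left; exact c1
  refine (measure_mono hsub).trans ?_
  refine (measure_union_le _ _).trans ((add_le_add p1 ((measure_union_le _ _).trans
    (add_le_add p2 ((measure_union_le _ _).trans (add_le_add p3 ((measure_union_le _ _).trans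
    (add_le_add p4 ((measure_union_le _ _).trans (add_le_add p5 p6))))))))).trans ?_)
  rw [← ENNReal.ofReal_add (by positivity) (by positivity),
    ← ENNReal.ofReal_add (by positivity) (by positivity),
    ← ENNReal.ofReal_add (by positivity) (by positivity),
    ← ENNReal.ofReal_add (by positivity) (by positivity),
    ← ENNReal.ofReal_add (by positivity) (by positivity), hB16]
  apply ENNReal.ofReal_le_ofReal
  have hDB : D * B * t ≤ D ^ 2 * B ^ 3 * t := by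
    have h1 : D ≤ D ^ 2 := by nlinarith
    have h2 : B ≤ B ^ 3 := le_self_pow₀ hB1 (by norm_num)
    have : D * B ≤ D ^ 2 * B ^ 3 := mul_le_mul h1 h2 (by linarith) (by positivity)
    exact mul_le_mul_of_nonneg_right this ht.le
  have h0 : 0 ≤ D ^ 2 * B ^ 3 * t := by positivity
  linarith

end

end Pool.Agent.W960.HR
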