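import Mathlib

/-! Linear forms in independent standard Gaussian variables. -/

open Real Set MeasureTheory Topology Filter ProbabilityTheory
open scoped ENNReal NNReal

namespace Pool.Agent.W960.HR

noncomputable section

variable {ι : Type*} [Fintype ι]

/-- independent standard Gaussian variables -/
def GQ (ι : Type*) [Fintype ι] : Measure (ι → ℝ) := Measure.pi fun _ => gaussianReal 0 1

instance : IsProbabilityMeasure (GQ ι) := by unfold GQ; infer_instance

/-- linear form on real vectors -/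
def sl (w a : ι → ℝ) : ℝ := ∑ m, w m * a m

lemma continuous_sl (w : ι → ℝ) : Continuous (sl w) := by
  unfold sl
  fun_prop

lemma map_coord (i : ι) : (GQ ι).map (fun a => a i) = gaussianReal 0 1 :=
  (measurePreserving_eval (fun _ : ι => gaussianReal 0 1) i).map_eq

lemma law_coord (i : ι) : HasGaussianLaw (fun a : ι → ℝ => a i) (GQ ι) := by
  constructor
  rw [map_coord]
  infer_instance

lemma indep_coord : iIndepFun (fun (i : ι) (a : ι → ℝ) => a i) (GQ ι) :=
  iIndepFun_pi (X := fun _ x => x) fun _ => aemeasurable_id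

lemma law_id : HasGaussianLaw (fun a : ι → ℝ => a) (GQ ι) :=
  indep_coord.hasGaussianLaw law_coord

/-- the pair of linear forms as a continuous linear map -/
def slL (w w' : ι → ℝ) : (ι → ℝ) →L[ℝ] ℝ × ℝ :=
  (∑ m, w m • ContinuousLinearMap.proj (R := ℝ) (φ := fun _ : ι => ℝ) m).prod
    (∑ m, w' m • ContinuousLinearMap.proj (R := ℝ) (φ := fun _ : ι => ℝ) m)

lemma slL_apply (w w' a : ι → ℝ) : slL w w' a = (sl w a, sl w' a) := by
  unfold slL sl
  simp

lemma law_pair (w w' : ι → ℝ) : HasGaussianLaw (fun a => (sl w a, sl w' a)) (GQ ι) := by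
  have h := law_id.map_fun (slL w w')
  simpa only [slL_apply] using h

lemma memLp_coord (i : ι) : MemLp (fun a : ι → ℝ => a i) 2 (GQ ι) := (law_coord i).memLp_two

lemma cov_coord [DecidableEq ι] (i j : ι) :
    cov[fun a : ι → ℝ => a i, fun a => a j; GQ ι] = if i = j then 1 else 0 := by
  split_ifs with h
  · subst h
    rw [covariance_self (measurable_pi_apply i).aemeasurable]
    have h1 : Var[fun a : ι → ℝ => a i; GQ ι] = Var[id; (GQ ι).map (fun a => a i)] := by
      rw [variance_map aemeasurable_id (measurable_pi_apply i).aemeasurable]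
      rfl
    rw [h1, map_coord, variance_id_gaussianReal]
    simp
  · exact (indep_coord.indepFun h).covariance_eq_zero (memLp_coord i) (memLp_coord j)

lemma cov_sl (w w' : ι → ℝ) : cov[sl w, sl w'; GQ ι] = ∑ m, w m * w' m := by
  classical
  unfold sl
  rw [covariance_fun_sum_fun_sum (fun i => (memLp_coord i).const_mul _)
    (fun i => (memLp_coord i).const_mul _)]
  simp only [covariance_const_mul_left, covariance_const_mul_right, cov_coord]
  simp [mul_comm]

lemma mean_coord (i : ι) : ∫ a, a i ∂GQ ι = 0 := by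
  have h := integral_map (μ := GQ ι) (φ := fun a : ι → ℝ => a i)
    (measurable_pi_apply i).aemeasurable (f := fun x : ℝ => x) aestronglyMeasurable_id
  rw [map_coord, integral_id_gaussianReal] at h
  exact h.symm

lemma mean_sl (w : ι → ℝ) : ∫ a, sl w a ∂GQ ι = 0 := by
  unfold sl
  rw [integral_finsetSum _ fun i _ => ((memLp_coord i).integrable (by norm_num)).const_mul _]
  simp [integral_const_mul, mean_coord]

lemma law_sl (w : ι → ℝ) : HasGaussianLaw (sl w) (GQ ι) := (law_pair w w).fst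

lemma map_sl (w : ι → ℝ) : (GQ ι).map (sl w) = gaussianReal 0 (∑ m, w m ^ 2).toNNReal := by
  rw [(law_sl w).map_eq_gaussianReal, mean_sl]
  congr 2
  rw [← covariance_self (continuous_sl w).aemeasurable, cov_sl]
  simp only [pow_two]

/-- small intervals -/
lemma gaussian_small {v : ℝ≥0} {s y : ℝ} (hs : 0 < s) (hv : (v : ℝ) = s ^ 2) (hy : 0 ≤ y) :
    gaussianReal 0 v {u | |u| ≤ y} ≤ ENNReal.ofReal (y / s) := by
  have hv0 : v ≠ 0 := by
    intro h
    rw [h] at hv
    have : 0 < s ^ 2 := by positivity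
    simp at hv
    linarith [hv.symm ▸ this]
  rw [gaussianReal_apply 0 hv0]
  have e : {u : ℝ | |u| ≤ y} = Icc (-y) y := by
    ext u
    rw [mem_ofPred_eq, mem_Icc, abs_le]
  have h1 : ∀ u, gaussianPDF 0 v u ≤ ENNReal.ofReal (1 / (2 * s)) := by
    intro u
    unfold gaussianPDF
    apply ENNReal.ofReal_le_ofReal
    rw [gaussianPDFReal_def]
    simp only
    rw [hv]
    have h2 : √(2 * π * s ^ 2) = √(2 * π) * s := by
      rw [Real.sqrt_mul (by positivity), Real.sqrt_sq hs.le]
    rw [h2]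
    have h3 : (2:ℝ) ≤ √(2 * π) := by
      apply Real.le_sqrt_of_sq_le
      linarith [Real.pi_gt_three]
    have h4 : rexp (-(u - 0) ^ 2 / (2 * s ^ 2)) ≤ 1 := by
      apply Real.exp_le_one_iff.2
      apply div_nonpos_of_nonpos_of_nonneg
      · simp; positivity
      · positivity
    calc (√(2 * π) * s)⁻¹ * rexp (-(u - 0) ^ 2 / (2 * s ^ 2)) ≤ (√(2 * π) * s)⁻¹ * 1 := by gcongr
      _ = 1 / (√(2 * π) * s) := by rw [mul_one, one_div]
      _ ≤ 1 / (2 * s) := by
          apply one_div_le_one_div_of_le (by positivity)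
          exact mul_le_mul_of_nonneg_right h3 hs.le
  rw [e]
  refine (setLIntegral_mono measurable_const fun u _ => h1 u).trans ?_
  rw [setLIntegral_const, Real.volume_Icc, ← ENNReal.ofReal_mul (by positivity)]
  apply ENNReal.ofReal_le_ofReal
  refine le_of_eq ?_
  field_simp
  ring

/-- mean absolute value -/
lemma mean_abs_sl {w : ι → ℝ} {s : ℝ} (hs : 0 < s) (hw : ∑ m, w m ^ 2 ≤ s ^ 2) :
    ∫⁻ a, ENNReal.ofReal |sl w a| ∂GQ ι ≤ ENNReal.ofReal s := by
  have hm : MemLp (sl w) 2 (GQ ι) := (law_sl w).memLp_two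
  have hi : Integrable (fun a => (sl w a) ^ 2) (GQ ι) := hm.integrable_sq
  have hsq : ∫ a, (sl w a) ^ 2 ∂GQ ι = ∑ m, w m ^ 2 := by
    have h1 : Var[sl w; GQ ι] = ∫ a, (sl w a) ^ 2 ∂GQ ι := by
      rw [variance_eq_integral (continuous_sl w).aemeasurable, mean_sl]
      simp
    rw [← h1, ← covariance_self (continuous_sl w).aemeasurable, cov_sl]
    simp only [pow_two]
  have h1 : ∀ a, ENNReal.ofReal |sl w a| ≤ ENNReal.ofReal ((s + (sl w a) ^ 2 / s) / 2) := by
    intro a
    apply ENNReal.ofReal_le_ofReal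
    have h2 : |sl w a| * s * 2 ≤ s ^ 2 + (sl w a) ^ 2 := by
      rw [← sq_abs (sl w a)]
      nlinarith [sq_nonneg (|sl w a| - s)]
    have h3 : (s + (sl w a) ^ 2 / s) / 2 = (s ^ 2 + (sl w a) ^ 2) / (2 * s) := by
      field_simp
    rw [h3, le_div_iff₀ (by positivity)]
    linarith
  refine (lintegral_mono h1).trans ?_
  rw [← ofReal_integral_eq_lintegral_ofReal]
  · apply ENNReal.ofReal_le_ofReal
    rw [integral_div, integral_add (integrable_const _) (hi.div_const _), integral_const,
      integral_div, hsq]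
    simp only [probReal_univ, smul_eq_mul, one_mul]
    have : (∑ m, w m ^ 2) / s ≤ s := by
      rw [div_le_iff₀ hs]; nlinarith
    linarith
  · exact ((integrable_const _).add (hi.div_const _)).div_const _
  · refine Eventually.of_forall fun a => ?_
    show 0 ≤ (s + (sl w a) ^ 2 / s) / 2
    positivity

/-- independence of uncorrelated linear forms -/
lemma indep_sl {w w' : ι → ℝ} (h : ∑ m, w m * w' m = 0) : IndepFun (sl w) (sl w') (GQ ι) :=
  (law_pair w w').indepFun_of_covariance_eq_zero (by rw [cov_sl, h])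

/-- The value of a linear form is small compared with another one. -/
theorem small_form {w w' : ι → ℝ} {s κ h C : ℝ} (hs : 0 < s) (hw : ∑ m, w m ^ 2 = s ^ 2)
    (hκ : 0 < κ) (hw' : ∑ m, w' m ^ 2 ≤ κ ^ 2 * s ^ 2) (hh : 0 ≤ h) (hhκ : h * κ ≤ 1 / 2)
    (hC : 0 ≤ C) :
    GQ ι {a | |sl w a| ≤ h * |sl w' a| + C} ≤ ENNReal.ofReal (2 * h * κ + 2 * C / s) := by
  set ρ : ℝ := (∑ m, w m * w' m) / s ^ 2 with hρ
  have hs2 : 0 < s ^ 2 := by positivity
  have hρκ : |ρ| ≤ κ := by
    have h1 : (∑ m, w m * w' m) ^ 2 ≤ (∑ m, w m ^ 2) * ∑ m, w' m ^ 2 :=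
      Finset.sum_mul_sq_le_sq_mul_sq _ _ _
    rw [hw] at h1
    have h2 : (∑ m, w m * w' m) ^ 2 ≤ (κ * s ^ 2) ^ 2 := by nlinarith
    have h3 := abs_le_of_sq_le_sq h2 (by positivity)
    rw [hρ, abs_div, abs_of_pos hs2, div_le_iff₀ hs2]
    exact h3
  set v : ι → ℝ := fun m => w' m - ρ * w m with hv
  have hort : ∑ m, w m * v m = 0 := by
    have h1 : ∑ m, w m * v m = ∑ m, w m * w' m - ρ * ∑ m, w m ^ 2 := by
      rw [Finset.mul_sum, ← Finset.sum_sub_distrib]
      exact Finset.sum_congr rfl fun m _ => by simp only [hv]; ring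
    rw [h1, hw, hρ]
    field_simp
    ring
  have hvn : ∑ m, v m ^ 2 ≤ (κ * s) ^ 2 := by
    have h1 : ∑ m, v m ^ 2 = ∑ m, w' m ^ 2 - ρ ^ 2 * s ^ 2 := by
      have h2 : ∑ m, v m ^ 2 = ∑ m, w' m ^ 2 - 2 * ρ * (∑ m, w m * w' m) + ρ ^ 2 * ∑ m, w m ^ 2 := by
        rw [Finset.mul_sum, Finset.mul_sum, ← Finset.sum_sub_distrib, ← Finset.sum_add_distrib]
        exact Finset.sum_congr rfl fun m _ => by simp only [hv]; ring
      have h3 : ∑ m, w m * w' m = ρ * s ^ 2 := by rw [hρ]; field_simp
      rw [h2, hw, h3]; ring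
    rw [h1]
    have : 0 ≤ ρ ^ 2 * s ^ 2 := by positivity
    nlinarith
  have hsl : ∀ a, sl w' a = sl v a + ρ * sl w a := by
    intro a
    unfold sl
    rw [Finset.mul_sum, ← Finset.sum_add_distrib]
    exact Finset.sum_congr rfl fun m _ => by simp only [hv]; ring
  set g : ℝ → ℝ := fun x => 2 * h * |x| + 2 * C with hg
  have hsub : {a | |sl w a| ≤ h * |sl w' a| + C} ⊆ {a : ι → ℝ | |sl w a| ≤ g (sl v a)} := by
    intro a ha
    simp only [mem_ofPred_eq] at ha ⊢
    rw [hsl] at ha
    have h1 := abs_add_le (sl v a) (ρ * sl w a)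
    rw [abs_mul] at h1
    have h2 : h * |sl v a + ρ * sl w a| ≤ h * |sl v a| + 1 / 2 * |sl w a| := by
      have h3 : |ρ| * |sl w a| ≤ κ * |sl w a| := mul_le_mul_of_nonneg_right hρκ (abs_nonneg _)
      have h4 := mul_le_mul_of_nonneg_left (h1.trans (add_le_add le_rfl h3)) hh
      have h5 : h * κ * |sl w a| ≤ 1 / 2 * |sl w a| :=
        mul_le_mul_of_nonneg_right hhκ (abs_nonneg _)
      nlinarith
    simp only [hg]
    linarith
  refine (measure_mono hsub).trans ?_
  have hmw : Measurable (sl w) := (continuous_sl w).measurable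
  have hmv : Measurable (sl v) := (continuous_sl v).measurable
  have hE : MeasurableSet {q : ℝ × ℝ | |q.1| ≤ g q.2} := by
    refine (isClosed_le (by fun_prop) ?_).measurableSet
    simp only [hg]
    fun_prop
  have h1 : GQ ι {a : ι → ℝ | |sl w a| ≤ g (sl v a)} =
      ((GQ ι).map (sl w)).prod ((GQ ι).map (sl v)) {q : ℝ × ℝ | |q.1| ≤ g q.2} := by
    rw [← (indep_sl hort).map_prod_eq_prod_map_map hmw.aemeasurable hmv.aemeasurable,
      Measure.map_apply (hmw.prodMk hmv) hE]
    rfl
  have hprob : IsProbabilityMeasure ((GQ ι).map (sl w)) := Measure.isProbabilityMeasure_map hmw.aemeasurable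
  have hprob' : IsProbabilityMeasure ((GQ ι).map (sl v)) := Measure.isProbabilityMeasure_map hmv.aemeasurable
  rw [h1, Measure.prod_apply_symm hE]
  have h2 : ∀ x, ((GQ ι).map (sl w)) ((fun u => (u, x)) ⁻¹' {q : ℝ × ℝ | |q.1| ≤ g q.2}) ≤
      ENNReal.ofReal (g x / s) := by
    intro x
    rw [map_sl]
    refine gaussian_small hs ?_ ?_
    · rw [Real.coe_toNNReal _ (Finset.sum_nonneg fun _ _ => sq_nonneg _), hw]
    · simp only [hg]; positivity
  refine (lintegral_mono h2).trans ?_
  rw [lintegral_map (by simp only [hg]; fun_prop) hmv]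
  have h3 : ∀ a, ENNReal.ofReal (g (sl v a) / s) =
      ENNReal.ofReal (2 * h / s) * ENNReal.ofReal |sl v a| + ENNReal.ofReal (2 * C / s) := by
    intro a
    rw [← ENNReal.ofReal_mul (by positivity), ← ENNReal.ofReal_add (by positivity) (by positivity)]
    congr 1
    simp only [hg]
    ring
  simp only [h3]
  rw [lintegral_add_right _ measurable_const, lintegral_const_mul' _ _ ENNReal.ofReal_ne_top,
    lintegral_const, measure_univ, mul_one]
  have h4 := mean_abs_sl (w := v) (s := κ * s) (by positivity) hvn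
  calc ENNReal.ofReal (2 * h / s) * ∫⁻ a, ENNReal.ofReal |sl v a| ∂GQ ι + ENNReal.ofReal (2 * C / s)
      ≤ ENNReal.ofReal (2 * h / s) * ENNReal.ofReal (κ * s) + ENNReal.ofReal (2 * C / s) := by
        gcongr
    _ = ENNReal.ofReal (2 * h * κ + 2 * C / s) := by
        rw [← ENNReal.ofReal_mul (by positivity), ← ENNReal.ofReal_add (by positivity) (by positivity)]
        congr 1
        field_simp

end

end Pool.Agent.W960.HR
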