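import Pool.Agent.W960.HR.Cover
import Pool.Agent.H709R2.WGauss
import Pool.Agent.H709R2.IntE

/-! The standard Gaussian law on the plane, and the expected number of closed orbits. -/

open Real Set MeasureTheory Topology Filter ProbabilityTheory
open scoped ENNReal

namespace Pool.Agent.W960.HR

noncomputable section

open Pool.Agent.H709R2 (fld rot rotc NP g2 g2_eq dens dens_le_one measurable_dens)

variable {S : Finset (ℕ × ℕ)} {n : ℕ}

lemma dens_eq (v : ℝ × ℝ) : dens v = (√(2 * π))⁻¹ ^ 2 * rexp (-(H709R2.sq v) / 2) := by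
  unfold dens H709R2.sq
  rw [gaussianPDFReal_def]
  simp only [NNReal.coe_one, mul_one, sub_zero]
  have h : rexp (-(v.1 ^ 2 + v.2 ^ 2) / 2) = rexp (-v.1 ^ 2 / 2) * rexp (-v.2 ^ 2 / 2) := by
    rw [← Real.exp_add]; congr 1; ring
  rw [h]
  ring

lemma sq_rot (α : ℝ) (v : ℝ × ℝ) : H709R2.sq (rot α v) = H709R2.sq v := by
  unfold H709R2.sq rot
  have := Real.sin_sq_add_cos_sq α
  simp only
  nlinarith [this]

lemma g2_le (B : Set (ℝ × ℝ)) : g2 B ≤ volume B := by
  rw [g2_eq]
  refine (measure_mono (subset_toMeasurable volume B)).trans ?_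
  rw [withDensity_apply _ (measurableSet_toMeasurable _ _), ← measure_toMeasurable B]
  refine (setLIntegral_mono measurable_const fun v _ =>
    ENNReal.ofReal_le_ofReal (dens_le_one v)).trans ?_
  simp

lemma dens_g2 : Dens (fun _ : S => g2) 1 := by
  intro m B
  rw [ENNReal.ofReal_one, one_mul]
  exact g2_le B

lemma g2_rot (α : ℝ) : g2.map (rot α) = g2 := by
  have hm : Measurable (rot α) := (H709R2.continuous_rot α).measurable
  ext B hB
  rw [Measure.map_apply hm hB, g2_eq, withDensity_apply _ (hm hB), withDensity_apply _ hB,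
    ← lintegral_indicator (hm hB), ← lintegral_indicator hB]
  have h1 := (H709R2.measurePreserving_rot α).lintegral_comp
    (f := B.indicator fun v => ENNReal.ofReal (dens v))
    ((ENNReal.measurable_ofReal.comp measurable_dens).indicator hB)
  rw [← h1]
  congr 1
  funext v
  by_cases h : rot α v ∈ B
  · rw [indicator_of_mem h, indicator_of_mem (show v ∈ rot α ⁻¹' B from h), dens_eq, dens_eq,
      sq_rot]
  · rw [indicator_of_notMem h, indicator_of_notMem (show v ∉ rot α ⁻¹' B from h)]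

lemma rotInv_g2 : RotInv (fun _ : S => g2) := fun _ α => g2_rot α

lemma second_moment : ∫⁻ x : ℝ, ENNReal.ofReal (x ^ 2) ∂gaussianReal 0 1 = 1 := by
  have h1 : MemLp (fun x : ℝ => x) 2 (gaussianReal 0 1) := memLp_id_gaussianReal 2
  have h2 : Integrable (fun x : ℝ => x ^ 2) (gaussianReal 0 1) := h1.integrable_sq
  rw [← ofReal_integral_eq_lintegral_ofReal h2 (ae_of_all _ fun x => sq_nonneg x)]
  have h3 := variance_of_integral_eq_zero (μ := gaussianReal 0 1) (X := fun x : ℝ => x)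
    aemeasurable_id (by simp)
  have h4 : Var[fun x : ℝ => x; gaussianReal 0 1] = 1 := by
    have := variance_fun_id_gaussianReal (μ := 0) (v := 1)
    simpa using this
  rw [h4] at h3
  rw [← h3, ENNReal.ofReal_one]

lemma mom_g2 : Mom (fun _ : S => g2) 2 := by
  intro m
  have h1 : ∀ w : ℝ × ℝ, ENNReal.ofReal (w.1 ^ 2 + w.2 ^ 2) =
      ENNReal.ofReal (w.1 ^ 2) + ENNReal.ofReal (w.2 ^ 2) := fun w =>
    ENNReal.ofReal_add (sq_nonneg _) (sq_nonneg _)
  simp only [h1]
  rw [lintegral_add_left (by fun_prop)]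
  have h2 : ∫⁻ w : ℝ × ℝ, ENNReal.ofReal (w.1 ^ 2) ∂g2 = 1 := by
    have := (measurePreserving_fst (μ := gaussianReal 0 1) (ν := gaussianReal 0 1)).lintegral_comp
      (f := fun x : ℝ => ENNReal.ofReal (x ^ 2)) (by fun_prop)
    rw [second_moment] at this
    exact this
  have h3 : ∫⁻ w : ℝ × ℝ, ENNReal.ofReal (w.2 ^ 2) ∂g2 = 1 := by
    have := (measurePreserving_snd (μ := gaussianReal 0 1) (ν := gaussianReal 0 1)).lintegral_comp
      (f := fun x : ℝ => ENNReal.ofReal (x ^ 2)) (by fun_prop)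
    rw [second_moment] at this
    exact this
  rw [h2, h3]
  norm_num

lemma full_T (hn : 1 ≤ n) : Full n (T n) := by
  refine ⟨fun m hm => mem_T.1 hm, ?_, ?_, ?_, ?_, ?_, ?_, ?_, ?_, ?_⟩ <;>
  · rw [mem_T]
    simp only
    omega

lemma GP_eq : GP S = Measure.pi fun _ : S => g2 := rfl

/-- **The mean number of closed orbits of a Gaussian polynomial field.** -/
theorem kac (hn : 1 ≤ n) : ∫⁻ c, NP c ∂GP (T n) ≤
    ENNReal.ofReal (2 * 10 ^ 12 * n * (1 + Real.log n) ^ 3) := by
  have hn1 : (1:ℝ) ≤ n := by exact_mod_cast hn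
  have hl : 0 ≤ Real.log n := Real.log_nonneg hn1
  rw [GP_eq]
  refine (expected (full_T hn) (fun _ : T n => g2) le_rfl (by norm_num) dens_g2 mom_g2
    rotInv_g2).trans ?_
  obtain ⟨g, hg1, hg2, hg3⟩ := NZ_maj (n := n) hn
  have h1 : ∫⁻ c, NZ c ∂(Measure.pi fun _ : T n => g2) ≤
      ENNReal.ofReal (7776 * (1 + Real.log n) ^ 2) := (lintegral_mono hg2).trans hg3
  set y : ℝ := 1 + Real.log n with hy
  have hy1 : 1 ≤ y := by linarith
  have h2 : (1:ℝ≥0∞) + n * ∫⁻ c, NZ c ∂(Measure.pi fun _ : T n => g2) ≤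
      ENNReal.ofReal (7777 * (n * y ^ 2)) := by
    have h3 : (n:ℝ≥0∞) = ENNReal.ofReal n := (ENNReal.ofReal_natCast n).symm
    calc (1:ℝ≥0∞) + n * ∫⁻ c, NZ c ∂(Measure.pi fun _ : T n => g2)
        ≤ ENNReal.ofReal 1 + ENNReal.ofReal n * ENNReal.ofReal (7776 * y ^ 2) := by
          rw [h3, ENNReal.ofReal_one]
          gcongr
      _ = ENNReal.ofReal (1 + n * (7776 * y ^ 2)) := by
          rw [← ENNReal.ofReal_mul (by positivity), ← ENNReal.ofReal_add (by norm_num) (by positivity)]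
      _ ≤ ENNReal.ofReal (7777 * (n * y ^ 2)) := by
          apply ENNReal.ofReal_le_ofReal
          have : (1:ℝ) ≤ n * y ^ 2 := one_le_mul_of_one_le_of_one_le hn1 (one_le_pow₀ hy1)
          linarith
  have h4 : 80000000 * (1 + Real.log ((n:ℝ) * 1 * 2)) ≤ 160000000 * y := by
    rw [mul_one, Real.log_mul (by positivity) (by norm_num)]
    have : Real.log 2 ≤ 1 := by linarith [Real.log_two_lt_d9]
    linarith
  calc ENNReal.ofReal (80000000 * (1 + Real.log ((n:ℝ) * 1 * 2))) *
        (1 + n * ∫⁻ c, NZ c ∂(Measure.pi fun _ : T n => g2))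
      ≤ ENNReal.ofReal (160000000 * y) * ENNReal.ofReal (7777 * (n * y ^ 2)) :=
        mul_le_mul' (ENNReal.ofReal_le_ofReal h4) h2
    _ = ENNReal.ofReal (160000000 * y * (7777 * (n * y ^ 2))) := by
        rw [← ENNReal.ofReal_mul (by positivity)]
    _ ≤ ENNReal.ofReal (2 * 10 ^ 12 * n * y ^ 3) := by
        apply ENNReal.ofReal_le_ofReal
        have : 0 ≤ n * y ^ 3 := by positivity
        nlinarith

end

end Pool.Agent.W960.HR
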