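import Pool.Agent.W960.HR.Det

/-! The zone conditions near a nondegenerate zero and near infinity. -/

open Real Set MeasureTheory Topology Filter
open scoped ENNReal

namespace Pool.Agent.W960.HR

open Pool.Agent.H709R2 (rot wedge ClosedOrbit field)
open Pool.Agent.H709U

lemma norm_sq_le_sq (v : ℝ × ℝ) : ‖v‖ ^ 2 ≤ H709R2.sq v := by
  rw [Prod.norm_def, Real.norm_eq_abs, Real.norm_eq_abs]
  unfold H709R2.sq
  rcases max_cases |v.1| |v.2| with ⟨h, -⟩ | ⟨h, -⟩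
  · rw [h, sq_abs]; nlinarith [sq_nonneg v.2]
  · rw [h, sq_abs]; nlinarith [sq_nonneg v.1]

lemma sq_le_norm_sq (v : ℝ × ℝ) : H709R2.sq v ≤ 2 * ‖v‖ ^ 2 := by
  have h1 : |v.1| ≤ ‖v‖ := norm_fst_le v
  have h2 : |v.2| ≤ ‖v‖ := norm_snd_le v
  have h3 := pow_le_pow_left₀ (abs_nonneg _) h1 2
  have h4 := pow_le_pow_left₀ (abs_nonneg _) h2 2
  rw [sq_abs] at h3 h4
  unfold H709R2.sq
  linarith

lemma abs_wedge_le (a b : ℝ × ℝ) : |wedge a b| ≤ 2 * (‖a‖ * ‖b‖) := by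
  have h1 : |a.1| ≤ ‖a‖ := norm_fst_le a
  have h2 : |a.2| ≤ ‖a‖ := norm_snd_le a
  have h3 : |b.1| ≤ ‖b‖ := norm_fst_le b
  have h4 : |b.2| ≤ ‖b‖ := norm_snd_le b
  unfold wedge
  refine (abs_sub _ _).trans ?_
  rw [abs_mul, abs_mul]
  have h5 : |a.1| * |b.2| ≤ ‖a‖ * ‖b‖ := mul_le_mul h1 h4 (abs_nonneg _) (norm_nonneg _)
  have h6 : |a.2| * |b.1| ≤ ‖a‖ * ‖b‖ := mul_le_mul h2 h3 (abs_nonneg _) (norm_nonneg _)
  linarith

lemma exp_lg {p z : ℝ × ℝ} (h : z ≠ p) : exp (lg p z) = √(H709R2.sq (z - p)) := by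
  have hs : 0 < H709R2.sq (z - p) := H709R2.sq_pos (sub_ne_zero.2 h)
  unfold lg
  rw [← Real.log_sqrt hs.le, Real.exp_log (Real.sqrt_pos.2 hs)]

/-- the second condition from the maximum norm -/
lemma second_of_norm {X : ℝ × ℝ → ℝ × ℝ} {p z : ℝ × ℝ} {Λ : ℝ} (hΛ : 0 ≤ Λ)
    (h : ∀ v, 2 * ‖fderiv ℝ X z v‖ * ‖z - p‖ ≤ Λ * ‖X z‖ * ‖v‖) (v : ℝ × ℝ) :
    H709R2.sq (fderiv ℝ X z v) * H709R2.sq (z - p) ≤
      Λ ^ 2 * H709R2.sq (X z) * H709R2.sq v := by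
  have h1 := pow_le_pow_left₀ (by positivity) (h v) 2
  have h2 := sq_le_norm_sq (fderiv ℝ X z v)
  have h3 := sq_le_norm_sq (z - p)
  have h4 := norm_sq_le_sq (X z)
  have h5 := norm_sq_le_sq v
  have s0 : ∀ w : ℝ × ℝ, 0 ≤ H709R2.sq w := fun w => by unfold H709R2.sq; positivity
  calc H709R2.sq (fderiv ℝ X z v) * H709R2.sq (z - p)
      ≤ (2 * ‖fderiv ℝ X z v‖ ^ 2) * (2 * ‖z - p‖ ^ 2) :=
        mul_le_mul h2 h3 (s0 _) (by positivity)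
    _ = (2 * ‖fderiv ℝ X z v‖ * ‖z - p‖) ^ 2 := by ring
    _ ≤ (Λ * ‖X z‖ * ‖v‖) ^ 2 := h1
    _ = Λ ^ 2 * ‖X z‖ ^ 2 * ‖v‖ ^ 2 := by ring
    _ ≤ Λ ^ 2 * H709R2.sq (X z) * H709R2.sq v := by
        refine mul_le_mul (mul_le_mul_of_nonneg_left h4 (by positivity)) h5 (by positivity) ?_
        have := s0 (X z)
        positivity

/-- near a nondegenerate zero -/
theorem local_zone {X : ℝ × ℝ → ℝ × ℝ} (hX : Differentiable ℝ X) {p : ℝ × ℝ} (hp : X p = 0)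
    {μ Λ₁ κ r : ℝ} (hμ : 0 < μ) (hΛ₁ : 1 ≤ Λ₁) (hκ : 0 ≤ κ) (hr : 0 < r) (hκr : 8 * κ * r ≤ 1)
    (h1 : ∀ v, μ * ‖v‖ ≤ ‖fderiv ℝ X p v‖) (h2 : ∀ v, ‖fderiv ℝ X p v‖ ≤ Λ₁ * μ * ‖v‖)
    (h3 : ∀ z, ‖z - p‖ ≤ r → ∀ v, ‖fderiv ℝ X z v - fderiv ℝ X p v‖ ≤ κ * μ * ‖z - p‖ * ‖v‖) :
    ZC X p 1 (Real.log r) (4 * Λ₁) := by
  intro z hz hlz
  have hsq : H709R2.sq (z - p) ≤ r ^ 2 := by
    rw [← lg_le_iff hz hr]; linarith
  set w := z - p with hw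
  have hwn : ‖w‖ ≤ r := by
    have := (norm_sq_le_sq w).trans hsq
    exact abs_le_of_sq_le_sq' this hr.le |>.2
  have hw0 : 0 < ‖w‖ := norm_pos_iff.2 (sub_ne_zero.2 hz)
  set L := fderiv ℝ X p with hL
  set a := ‖L w‖ with ha
  have ha1 : μ * ‖w‖ ≤ a := h1 w
  have ha0 : 0 < a := lt_of_lt_of_le (mul_pos hμ hw0) ha1
  have hκw : κ * ‖w‖ ≤ 1 / 8 := by nlinarith
  have hκw0 : 0 ≤ κ * ‖w‖ := by positivity
  -- the remainder
  have hE : ‖X z - L w‖ ≤ κ * ‖w‖ * a := by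
    have hb : ∀ x ∈ Metric.closedBall p ‖w‖, ‖fderiv ℝ X x - L‖ ≤ κ * μ * ‖w‖ := by
      intro x hx
      rw [mem_closedBall_iff_norm] at hx
      refine ContinuousLinearMap.opNorm_le_bound _ (by positivity) fun v => ?_
      have := h3 x (hx.trans hwn) v
      refine this.trans ?_
      gcongr
    have hm := (convex_closedBall p ‖w‖).norm_image_sub_le_of_norm_hasFDerivWithin_le'
      (f := X) (f' := fun x => fderiv ℝ X x) (φ := L) (C := κ * μ * ‖w‖)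
      (fun x _ => (hX x).hasFDerivAt.hasFDerivWithinAt) hb
      (Metric.mem_closedBall_self (norm_nonneg _))
      (show z ∈ Metric.closedBall p ‖w‖ by rw [mem_closedBall_iff_norm])
    rw [hp, sub_zero, ← hw] at hm
    refine hm.trans ?_
    calc κ * μ * ‖w‖ * ‖w‖ = κ * ‖w‖ * (μ * ‖w‖) := by ring
      _ ≤ κ * ‖w‖ * a := mul_le_mul_of_nonneg_left ha1 hκw0
  have hE' : ‖fderiv ℝ X z w - L w‖ ≤ κ * ‖w‖ * a := by
    refine (h3 z hwn w).trans ?_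
    calc κ * μ * ‖z - p‖ * ‖w‖ = κ * ‖w‖ * (μ * ‖w‖) := by rw [← hw]; ring
      _ ≤ κ * ‖w‖ * a := mul_le_mul_of_nonneg_left ha1 hκw0
  have hXz : 7 / 8 * a ≤ ‖X z‖ := by
    have h4 := norm_sub_norm_le (L w) (L w - X z)
    have h5 : L w - (L w - X z) = X z := by abel
    rw [h5, norm_sub_rev (L w) (X z)] at h4
    have : κ * ‖w‖ * a ≤ 1 / 8 * a := mul_le_mul_of_nonneg_right hκw ha0.le
    linarith
  have hXz0 : 0 < ‖X z‖ := by linarith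
  refine ⟨norm_pos_iff.1 hXz0, ?_, ?_⟩
  · refine second_of_norm (by positivity) fun v => ?_
    have h4 : ‖fderiv ℝ X z v‖ ≤ (Λ₁ + 1 / 8) * μ * ‖v‖ := by
      have h5 := h3 z hwn v
      have h6 := h2 v
      have h7 : ‖fderiv ℝ X z v‖ ≤ ‖fderiv ℝ X z v - L v‖ + ‖L v‖ := by
        have := norm_add_le (fderiv ℝ X z v - L v) (L v)
        rwa [sub_add_cancel] at this
      have h8 : κ * μ * ‖z - p‖ * ‖v‖ ≤ 1 / 8 * μ * ‖v‖ := by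
        rw [← hw]
        have : κ * μ * ‖w‖ * ‖v‖ = κ * ‖w‖ * (μ * ‖v‖) := by ring
        rw [this]
        have h9 : 0 ≤ μ * ‖v‖ := by positivity
        nlinarith
      linarith
    rw [← hw]
    have h5 : 2 * ((Λ₁ + 1 / 8) * μ * ‖v‖) * ‖w‖ ≤ 2 * (Λ₁ + 1 / 8) * a * ‖v‖ := by
      have : 2 * ((Λ₁ + 1 / 8) * μ * ‖v‖) * ‖w‖ = 2 * (Λ₁ + 1 / 8) * ‖v‖ * (μ * ‖w‖) := by ring
      rw [this]
      have h6 : 0 ≤ 2 * (Λ₁ + 1 / 8) * ‖v‖ := by positivity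
      nlinarith
    have h6 : 2 * ‖fderiv ℝ X z v‖ * ‖w‖ ≤ 2 * ((Λ₁ + 1 / 8) * μ * ‖v‖) * ‖w‖ := by gcongr
    refine h6.trans (h5.trans ?_)
    refine mul_le_mul_of_nonneg_right ?_ (norm_nonneg _)
    nlinarith
  · have hA : A0 X p z = wedge (X z) (fderiv ℝ X z w) := rfl
    set E := X z - L w with hEd
    set E' := fderiv ℝ X z w - L w with hEd'
    have e1 : wedge (X z) (fderiv ℝ X z w) = wedge (L w) E' + wedge E (L w) + wedge E E' := by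
      simp only [hEd, hEd', wedge, Prod.fst_sub, Prod.snd_sub]
      ring
    have h4 : |A0 X p z| ≤ 5 * (κ * ‖w‖) * a ^ 2 := by
      rw [hA, e1]
      refine (abs_add_le _ _).trans ((add_le_add ((abs_add_le _ _).trans
        (add_le_add (abs_wedge_le _ _) (abs_wedge_le _ _))) (abs_wedge_le _ _)).trans ?_)
      have h5 : ‖L w‖ * ‖E'‖ ≤ a * (κ * ‖w‖ * a) := mul_le_mul_of_nonneg_left hE' ha0.le
      have h6 : ‖E‖ * ‖L w‖ ≤ (κ * ‖w‖ * a) * a := mul_le_mul_of_nonneg_right hE ha0.le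
      have h7 : ‖E‖ * ‖E'‖ ≤ (κ * ‖w‖ * a) * (1 / 8 * a) := by
        refine mul_le_mul hE (hE'.trans ?_) (norm_nonneg _) (by positivity)
        exact mul_le_mul_of_nonneg_right hκw ha0.le
      have h8 : 0 ≤ κ * ‖w‖ * a ^ 2 := by positivity
      nlinarith
    refine h4.trans ?_
    have h5 : exp (1 * (lg p z - Real.log r)) = √(H709R2.sq w) / r := by
      rw [one_mul, Real.exp_sub, Real.exp_log hr, exp_lg hz]
    rw [h5]
    have h6 : ‖w‖ ≤ √(H709R2.sq w) := Real.le_sqrt_of_sq_le (norm_sq_le_sq w)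
    have h7 : (7 / 8 * a) ^ 2 ≤ H709R2.sq (X z) :=
      (pow_le_pow_left₀ (by positivity) hXz 2).trans (norm_sq_le_sq _)
    have h8 : 8 * κ ≤ 1 / r := by rw [le_div_iff₀ hr]; exact hκr
    have h9 : 8 * (κ * ‖w‖) ≤ √(H709R2.sq w) / r := by
      calc 8 * (κ * ‖w‖) = 8 * κ * ‖w‖ := by ring
        _ ≤ 1 / r * √(H709R2.sq w) := by
            refine mul_le_mul h8 h6 (norm_nonneg _) (by positivity)
        _ = _ := by ring
    calc 5 * (κ * ‖w‖) * a ^ 2 ≤ 8 * (κ * ‖w‖) * (7 / 8 * a) ^ 2 := by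
          have : 0 ≤ κ * ‖w‖ * a ^ 2 := by positivity
          nlinarith
      _ ≤ √(H709R2.sq w) / r * H709R2.sq (X z) :=
          mul_le_mul h9 h7 (by positivity) (by positivity)

/-- near infinity -/
theorem inf_zone {X : ℝ × ℝ → ℝ × ℝ} {k R Λ : ℝ} (hR : 0 < R) (hΛ : 0 ≤ Λ)
    (h : ∀ z, R ^ 2 ≤ 2 * ‖z‖ ^ 2 → X z ≠ 0 ∧
      (∀ v, 2 * ‖fderiv ℝ X z v‖ * ‖z‖ ≤ Λ * ‖X z‖ * ‖v‖) ∧
      ‖fderiv ℝ X z z - k • X z‖ * (3 * ‖z‖) ≤ R * ‖X z‖) :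
    ZC X 0 (-1) (Real.log R) Λ := by
  intro z hz hlz
  have hsq : R ^ 2 ≤ H709R2.sq z := by
    have := (le_lg_iff hz hR).1 (by linarith)
    rwa [sub_zero] at this
  obtain ⟨h1, h2, h3⟩ := h z (hsq.trans (sq_le_norm_sq z))
  refine ⟨h1, second_of_norm hΛ (by simpa using h2), ?_⟩
  have hz0 : 0 < ‖z‖ := norm_pos_iff.2 hz
  have hX0 : 0 < ‖X z‖ := norm_pos_iff.2 h1
  have e1 : A0 X 0 z = wedge (X z) (fderiv ℝ X z z - k • X z) := by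
    unfold A0
    rw [sub_zero]
    simp only [wedge, Prod.fst_sub, Prod.snd_sub, Prod.smul_fst, Prod.smul_snd, smul_eq_mul]
    ring
  rw [e1]
  refine (abs_wedge_le _ _).trans ?_
  have h5 : exp (-1 * (lg 0 z - Real.log R)) = R / √(H709R2.sq z) := by
    rw [show -1 * (lg 0 z - Real.log R) = Real.log R - lg 0 z by ring, Real.exp_sub,
      Real.exp_log hR, exp_lg hz, sub_zero]
  rw [h5]
  have hs : 0 < √(H709R2.sq z) := Real.sqrt_pos.2 (H709R2.sq_pos hz)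
  have h6 : √(H709R2.sq z) ≤ 3 / 2 * ‖z‖ := by
    rw [Real.sqrt_le_iff]
    refine ⟨by positivity, (sq_le_norm_sq z).trans ?_⟩
    nlinarith [sq_nonneg ‖z‖]
  rw [div_mul_eq_mul_div, le_div_iff₀ hs]
  calc 2 * (‖X z‖ * ‖fderiv ℝ X z z - k • X z‖) * √(H709R2.sq z)
      ≤ 2 * (‖X z‖ * ‖fderiv ℝ X z z - k • X z‖) * (3 / 2 * ‖z‖) := by gcongr
    _ = ‖X z‖ * (‖fderiv ℝ X z z - k • X z‖ * (3 * ‖z‖)) := by ring
    _ ≤ ‖X z‖ * (R * ‖X z‖) := by gcongr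
    _ = R * ‖X z‖ ^ 2 := by ring
    _ ≤ R * H709R2.sq (X z) := mul_le_mul_of_nonneg_left (norm_sq_le_sq _) hR.le

end Pool.Agent.W960.HR
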