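import Pool.Agent.W960.HR.Exp2

/-! Cubic bounds for the mean number of closed orbits. -/

open Real Set MeasureTheory Topology Filter
open scoped ENNReal

namespace Pool.Agent.W960.HR

noncomputable section

open Pool.Agent.H709R2 (fld rot rotc NP)

variable {S : Finset (ℕ × ℕ)} {n : ℕ}

lemma cubic_of {K : ℝ} (hK : 0 ≤ K) (hn : 1 ≤ n) {x : ℝ≥0∞} (hx : x ≤ (n:ℝ≥0∞) ^ 2) :
    ENNReal.ofReal K * (1 + n * x) ≤ ENNReal.ofReal (2 * K * n ^ 3) := by
  have hn1 : (1:ℝ) ≤ n := by exact_mod_cast hn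
  calc ENNReal.ofReal K * (1 + n * x) ≤ ENNReal.ofReal K * (1 + n * (n:ℝ≥0∞) ^ 2) := by gcongr
    _ = ENNReal.ofReal K * ENNReal.ofReal (1 + n * n ^ 2) := by
        rw [ENNReal.ofReal_add (by norm_num) (by positivity), ENNReal.ofReal_one,
          ENNReal.ofReal_mul (by positivity), ENNReal.ofReal_pow (by positivity),
          ENNReal.ofReal_natCast]
    _ = ENNReal.ofReal (K * (1 + n * n ^ 2)) := (ENNReal.ofReal_mul hK).symm
    _ ≤ ENNReal.ofReal (2 * K * n ^ 3) := by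
        apply ENNReal.ofReal_le_ofReal
        have : (1:ℝ) ≤ (n:ℝ) ^ 3 := one_le_pow₀ hn1
        nlinarith

/-- random rotations -/
theorem cubic_phi (hF : Full n S) (μ : S → Measure (ℝ × ℝ)) [∀ m, IsProbabilityMeasure (μ m)]
    {D W : ℝ} (hD1 : 1 ≤ D) (hW1 : 1 ≤ W) (hD : Dens μ D) (hW : Mom μ W) :
    ∫⁻ c, Phi c ∂Measure.pi μ ≤ ENNReal.ofReal (440000000 * n ^ 3 * (1 + Real.log (n * D * W))) := by
  have hn1 : (1:ℝ) ≤ n := by exact_mod_cast hF.one_le
  have hl0 : 0 ≤ Real.log (n * D * W) := Real.log_nonneg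
    (one_le_mul_of_one_le_of_one_le (one_le_mul_of_one_le_of_one_le hn1 hD1) hW1)
  refine (lintegral_phi hF μ hD1 hW1 hD hW).trans ((cubic_of (by positivity) hF.one_le
    (lintegral_NZ_le hF μ hD1 hW1 hD hW)).trans (ENNReal.ofReal_le_ofReal (le_of_eq (by ring))))

/-- rotation invariant laws -/
theorem cubic_expected (hF : Full n S) (μ : S → Measure (ℝ × ℝ))
    [∀ m, IsProbabilityMeasure (μ m)] {D W : ℝ} (hD1 : 1 ≤ D) (hW1 : 1 ≤ W) (hD : Dens μ D)
    (hW : Mom μ W) (hR : RotInv μ) :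
    ∫⁻ c, NP c ∂Measure.pi μ ≤ ENNReal.ofReal (160000000 * n ^ 3 * (1 + Real.log (n * D * W))) := by
  have hn1 : (1:ℝ) ≤ n := by exact_mod_cast hF.one_le
  have hl0 : 0 ≤ Real.log (n * D * W) := Real.log_nonneg
    (one_le_mul_of_one_le_of_one_le (one_le_mul_of_one_le_of_one_le hn1 hD1) hW1)
  refine (expected hF μ hD1 hW1 hD hW hR).trans ((cubic_of (by positivity) hF.one_le
    (lintegral_NZ_le hF μ hD1 hW1 hD hW)).trans (ENNReal.ofReal_le_ofReal (le_of_eq (by ring))))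

end

end Pool.Agent.W960.HR
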