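import Pool.Agent.W960.HR.Smooth2

/-! Every polynomial field is near to one with few closed orbits. -/

open Real Set MeasureTheory Topology Filter ProbabilityTheory
open scoped ENNReal

namespace Pool.Agent.W960.HR

noncomputable section

open Pool.Agent.H709R2 (NP g2 measurable_NP)

variable {S : Finset (ℕ × ℕ)} {n : ℕ}

lemma mean_sn : ∫⁻ g : S → ℝ × ℝ, ENNReal.ofReal (sn g) ∂GP S ≤ ENNReal.ofReal (2 * S.card) := by
  have h1 : ∀ g : S → ℝ × ℝ, ENNReal.ofReal (sn g) =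
      ∑ m, ENNReal.ofReal ((g m).1 ^ 2 + (g m).2 ^ 2) := by
    intro g
    unfold sn
    exact ENNReal.ofReal_sum_of_nonneg fun m _ => H709R2.sq_nonneg' (g m)
  simp only [h1]
  rw [lintegral_finsetSum _ fun m _ => by fun_prop]
  have h2 : ∀ m ∈ (Finset.univ : Finset S),
      ∫⁻ g : S → ℝ × ℝ, ENNReal.ofReal ((g m).1 ^ 2 + (g m).2 ^ 2) ∂GP S ≤ ENNReal.ofReal 2 := by
    intro m _
    have h3 := (measurePreserving_eval (fun _ : S => g2) m).lintegral_comp
      (f := fun w : ℝ × ℝ => ENNReal.ofReal (w.1 ^ 2 + w.2 ^ 2)) (by fun_prop)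
    refine (le_of_eq h3).trans (mom_g2 (S := S) m)
  refine (Finset.sum_le_card_nsmul _ _ _ h2).trans ?_
  rw [Finset.card_univ, Fintype.card_coe, nsmul_eq_mul, ← ENNReal.ofReal_natCast,
    ← ENNReal.ofReal_mul (by positivity)]
  exact ENNReal.ofReal_le_ofReal (le_of_eq (by ring))

/-- a field with few closed orbits near an arbitrary field -/
theorem near (hF : Full n S) (c₀ : S → ℝ × ℝ) {δ : ℝ} (hδ : 0 < δ) :
    ∃ c : S → ℝ × ℝ, ∑ m, (((c m).1 - (c₀ m).1) ^ 2 + ((c m).2 - (c₀ m).2) ^ 2) ≤ δ ^ 2 ∧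
      NP c ≤ ENNReal.ofReal (21 * 10 ^ 9 * n ^ 3 * (1 + 4 * n * √(sn c₀) / δ) *
        (1 + Real.log (n * (1 + 4 * n * √(sn c₀) / δ)))) := by
  have hn := hF.one_le
  have hn1 : (1:ℝ) ≤ n := by exact_mod_cast hn
  have hn0 : (0:ℝ) < n := by linarith
  set σ : ℝ := δ / (4 * n) with hσd
  have hσ : 0 < σ := by positivity
  have hX : 1 + √(sn c₀) / σ = 1 + 4 * n * √(sn c₀) / δ := by
    rw [hσd]; field_simp
  have hsm := smoothed hF c₀ hσ
  rw [hX] at hsm
  set X : ℝ := 1 + 4 * n * √(sn c₀) / δ with hXd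
  have hX1 : 1 ≤ X := by
    have : 0 ≤ 4 * n * √(sn c₀) / δ := by positivity
    linarith
  have hy0 : 0 ≤ Real.log (n * X) := Real.log_nonneg (one_le_mul_of_one_le_of_one_le hn1 hX1)
  set B : ℝ := 7 * 10 ^ 9 * n ^ 3 * X * (1 + Real.log (n * X)) with hB
  have hB0 : 0 < B := by positivity
  have hNm : Measurable fun g : S → ℝ × ℝ => NP (fun m => c₀ m + σ • g m) :=
    measurable_NP.comp (by fun_prop)
  have hsnm : Measurable fun g : S → ℝ × ℝ => ENNReal.ofReal (sn g) := by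
    have : Continuous fun g : S → ℝ × ℝ => sn g := by
      unfold sn H709R2.sq
      fun_prop
    exact ENNReal.measurable_ofReal.comp this.measurable
  have hF1 : Measurable fun g : S → ℝ × ℝ => ENNReal.ofReal (sn g) * ENNReal.ofReal (1 / (16 * n ^ 2)) +
      NP (fun m => c₀ m + σ • g m) * ENNReal.ofReal (1 / (3 * B)) :=
    (hsnm.mul_const _).add (hNm.mul_const _)
  obtain ⟨g, hg⟩ := exists_le_lintegral (μ := GP S) hF1.aemeasurable
  rw [lintegral_add_left (hsnm.mul_const _), lintegral_mul_const _ hsnm,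
    lintegral_mul_const _ hNm] at hg
  have h1 : (∫⁻ g : S → ℝ × ℝ, ENNReal.ofReal (sn g) ∂GP S) * ENNReal.ofReal (1 / (16 * n ^ 2)) ≤
      ENNReal.ofReal (1 / 2) := by
    refine (mul_le_mul_left mean_sn _).trans ?_
    rw [← ENNReal.ofReal_mul (by positivity)]
    apply ENNReal.ofReal_le_ofReal
    rw [mul_one_div, div_le_iff₀ (by positivity)]
    have := card_le hF
    linarith
  have h2 : (∫⁻ g : S → ℝ × ℝ, NP (fun m => c₀ m + σ • g m) ∂GP S) * ENNReal.ofReal (1 / (3 * B)) ≤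
      ENNReal.ofReal (1 / 3) := by
    refine (mul_le_mul_left hsm _).trans ?_
    rw [← ENNReal.ofReal_mul hB0.le]
    apply ENNReal.ofReal_le_ofReal
    rw [mul_one_div, div_le_iff₀ (by positivity)]
    linarith
  have h3 : ENNReal.ofReal (sn g) * ENNReal.ofReal (1 / (16 * n ^ 2)) +
      NP (fun m => c₀ m + σ • g m) * ENNReal.ofReal (1 / (3 * B)) ≤ 1 := by
    refine hg.trans ((add_le_add h1 h2).trans ?_)
    rw [← ENNReal.ofReal_add (by norm_num) (by norm_num), ← ENNReal.ofReal_one]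
    exact ENNReal.ofReal_le_ofReal (by norm_num)
  refine ⟨fun m => c₀ m + σ • g m, ?_, ?_⟩
  · have h4 : ENNReal.ofReal (sn g) * ENNReal.ofReal (1 / (16 * n ^ 2)) ≤ 1 := le_self_add.trans h3
    rw [← ENNReal.ofReal_mul (sn_nonneg g), ← ENNReal.ofReal_one,
      ENNReal.ofReal_le_ofReal_iff (by norm_num), mul_one_div, div_le_one (by positivity)] at h4
    have h5 : ∑ m, (((c₀ m + σ • g m).1 - (c₀ m).1) ^ 2 + ((c₀ m + σ • g m).2 - (c₀ m).2) ^ 2) =
        σ ^ 2 * sn g := by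
      unfold sn H709R2.sq
      rw [Finset.mul_sum]
      refine Finset.sum_congr rfl fun m _ => ?_
      simp only [Prod.fst_add, Prod.snd_add, Prod.smul_fst, Prod.smul_snd, smul_eq_mul]
      ring
    rw [h5]
    calc σ ^ 2 * sn g ≤ σ ^ 2 * (16 * n ^ 2) := by gcongr
      _ = δ ^ 2 := by rw [hσd]; field_simp; ring
  · have h4 : NP (fun m => c₀ m + σ • g m) * ENNReal.ofReal (1 / (3 * B)) ≤ 1 :=
      le_add_self.trans h3
    have h5 : ENNReal.ofReal (1 / (3 * B)) * ENNReal.ofReal (3 * B) = 1 := by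
      rw [← ENNReal.ofReal_mul (by positivity), ← ENNReal.ofReal_one]
      congr 1
      field_simp
    have h6 : NP (fun m => c₀ m + σ • g m) ≤ ENNReal.ofReal (3 * B) := by
      calc NP (fun m => c₀ m + σ • g m) = NP (fun m => c₀ m + σ • g m) *
            ENNReal.ofReal (1 / (3 * B)) * ENNReal.ofReal (3 * B) := by
            rw [mul_assoc, h5, mul_one]
        _ ≤ 1 * ENNReal.ofReal (3 * B) := mul_le_mul_left h4 _
        _ = ENNReal.ofReal (3 * B) := one_mul _
    refine h6.trans (ENNReal.ofReal_le_ofReal (le_of_eq ?_))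
    rw [hB]
    ring

end

end Pool.Agent.W960.HR
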