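import Pool.Agent.W960.HR.Prob

/-! The probability that the conditions in the charts fail. -/

open Real Set MeasureTheory Topology Filter
open scoped ENNReal

namespace Pool.Agent.W960.HR

noncomputable section

variable {S : Finset (ℕ × ℕ)} {n : ℕ} {M N t : ℝ}

lemma gxe_le {e : S → ℕ × ℕ} (he : ∀ m, (e m).1 + (e m).2 ≤ n) (hN : (S.card : ℝ) ≤ N)
    {c : S → ℝ × ℝ} (hM : ∀ m, ‖c m‖ ≤ M) (hM0 : 0 ≤ M) {z : ℝ × ℝ} (hz : ‖z‖ ≤ 1) :
    ‖Gx one e c z‖ ≤ N * (n * M) ∧ ‖Gy one e c z‖ ≤ N * (n * M) := by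
  constructor
  · refine (norm_Gs_le (A := n) (M := M) (ρ := 1) (d := n) ?_ hM le_rfl hz ?_).trans ?_
    · intro m
      simp only [one, one_mul, Nat.abs_cast]
      have := he m
      exact_mod_cast (by omega : (e m).1 ≤ n)
    · intro m _
      have := he m
      simp only
      omega
    · rw [one_pow, mul_one]
      exact mul_le_mul_of_nonneg_right hN (by positivity)
  · refine (norm_Gs_le (A := n) (M := M) (ρ := 1) (d := n) ?_ hM le_rfl hz ?_).trans ?_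
    · intro m
      simp only [one, one_mul, Nat.abs_cast]
      have := he m
      exact_mod_cast (by omega : (e m).2 ≤ n)
    · intro m _
      have := he m
      simp only
      omega
    · rw [one_pow, mul_one]
      exact mul_le_mul_of_nonneg_right hN (by positivity)

lemma gxe_sub_le {e : S → ℕ × ℕ} (he : ∀ m, (e m).1 + (e m).2 ≤ n) (hN : (S.card : ℝ) ≤ N)
    {c : S → ℝ × ℝ} (hM : ∀ m, ‖c m‖ ≤ M) (hM0 : 0 ≤ M) {z w : ℝ × ℝ} (hz : ‖z‖ ≤ 1)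
    (hw : ‖w‖ ≤ 1) :
    ‖Gx one e c z - Gx one e c w‖ ≤ N * (n ^ 2 * M) * ‖z - w‖ ∧
      ‖Gy one e c z - Gy one e c w‖ ≤ N * (n ^ 2 * M) * ‖z - w‖ := by
  constructor
  · refine (norm_Gs_sub_le (A := n) (M := M) (ρ := 1) (d := n) ?_ hM le_rfl hz hw ?_).trans ?_
    · intro m
      simp only [one, one_mul, Nat.abs_cast]
      have := he m
      exact_mod_cast (by omega : (e m).1 ≤ n)
    · intro m _
      have := he m
      simp only
      omega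
    · rw [one_pow, mul_one, ← pow_two]
      exact mul_le_mul_of_nonneg_right (mul_le_mul_of_nonneg_right hN (by positivity))
        (norm_nonneg _)
  · refine (norm_Gs_sub_le (A := n) (M := M) (ρ := 1) (d := n) ?_ hM le_rfl hz hw ?_).trans ?_
    · intro m
      simp only [one, one_mul, Nat.abs_cast]
      have := he m
      exact_mod_cast (by omega : (e m).2 ≤ n)
    · intro m _
      have := he m
      simp only
      omega
    · rw [one_pow, mul_one, ← pow_two]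
      exact mul_le_mul_of_nonneg_right (mul_le_mul_of_nonneg_right hN (by positivity))
        (norm_nonneg _)

lemma gse_sub_le {e : S → ℕ × ℕ} (he : ∀ m, (e m).1 + (e m).2 ≤ n) (hN : (S.card : ℝ) ≤ N)
    {c : S → ℝ × ℝ} (hM : ∀ m, ‖c m‖ ≤ M) (hM0 : 0 ≤ M) {z w : ℝ × ℝ} (hz : ‖z‖ ≤ 1)
    (hw : ‖w‖ ≤ 1) : ‖Gs one e c z - Gs one e c w‖ ≤ N * (n * M) * ‖z - w‖ := by
  refine (norm_Gs_sub_le (A := 1) (M := M) (ρ := 1) (d := n) ?_ hM le_rfl hz hw ?_).trans ?_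
  · intro m
    simp [one]
  · intro m _
    exact he m
  · rw [one_pow, mul_one, one_mul]
    exact mul_le_mul_of_nonneg_right (mul_le_mul_of_nonneg_right hN (by positivity))
      (norm_nonneg _)

/-- weights of the value -/
def wF (e : S → ℕ × ℕ) (z : ℝ × ℝ) (m : S) : ℝ := one m * (z.1 ^ (e m).1 * z.2 ^ (e m).2)

/-- weights of the derivative in direction `d` -/
def wd (e : S → ℕ × ℕ) (z d : ℝ × ℝ) (m : S) : ℝ :=
  d.1 * (one m * (e m).1 * (z.1 ^ ((e m).1 - 1) * z.2 ^ (e m).2)) +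
    d.2 * (one m * (e m).2 * (z.1 ^ (e m).1 * z.2 ^ ((e m).2 - 1)))

lemma lin_wF (e : S → ℕ × ℕ) (z : ℝ × ℝ) (c : S → ℝ × ℝ) : lin (wF e z) c = Gs one e c z := rfl

lemma lin_wd (e : S → ℕ × ℕ) (z d : ℝ × ℝ) (c : S → ℝ × ℝ) :
    lin (wd e z d) c = d.1 • Gx one e c z + d.2 • Gy one e c z := by
  unfold lin Gx Gy Gs
  rw [Finset.smul_sum, Finset.smul_sum, ← Finset.sum_add_distrib]
  refine Finset.sum_congr rfl fun m _ => ?_
  rw [smul_smul, smul_smul, ← add_smul]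
  rfl

/-- points of the grid -/
lemma grid {K : ℕ} (hK : 0 < K) {x : ℝ} (hx : |x| ≤ 1) :
    ∃ i ∈ Finset.Icc (-(K:ℤ)) K, |(i:ℝ) / K - x| ≤ 1 / K ∧ |(i:ℝ) / K| ≤ 1 := by
  have hKr : (0:ℝ) < K := by exact_mod_cast hK
  rw [abs_le] at hx
  refine ⟨⌊x * K⌋, ?_, ?_, ?_⟩
  · rw [Finset.mem_Icc]
    constructor
    · rw [Int.le_floor]
      push_cast
      nlinarith
    · have : x * K ≤ ((K:ℤ):ℝ) := by push_cast; nlinarith
      exact (Int.floor_le_floor this).trans (by simp)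
  · have h1 := Int.floor_le (x * K)
    have h2 := Int.lt_floor_add_one (x * K)
    have e : (⌊x * K⌋ : ℝ) / K - x = (⌊x * K⌋ - x * K) / K := by field_simp
    rw [e, abs_div, abs_of_pos hKr]
    refine div_le_div_of_nonneg_right ?_ hKr.le
    rw [abs_le]
    constructor <;> linarith
  · rw [abs_div, abs_of_pos hKr, div_le_one hKr, abs_le]
    constructor
    · have : (-(K:ℤ)) ≤ ⌊x * K⌋ := by
        rw [Int.le_floor]
        push_cast
        nlinarith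
      exact_mod_cast this
    · have : ⌊x * K⌋ ≤ (K:ℤ) := by
        have : x * K ≤ ((K:ℤ):ℝ) := by push_cast; nlinarith
        exact (Int.floor_le_floor this).trans (by simp)
      exact_mod_cast this

lemma card_grid (K : ℕ) : ((Finset.Icc (-(K:ℤ)) K).card : ℝ) = 2 * K + 1 := by
  rw [Int.card_Icc]
  have : ((K:ℤ) + 1 - (-(K:ℤ))).toNat = 2 * K + 1 := by omega
  rw [this]; push_cast; ring

/-- one family of directions -/
lemma prob_dir (μ : S → Measure (ℝ × ℝ)) [∀ m, IsProbabilityMeasure (μ m)] {D : ℝ} (hD0 : 0 ≤ D)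
    (hD : Dens μ D) {e : S → ℕ × ℕ} (he : ∀ m, (e m).1 + (e m).2 ≤ n) (hn : 1 ≤ n)
    (hN : (S.card : ℝ) ≤ N) (hN1 : 1 ≤ N) (hM1 : 1 ≤ M) (ht : 0 < t) (ht1 : t ≤ 1)
    {dir : ℝ → ℝ × ℝ} (hd1 : ∀ σ, |σ| ≤ 1 → ‖dir σ‖ ≤ 1)
    (hd2 : ∀ σ σ', ‖dir σ - dir σ'‖ ≤ |σ - σ'|) {m₀ m' : S} (hm₀ : e m₀ = (0, 0))
    (hm' : ∀ σ z, wd e z (dir σ) m' = 1) :
    Measure.pi μ {c | (∀ m, ‖c m‖ ≤ M) ∧ ∃ a b σ : ℝ, |a| ≤ 1 ∧ |b| ≤ 1 ∧ |σ| ≤ 1 ∧
      Gs one e c (a, b) = 0 ∧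
      ‖(dir σ).1 • Gx one e c (a, b) + (dir σ).2 • Gy one e c (a, b)‖ < t} ≤
      ENNReal.ofReal (13824 * (D ^ 2 * (4 * (N * (n ^ 2 * M))) ^ 3 * t)) := by
  have hn1 : (1:ℝ) ≤ n := by exact_mod_cast hn
  have hM0 : 0 ≤ M := by linarith
  set B : ℝ := 4 * (N * (n ^ 2 * M)) with hB
  have hB1 : 1 ≤ B := by
    have : 1 ≤ N * (n ^ 2 * M) := one_le_mul_of_one_le_of_one_le hN1
      (one_le_mul_of_one_le_of_one_le (one_le_pow₀ hn1) hM1)
    linarith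
  have hB0 : 0 < B := by linarith
  set K : ℕ := ⌈B / t⌉₊ with hK
  have hBt : 1 ≤ B / t := by rw [le_div_iff₀ ht]; linarith
  have hK1 : B / t ≤ K := Nat.le_ceil _
  have hK2 : (K:ℝ) ≤ 2 * (B / t) := by
    have := (Nat.ceil_lt_add_one (by positivity : 0 ≤ B / t)).le
    rw [← hK] at this
    linarith
  have hKr : (0:ℝ) < K := by linarith
  have hK0 : 0 < K := by exact_mod_cast hKr
  have hBK : B * (1 / K) ≤ t := by
    rw [mul_one_div, div_le_iff₀ hKr]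
    rw [div_le_iff₀ ht] at hK1
    linarith
  set G := Finset.Icc (-(K:ℤ)) K with hG
  set E : ℤ × ℤ × ℤ → Set (S → ℝ × ℝ) := fun q =>
    {c | ‖lin (wF e ((q.1:ℝ) / K, (q.2.1:ℝ) / K)) c‖ ≤ t ∧
      ‖lin (wd e ((q.1:ℝ) / K, (q.2.1:ℝ) / K) (dir ((q.2.2:ℝ) / K))) c‖ ≤ 2 * t} with hE
  have hsub : {c : S → ℝ × ℝ | (∀ m, ‖c m‖ ≤ M) ∧ ∃ a b σ : ℝ, |a| ≤ 1 ∧ |b| ≤ 1 ∧ |σ| ≤ 1 ∧
      Gs one e c (a, b) = 0 ∧
      ‖(dir σ).1 • Gx one e c (a, b) + (dir σ).2 • Gy one e c (a, b)‖ < t} ⊆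
      ⋃ q ∈ G ×ˢ G ×ˢ G, E q := by
    rintro c ⟨hcM, a, b, σ, ha, hb, hσ, h0, hlt⟩
    obtain ⟨i, hi, hi1, hi2⟩ := grid hK0 ha
    obtain ⟨j, hj, hj1, hj2⟩ := grid hK0 hb
    obtain ⟨k, hk, hk1, hk2⟩ := grid hK0 hσ
    simp only [mem_iUnion]
    refine ⟨(i, j, k), Finset.mk_mem_product hi (Finset.mk_mem_product hj hk), ?_⟩
    have hz : ‖((a, b) : ℝ × ℝ)‖ ≤ 1 := by rw [Prod.norm_def]; exact max_le ha hb
    have hz' : ‖(((i:ℝ) / K, (j:ℝ) / K) : ℝ × ℝ)‖ ≤ 1 := by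
      rw [Prod.norm_def]; exact max_le hi2 hj2
    have hzz : ‖(((i:ℝ) / K, (j:ℝ) / K) : ℝ × ℝ) - (a, b)‖ ≤ 1 / K := by
      rw [Prod.norm_def]; exact max_le hi1 hj1
    set z : ℝ × ℝ := (a, b) with hzd
    set z' : ℝ × ℝ := ((i:ℝ) / K, (j:ℝ) / K) with hzd'
    have hNnM : N * (n * M) ≤ N * (n ^ 2 * M) := by
      have : (n:ℝ) ≤ n ^ 2 := by nlinarith
      gcongr
    constructor
    · show ‖lin (wF e z') c‖ ≤ t
      rw [lin_wF]
      have h1 := gse_sub_le he hN hcM hM0 hz' hz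
      rw [h0, sub_zero] at h1
      refine h1.trans (le_trans ?_ hBK)
      refine mul_le_mul ?_ hzz (norm_nonneg _) hB0.le
      rw [hB]; nlinarith [mul_nonneg (by linarith : (0:ℝ) ≤ N) (mul_nonneg (by linarith : (0:ℝ) ≤ n) hM0)]
    · show ‖lin (wd e z' (dir ((k:ℝ) / K))) c‖ ≤ 2 * t
      rw [lin_wd]
      set d := dir σ with hd
      set d' := dir ((k:ℝ) / K) with hd'
      have hdd : ‖d' - d‖ ≤ 1 / K := (hd2 _ _).trans hk1
      have hd1' : ‖d'‖ ≤ 1 := hd1 _ hk2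
      obtain ⟨g1, g2⟩ := gxe_sub_le he hN hcM hM0 hz' hz
      obtain ⟨g3, g4⟩ := gxe_le he hN hcM hM0 hz
      have hA0 : 0 ≤ N * (n ^ 2 * M) := by
        have : 0 ≤ N := by linarith
        positivity
      have g1' : ‖Gx one e c z' - Gx one e c z‖ ≤ N * (n ^ 2 * M) * (1 / K) :=
        g1.trans (mul_le_mul_of_nonneg_left hzz hA0)
      have g2' : ‖Gy one e c z' - Gy one e c z‖ ≤ N * (n ^ 2 * M) * (1 / K) :=
        g2.trans (mul_le_mul_of_nonneg_left hzz hA0)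
      have e1 : d'.1 • Gx one e c z' + d'.2 • Gy one e c z' =
          (d.1 • Gx one e c z + d.2 • Gy one e c z) +
          (d'.1 • (Gx one e c z' - Gx one e c z) + d'.2 • (Gy one e c z' - Gy one e c z)) +
          ((d' - d).1 • Gx one e c z + (d' - d).2 • Gy one e c z) := by
        rw [Prod.fst_sub, Prod.snd_sub, sub_smul, sub_smul, smul_sub, smul_sub]
        abel
      rw [e1]
      have h2 := norm_comb_le d' _ _ g1' g2'
      have h3 := norm_comb_le (d' - d) _ _ g3 g4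
      have h4 : 2 * (N * (n ^ 2 * M) * (1 / K)) * ‖d'‖ ≤ 2 * (N * (n ^ 2 * M) * (1 / K)) * 1 :=
        mul_le_mul_of_nonneg_left hd1' (by positivity)
      have h5 : 2 * (N * (n * M)) * ‖d' - d‖ ≤ 2 * (N * (n ^ 2 * M)) * (1 / K) :=
        mul_le_mul (by linarith) hdd (norm_nonneg _) (by positivity)
      have h6 : 2 * (N * (n ^ 2 * M) * (1 / K)) * 1 + 2 * (N * (n ^ 2 * M)) * (1 / K) =
          B * (1 / K) := by rw [hB]; ring
      refine (norm_add_le _ _).trans ?_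
      refine (add_le_add (norm_add_le _ _) le_rfl).trans ?_
      linarith
  refine (measure_mono hsub).trans ((measure_biUnion_finset_le _ _).trans ?_)
  have hEq : ∀ q ∈ G ×ˢ G ×ˢ G, Measure.pi μ (E q) ≤ ENNReal.ofReal (64 * (D ^ 2 * t ^ 4)) := by
    intro q _
    refine (prob_two μ hD0 hD (m := m₀) (m' := m') ?_ ?_ (hm' _ _) ht.le (by positivity)).trans ?_
    · simp [wF, hm₀, one]
    · simp [wd, hm₀]
    · exact ENNReal.ofReal_le_ofReal (le_of_eq (by ring))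
  refine (Finset.sum_le_card_nsmul _ _ _ hEq).trans ?_
  rw [Finset.card_product, Finset.card_product, nsmul_eq_mul]
  have e2 : (((G.card * (G.card * G.card) : ℕ)) : ℝ≥0∞) =
      ENNReal.ofReal ((2 * K + 1) * ((2 * K + 1) * (2 * K + 1))) := by
    rw [← ENNReal.ofReal_natCast]
    congr 1
    push_cast
    rw [card_grid]
  rw [e2, ← ENNReal.ofReal_mul (by positivity)]
  apply ENNReal.ofReal_le_ofReal
  have h3 : (2 * (K:ℝ) + 1) ≤ 6 * (B / t) := by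
    have : (1:ℝ) ≤ K := by exact_mod_cast hK0
    linarith
  have h4 : (2 * (K:ℝ) + 1) * ((2 * K + 1) * (2 * K + 1)) ≤ 216 * (B / t) ^ 3 := by
    calc (2 * (K:ℝ) + 1) * ((2 * K + 1) * (2 * K + 1)) = (2 * (K:ℝ) + 1) ^ 3 := by ring
      _ ≤ (6 * (B / t)) ^ 3 := by gcongr
      _ = _ := by ring
  calc (2 * (K:ℝ) + 1) * ((2 * K + 1) * (2 * K + 1)) * (64 * (D ^ 2 * t ^ 4))
      ≤ 216 * (B / t) ^ 3 * (64 * (D ^ 2 * t ^ 4)) := by gcongr
    _ = 13824 * (D ^ 2 * B ^ 3 * t) := by field_simp; ring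

/-- the leading part -/
lemma prob_lead (μ : S → Measure (ℝ × ℝ)) [∀ m, IsProbabilityMeasure (μ m)] {D : ℝ} (hD0 : 0 ≤ D)
    (hD : Dens μ D) {e : S → ℕ × ℕ} (he : ∀ m, (e m).1 + (e m).2 ≤ n) (hn : 1 ≤ n)
    (hN : (S.card : ℝ) ≤ N) (hN1 : 1 ≤ N) (hM1 : 1 ≤ M) (ht : 0 < t) (ht1 : t ≤ 1)
    {m₀ : S} (hm₀ : e m₀ = (0, 0)) :
    Measure.pi μ {c | (∀ m, ‖c m‖ ≤ M) ∧ ∃ s : ℝ, |s| ≤ 1 ∧ ‖Gs one e c (0, s)‖ < t} ≤
      ENNReal.ofReal (96 * (D * (4 * (N * (n ^ 2 * M))) * t)) := by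
  have hn1 : (1:ℝ) ≤ n := by exact_mod_cast hn
  have hM0 : 0 ≤ M := by linarith
  set B : ℝ := 4 * (N * (n ^ 2 * M)) with hB
  have hB1 : 1 ≤ B := by
    have : 1 ≤ N * (n ^ 2 * M) := one_le_mul_of_one_le_of_one_le hN1
      (one_le_mul_of_one_le_of_one_le (one_le_pow₀ hn1) hM1)
    linarith
  have hB0 : 0 < B := by linarith
  set K : ℕ := ⌈B / t⌉₊ with hK
  have hBt : 1 ≤ B / t := by rw [le_div_iff₀ ht]; linarith
  have hK1 : B / t ≤ K := Nat.le_ceil _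
  have hK2 : (K:ℝ) ≤ 2 * (B / t) := by
    have := (Nat.ceil_lt_add_one (by positivity : 0 ≤ B / t)).le
    rw [← hK] at this
    linarith
  have hKr : (0:ℝ) < K := by linarith
  have hK0 : 0 < K := by exact_mod_cast hKr
  have hBK : B * (1 / K) ≤ t := by
    rw [mul_one_div, div_le_iff₀ hKr]
    rw [div_le_iff₀ ht] at hK1
    linarith
  set G := Finset.Icc (-(K:ℤ)) K with hG
  set E : ℤ → Set (S → ℝ × ℝ) := fun i => {c | ‖lin (wF e (0, (i:ℝ) / K)) c‖ ≤ 2 * t} with hE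
  have hsub : {c : S → ℝ × ℝ | (∀ m, ‖c m‖ ≤ M) ∧ ∃ s : ℝ, |s| ≤ 1 ∧ ‖Gs one e c (0, s)‖ < t} ⊆
      ⋃ q ∈ G, E q := by
    rintro c ⟨hcM, s, hs, hlt⟩
    obtain ⟨i, hi, hi1, hi2⟩ := grid hK0 hs
    simp only [mem_iUnion]
    refine ⟨i, hi, ?_⟩
    have hz : ‖((0, s) : ℝ × ℝ)‖ ≤ 1 := by rw [Prod.norm_def]; exact max_le (by simp) hs
    have hz' : ‖((0, (i:ℝ) / K) : ℝ × ℝ)‖ ≤ 1 := by
      rw [Prod.norm_def]; exact max_le (by simp) hi2
    have hzz : ‖((0, (i:ℝ) / K) : ℝ × ℝ) - (0, s)‖ ≤ 1 / K := by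
      rw [Prod.norm_def]; refine max_le ?_ hi1
      simp
    show ‖lin (wF e (0, (i:ℝ) / K)) c‖ ≤ 2 * t
    rw [lin_wF]
    have h1 := gse_sub_le he hN hcM hM0 hz' hz
    have h2 : N * (n * M) * ‖((0, (i:ℝ) / K) : ℝ × ℝ) - (0, s)‖ ≤ B * (1 / K) := by
      refine mul_le_mul ?_ hzz (norm_nonneg _) hB0.le
      have : N * (n * M) ≤ N * (n ^ 2 * M) := by
        have : (n:ℝ) ≤ n ^ 2 := by nlinarith
        gcongr
      rw [hB]
      have h0 : 0 ≤ N * (n ^ 2 * M) := by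
        have : 0 ≤ N := by linarith
        positivity
      linarith
    have h3 := norm_add_le (Gs one e c (0, (i:ℝ) / K) - Gs one e c (0, s)) (Gs one e c (0, s))
    rw [sub_add_cancel] at h3
    linarith
  refine (measure_mono hsub).trans ((measure_biUnion_finset_le _ _).trans ?_)
  have hEq : ∀ q ∈ G, Measure.pi μ (E q) ≤ ENNReal.ofReal (16 * (D * t ^ 2)) := by
    intro q _
    refine (prob_one μ hD0 hD (m := m₀) ?_ (by positivity)).trans ?_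
    · simp [wF, hm₀, one]
    · exact ENNReal.ofReal_le_ofReal (le_of_eq (by ring))
  refine (Finset.sum_le_card_nsmul _ _ _ hEq).trans ?_
  rw [nsmul_eq_mul]
  have e2 : ((G.card : ℕ) : ℝ≥0∞) = ENNReal.ofReal (2 * K + 1) := by
    rw [← ENNReal.ofReal_natCast, card_grid]
  rw [e2, ← ENNReal.ofReal_mul (by positivity)]
  apply ENNReal.ofReal_le_ofReal
  have h3 : (2 * (K:ℝ) + 1) ≤ 6 * (B / t) := by
    have : (1:ℝ) ≤ K := by exact_mod_cast hK0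
    linarith
  calc (2 * (K:ℝ) + 1) * (16 * (D * t ^ 2)) ≤ 6 * (B / t) * (16 * (D * t ^ 2)) := by gcongr
    _ = 96 * (D * B * t) := by field_simp; ring

/-- nondegeneracy in one chart -/
lemma prob_nd (μ : S → Measure (ℝ × ℝ)) [∀ m, IsProbabilityMeasure (μ m)] {D : ℝ} (hD0 : 0 ≤ D)
    (hD : Dens μ D) {e : S → ℕ × ℕ} (he : ∀ m, (e m).1 + (e m).2 ≤ n) (hn : 1 ≤ n)
    (hN : (S.card : ℝ) ≤ N) (hN1 : 1 ≤ N) (hM1 : 1 ≤ M) (ht : 0 < t) (ht1 : t ≤ 1)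
    {m₀ m₁ m₂ : S} (hm₀ : e m₀ = (0, 0)) (hm₁ : e m₁ = (1, 0)) (hm₂ : e m₂ = (0, 1)) :
    Measure.pi μ {c | (∀ m, ‖c m‖ ≤ M) ∧ ¬ ND e c t} ≤
      ENNReal.ofReal (27648 * (D ^ 2 * (4 * (N * (n ^ 2 * M))) ^ 3 * t)) := by
  have h1 := prob_dir μ hD0 hD he hn hN hN1 hM1 ht ht1 (dir := fun σ => (1, σ))
    (fun σ hσ => by rw [Prod.norm_def]; exact max_le (by simp) hσ)
    (fun σ σ' => by rw [Prod.norm_def]; simp) (m' := m₁) hm₀ (fun σ z => by simp [wd, hm₁, one])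
  have h2 := prob_dir μ hD0 hD he hn hN hN1 hM1 ht ht1 (dir := fun σ => (σ, 1))
    (fun σ hσ => by rw [Prod.norm_def]; exact max_le hσ (by simp))
    (fun σ σ' => by rw [Prod.norm_def]; simp) (m' := m₂) hm₀ (fun σ z => by simp [wd, hm₂, one])
  refine (measure_mono ?_).trans ((measure_union_le _ _).trans ((add_le_add h1 h2).trans ?_))
  · rintro c ⟨hcM, hnd⟩
    unfold ND at hnd
    push Not at hnd
    obtain ⟨a, b, σ, ha, hb, hσ, h0, h3⟩ := hnd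
    by_cases h4 : t ≤ ‖Gx one e c (a, b) + σ • Gy one e c (a, b)‖
    · right
      refine ⟨hcM, a, b, σ, ha, hb, hσ, h0, ?_⟩
      simp only [one_smul]
      exact h3 h4
    · left
      refine ⟨hcM, a, b, σ, ha, hb, hσ, h0, ?_⟩
      simp only [one_smul]
      exact not_le.1 h4
  · rw [← ENNReal.ofReal_add (by positivity) (by positivity)]
    exact ENNReal.ofReal_le_ofReal (le_of_eq (by ring))

end

end Pool.Agent.W960.HR
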