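import Pool.Agent.W960.HR.Chart

/-! Probabilities of small values of linear forms in independent plane vectors. -/

open Real Set MeasureTheory Topology Filter
open scoped ENNReal

namespace Pool.Agent.W960.HR

noncomputable section

variable {S : Finset (ℕ × ℕ)}

/-- resampling one coordinate -/
lemma resample (μ : S → Measure (ℝ × ℝ)) [∀ m, IsProbabilityMeasure (μ m)]
    {f : (S → ℝ × ℝ) → ℝ≥0∞} (hf : Measurable f) (m : S) :
    ∫⁻ c, f c ∂Measure.pi μ = ∫⁻ c, (∫⁻ w, f (Function.update c m w) ∂μ m) ∂Measure.pi μ := by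
  classical
  set g : (S → ℝ × ℝ) → ℝ≥0∞ := fun c => ∫⁻ w, f (Function.update c m w) ∂μ m with hg
  have hgm : Measurable g := by
    have h1 : Measurable fun q : (S → ℝ × ℝ) × (ℝ × ℝ) => f (Function.update q.1 m q.2) := by
      refine hf.comp ?_
      exact measurable_update'
    exact h1.lintegral_prod_right'
  rw [lintegral_eq_lmarginal_univ (0 : S → ℝ × ℝ), lintegral_eq_lmarginal_univ (0 : S → ℝ × ℝ),
    lmarginal_erase' f hf (Finset.mem_univ m), lmarginal_erase' g hgm (Finset.mem_univ m)]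
  congr 1
  funext c
  simp only [hg, Function.update_idem]
  rw [lintegral_const, measure_univ, mul_one]

/-- linear form -/
def lin (w : S → ℝ) (c : S → ℝ × ℝ) : ℝ × ℝ := ∑ m, w m • c m

lemma continuous_lin (w : S → ℝ) : Continuous (lin w) := by
  unfold lin
  fun_prop

lemma lin_update [DecidableEq S] (w : S → ℝ) (c : S → ℝ × ℝ) (m : S) (v : ℝ × ℝ) :
    lin w (Function.update c m v) = w m • v + (lin w c - w m • c m) := by
  unfold lin
  rw [← Finset.add_sum_erase Finset.univ (fun i => w i • Function.update c m v i) (Finset.mem_univ m),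
    ← Finset.add_sum_erase Finset.univ (fun i => w i • c i) (Finset.mem_univ m)]
  simp only [Function.update_self, add_sub_cancel_left]
  congr 1
  refine Finset.sum_congr rfl fun i hi => ?_
  rw [Function.update_of_ne (Finset.ne_of_mem_erase hi)]

lemma volume_ball_le (a : ℝ × ℝ) {ρ : ℝ} (hρ : 0 ≤ ρ) :
    volume {w : ℝ × ℝ | ‖w + a‖ ≤ ρ} ≤ ENNReal.ofReal (4 * ρ ^ 2) := by
  have e : {w : ℝ × ℝ | ‖w + a‖ ≤ ρ} = Metric.closedBall (-a.1) ρ ×ˢ Metric.closedBall (-a.2) ρ := by
    ext w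
    rw [mem_prod, Metric.mem_closedBall, Metric.mem_closedBall, Real.dist_eq, Real.dist_eq,
      mem_ofPred_eq, Prod.norm_def, max_le_iff]
    simp only [Prod.fst_add, Prod.snd_add, Real.norm_eq_abs, sub_neg_eq_add]
  rw [e, Measure.volume_eq_prod, Measure.prod_prod, Real.volume_closedBall, Real.volume_closedBall,
    ← ENNReal.ofReal_mul (by positivity)]
  exact ENNReal.ofReal_le_ofReal (by nlinarith)

/-- laws with bounded densities -/
def Dens (μ : S → Measure (ℝ × ℝ)) (D : ℝ) : Prop :=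
  ∀ m (B : Set (ℝ × ℝ)), μ m B ≤ ENNReal.ofReal D * volume B

lemma prob_one (μ : S → Measure (ℝ × ℝ)) [∀ m, IsProbabilityMeasure (μ m)] {D : ℝ} (hD0 : 0 ≤ D)
    (hD : Dens μ D) {w : S → ℝ} {m : S} (hw : w m = 1) {ρ : ℝ} (hρ : 0 ≤ ρ) :
    Measure.pi μ {c | ‖lin w c‖ ≤ ρ} ≤ ENNReal.ofReal (D * (4 * ρ ^ 2)) := by
  classical
  have hmeas : MeasurableSet {c : S → ℝ × ℝ | ‖lin w c‖ ≤ ρ} :=
    (isClosed_le (continuous_lin w).norm continuous_const).measurableSet
  rw [← lintegral_indicator_one hmeas, resample μ (measurable_one.indicator hmeas) m]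
  have h1 : ∀ c : S → ℝ × ℝ, ∫⁻ v, {c | ‖lin w c‖ ≤ ρ}.indicator 1 (Function.update c m v) ∂μ m ≤
      ENNReal.ofReal (D * (4 * ρ ^ 2)) := by
    intro c
    have e : (fun v => {c : S → ℝ × ℝ | ‖lin w c‖ ≤ ρ}.indicator (1 : (S → ℝ × ℝ) → ℝ≥0∞)
        (Function.update c m v)) = {v : ℝ × ℝ | ‖v + (lin w c - w m • c m)‖ ≤ ρ}.indicator 1 := by
      funext v
      by_cases h : ‖v + (lin w c - w m • c m)‖ ≤ ρ
      · rw [indicator_of_mem (show v ∈ {v : ℝ × ℝ | ‖v + (lin w c - w m • c m)‖ ≤ ρ} from h),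
          indicator_of_mem]
        · rfl
        · show ‖lin w (Function.update c m v)‖ ≤ ρ
          rw [lin_update, hw, one_smul]
          rw [hw] at h
          exact h
      · rw [indicator_of_notMem (show v ∉ {v : ℝ × ℝ | ‖v + (lin w c - w m • c m)‖ ≤ ρ} from h),
          indicator_of_notMem]
        intro h2
        apply h
        have h3 : ‖lin w (Function.update c m v)‖ ≤ ρ := h2
        rw [lin_update, hw, one_smul] at h3
        rw [hw]
        exact h3
    have hm2 : MeasurableSet {v : ℝ × ℝ | ‖v + (lin w c - w m • c m)‖ ≤ ρ} :=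
      (isClosed_le (by fun_prop) continuous_const).measurableSet
    rw [e, lintegral_indicator_one hm2]
    refine (hD m _).trans ?_
    rw [ENNReal.ofReal_mul hD0]
    gcongr
    exact volume_ball_le _ hρ
  refine (lintegral_mono h1).trans ?_
  rw [lintegral_const, measure_univ, mul_one]

lemma prob_two (μ : S → Measure (ℝ × ℝ)) [∀ m, IsProbabilityMeasure (μ m)] {D : ℝ} (hD0 : 0 ≤ D)
    (hD : Dens μ D) {w w' : S → ℝ} {m m' : S} (hw : w m = 1) (hw0 : w' m = 0) (hw' : w' m' = 1)
    {ρ ρ' : ℝ} (hρ : 0 ≤ ρ) (hρ' : 0 ≤ ρ') :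
    Measure.pi μ {c | ‖lin w c‖ ≤ ρ ∧ ‖lin w' c‖ ≤ ρ'} ≤
      ENNReal.ofReal (D * (4 * ρ ^ 2) * (D * (4 * ρ' ^ 2))) := by
  classical
  have hmeas' : MeasurableSet {c : S → ℝ × ℝ | ‖lin w' c‖ ≤ ρ'} :=
    (isClosed_le (continuous_lin w').norm continuous_const).measurableSet
  have hmeas : MeasurableSet {c : S → ℝ × ℝ | ‖lin w c‖ ≤ ρ ∧ ‖lin w' c‖ ≤ ρ'} :=
    (isClosed_le (continuous_lin w).norm continuous_const).measurableSet.inter hmeas'
  rw [← lintegral_indicator_one hmeas, resample μ (measurable_one.indicator hmeas) m]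
  have h1 : ∀ c : S → ℝ × ℝ, ∫⁻ v, {c | ‖lin w c‖ ≤ ρ ∧ ‖lin w' c‖ ≤ ρ'}.indicator 1
      (Function.update c m v) ∂μ m ≤
      ENNReal.ofReal (D * (4 * ρ ^ 2)) * {c | ‖lin w' c‖ ≤ ρ'}.indicator 1 c := by
    intro c
    have e2 : ∀ v, lin w' (Function.update c m v) = lin w' c := by
      intro v
      rw [lin_update, hw0, zero_smul, zero_smul, zero_add, sub_zero]
    by_cases hc : ‖lin w' c‖ ≤ ρ'
    · rw [indicator_of_mem (show c ∈ {c | ‖lin w' c‖ ≤ ρ'} from hc), Pi.one_apply, mul_one]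
      have e : ∀ v, {c : S → ℝ × ℝ | ‖lin w c‖ ≤ ρ ∧ ‖lin w' c‖ ≤ ρ'}.indicator
          (1 : (S → ℝ × ℝ) → ℝ≥0∞) (Function.update c m v) ≤
          {v : ℝ × ℝ | ‖v + (lin w c - w m • c m)‖ ≤ ρ}.indicator 1 v := by
        intro v
        by_cases h : ‖v + (lin w c - w m • c m)‖ ≤ ρ
        · rw [indicator_of_mem (show v ∈ {v : ℝ × ℝ | ‖v + (lin w c - w m • c m)‖ ≤ ρ} from h)]
          exact indicator_le_self' (fun _ _ => zero_le) _
        · rw [indicator_of_notMem]
          · exact zero_le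
          · rintro ⟨h2, -⟩
            apply h
            rw [lin_update, hw, one_smul] at h2
            rw [hw]
            exact h2
      refine (lintegral_mono e).trans ?_
      have hm2 : MeasurableSet {v : ℝ × ℝ | ‖v + (lin w c - w m • c m)‖ ≤ ρ} :=
        (isClosed_le (by fun_prop) continuous_const).measurableSet
      rw [lintegral_indicator_one hm2]
      refine (hD m _).trans ?_
      rw [ENNReal.ofReal_mul hD0]
      gcongr
      exact volume_ball_le _ hρ
    · rw [indicator_of_notMem (show c ∉ {c | ‖lin w' c‖ ≤ ρ'} from hc), mul_zero]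
      refine le_of_eq ?_
      rw [← lintegral_zero (μ := μ m)]
      congr 1
      funext v
      rw [indicator_of_notMem]
      rintro ⟨-, h2⟩
      rw [e2] at h2
      exact hc h2
  refine (lintegral_mono h1).trans ?_
  rw [lintegral_const_mul _ (measurable_one.indicator hmeas'), lintegral_indicator_one hmeas',
    ENNReal.ofReal_mul (p := D * (4 * ρ ^ 2)) (by positivity)]
  exact mul_le_mul_right (prob_one μ hD0 hD hw' hρ') _

end

end Pool.Agent.W960.HR
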