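import Pool.Agent.W960.HR.Count
import Pool.Agent.W960.HR.Lip

/-! The mean number of zeros of a Gaussian polynomial field in a small rectangle. -/

open Real Set MeasureTheory Topology Filter ProbabilityTheory
open scoped ENNReal

namespace Pool.Agent.W960.HR

noncomputable section

variable {S : Finset (ℕ × ℕ)} {n : ℕ} {M N : ℝ}

lemma corner_mem {b ℓ : ℝ} (hℓ : 0 < ℓ) {k i : ℕ} (hi : i ≤ k + 1) :
    b + i * (ℓ / (k + 1)) ∈ Icc b (b + ℓ) := by
  have hk : (0:ℝ) < (k:ℝ) + 1 := by positivity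
  have h1 : (i:ℝ) ≤ (k:ℝ) + 1 := by exact_mod_cast hi
  constructor
  · have : 0 ≤ (i:ℝ) * (ℓ / (k + 1)) := by positivity
    linarith
  · have : (i:ℝ) * (ℓ / (k + 1)) ≤ (k + 1) * (ℓ / (k + 1)) :=
      mul_le_mul_of_nonneg_right h1 (by positivity)
    have e : ((k:ℝ) + 1) * (ℓ / (k + 1)) = ℓ := by field_simp
    linarith

lemma corner_close {b ℓ : ℝ} (hℓ : 0 < ℓ) (k : ℕ) {s : ℝ} (hs : s ∈ Icc b (b + ℓ)) :
    |s - (b + (pc b ℓ k s : ℝ) * (ℓ / (k + 1)))| ≤ ℓ / (k + 1) := by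
  have hk : (0:ℝ) < (k:ℝ) + 1 := by positivity
  have h0 : 0 ≤ (s - b) * (k + 1) / ℓ := by
    have : 0 ≤ s - b := by linarith [hs.1]
    positivity
  have h1 : (pc b ℓ k s : ℝ) ≤ (s - b) * (k + 1) / ℓ := Nat.floor_le h0
  have h2 : (s - b) * (k + 1) / ℓ < pc b ℓ k s + 1 := Nat.lt_floor_add_one _
  have h3 : s - (b + (pc b ℓ k s : ℝ) * (ℓ / (k + 1))) =
      ((s - b) * (k + 1) / ℓ - pc b ℓ k s) * (ℓ / (k + 1)) := by field_simp; ring
  rw [h3, abs_mul, abs_of_pos (by positivity : 0 < ℓ / ((k:ℝ) + 1))]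
  refine mul_le_of_le_one_left (by positivity) ?_
  rw [abs_le]
  constructor <;> linarith

/-- The mean number of zeros in a rectangle. -/
theorem rect_maj {e : S → ℕ × ℕ} (he : ∀ m, (e m).1 + (e m).2 ≤ n) {x₀ y₀ r r' κ : ℝ}
    (hr : 0 < r) (hr' : 0 < r') (hκ : 0 < κ)
    (hQ : ∀ z : ℝ × ℝ, z.1 ∈ Icc x₀ (x₀ + r) → z.2 ∈ Icc y₀ (y₀ + r') → ‖z‖ ≤ 1 ∧
      1 ≤ ∑ m, wF e z m ^ 2 ∧
      r ^ 2 * ∑ m, wd e z (1, 0) m ^ 2 ≤ κ ^ 2 * ∑ m, wF e z m ^ 2 ∧
      r' ^ 2 * ∑ m, wd e z (0, 1) m ^ 2 ≤ κ ^ 2 * ∑ m, wF e z m ^ 2) :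
    ∃ g : (S → ℝ × ℝ) → ℝ≥0∞, Measurable g ∧ (∀ c, (({z : ℝ × ℝ | z.1 ∈ Icc x₀ (x₀ + r) ∧
      z.2 ∈ Icc y₀ (y₀ + r') ∧ Gs one e c z = 0}.encard : ℕ∞) : ℝ≥0∞) ≤ g c) ∧
      ∫⁻ c, g c ∂GP S ≤ ENNReal.ofReal (81 * κ ^ 2) := by
  set ρ : ℝ := max r r' with hρ
  have hρ0 : 0 < ρ := lt_of_lt_of_le hr (le_max_left _ _)
  set N : ℝ := (S.card : ℝ) with hNd
  have hN0 : 0 ≤ N := Nat.cast_nonneg _
  set cx : ℕ → ℕ × ℕ → ℝ × ℝ := fun k q =>
    (x₀ + q.1 * (r / (k + 1)), y₀ + q.2 * (r' / (k + 1))) with hcx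
  set E : ℕ → ℕ × ℕ → Set (S → ℝ × ℝ) := fun k q =>
    {c | (∀ m, ‖c m‖ ≤ √((k:ℝ) + 1)) ∧ ∃ z : ℝ × ℝ, ‖z‖ ≤ 1 ∧
      |z.1 - (cx k q).1| ≤ r / (k + 1) ∧ |z.2 - (cx k q).2| ≤ r' / (k + 1) ∧
      ‖z - cx k q‖ ≤ ρ / (k + 1) ∧ Gs one e c z = 0} with hE
  set I : ℕ → Finset (ℕ × ℕ) := fun k => Finset.range (k + 2) ×ˢ Finset.range (k + 2) with hI
  set B : ℝ := 8 * (N * n ^ 2) * ρ ^ 2 with hB
  have hB0 : 0 ≤ B := by positivity
  -- the probability of a cell
  have hcell : ∀ k : ℕ, κ / (k + 1) ≤ 1 / 4 → ∀ q ∈ I k, GP S (E k q) ≤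
      ENNReal.ofReal ((8 * (κ / (k + 1)) + B * √((k:ℝ) + 1) / (k + 1) ^ 2) ^ 2) := by
    intro k hk q hq
    have hk0 : (0:ℝ) < (k:ℝ) + 1 := by positivity
    rw [hI, Finset.mem_product, Finset.mem_range, Finset.mem_range] at hq
    have hm1 : (cx k q).1 ∈ Icc x₀ (x₀ + r) := corner_mem hr (by omega)
    have hm2 : (cx k q).2 ∈ Icc y₀ (y₀ + r') := corner_mem hr' (by omega)
    obtain ⟨h1, h2, h3, h4⟩ := hQ (cx k q) hm1 hm2
    set s : ℝ := √(∑ m, wF e (cx k q) m ^ 2) with hs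
    have hs2 : s ^ 2 = ∑ m, wF e (cx k q) m ^ 2 := Real.sq_sqrt (by linarith)
    have hs1 : 1 ≤ s := by rw [hs]; exact Real.one_le_sqrt.2 h2
    have := cell_prob (S := S) (n := n) (N := N) (M := √((k:ℝ) + 1)) (e := e) he le_rfl h1
      (hx := r / (k + 1)) (hy := r' / (k + 1)) (δ := ρ / (k + 1)) (τ := κ / (k + 1)) (s := s)
      (by positivity) (by positivity) (by positivity) hk (Real.sqrt_nonneg _) hs1 hs2.symm
      (by
        rw [hs2, div_pow, div_pow, div_mul_eq_mul_div, div_mul_eq_mul_div]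
        exact div_le_div_of_nonneg_right h3 (by positivity))
      (by
        rw [hs2, div_pow, div_pow, div_mul_eq_mul_div, div_mul_eq_mul_div]
        exact div_le_div_of_nonneg_right h4 (by positivity))
    refine this.trans (ENNReal.ofReal_le_ofReal (le_of_eq ?_))
    congr 2
    rw [hB]
    field_simp
    ring
  set G : ℕ → (S → ℝ × ℝ) → ℝ≥0∞ := fun k c =>
    ∑ q ∈ I k, (toMeasurable (GP S) (E k q)).indicator (fun _ => (1:ℝ≥0∞)) c with hG
  have hGm : ∀ k, Measurable (G k) := by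
    intro k
    refine Finset.measurable_fun_sum _ fun j _ => ?_
    exact measurable_const.indicator (measurableSet_toMeasurable _ _)
  set Y : ℝ := (8 * κ + 2 * B) / κ with hY
  have hY8 : 8 ≤ Y := by
    rw [hY, le_div_iff₀ hκ]; linarith
  have hGi : ∀ᶠ k : ℕ in atTop, ∫⁻ c, G k c ∂GP S ≤ ENNReal.ofReal (81 * κ ^ 2) := by
    obtain ⟨k₀, hk₀⟩ := exists_nat_ge (Y ^ 2 + 4 * κ)
    filter_upwards [eventually_ge_atTop k₀] with k hk
    have hk1 : (k₀ : ℝ) ≤ k := by exact_mod_cast hk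
    have hk0 : (0:ℝ) < (k:ℝ) + 1 := by positivity
    set x : ℝ := (k:ℝ) + 1 with hx
    have hxY : Y ^ 2 ≤ x := by linarith
    have hx1 : 1 ≤ x := by
      have : (0:ℝ) ≤ k := Nat.cast_nonneg k
      linarith
    have hsY : Y ≤ √x := Real.le_sqrt_of_sq_le hxY
    have hs0 : 0 < √x := by linarith
    have hss : √x * √x = x := Real.mul_self_sqrt hk0.le
    have hκx : κ / x ≤ 1 / 4 := by
      rw [div_le_iff₀ hk0]
      nlinarith [sq_nonneg Y]
    have e1 : ∫⁻ c, G k c ∂GP S ≤ ∑ q ∈ I k, GP S (E k q) := by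
      simp only [hG]
      rw [lintegral_finsetSum _ (fun j _ =>
        (measurable_const.indicator (measurableSet_toMeasurable _ _)))]
      refine Finset.sum_le_sum fun i _ => ?_
      rw [lintegral_indicator (measurableSet_toMeasurable _ _)]
      simp
    refine e1.trans ((Finset.sum_le_sum (hcell k hκx)).trans ?_)
    have hc : ((I k).card : ℝ≥0∞) = ENNReal.ofReal ((x + 1) ^ 2) := by
      rw [hI, Finset.card_product, Finset.card_range, ← ENNReal.ofReal_natCast]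
      congr 1
      push_cast
      rw [hx]
      ring
    rw [Finset.sum_const, nsmul_eq_mul, hc, ← ENNReal.ofReal_mul (by positivity), ← mul_pow]
    apply ENNReal.ofReal_le_ofReal
    have e2 : (x + 1) * (8 * (κ / x) + B * √x / x ^ 2) ≤ 9 * κ := by
      have h1 : (x + 1) * (8 * (κ / x)) = 8 * κ + 8 * κ / x := by field_simp
      have h2 : (x + 1) * (B * √x / x ^ 2) ≤ 2 * B / √x := by
        have h3 : (x + 1) * (B * √x / x ^ 2) ≤ (2 * x) * (B * √x / x ^ 2) :=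
          mul_le_mul_of_nonneg_right (by linarith) (by positivity)
        refine h3.trans (le_of_eq ?_)
        rw [eq_div_iff hs0.ne']
        have h6 : 2 * x * (B * √x / x ^ 2) * √x = 2 * B * x * (√x * √x) / x ^ 2 := by ring
        rw [h6, hss]
        field_simp
      have hsx : √x ≤ x := by nlinarith
      have h4 : 8 * κ / x ≤ 8 * κ / √x := div_le_div_of_nonneg_left (by positivity) hs0 hsx
      have h5 : 8 * κ / √x + 2 * B / √x ≤ κ := by
        rw [← add_div, div_le_iff₀ hs0]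
        rw [hY, div_le_iff₀ hκ] at hsY
        linarith
      rw [mul_add]
      linarith
    have e3 : 0 ≤ (x + 1) * (8 * (κ / x) + B * √x / x ^ 2) := by positivity
    calc ((x + 1) * (8 * (κ / x) + B * √x / x ^ 2)) ^ 2 ≤ (9 * κ) ^ 2 := by gcongr
      _ = 81 * κ ^ 2 := by ring
  refine ⟨fun c => liminf (fun k => G k c) atTop, Measurable.liminf hGm, ?_, ?_⟩
  · intro c
    refine H709R2.encard_le_of_finset fun F hF => ?_
    have hsep : ∀ᶠ k : ℕ in atTop, ∀ q ∈ F ×ˢ F, pc x₀ r k q.1.1 = pc x₀ r k q.2.1 →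
        pc y₀ r' k q.1.2 = pc y₀ r' k q.2.2 → q.1 = q.2 := by
      rw [Filter.eventually_all_finset]
      rintro ⟨z, w⟩ hzw
      rw [Finset.mem_product] at hzw
      have hz := hF hzw.1
      have hw := hF hzw.2
      by_cases h : z = w
      · exact Eventually.of_forall fun k _ _ => h
      · have hd : 0 < ‖z - w‖ := norm_pos_iff.2 (sub_ne_zero.2 h)
        obtain ⟨k₀, hk₀⟩ := exists_nat_gt (ρ / ‖z - w‖)
        filter_upwards [eventually_ge_atTop k₀] with k hk h1 h2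
        exfalso
        have hk1 : (k₀ : ℝ) ≤ k := by exact_mod_cast hk
        have hk0 : (0:ℝ) < (k:ℝ) + 1 := by positivity
        have h3 := pc_close hr k hz.1 hw.1 h1
        have h4 := pc_close hr' k hz.2.1 hw.2.1 h2
        have h5 : ‖z - w‖ ≤ ρ / (k + 1) := by
          rw [Prod.norm_def]
          refine max_le (h3.trans ?_) (h4.trans ?_)
          · exact div_le_div_of_nonneg_right (le_max_left _ _) hk0.le
          · exact div_le_div_of_nonneg_right (le_max_right _ _) hk0.le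
        rw [div_lt_iff₀ hd] at hk₀
        rw [le_div_iff₀ hk0] at h5
        nlinarith
    have hbd : ∀ᶠ k : ℕ in atTop, ∀ m, ‖c m‖ ≤ √((k:ℝ) + 1) := by
      rw [Filter.eventually_all]
      intro m
      obtain ⟨k₀, hk₀⟩ := exists_nat_ge (‖c m‖ ^ 2)
      filter_upwards [eventually_ge_atTop k₀] with k hk
      have hk1 : (k₀ : ℝ) ≤ k := by exact_mod_cast hk
      exact Real.le_sqrt_of_sq_le (by linarith)
    refine le_liminf_of_le (by isBoundedDefault) ?_
    filter_upwards [hsep, hbd] with k hk hkb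
    have hinj : Set.InjOn (fun z : ℝ × ℝ => (pc x₀ r k z.1, pc y₀ r' k z.2)) (F : Set (ℝ × ℝ)) := by
      intro z hz w hw hzw
      simp only [Prod.mk.injEq] at hzw
      exact hk (z, w) (Finset.mk_mem_product hz hw) hzw.1 hzw.2
    have hcard := Finset.card_image_of_injOn hinj
    have hsub : F.image (fun z : ℝ × ℝ => (pc x₀ r k z.1, pc y₀ r' k z.2)) ⊆ I k := by
      intro i hi
      obtain ⟨z, hz, rfl⟩ := Finset.mem_image.1 hi
      rw [hI, Finset.mem_product, Finset.mem_range, Finset.mem_range]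
      have h1 := pc_le hr k (hF hz).1
      have h2 := pc_le hr' k (hF hz).2.1
      simp only
      omega
    calc (F.card : ℝ≥0∞) = ∑ q ∈ F.image (fun z : ℝ × ℝ => (pc x₀ r k z.1, pc y₀ r' k z.2)),
          (1:ℝ≥0∞) := by
          rw [Finset.sum_const, hcard]; simp
      _ ≤ ∑ q ∈ F.image (fun z : ℝ × ℝ => (pc x₀ r k z.1, pc y₀ r' k z.2)),
          (toMeasurable (GP S) (E k q)).indicator (fun _ => (1:ℝ≥0∞)) c := by
          refine Finset.sum_le_sum fun j hj => ?_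
          obtain ⟨z, hz, rfl⟩ := Finset.mem_image.1 hj
          have hz' := hF hz
          have h1 := corner_close hr k hz'.1
          have h2 := corner_close hr' k hz'.2.1
          have hk0 : (0:ℝ) < (k:ℝ) + 1 := by positivity
          have h3 : c ∈ toMeasurable (GP S) (E k (pc x₀ r k z.1, pc y₀ r' k z.2)) := by
            refine subset_toMeasurable _ _ ⟨hkb, z, (hQ z hz'.1 hz'.2.1).1, h1, h2, ?_, hz'.2.2⟩
            rw [Prod.norm_def]
            refine max_le (h1.trans ?_) (h2.trans ?_)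
            · exact div_le_div_of_nonneg_right (le_max_left _ _) hk0.le
            · exact div_le_div_of_nonneg_right (le_max_right _ _) hk0.le
          rw [indicator_of_mem h3]
      _ ≤ G k c := Finset.sum_le_sum_of_subset hsub
  · refine (lintegral_liminf_le hGm).trans ?_
    refine liminf_le_of_le (by isBoundedDefault) fun b hb => ?_
    obtain ⟨k, hk1, hk2⟩ := (hb.and hGi).exists
    exact hk1.trans hk2

end

end Pool.Agent.W960.HR
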