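import Pool.Agent.W960.HR.Law
import Pool.Agent.W960.HP.Tot

/-! Gaussian measures and rotations of the coefficients. -/

open Real Set MeasureTheory Topology Filter ProbabilityTheory
open scoped ENNReal

namespace Pool.Agent.W960.HR

noncomputable section

open Pool.Agent.H709R2 (fld rot rotc rot_fld NP g2 g2_eq dens dens_le_one measurable_dens ClosedOrbit
  measurable_NP continuous_rotc gS gS_eq measurePreserving_rotc)

variable {S : Finset (ℕ × ℕ)} {n : ℕ}

lemma NP_rotc_add_pi (α : ℝ) (c : S → ℝ × ℝ) : NP (rotc (α + π) c) = NP (rotc α c) := by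
  have h1 : fld (rotc (α + π) c) = fun z => -fld (rotc α c) z := by
    funext z
    rw [← rot_fld, ← rot_fld]
    unfold rot
    rw [Real.cos_add_pi, Real.sin_add_pi]
    ext <;> simp <;> ring
  have h2 : {C : Set (ℝ × ℝ) | ClosedOrbit (fld (rotc (α + π) c)) C} =
      {C : Set (ℝ × ℝ) | ClosedOrbit (fld (rotc α c)) C} := by
    ext C
    rw [mem_ofPred_eq, mem_ofPred_eq, h1]
    constructor
    · exact HP.closed_neg
    · intro h
      apply HP.closed_neg
      simpa using h
  unfold NP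
  rw [h2]

/-- the integral over all rotations -/
lemma full_circle (c : S → ℝ × ℝ) : ∫⁻ α in Ioo (-π) π, NP (rotc (-α) c) ≤ 2 * Phi c := by
  have hmeas : Measurable fun α : ℝ => NP (rotc α c) := by
    have h1 : Continuous fun α : ℝ => rotc α c := by
      unfold rotc rot
      fun_prop
    exact measurable_NP.comp h1.measurable
  have hsub : Ioo (-π) π ⊆ Ioo (-π) 0 ∪ ({0} ∪ Ioo 0 π) := by
    intro α hα
    rcases lt_trichotomy α 0 with h | h | h
    · exact Or.inl ⟨hα.1, h⟩
    · exact Or.inr (Or.inl h)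
    · exact Or.inr (Or.inr ⟨h, hα.2⟩)
  have e1 : ∫⁻ α in Ioo (-π) 0, NP (rotc (-α) c) = Phi c := by
    have hmp : MeasurePreserving (fun α : ℝ => -α) volume volume := Measure.measurePreserving_neg _
    have h2 := (hmp.restrict_preimage (s := Ioo (0:ℝ) π) measurableSet_Ioo).lintegral_comp hmeas
    have h3 : (fun α : ℝ => -α) ⁻¹' Ioo (0:ℝ) π = Ioo (-π) 0 := by
      ext α
      simp only [mem_preimage, mem_Ioo]
      constructor
      · rintro ⟨h4, h5⟩; constructor <;> linarith
      · rintro ⟨h4, h5⟩; constructor <;> linarith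
    rw [h3] at h2
    exact h2
  have e2 : ∫⁻ α in Ioo 0 π, NP (rotc (-α) c) = Phi c := by
    have hmp : MeasurePreserving (fun α : ℝ => π - α) volume volume := Measure.measurePreserving_sub_left _ π
    have h2 := (hmp.restrict_preimage (s := Ioo (0:ℝ) π) measurableSet_Ioo).lintegral_comp hmeas
    have h3 : (fun α : ℝ => π - α) ⁻¹' Ioo (0:ℝ) π = Ioo 0 π := by
      ext α
      simp only [mem_preimage, mem_Ioo]
      constructor
      · rintro ⟨h4, h5⟩; constructor <;> linarith
      · rintro ⟨h4, h5⟩; constructor <;> linarith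
    rw [h3] at h2
    unfold Phi
    rw [← h2]
    congr 1
    funext α
    rw [show π - α = -α + π by ring, NP_rotc_add_pi]
  refine (lintegral_mono_set hsub).trans ((lintegral_union_le _ _ _).trans ?_)
  rw [e1, two_mul]
  refine add_le_add le_rfl ((lintegral_union_le _ _ _).trans ?_)
  rw [e2, Measure.restrict_singleton]
  simp

/-- squared length of a vector of coefficients -/
def sn (c : S → ℝ × ℝ) : ℝ := ∑ m, H709R2.sq (c m)

/-- inner product -/
def ip (c b : S → ℝ × ℝ) : ℝ := ∑ m, ((c m).1 * (b m).1 + (c m).2 * (b m).2)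

/-- the other part of the complex inner product -/
def iw (c b : S → ℝ × ℝ) : ℝ := ∑ m, ((c m).1 * (b m).2 - (c m).2 * (b m).1)

/-- modulus of the complex inner product -/
def xx (c b : S → ℝ × ℝ) : ℝ := √(ip c b ^ 2 + iw c b ^ 2)

lemma ip_rotc (α : ℝ) (c b : S → ℝ × ℝ) :
    ip (rotc α c) b = Real.cos α * ip c b + Real.sin α * iw c b := by
  unfold ip iw rotc rot
  rw [Finset.mul_sum, Finset.mul_sum, ← Finset.sum_add_distrib]
  refine Finset.sum_congr rfl fun m _ => ?_
  simp only
  ring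

lemma iw_rotc (α : ℝ) (c b : S → ℝ × ℝ) :
    iw (rotc α c) b = Real.cos α * iw c b - Real.sin α * ip c b := by
  unfold ip iw rotc rot
  rw [Finset.mul_sum, Finset.mul_sum, ← Finset.sum_sub_distrib]
  refine Finset.sum_congr rfl fun m _ => ?_
  simp only
  ring

lemma xx_rotc (α : ℝ) (c b : S → ℝ × ℝ) : xx (rotc α c) b = xx c b := by
  unfold xx
  rw [ip_rotc, iw_rotc]
  congr 1
  linear_combination (ip c b ^ 2 + iw c b ^ 2) * Real.sin_sq_add_cos_sq α

lemma sn_rotc (α : ℝ) (c : S → ℝ × ℝ) : sn (rotc α c) = sn c := by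
  unfold sn rotc
  exact Finset.sum_congr rfl fun m _ => H709R2.sq_rot α (c m)

lemma continuous_ip (b : S → ℝ × ℝ) : Continuous fun c : S → ℝ × ℝ => ip c b := by
  unfold ip
  fun_prop

lemma continuous_iw (b : S → ℝ × ℝ) : Continuous fun c : S → ℝ × ℝ => iw c b := by
  unfold iw
  fun_prop

lemma continuous_xx (b : S → ℝ × ℝ) : Continuous fun c : S → ℝ × ℝ => xx c b :=
  (((continuous_ip b).pow 2).add ((continuous_iw b).pow 2)).sqrt

lemma xx_nonneg (c b : S → ℝ × ℝ) : 0 ≤ xx c b := Real.sqrt_nonneg _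

lemma ip_le_xx (c b : S → ℝ × ℝ) : ip c b ≤ xx c b := by
  unfold xx
  apply Real.le_sqrt_of_sq_le
  nlinarith [sq_nonneg (iw c b)]

/-- the density of the Gaussian vector with centre `b` -/
def pb (b c : S → ℝ × ℝ) : ℝ := ∏ m, dens (c m - b m)

lemma pb_eq (b c : S → ℝ × ℝ) :
    pb b c = ((√(2 * π))⁻¹ ^ 2) ^ S.card * rexp (-(sn c + sn b) / 2) * rexp (ip c b) := by
  unfold pb
  simp only [dens_eq]
  rw [Finset.prod_mul_distrib, Finset.prod_const, Finset.card_univ, Fintype.card_coe,
    ← Real.exp_sum, mul_assoc, ← Real.exp_add]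
  congr 2
  unfold sn ip
  rw [← Finset.sum_add_distrib, ← Finset.sum_neg_distrib, Finset.sum_div, ← Finset.sum_add_distrib]
  refine Finset.sum_congr rfl fun m _ => ?_
  unfold H709R2.sq
  simp only [Prod.fst_sub, Prod.snd_sub]
  ring

/-- integral of a wave over the circle -/
lemma circle_lower {a b : ℝ} : rexp (√(a ^ 2 + b ^ 2)) ≤
    2 * √(1 + √(a ^ 2 + b ^ 2)) *
      ∫ α in Ioo (-π) π, rexp (Real.cos α * a + Real.sin α * b) := by
  set x : ℝ := √(a ^ 2 + b ^ 2) with hx
  have hx0 : 0 ≤ x := Real.sqrt_nonneg _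
  obtain ⟨θ, hθ1, hθ2, ha, hb⟩ : ∃ θ : ℝ, -π ≤ θ ∧ θ ≤ π ∧ a = x * Real.cos θ ∧
      b = x * Real.sin θ := by
    refine ⟨Complex.arg ⟨a, b⟩, (Complex.neg_pi_lt_arg _).le, Complex.arg_le_pi _, ?_, ?_⟩
    · have h := Complex.norm_mul_cos_arg ⟨a, b⟩
      rw [Complex.norm_eq_sqrt_sq_add_sq] at h
      exact h.symm
    · have h := Complex.norm_mul_sin_arg ⟨a, b⟩
      rw [Complex.norm_eq_sqrt_sq_add_sq] at h
      exact h.symm
  have hcos : ∀ α, Real.cos α * a + Real.sin α * b = x * Real.cos (α - θ) := by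
    intro α
    rw [Real.cos_sub, ha, hb]; ring
  set δ : ℝ := 1 / √(1 + x) with hδ
  have hs1 : 1 ≤ √(1 + x) := Real.one_le_sqrt.2 (by linarith)
  have hs0 : 0 < √(1 + x) := by linarith
  have hδ0 : 0 < δ := by positivity
  have hδ1 : δ ≤ 1 := by rw [hδ, div_le_one hs0]; exact hs1
  have hδ2 : x * δ ^ 2 / 2 ≤ 1 / 2 := by
    rw [hδ, div_pow, one_pow, Real.sq_sqrt (by linarith)]
    have : x * (1 / (1 + x)) ≤ 1 := by
      rw [mul_one_div, div_le_one (by linarith)]; linarith
    linarith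
  have hint : IntegrableOn (fun α : ℝ => rexp (Real.cos α * a + Real.sin α * b)) (Ioo (-π) π) := by
    apply IntegrableOn.mono_set _ Ioo_subset_Icc_self
    exact (by fun_prop : Continuous fun α : ℝ =>
      rexp (Real.cos α * a + Real.sin α * b)).continuousOn.integrableOn_compact isCompact_Icc
  obtain ⟨l, hl1, hl2⟩ : ∃ l : ℝ, Ioo l (l + δ) ⊆ Ioo (-π) π ∧
      ∀ α ∈ Ioo l (l + δ), |α - θ| ≤ δ := by
    rcases le_total 0 θ with h | h
    · refine ⟨θ - δ, fun α hα => ⟨?_, ?_⟩, fun α hα => ?_⟩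
      · linarith [hα.1, pi_gt_three]
      · linarith [hα.2]
      · rw [abs_le]; constructor <;> linarith [hα.1, hα.2]
    · refine ⟨θ, fun α hα => ⟨?_, ?_⟩, fun α hα => ?_⟩
      · linarith [hα.1]
      · linarith [hα.2, pi_gt_three]
      · rw [abs_le]; constructor <;> linarith [hα.1, hα.2]
  have hlow : δ * rexp (x - 1 / 2) ≤ ∫ α in Ioo (-π) π, rexp (Real.cos α * a + Real.sin α * b) := by
    have h1 : ∫ α in Ioo l (l + δ), rexp (x - 1 / 2) ≤
        ∫ α in Ioo l (l + δ), rexp (Real.cos α * a + Real.sin α * b) := by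
      refine setIntegral_mono_on (by simp [integrableOn_const_iff]) (hint.mono_set hl1)
        measurableSet_Ioo fun α hα => ?_
      rw [hcos]
      apply Real.exp_le_exp.2
      have h2 := Real.one_sub_sq_div_two_le_cos (x := α - θ)
      have h3 := hl2 α hα
      have h4 : (α - θ) ^ 2 ≤ δ ^ 2 := by
        rw [← sq_abs]; gcongr
      have h5 : x * (1 - (α - θ) ^ 2 / 2) ≤ x * Real.cos (α - θ) := mul_le_mul_of_nonneg_left h2 hx0
      have h6 : x * (α - θ) ^ 2 ≤ x * δ ^ 2 := mul_le_mul_of_nonneg_left h4 hx0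
      linarith
    have h2 : ∫ α in Ioo l (l + δ), rexp (x - 1 / 2) = δ * rexp (x - 1 / 2) := by
      rw [setIntegral_const, smul_eq_mul, Measure.real, Real.volume_Ioo,
        ENNReal.toReal_ofReal (by linarith)]
      ring
    rw [← h2]
    refine h1.trans (setIntegral_mono_set hint (Eventually.of_forall fun α => (Real.exp_pos _).le)
      (Eventually.of_forall hl1))
  have h3 : rexp x ≤ 2 * √(1 + x) * (δ * rexp (x - 1 / 2)) := by
    have h4 : 2 * √(1 + x) * (δ * rexp (x - 1 / 2)) = 2 * rexp (x - 1 / 2) := by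
      rw [hδ]; field_simp
    rw [h4]
    have h5 : rexp x = rexp (1 / 2) * rexp (x - 1 / 2) := by rw [← Real.exp_add]; congr 1; ring
    rw [h5]
    have h6 : rexp (1 / 2) ≤ 2 := by
      have h7 : rexp (1 / 2) ^ 2 ≤ 2 ^ 2 := by
        rw [← Real.exp_nat_mul]
        norm_num
        linarith [Real.exp_one_lt_d9]
      exact (abs_le_of_sq_le_sq' h7 (by norm_num)).2
    exact mul_le_mul_of_nonneg_right h6 (Real.exp_pos _).le
  exact h3.trans (mul_le_mul_of_nonneg_left hlow (by positivity))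

/-- comparison of the density with its mean over the rotations -/
lemma pb_le (b c : S → ℝ × ℝ) : ENNReal.ofReal (pb b c) ≤
    ENNReal.ofReal (2 * √(1 + xx c b)) *
      ∫⁻ α in Ioo (-π) π, ENNReal.ofReal (pb b (rotc α c)) := by
  set κ : ℝ := ((√(2 * π))⁻¹ ^ 2) ^ S.card * rexp (-(sn c + sn b) / 2) with hκ
  have hκ0 : 0 ≤ κ := by positivity
  have h1 : ∀ α, pb b (rotc α c) = κ * rexp (Real.cos α * ip c b + Real.sin α * iw c b) := by
    intro α
    rw [pb_eq, sn_rotc, ip_rotc]
  have hint : IntegrableOn (fun α : ℝ => κ * rexp (Real.cos α * ip c b + Real.sin α * iw c b))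
      (Ioo (-π) π) := by
    apply IntegrableOn.mono_set _ Ioo_subset_Icc_self
    exact (by fun_prop : Continuous fun α : ℝ =>
      κ * rexp (Real.cos α * ip c b + Real.sin α * iw c b)).continuousOn.integrableOn_compact
      isCompact_Icc
  simp only [h1]
  rw [← ofReal_integral_eq_lintegral_ofReal hint (Eventually.of_forall fun α => by positivity),
    ← ENNReal.ofReal_mul (by positivity), integral_const_mul]
  apply ENNReal.ofReal_le_ofReal
  have h2 := circle_lower (a := ip c b) (b := iw c b)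
  have h3 : rexp (ip c b) ≤ rexp (xx c b) := Real.exp_le_exp.2 (ip_le_xx c b)
  rw [pb_eq]
  calc κ * rexp (ip c b) ≤ κ * (2 * √(1 + xx c b) *
        ∫ α in Ioo (-π) π, rexp (Real.cos α * ip c b + Real.sin α * iw c b)) :=
        mul_le_mul_of_nonneg_left (h3.trans h2) hκ0
    _ = _ := by ring

end

end Pool.Agent.W960.HR
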