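import Pool.Agent.W960.HR.Rotm

/-! Smoothed analysis: the mean number of closed orbits near an arbitrary field. -/

open Real Set MeasureTheory Topology Filter ProbabilityTheory
open scoped ENNReal

namespace Pool.Agent.W960.HR

noncomputable section

open Pool.Agent.H709R2 (fld rot rotc rot_fld NP NP_smul g2 g2_eq dens dens_nonneg dens_le_one
  measurable_dens ClosedOrbit measurable_NP continuous_rotc gS gS_eq measurePreserving_rotc)

variable {S : Finset (ℕ × ℕ)} {n : ℕ}

/-- the Gaussian measure with centre `b` -/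
def gb (b : S → ℝ × ℝ) : Measure (S → ℝ × ℝ) := Measure.pi fun m => g2.map fun v => b m + v

instance (b : S → ℝ × ℝ) (m : S) : IsProbabilityMeasure (g2.map fun v => b m + v) :=
  Measure.isProbabilityMeasure_map (by fun_prop)

instance (b : S → ℝ × ℝ) : IsProbabilityMeasure (gb b) := by unfold gb; infer_instance

lemma mp_gb (b : S → ℝ × ℝ) : MeasurePreserving (fun g : S → ℝ × ℝ => fun m => b m + g m)
    (GP S) (gb b) :=
  measurePreserving_pi (fun _ : S => g2) (fun m => g2.map fun v => b m + v) fun m =>
    ⟨by fun_prop, rfl⟩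

lemma lintegral_gb (b : S → ℝ × ℝ) {F : (S → ℝ × ℝ) → ℝ≥0∞} (hF : Measurable F) :
    ∫⁻ c, F c ∂gb b = ∫⁻ g, F (fun m => b m + g m) ∂GP S :=
  ((mp_gb b).lintegral_comp hF).symm

lemma continuous_dens : Continuous dens := by
  have : dens = fun v => (√(2 * π))⁻¹ ^ 2 * rexp (-(H709R2.sq v) / 2) := by
    funext v
    exact dens_eq v
  rw [this]
  unfold H709R2.sq
  fun_prop

lemma continuous_pb (b : S → ℝ × ℝ) : Continuous (pb b) := by
  unfold pb
  refine continuous_finsetProd _ fun m _ => ?_
  exact continuous_dens.comp (by fun_prop)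

lemma lintegral_gb' (b : S → ℝ × ℝ) {F : (S → ℝ × ℝ) → ℝ≥0∞} (hF : Measurable F) :
    ∫⁻ c, F c ∂gb b = ∫⁻ c, ENNReal.ofReal (pb b c) * F c := by
  rw [lintegral_gb b hF]
  have h1 : GP S = (volume : Measure (S → ℝ × ℝ)).withDensity
      fun c => ENNReal.ofReal (∏ m : S, dens (c m)) := gS_eq
  have hc : Continuous fun c : S → ℝ × ℝ => ∏ m : S, dens (c m) :=
    continuous_finsetProd _ fun m _ => continuous_dens.comp (by fun_prop)
  have hf : Measurable fun c : S → ℝ × ℝ => ENNReal.ofReal (∏ m : S, dens (c m)) :=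
    ENNReal.measurable_ofReal.comp hc.measurable
  have hG : Measurable fun g : S → ℝ × ℝ => F (fun m => b m + g m) := hF.comp (by fun_prop)
  rw [h1, lintegral_withDensity_eq_lintegral_mul _ hf hG]
  have h2 : MeasurePreserving (fun c : S → ℝ × ℝ => c - b) volume volume :=
    measurePreserving_sub_right volume b
  have hm : Measurable fun g : S → ℝ × ℝ => ENNReal.ofReal (∏ m : S, dens (g m)) *
      F (fun m => b m + g m) := hf.mul hG
  have h3 := h2.lintegral_comp hm
  simp only [Pi.mul_apply]
  rw [← h3]
  refine lintegral_congr fun c => ?_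
  unfold pb
  simp only [Pi.sub_apply, add_sub_cancel]

lemma measurable_Phi : Measurable (Phi (S := S)) := by
  have hmeas : Measurable (Function.uncurry fun (c : S → ℝ × ℝ) (α : ℝ) => NP (rotc α c)) := by
    refine measurable_NP.comp ?_
    have h1 : Continuous fun q : (S → ℝ × ℝ) × ℝ => rotc q.2 q.1 := by
      unfold rotc rot
      fun_prop
    exact h1.measurable
  exact hmeas.lintegral_prod_right'

/-- The mean over a Gaussian law and over all rotations. -/
lemma to_rotations (b : S → ℝ × ℝ) : ∫⁻ c, NP c ∂gb b ≤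
    4 * ∫⁻ c, ENNReal.ofReal √(1 + xx c b) * Phi c ∂gb b := by
  have hk : Measurable fun c : S → ℝ × ℝ => ENNReal.ofReal (2 * √(1 + xx c b)) :=
    ENNReal.measurable_ofReal.comp
      ((continuous_const.mul (continuous_const.add (continuous_xx b)).sqrt).measurable)
  have hk' : Measurable fun c : S → ℝ × ℝ => ENNReal.ofReal √(1 + xx c b) :=
    ENNReal.measurable_ofReal.comp ((continuous_const.add (continuous_xx b)).sqrt.measurable)
  have hp : Measurable fun c : S → ℝ × ℝ => ENNReal.ofReal (pb b c) :=
    ENNReal.measurable_ofReal.comp (continuous_pb b).measurable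
  have hrot : Continuous fun q : (S → ℝ × ℝ) × ℝ => rotc q.2 q.1 := by
    unfold rotc rot
    fun_prop
  have hrot' : Continuous fun q : ℝ × (S → ℝ × ℝ) => rotc (-q.1) q.2 := by
    unfold rotc rot
    fun_prop
  have hp1 : ∀ c : S → ℝ × ℝ, Measurable fun α : ℝ => ENNReal.ofReal (pb b (rotc α c)) := by
    intro c
    have h1 : Continuous fun α : ℝ => rotc α c := by
      unfold rotc rot
      fun_prop
    exact ENNReal.measurable_ofReal.comp ((continuous_pb b).comp h1).measurable
  have hN1 : ∀ c : S → ℝ × ℝ, Measurable fun α : ℝ => NP (rotc (-α) c) := by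
    intro c
    have h1 : Continuous fun α : ℝ => rotc (-α) c := by
      unfold rotc rot
      fun_prop
    exact measurable_NP.comp h1.measurable
  have hα : ∀ α : ℝ, Measurable fun c : S → ℝ × ℝ => rotc α c := fun α => by
    have : Continuous fun c : S → ℝ × ℝ => rotc α c := by unfold rotc rot; fun_prop
    exact this.measurable
  rw [lintegral_gb' b measurable_NP, lintegral_gb' b
    (F := fun c => ENNReal.ofReal √(1 + xx c b) * Phi c) (hk'.mul measurable_Phi)]
  have hback : ∀ (α : ℝ) (c : S → ℝ × ℝ), rotc (-α) (rotc α c) = c := by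
    intro α c
    funext m
    unfold rotc rot
    rw [Real.cos_neg, Real.sin_neg]
    have := Real.sin_sq_add_cos_sq α
    ext
    · simp only
      linear_combination (c m).1 * this
    · simp only
      linear_combination (c m).2 * this
  calc ∫⁻ c, ENNReal.ofReal (pb b c) * NP c
      ≤ ∫⁻ c, ∫⁻ α in Ioo (-π) π, ENNReal.ofReal (2 * √(1 + xx c b)) * NP c *
          ENNReal.ofReal (pb b (rotc α c)) := by
        refine lintegral_mono fun c => ?_
        have h1 := mul_le_mul_left (pb_le b c) (NP c)
        refine h1.trans (le_of_eq ?_)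
        rw [lintegral_const_mul (ENNReal.ofReal (2 * √(1 + xx c b)) * NP c) (hp1 c)]
        ring
    _ = ∫⁻ α in Ioo (-π) π, ∫⁻ c, ENNReal.ofReal (2 * √(1 + xx c b)) * NP c *
          ENNReal.ofReal (pb b (rotc α c)) := by
        have h1 : Measurable (Function.uncurry fun (c : S → ℝ × ℝ) (α : ℝ) =>
            ENNReal.ofReal (2 * √(1 + xx c b)) * NP c * ENNReal.ofReal (pb b (rotc α c))) :=
          ((hk.comp measurable_fst).mul (measurable_NP.comp measurable_fst)).mul
            (hp.comp hrot.measurable)
        exact lintegral_lintegral_swap h1.aemeasurable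
    _ = ∫⁻ α in Ioo (-π) π, ∫⁻ c, ENNReal.ofReal (2 * √(1 + xx c b)) * NP (rotc (-α) c) *
          ENNReal.ofReal (pb b c) := by
        refine lintegral_congr fun α => ?_
        have h1 := (measurePreserving_rotc (S := S) α).lintegral_comp
          (f := fun c => ENNReal.ofReal (2 * √(1 + xx c b)) * NP (rotc (-α) c) *
            ENNReal.ofReal (pb b c)) ((hk.mul (measurable_NP.comp (hα _))).mul hp)
        rw [← h1]
        refine lintegral_congr fun c => ?_
        rw [xx_rotc, hback]
    _ = ∫⁻ c, ∫⁻ α in Ioo (-π) π, ENNReal.ofReal (2 * √(1 + xx c b)) * NP (rotc (-α) c) *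
          ENNReal.ofReal (pb b c) := by
        have h1 : Measurable (Function.uncurry fun (α : ℝ) (c : S → ℝ × ℝ) =>
            ENNReal.ofReal (2 * √(1 + xx c b)) * NP (rotc (-α) c) * ENNReal.ofReal (pb b c)) :=
          ((hk.comp measurable_snd).mul (measurable_NP.comp hrot'.measurable)).mul
            (hp.comp measurable_snd)
        exact lintegral_lintegral_swap h1.aemeasurable
    _ ≤ ∫⁻ c, 4 * (ENNReal.ofReal (pb b c) * (ENNReal.ofReal √(1 + xx c b) * Phi c)) := by
        refine lintegral_mono fun c => ?_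
        have h1 : ∀ α : ℝ, ENNReal.ofReal (2 * √(1 + xx c b)) * NP (rotc (-α) c) *
            ENNReal.ofReal (pb b c) = (ENNReal.ofReal (2 * √(1 + xx c b)) *
              ENNReal.ofReal (pb b c)) * NP (rotc (-α) c) := fun α => by ring
        simp only [h1]
        rw [lintegral_const_mul (ENNReal.ofReal (2 * √(1 + xx c b)) * ENNReal.ofReal (pb b c))
          (hN1 c)]
        have h2 := mul_le_mul_right (full_circle c) (ENNReal.ofReal (2 * √(1 + xx c b)) *
              ENNReal.ofReal (pb b c))
        refine h2.trans (le_of_eq ?_)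
        rw [ENNReal.ofReal_mul (by norm_num), ENNReal.ofReal_ofNat]
        ring
    _ = 4 * ∫⁻ c, ENNReal.ofReal (pb b c) * (ENNReal.ofReal √(1 + xx c b) * Phi c) :=
        lintegral_const_mul _ (hp.mul (hk'.mul measurable_Phi))

end

end Pool.Agent.W960.HR
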