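import Pool.Agent.W960.HR.Smooth

/-! Smoothed analysis: conclusion. -/

open Real Set MeasureTheory Topology Filter ProbabilityTheory
open scoped ENNReal

namespace Pool.Agent.W960.HR

noncomputable section

open Pool.Agent.H709R2 (fld rot rotc rot_fld NP NP_smul g2 g2_eq dens dens_nonneg dens_le_one
  measurable_dens ClosedOrbit measurable_NP)

variable {S : Finset (ℕ × ℕ)} {n : ℕ}

lemma marg_fst {F : (S → ℝ) → ℝ≥0∞} (hF : Measurable F) :
    ∫⁻ c, F (fun m => (c m).1) ∂GP S = ∫⁻ a, F a ∂GQ S := by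
  have h1 := measurePreserving_arrowProdEquivProdArrow ℝ ℝ S (fun _ => gaussianReal 0 1)
    (fun _ => gaussianReal 0 1)
  have h2 := (measurePreserving_fst (μ := GQ S) (ν := GQ S)).comp h1
  exact h2.lintegral_comp hF

lemma marg_snd {F : (S → ℝ) → ℝ≥0∞} (hF : Measurable F) :
    ∫⁻ c, F (fun m => (c m).2) ∂GP S = ∫⁻ a, F a ∂GQ S := by
  have h1 := measurePreserving_arrowProdEquivProdArrow ℝ ℝ S (fun _ => gaussianReal 0 1)
    (fun _ => gaussianReal 0 1)
  have h2 := (measurePreserving_snd (μ := GQ S) (ν := GQ S)).comp h1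
  exact h2.lintegral_comp hF

lemma sn_nonneg (b : S → ℝ × ℝ) : 0 ≤ sn b :=
  Finset.sum_nonneg fun m _ => H709R2.sq_nonneg' (b m)

lemma mean_two {w w' : S → ℝ} {s : ℝ} (hs : 0 < s) (hw : ∑ m, w m ^ 2 ≤ s ^ 2)
    (hw' : ∑ m, w' m ^ 2 ≤ s ^ 2) :
    ∫⁻ c : S → ℝ × ℝ, (ENNReal.ofReal |sl w (fun m => (c m).1)| +
      ENNReal.ofReal |sl w' (fun m => (c m).2)|) ∂GP S ≤ ENNReal.ofReal (2 * s) := by
  have h0 : ∀ w : S → ℝ, Measurable fun a : S → ℝ => ENNReal.ofReal |sl w a| := fun w =>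
    ENNReal.measurable_ofReal.comp (continuous_sl w).abs.measurable
  have h1 : Measurable fun c : S → ℝ × ℝ => ENNReal.ofReal |sl w (fun m => (c m).1)| :=
    (h0 w).comp (by fun_prop)
  rw [lintegral_add_left h1, marg_fst (h0 w), marg_snd (h0 w'), two_mul,
    ENNReal.ofReal_add hs.le hs.le]
  exact add_le_add (mean_abs_sl hs hw) (mean_abs_sl hs hw')

lemma mean_ip (b : S → ℝ × ℝ) {s : ℝ} (hs : 0 < s) (hb : sn b ≤ s ^ 2) :
    ∫⁻ c, ENNReal.ofReal |ip c b| ∂GP S ≤ ENNReal.ofReal (2 * s) ∧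
    ∫⁻ c, ENNReal.ofReal |iw c b| ∂GP S ≤ ENNReal.ofReal (2 * s) := by
  have hb1 : ∑ m, (b m).1 ^ 2 ≤ s ^ 2 := by
    refine le_trans ?_ hb
    unfold sn H709R2.sq
    exact Finset.sum_le_sum fun m _ => by nlinarith [sq_nonneg (b m).2]
  have hb2 : ∑ m, (b m).2 ^ 2 ≤ s ^ 2 := by
    refine le_trans ?_ hb
    unfold sn H709R2.sq
    exact Finset.sum_le_sum fun m _ => by nlinarith [sq_nonneg (b m).1]
  constructor
  · refine le_trans (lintegral_mono fun c => ?_) (mean_two hs hb1 hb2)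
    have e : ip c b = sl (fun m => (b m).1) (fun m => (c m).1) +
        sl (fun m => (b m).2) (fun m => (c m).2) := by
      unfold ip sl
      rw [← Finset.sum_add_distrib]
      exact Finset.sum_congr rfl fun m _ => by ring
    rw [e, ← ENNReal.ofReal_add (abs_nonneg _) (abs_nonneg _)]
    exact ENNReal.ofReal_le_ofReal (abs_add_le _ _)
  · have hb1' : ∑ m, (-(b m).1) ^ 2 ≤ s ^ 2 := by simpa only [neg_sq] using hb1
    refine le_trans (lintegral_mono fun c => ?_) (mean_two (w := fun m => (b m).2)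
      (w' := fun m => -(b m).1) hs hb2 hb1')
    have e : iw c b = sl (fun m => (b m).2) (fun m => (c m).1) +
        sl (fun m => -(b m).1) (fun m => (c m).2) := by
      unfold iw sl
      rw [← Finset.sum_add_distrib]
      exact Finset.sum_congr rfl fun m _ => by ring
    rw [e, ← ENNReal.ofReal_add (abs_nonneg _) (abs_nonneg _)]
    exact ENNReal.ofReal_le_ofReal (abs_add_le _ _)

/-- the mean of the weight -/
lemma mean_weight (b : S → ℝ × ℝ) : ∫⁻ c, ENNReal.ofReal (1 + xx c b) ∂gb b ≤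
    ENNReal.ofReal ((2 * (1 + √(sn b))) ^ 2) := by
  set β : ℝ := √(sn b) with hβ
  have hβ0 : 0 ≤ β := Real.sqrt_nonneg _
  have hβ2 : β ^ 2 = sn b := Real.sq_sqrt (sn_nonneg b)
  have hx : Measurable fun c : S → ℝ × ℝ => ENNReal.ofReal (1 + xx c b) :=
    ENNReal.measurable_ofReal.comp (continuous_const.add (continuous_xx b)).measurable
  rw [lintegral_gb b hx]
  have h1 : ∀ g : S → ℝ × ℝ, ENNReal.ofReal (1 + xx (fun m => b m + g m) b) ≤
      ENNReal.ofReal (1 + β ^ 2) + (ENNReal.ofReal |ip g b| + ENNReal.ofReal |iw g b|) := by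
    intro g
    rw [← ENNReal.ofReal_add (abs_nonneg _) (abs_nonneg _),
      ← ENNReal.ofReal_add (by positivity) (by positivity)]
    apply ENNReal.ofReal_le_ofReal
    have e1 : ip (fun m => b m + g m) b = sn b + ip g b := by
      unfold ip sn H709R2.sq
      rw [← Finset.sum_add_distrib]
      exact Finset.sum_congr rfl fun m _ => by simp only [Prod.fst_add, Prod.snd_add]; ring
    have e2 : iw (fun m => b m + g m) b = iw g b := by
      unfold iw
      exact Finset.sum_congr rfl fun m _ => by simp only [Prod.fst_add, Prod.snd_add]; ring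
    have h2 : xx (fun m => b m + g m) b ≤ |sn b + ip g b| + |iw g b| := by
      unfold xx
      rw [e1, e2, Real.sqrt_le_iff]
      refine ⟨by positivity, ?_⟩
      rw [← sq_abs (sn b + ip g b), ← sq_abs (iw g b)]
      have := mul_nonneg (abs_nonneg (sn b + ip g b)) (abs_nonneg (iw g b))
      nlinarith
    have h3 := abs_add_le (sn b) (ip g b)
    rw [abs_of_nonneg (sn_nonneg b)] at h3
    rw [hβ2]
    linarith
  refine (lintegral_mono h1).trans ?_
  have hm1 : Measurable fun g : S → ℝ × ℝ => ENNReal.ofReal |ip g b| :=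
    ENNReal.measurable_ofReal.comp (continuous_ip b).abs.measurable
  obtain ⟨h2, h3⟩ := mean_ip b (s := β + 1 / 4) (by linarith) (by rw [← hβ2]; nlinarith)
  rw [lintegral_add_left measurable_const, lintegral_const, measure_univ, mul_one,
    lintegral_add_left hm1]
  refine (add_le_add le_rfl (add_le_add h2 h3)).trans ?_
  rw [← ENNReal.ofReal_add (by positivity) (by positivity),
    ← ENNReal.ofReal_add (by positivity) (by positivity)]
  apply ENNReal.ofReal_le_ofReal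
  nlinarith

lemma dens_gb (b : S → ℝ × ℝ) : Dens (fun m => g2.map fun v => b m + v) 1 := by
  intro m B
  rw [ENNReal.ofReal_one, one_mul]
  refine (measure_mono (subset_toMeasurable volume B)).trans ?_
  rw [Measure.map_apply (by fun_prop) (measurableSet_toMeasurable _ _)]
  refine (g2_le _).trans ?_
  rw [measure_preimage_add, measure_toMeasurable]

lemma mom_gb (b : S → ℝ × ℝ) : Mom (fun m => g2.map fun v => b m + v)
    (4 * (1 + √(sn b)) ^ 2) := by
  intro m
  set β : ℝ := √(sn b) with hβ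
  have hβ0 : 0 ≤ β := Real.sqrt_nonneg _
  have hβ2 : β ^ 2 = sn b := Real.sq_sqrt (sn_nonneg b)
  have hbm : (b m).1 ^ 2 + (b m).2 ^ 2 ≤ β ^ 2 := by
    rw [hβ2]
    unfold sn
    exact Finset.single_le_sum (f := fun m => H709R2.sq (b m))
      (fun m _ => H709R2.sq_nonneg' (b m)) (Finset.mem_univ m)
  rw [lintegral_map (by fun_prop) (by fun_prop)]
  have h1 : ∀ v : ℝ × ℝ, ENNReal.ofReal ((b m + v).1 ^ 2 + (b m + v).2 ^ 2) ≤
      ENNReal.ofReal (2 * β ^ 2) + ENNReal.ofReal 2 * ENNReal.ofReal (v.1 ^ 2 + v.2 ^ 2) := by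
    intro v
    rw [← ENNReal.ofReal_mul (by norm_num), ← ENNReal.ofReal_add (by positivity) (by positivity)]
    apply ENNReal.ofReal_le_ofReal
    simp only [Prod.fst_add, Prod.snd_add]
    nlinarith [sq_nonneg ((b m).1 - v.1), sq_nonneg ((b m).2 - v.2)]
  refine (lintegral_mono h1).trans ?_
  rw [lintegral_add_left measurable_const, lintegral_const, measure_univ, mul_one,
    lintegral_const_mul' _ _ ENNReal.ofReal_ne_top]
  have h2 := mom_g2 (S := S) m
  refine (add_le_add le_rfl (mul_le_mul_right h2 _)).trans ?_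
  rw [← ENNReal.ofReal_mul (by norm_num), ← ENNReal.ofReal_add (by positivity) (by positivity)]
  apply ENNReal.ofReal_le_ofReal
  nlinarith

/-- layers with an arbitrary choice of levels -/
lemma phi_le_levels (hF : Full n S) {D W : ℝ} (hD : 1 ≤ D) (hW : 1 ≤ W) (κ : ℕ → ℕ)
    (c : S → ℝ × ℝ) :
    Phi c ≤ ENNReal.ofReal (bk n D W (κ 0) * (2 * n ^ 3)) + ∑' k : ℕ,
      {c : S → ℝ × ℝ | ¬ Good n c (Mk n W (κ k)) (tk n D W (κ k))}.indicator
        (fun _ => ENNReal.ofReal (bk n D W (κ (k + 1)) * (2 * n ^ 3))) c := by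
  have hn1 : (1:ℝ) ≤ n := by exact_mod_cast hF.one_le
  have hgood : ∀ k, Good n c (Mk n W k) (tk n D W k) →
      Phi c ≤ ENNReal.ofReal (bk n D W k * (2 * n ^ 3)) := by
    intro k hk
    obtain ⟨h3, h4⟩ := phi_le_bk hF hD hW k hk
    refine h3.trans ?_
    have hb := bk_ge hF.one_le hD hW k
    rw [ENNReal.ofReal_mul (by linarith)]
    refine mul_le_mul_right ?_ _
    calc 1 + (n:ℝ≥0∞) * NZ c ≤ 1 + (n:ℝ≥0∞) * (n:ℝ≥0∞) ^ 2 := by gcongr
      _ = ENNReal.ofReal (1 + n * n ^ 2) := by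
          rw [ENNReal.ofReal_add (by norm_num) (by positivity), ENNReal.ofReal_one,
            ENNReal.ofReal_mul (by positivity), ENNReal.ofReal_pow (by positivity),
            ENNReal.ofReal_natCast]
      _ ≤ ENNReal.ofReal (2 * n ^ 3) := by
          apply ENNReal.ofReal_le_ofReal
          have : (1:ℝ) ≤ (n:ℝ) ^ 3 := one_le_pow₀ hn1
          nlinarith
  by_cases h : ∃ k, Good n c (Mk n W (κ k)) (tk n D W (κ k))
  · classical
    have hs := Nat.find_spec h
    have hm := fun j => Nat.find_min h (m := j)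
    set k := Nat.find h with hk
    rcases Nat.eq_zero_or_pos k with h0 | h0
    · rw [h0] at hs
      exact (hgood _ hs).trans le_self_add
    · obtain ⟨j, hj⟩ := Nat.exists_eq_add_of_le' h0
      have h1 : ¬ Good n c (Mk n W (κ j)) (tk n D W (κ j)) := hm j (by omega)
      have h2 : ENNReal.ofReal (bk n D W (κ (j + 1)) * (2 * n ^ 3)) ≤ ∑' k : ℕ,
          {c : S → ℝ × ℝ | ¬ Good n c (Mk n W (κ k)) (tk n D W (κ k))}.indicator
            (fun _ => ENNReal.ofReal (bk n D W (κ (k + 1)) * (2 * n ^ 3))) c := by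
        refine le_trans ?_ (ENNReal.le_tsum j)
        rw [indicator_of_mem
          (show c ∈ {c : S → ℝ × ℝ | ¬ Good n c (Mk n W (κ j)) (tk n D W (κ j))} from h1)]
      rw [hj] at hs
      exact (hgood _ hs).trans (h2.trans le_add_self)
  · push Not at h
    have h1 : ∑' k : ℕ, {c : S → ℝ × ℝ | ¬ Good n c (Mk n W (κ k)) (tk n D W (κ k))}.indicator
        (fun _ => ENNReal.ofReal (bk n D W (κ (k + 1)) * (2 * n ^ 3))) c = ⊤ := by
      rw [eq_top_iff]
      have h2 : ∀ k : ℕ, (1:ℝ≥0∞) ≤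
          {c : S → ℝ × ℝ | ¬ Good n c (Mk n W (κ k)) (tk n D W (κ k))}.indicator
          (fun _ => ENNReal.ofReal (bk n D W (κ (k + 1)) * (2 * n ^ 3))) c := by
        intro k
        rw [indicator_of_mem
          (show c ∈ {c : S → ℝ × ℝ | ¬ Good n c (Mk n W (κ k)) (tk n D W (κ k))} from h k)]
        rw [← ENNReal.ofReal_one]
        apply ENNReal.ofReal_le_ofReal
        have h5 := bk_ge hF.one_le hD hW (κ (k + 1))
        have h6 : (1:ℝ) ≤ (n:ℝ) ^ 3 := one_le_pow₀ hn1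
        nlinarith
      calc (⊤ : ℝ≥0∞) = ∑' _ : ℕ, (1:ℝ≥0∞) := (ENNReal.tsum_const_eq_top_of_ne_zero one_ne_zero).symm
        _ ≤ _ := ENNReal.tsum_le_tsum h2
    rw [h1]
    simp

/-- a weighted tail -/
lemma weighted_tail {Ω : Type*} [MeasurableSpace Ω] (P : Measure Ω) {k : Ω → ℝ}
    {s r : ℝ} (hs : 0 < s) (hr : 0 < r)
    (h2 : ∫⁻ ω, ENNReal.ofReal (k ω ^ 2) ∂P ≤ ENNReal.ofReal (s ^ 2)) {E : Set Ω}
    (hE : P E ≤ ENNReal.ofReal (2 / r ^ 2)) :
    ∫⁻ ω in E, ENNReal.ofReal (k ω) ∂P ≤ ENNReal.ofReal (3 * s / (2 * r)) := by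
  have h1 : ∀ ω, ENNReal.ofReal (k ω) ≤ ENNReal.ofReal (1 / (2 * s * r)) *
      ENNReal.ofReal (k ω ^ 2) + ENNReal.ofReal (s * r / 2) := by
    intro ω
    rw [← ENNReal.ofReal_mul (by positivity), ← ENNReal.ofReal_add (by positivity) (by positivity)]
    apply ENNReal.ofReal_le_ofReal
    have h3 : 1 / (2 * s * r) * k ω ^ 2 + s * r / 2 - k ω = (k ω - s * r) ^ 2 / (2 * s * r) := by
      field_simp
      ring
    have h4 : 0 ≤ (k ω - s * r) ^ 2 / (2 * s * r) := by positivity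
    linarith
  refine (lintegral_mono h1).trans ?_
  rw [lintegral_add_right _ measurable_const, lintegral_const_mul' _ _ ENNReal.ofReal_ne_top,
    lintegral_const, Measure.restrict_apply_univ]
  have h3 : ∫⁻ ω in E, ENNReal.ofReal (k ω ^ 2) ∂P ≤ ENNReal.ofReal (s ^ 2) :=
    (setLIntegral_le_lintegral _ _).trans h2
  calc ENNReal.ofReal (1 / (2 * s * r)) * ∫⁻ ω in E, ENNReal.ofReal (k ω ^ 2) ∂P +
        ENNReal.ofReal (s * r / 2) * P E
      ≤ ENNReal.ofReal (1 / (2 * s * r)) * ENNReal.ofReal (s ^ 2) +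
        ENNReal.ofReal (s * r / 2) * ENNReal.ofReal (2 / r ^ 2) := by gcongr
    _ = ENNReal.ofReal (3 * s / (2 * r)) := by
        rw [← ENNReal.ofReal_mul (by positivity), ← ENNReal.ofReal_mul (by positivity),
          ← ENNReal.ofReal_add (by positivity) (by positivity)]
        congr 1
        field_simp
        ring

lemma weighted_all {Ω : Type*} [MeasurableSpace Ω] (P : Measure Ω) [IsProbabilityMeasure P]
    {k : Ω → ℝ} {s : ℝ} (hs : 0 < s)
    (h2 : ∫⁻ ω, ENNReal.ofReal (k ω ^ 2) ∂P ≤ ENNReal.ofReal (s ^ 2)) :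
    ∫⁻ ω, ENNReal.ofReal (k ω) ∂P ≤ ENNReal.ofReal s := by
  have h1 : ∀ ω, ENNReal.ofReal (k ω) ≤ ENNReal.ofReal (1 / (2 * s)) *
      ENNReal.ofReal (k ω ^ 2) + ENNReal.ofReal (s / 2) := by
    intro ω
    rw [← ENNReal.ofReal_mul (by positivity), ← ENNReal.ofReal_add (by positivity) (by positivity)]
    apply ENNReal.ofReal_le_ofReal
    have h3 : 1 / (2 * s) * k ω ^ 2 + s / 2 - k ω = (k ω - s) ^ 2 / (2 * s) := by
      field_simp
      ring
    have h4 : 0 ≤ (k ω - s) ^ 2 / (2 * s) := by positivity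
    linarith
  refine (lintegral_mono h1).trans ?_
  rw [lintegral_add_right _ measurable_const, lintegral_const_mul' _ _ ENNReal.ofReal_ne_top,
    lintegral_const, measure_univ, mul_one]
  calc ENNReal.ofReal (1 / (2 * s)) * ∫⁻ ω, ENNReal.ofReal (k ω ^ 2) ∂P +
        ENNReal.ofReal (s / 2)
      ≤ ENNReal.ofReal (1 / (2 * s)) * ENNReal.ofReal (s ^ 2) + ENNReal.ofReal (s / 2) := by gcongr
    _ = ENNReal.ofReal s := by
        rw [← ENNReal.ofReal_mul (by positivity), ← ENNReal.ofReal_add (by positivity) (by positivity)]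
        congr 1
        field_simp
        ring

/-- the weighted mean of the integral over the rotations -/
theorem weighted_phi (hF : Full n S) (b : S → ℝ × ℝ) :
    ∫⁻ c, ENNReal.ofReal √(1 + xx c b) * Phi c ∂gb b ≤
      ENNReal.ofReal (2 * (1 + √(sn b)) * (350000000 * n ^ 3 *
        (1 + Real.log (n * 1 * (4 * (1 + √(sn b)) ^ 2))))) := by
  have hn := hF.one_le
  have hn1 : (1:ℝ) ≤ n := by exact_mod_cast hn
  have hn0 : (0:ℝ) < n := by linarith
  set s : ℝ := 2 * (1 + √(sn b)) with hs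
  have hβ0 : 0 ≤ √(sn b) := Real.sqrt_nonneg _
  have hs0 : 0 < s := by positivity
  set W : ℝ := 4 * (1 + √(sn b)) ^ 2 with hW
  have hW1 : 1 ≤ W := by nlinarith
  set L := Real.log (n * 1 * W) with hL
  have hL1 : Real.log n ≤ L := by
    apply Real.log_le_log hn0
    rw [mul_one]
    exact le_mul_of_one_le_right hn0.le hW1
  have hL0 : 0 ≤ Real.log n := Real.log_nonneg hn1
  set N₀ : ℕ := 3 * Nat.clog 2 n with hN₀
  have hN1 : (N₀:ℝ) ≤ 3 + 6 * L := by
    have := clog_le hn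
    rw [hN₀]
    push_cast
    linarith
  have hN2 : (n:ℝ) ^ 3 ≤ 2 ^ N₀ := by
    have h1 : n ≤ 2 ^ Nat.clog 2 n := Nat.le_pow_clog (by norm_num) n
    have h2 : (n:ℝ) ≤ 2 ^ Nat.clog 2 n := by exact_mod_cast h1
    rw [hN₀, mul_comm, pow_mul]
    gcongr
  set κ : ℕ → ℕ := fun k => N₀ + 2 * k with hκ
  set P := gb b with hP
  have hb : ∀ k, 0 ≤ bk n 1 W k := fun k => by linarith [bk_ge hn le_rfl hW1 k]
  set E : ℕ → Set (S → ℝ × ℝ) := fun k =>
    toMeasurable P {c | ¬ Good n c (Mk n W (κ k)) (tk n 1 W (κ k))} with hE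
  have hEm : ∀ k, MeasurableSet (E k) := fun k => measurableSet_toMeasurable _ _
  have hEp : ∀ k, P (E k) ≤ ENNReal.ofReal (2 / ((n:ℝ) ^ 3 * 2 ^ k) ^ 2) := by
    intro k
    rw [hE]
    simp only
    rw [measure_toMeasurable]
    have h1 : P {c | ¬ Good n c (Mk n W (κ k)) (tk n 1 W (κ k))} ≤
        ENNReal.ofReal (2 / lk n (κ k)) :=
      prob_level hF (fun m => g2.map fun v => b m + v) le_rfl hW1 (dens_gb b) (mom_gb b) (κ k)
    refine h1.trans (ENNReal.ofReal_le_ofReal ?_)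
    apply div_le_div_of_nonneg_left (by norm_num) (by positivity)
    unfold lk
    rw [hκ]
    simp only
    have h3 : ((2:ℝ) ^ k) ^ 2 = (2 ^ 2) ^ k := by rw [← pow_mul, ← pow_mul, mul_comm]
    have h4 : (2:ℝ) ^ (N₀ + 2 * k) = 2 ^ N₀ * (2 ^ 2) ^ k := by rw [pow_add, pow_mul (2:ℝ) 2 k]
    rw [h4, mul_pow, h3]
    calc ((n:ℝ) ^ 3) ^ 2 * (2 ^ 2) ^ k = (n:ℝ) ^ 3 * ((n:ℝ) ^ 3 * (2 ^ 2) ^ k) := by ring
      _ ≤ (n:ℝ) ^ 3 * (2 ^ N₀ * (2 ^ 2) ^ k) := by gcongr
  have hw2 : ∫⁻ c, ENNReal.ofReal ((√(1 + xx c b)) ^ 2) ∂P ≤ ENNReal.ofReal (s ^ 2) := by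
    refine le_trans (le_of_eq ?_) (mean_weight b)
    refine lintegral_congr fun c => ?_
    rw [Real.sq_sqrt (by linarith [xx_nonneg c b])]
  have hkm : Measurable fun c : S → ℝ × ℝ => ENNReal.ofReal √(1 + xx c b) :=
    ENNReal.measurable_ofReal.comp ((continuous_const.add (continuous_xx b)).sqrt.measurable)
  have h1 : ∀ c : S → ℝ × ℝ, ENNReal.ofReal √(1 + xx c b) * Phi c ≤
      ENNReal.ofReal (bk n 1 W N₀ * (2 * n ^ 3)) * ENNReal.ofReal √(1 + xx c b) +
      ∑' k : ℕ, ENNReal.ofReal (bk n 1 W (κ (k + 1)) * (2 * n ^ 3)) *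
        (E k).indicator (fun c => ENNReal.ofReal √(1 + xx c b)) c := by
    intro c
    have h2 := phi_le_levels hF le_rfl hW1 κ c
    have h3 := mul_le_mul_right h2 (ENNReal.ofReal √(1 + xx c b))
    refine h3.trans ?_
    rw [mul_add, ← ENNReal.tsum_mul_left]
    refine add_le_add (le_of_eq ?_) (ENNReal.tsum_le_tsum fun k => ?_)
    · rw [mul_comm]
      rfl
    · by_cases hc : ¬ Good n c (Mk n W (κ k)) (tk n 1 W (κ k))
      · rw [indicator_of_mem
          (show c ∈ {c : S → ℝ × ℝ | ¬ Good n c (Mk n W (κ k)) (tk n 1 W (κ k))} from hc),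
          indicator_of_mem (subset_toMeasurable _ _
            (show c ∈ {c : S → ℝ × ℝ | ¬ Good n c (Mk n W (κ k)) (tk n 1 W (κ k))} from hc)),
          mul_comm]
      · rw [indicator_of_notMem
          (show c ∉ {c : S → ℝ × ℝ | ¬ Good n c (Mk n W (κ k)) (tk n 1 W (κ k))} from hc), mul_zero]
        exact zero_le
  refine (lintegral_mono h1).trans ?_
  have hTm : Measurable fun c => ∑' k : ℕ, ENNReal.ofReal (bk n 1 W (κ (k + 1)) * (2 * n ^ 3)) *
        (E k).indicator (fun c => ENNReal.ofReal √(1 + xx c b)) c :=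
    Measurable.tsum fun k => (hkm.indicator (hEm k)).const_mul _
  rw [lintegral_add_right _ hTm, lintegral_const_mul' _ _ ENNReal.ofReal_ne_top,
    lintegral_tsum fun k => ((hkm.indicator (hEm k)).const_mul _).aemeasurable]
  have hfirst : ENNReal.ofReal (bk n 1 W N₀ * (2 * n ^ 3)) *
      ∫⁻ c, ENNReal.ofReal √(1 + xx c b) ∂P ≤
      ENNReal.ofReal (bk n 1 W N₀ * (2 * n ^ 3) * s) := by
    have h2 := weighted_all P (k := fun c => √(1 + xx c b)) hs0 hw2
    rw [ENNReal.ofReal_mul (p := bk n 1 W N₀ * (2 * n ^ 3)) (mul_nonneg (hb _) (by positivity))]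
    exact mul_le_mul_right h2 _
  have hterm : ∀ k, ∫⁻ c, ENNReal.ofReal (bk n 1 W (κ (k + 1)) * (2 * n ^ 3)) *
        (E k).indicator (fun c => ENNReal.ofReal √(1 + xx c b)) c ∂P ≤
      ENNReal.ofReal (3 * s * (bk n 1 W (κ (k + 1)) * (1 / 2) ^ k)) := by
    intro k
    rw [lintegral_const_mul' _ _ ENNReal.ofReal_ne_top, lintegral_indicator (hEm k)]
    have h2 := weighted_tail P (k := fun c => √(1 + xx c b)) (s := s) (r := (n:ℝ) ^ 3 * 2 ^ k) hs0
      (by positivity) hw2 (hEp k)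
    refine (mul_le_mul_right h2 _).trans ?_
    have h3 := hb (κ (k + 1))
    rw [← ENNReal.ofReal_mul (by positivity)]
    apply ENNReal.ofReal_le_ofReal
    have h5 : (1 / 2 : ℝ) ^ k = 1 / 2 ^ k := by rw [one_div, one_div, inv_pow]
    rw [h5]
    refine le_of_eq ?_
    field_simp
  refine (add_le_add hfirst (ENNReal.tsum_le_tsum hterm)).trans ?_
  set a : ℝ := 700000 * (34 + 32 * L + 5 * N₀) with ha
  set d : ℝ := 7000000 with hd
  have hbk : ∀ k, bk n 1 W (κ (k + 1)) = a + d * k := by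
    intro k
    unfold bk
    rw [hκ, ha, hd, ← hL]
    push_cast
    ring
  have hs1 : HasSum (fun k : ℕ => ((1 / 2 : ℝ)) ^ k) 2 := hasSum_geometric_two
  have hs2 : HasSum (fun k : ℕ => (k : ℝ) * (1 / 2) ^ k) 2 := by
    have := hasSum_coe_mul_geometric_of_norm_lt_one (r := (1 / 2 : ℝ)) (by norm_num)
    norm_num at this ⊢
    exact this
  have hsum : HasSum (fun k : ℕ => 3 * s * (bk n 1 W (κ (k + 1)) * (1 / 2) ^ k))
      (3 * s * (2 * a + 2 * d)) := by
    have h3 := ((hs1.mul_left (3 * s * a)).add (hs2.mul_left (3 * s * d)))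
    have e : 3 * s * a * 2 + 3 * s * d * 2 = 3 * s * (2 * a + 2 * d) := by ring
    rw [e] at h3
    have e' : (fun k : ℕ => 3 * s * (bk n 1 W (κ (k + 1)) * (1 / 2) ^ k)) =
        fun k : ℕ => 3 * s * a * (1 / 2) ^ k + 3 * s * d * (k * (1 / 2) ^ k) := by
      funext k
      rw [hbk]
      ring
    rw [e']
    exact h3
  have hL0' : 0 ≤ L := hL0.trans hL1
  have ha0 : 0 ≤ a := by positivity
  rw [← ENNReal.ofReal_tsum_of_nonneg (fun k => mul_nonneg (by positivity)
    (mul_nonneg (hb _) (by positivity))) hsum.summable, hsum.tsum_eq,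
    ← ENNReal.ofReal_add (mul_nonneg (mul_nonneg (hb _) (by positivity)) hs0.le) (by positivity)]
  apply ENNReal.ofReal_le_ofReal
  have hn3 : (1:ℝ) ≤ (n:ℝ) ^ 3 := one_le_pow₀ hn1
  have e1 : bk n 1 W N₀ ≤ 700000 * (39 + 62 * L) := by
    unfold bk
    rw [← hL]
    linarith
  have e2 : a ≤ 700000 * (49 + 62 * L) := by
    rw [ha]
    linarith
  have e3 : 3 * (2 * a + 2 * d) ≤ 700000 * (354 + 372 * L) * n ^ 3 := by
    have h3 : 3 * (2 * a + 2 * d) ≤ 700000 * (354 + 372 * L) := by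
      rw [hd]
      linarith
    have h4 : 0 ≤ 700000 * (354 + 372 * L) := by positivity
    exact h3.trans (le_mul_of_one_le_right h4 hn3)
  have e4 : bk n 1 W N₀ * (2 * n ^ 3) ≤ 700000 * (39 + 62 * L) * (2 * n ^ 3) :=
    mul_le_mul_of_nonneg_right e1 (by positivity)
  have e5 : bk n 1 W N₀ * (2 * n ^ 3) + 3 * (2 * a + 2 * d) ≤ 350000000 * n ^ 3 * (1 + L) := by
    have h5 : 0 ≤ (n:ℝ) ^ 3 * L := by positivity
    nlinarith
  calc bk n 1 W N₀ * (2 * n ^ 3) * s + 3 * s * (2 * a + 2 * d) =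
        s * (bk n 1 W N₀ * (2 * n ^ 3) + 3 * (2 * a + 2 * d)) := by ring
    _ ≤ s * (350000000 * n ^ 3 * (1 + L)) := mul_le_mul_of_nonneg_left e5 hs0.le

/-- **Smoothed analysis.** -/
theorem smoothed (hF : Full n S) (c₀ : S → ℝ × ℝ) {σ : ℝ} (hσ : 0 < σ) :
    ∫⁻ g, NP (fun m => c₀ m + σ • g m) ∂GP S ≤
      ENNReal.ofReal (7 * 10 ^ 9 * n ^ 3 * (1 + √(sn c₀) / σ) *
        (1 + Real.log (n * (1 + √(sn c₀) / σ)))) := by
  have hn := hF.one_le
  have hn1 : (1:ℝ) ≤ n := by exact_mod_cast hn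
  have hn0 : (0:ℝ) < n := by linarith
  set b : S → ℝ × ℝ := σ⁻¹ • c₀ with hb
  have hsn : √(sn b) = √(sn c₀) / σ := by
    have h1 : sn b = sn c₀ / σ ^ 2 := by
      unfold sn H709R2.sq
      rw [Finset.sum_div]
      refine Finset.sum_congr rfl fun m _ => ?_
      simp only [hb, Pi.smul_apply, Prod.smul_fst, Prod.smul_snd, smul_eq_mul]
      field_simp
    rw [h1, Real.sqrt_div' _ (by positivity), Real.sqrt_sq hσ.le]
  have h1 : ∀ g : S → ℝ × ℝ, NP (fun m => c₀ m + σ • g m) = NP (fun m => b m + g m) := by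
    intro g
    have h2 : (fun m => c₀ m + σ • g m) = σ • fun m => b m + g m := by
      funext m
      rw [Pi.smul_apply, smul_add, hb, Pi.smul_apply, smul_inv_smul₀ hσ.ne']
    rw [h2, NP_smul hσ]
  simp only [h1]
  rw [← lintegral_gb b measurable_NP]
  refine (to_rotations b).trans ?_
  refine (mul_le_mul_right (weighted_phi hF b) _).trans ?_
  set X : ℝ := 1 + √(sn c₀) / σ with hX
  have hX1 : 1 ≤ X := by
    have : 0 ≤ √(sn c₀) / σ := by positivity
    linarith
  rw [hsn, ← hX]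
  have h4 : (4:ℝ≥0∞) = ENNReal.ofReal 4 := by norm_num
  rw [h4, ← ENNReal.ofReal_mul (by norm_num)]
  apply ENNReal.ofReal_le_ofReal
  set y : ℝ := Real.log (n * X) with hy
  have hy0 : 0 ≤ y := Real.log_nonneg (one_le_mul_of_one_le_of_one_le hn1 hX1)
  have h5 : Real.log (n * 1 * (4 * X ^ 2)) ≤ 7 / 5 + 2 * y := by
    have h6 : (n:ℝ) * 1 * (4 * X ^ 2) ≤ 4 * (n * X) ^ 2 := by
      have : (n:ℝ) ≤ n ^ 2 := by nlinarith
      calc (n:ℝ) * 1 * (4 * X ^ 2) = 4 * (n * X ^ 2) := by ring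
        _ ≤ 4 * (n ^ 2 * X ^ 2) := by gcongr
        _ = _ := by ring
    refine (Real.log_le_log (by positivity) h6).trans ?_
    rw [Real.log_mul (by norm_num) (by positivity), Real.log_pow]
    have h7 : Real.log 4 ≤ 7 / 5 := by
      have : (4:ℝ) = 2 ^ 2 := by norm_num
      rw [this, Real.log_pow]
      have := Real.log_two_lt_d9
      push_cast
      linarith
    push_cast
    linarith
  have h8 : 1 + Real.log (n * 1 * (4 * X ^ 2)) ≤ 12 / 5 * (1 + y) := by linarith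
  calc 4 * (2 * X * (350000000 * n ^ 3 * (1 + Real.log (n * 1 * (4 * X ^ 2)))))
      ≤ 4 * (2 * X * (350000000 * n ^ 3 * (12 / 5 * (1 + y)))) := by gcongr
    _ ≤ 7 * 10 ^ 9 * n ^ 3 * X * (1 + y) := by
        have : 0 ≤ (n:ℝ) ^ 3 * X * (1 + y) := by positivity
        nlinarith

end

end Pool.Agent.W960.HR
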