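import Pool.Agent.W960.HR.Contact
import Pool.Agent.H709U.K7
import Pool.Agent.W960.HP.Rot

/-! Closed orbits of two rotated fields which meet a common ray, in a zone where the field turns
slowly along the rays. -/

open Real Set MeasureTheory Topology Filter
open scoped ENNReal

namespace Pool.Agent.W960.HR

open Pool.Agent.H709R2 (rot wedge ClosedOrbit)
open Pool.Agent.H709U
open Pool.Agent.W960.HQ (exists_angle_lift)

/-- a vector as a complex number -/
noncomputable def toC (v : ℝ × ℝ) : ℂ := ⟨v.1, v.2⟩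

lemma toC_ne {v : ℝ × ℝ} (h : v ≠ 0) : toC v ≠ 0 := by
  intro h0
  apply h
  have h1 := congrArg Complex.re h0
  have h2 := congrArg Complex.im h0
  simp only [toC, Complex.zero_re, Complex.zero_im] at h1 h2
  ext
  · exact h1
  · exact h2

lemma hasDerivAt_toC {γ : ℝ → ℝ × ℝ} {v : ℝ × ℝ} {t : ℝ} (h : HasDerivAt γ v t) :
    HasDerivAt (fun t => toC (γ t)) (toC v) t := by
  have h1 : HasDerivAt (fun t => (γ t).1) v.1 t := h.fst
  have h2 : HasDerivAt (fun t => (γ t).2) v.2 t := h.snd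
  have h3 := (h1.ofReal_comp).add ((h2.ofReal_comp).mul_const Complex.I)
  have e1 : (fun t => toC (γ t)) = fun t => (((γ t).1 : ℝ) : ℂ) + (((γ t).2 : ℝ) : ℂ) * Complex.I := by
    funext t
    apply Complex.ext <;> simp [toC]
  rw [e1]
  refine h3.congr_deriv ?_
  apply Complex.ext <;> simp [toC]

lemma continuous_toC : Continuous toC := by
  have e1 : toC = fun v : ℝ × ℝ => ((v.1 : ℝ) : ℂ) + ((v.2 : ℝ) : ℂ) * Complex.I := by
    funext v
    apply Complex.ext <;> simp [toC]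
  rw [e1]
  fun_prop

lemma normSq_toC (v : ℝ × ℝ) : Complex.normSq (toC v) = H709R2.sq v := by
  rw [Complex.normSq_apply]
  unfold H709R2.sq toC
  ring

lemma norm_toC (v : ℝ × ℝ) : ‖toC v‖ = √(H709R2.sq v) := by
  rw [Complex.norm_def, normSq_toC]

lemma im_div (v w : ℝ × ℝ) : (toC w / toC v).im = wedge v w / H709R2.sq v := by
  rw [Complex.div_im, normSq_toC, ← sub_div]
  congr 1
  simp only [toC, wedge]
  ring

/-- The direction of the field turns little along a ray. -/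
theorem turn {X : ℝ × ℝ → ℝ × ℝ} (hX : ContDiff ℝ 2 X) {p : ℝ × ℝ} {θ u₁ u₂ L α₁ α₂ : ℝ}
    (hu : u₁ ≤ u₂)
    (h : ∀ u ∈ Icc u₁ u₂, X (pt p u θ) ≠ 0 ∧ |A0 X p (pt p u θ)| ≤ L * H709R2.sq (X (pt p u θ)))
    (hpar : wedge (rot α₁ (X (pt p u₁ θ))) (rot α₂ (X (pt p u₂ θ))) = 0) :
    ∃ k : ℤ, |α₂ - α₁ - k * π| ≤ L * (u₂ - u₁) := by
  set w : ℝ → ℝ := fun t => u₁ + (u₂ - u₁) * ((1 - cos t) / 2) with hw
  have hwm : ∀ t, w t ∈ Icc u₁ u₂ := by
    intro t
    have h1 := neg_one_le_cos t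
    have h2 := cos_le_one t
    constructor
    · simp only [hw]
      have : 0 ≤ (u₂ - u₁) * ((1 - cos t) / 2) := mul_nonneg (by linarith) (by linarith)
      linarith
    · simp only [hw]
      have : (u₂ - u₁) * ((1 - cos t) / 2) ≤ (u₂ - u₁) * 1 :=
        mul_le_mul_of_nonneg_left (by linarith) (by linarith)
      linarith
  set w' : ℝ → ℝ := fun t => (u₂ - u₁) * (sin t / 2) with hw'
  have hwd : ∀ t, HasDerivAt w (w' t) t := by
    intro t
    have h1 := (((hasDerivAt_cos t).const_sub 1).div_const 2).const_mul (u₂ - u₁)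
    refine (h1.const_add u₁).congr_deriv ?_
    simp only [hw']
    ring
  set z : ℝ → ℝ × ℝ := fun t => pt p (w t) θ with hz
  have hzd : ∀ t, HasDerivAt z (w' t • (z t - p)) t := by
    intro t
    have h1 := ((hwd t).exp.mul_const (cos θ)).const_add p.1
    have h2 := ((hwd t).exp.mul_const (sin θ)).const_add p.2
    have h3 := h1.prodMk h2
    refine HasDerivAt.congr_deriv h3 ?_
    simp only [hz, pt]
    ext
    · simp; ring
    · simp; ring
  have hXd : ∀ t, HasDerivAt (fun t => X (z t)) (w' t • fderiv ℝ X (z t) (z t - p)) t := by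
    intro t
    have h1 := ((hX.differentiable (by norm_num)) (z t)).hasFDerivAt.comp_hasDerivAt t (hzd t)
    refine h1.congr_deriv ?_
    rw [map_smul]
  have hzc : Continuous z := continuous_iff_continuousAt.mpr fun t => (hzd t).continuousAt
  set c : ℝ → ℂ := fun t => toC (X (z t)) with hc
  set y : ℝ → ℂ := fun t => toC (w' t • fderiv ℝ X (z t) (z t - p)) with hy
  have hcd : ∀ t, HasDerivAt c (y t) t := fun t => hasDerivAt_toC (hXd t)
  have hyc : Continuous y := by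
    refine continuous_toC.comp ?_
    have h1 : Continuous fun t => fderiv ℝ X (z t) := (hX.continuous_fderiv (by norm_num)).comp hzc
    have h2 : Continuous w' := by simp only [hw']; fun_prop
    exact h2.smul (h1.clm_apply (hzc.sub continuous_const))
  have hcne : ∀ t, c t ≠ 0 := fun t => toC_ne (h _ (hwm t)).1
  have hper : c (2 * π) = c 0 := by
    simp only [hc, hz, hw, cos_two_pi, cos_zero]
  obtain ⟨Θ, hΘd, hΘ, -⟩ := exists_angle_lift hcd hyc hper hcne
  have him : ∀ t, (y t / c t).im = w' t * (A0 X p (z t) / H709R2.sq (X (z t))) := by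
    intro t
    simp only [hy, hc]
    rw [im_div]
    unfold A0 wedge
    simp only [Prod.smul_fst, Prod.smul_snd, smul_eq_mul]
    ring
  simp only [him] at hΘd
  have hq : ∀ t, |A0 X p (z t) / H709R2.sq (X (z t))| ≤ L := by
    intro t
    obtain ⟨h1, h2⟩ := h _ (hwm t)
    have h3 : 0 < H709R2.sq (X (z t)) := H709R2.sq_pos h1
    rw [abs_div, abs_of_pos h3, div_le_iff₀ h3]
    exact h2
  have hw'0 : ∀ t ∈ Icc 0 π, 0 ≤ w' t := by
    intro t ht
    exact mul_nonneg (by linarith) (div_nonneg (sin_nonneg_of_mem_Icc ht) (by norm_num))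
  have hwπ : w π - w 0 = u₂ - u₁ := by
    simp only [hw, cos_pi, cos_zero]; ring
  have hΘ1 : Θ π - Θ 0 ≤ L * (u₂ - u₁) := by
    have hd : ∀ t, HasDerivAt (fun t => L * w t - Θ t)
        (L * w' t - w' t * (A0 X p (z t) / H709R2.sq (X (z t)))) t := fun t =>
      ((hwd t).const_mul L).sub (hΘd t)
    have hm : MonotoneOn (fun t => L * w t - Θ t) (Icc 0 π) := by
      refine monotoneOn_of_deriv_nonneg (convex_Icc 0 π)
        (fun t _ => (hd t).continuousAt.continuousWithinAt)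
        (fun t _ => (hd t).differentiableAt.differentiableWithinAt) fun t ht => ?_
      rw [interior_Icc] at ht
      rw [(hd t).deriv]
      have h1 := hw'0 t (Ioo_subset_Icc_self ht)
      have h2 := (abs_le.1 (hq t)).2
      nlinarith
    have h1 := hm (left_mem_Icc.2 pi_pos.le) (right_mem_Icc.2 pi_pos.le) pi_pos.le
    simp only at h1
    rw [← hwπ]
    linarith
  have hΘ2 : -(L * (u₂ - u₁)) ≤ Θ π - Θ 0 := by
    have hd : ∀ t, HasDerivAt (fun t => L * w t + Θ t)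
        (L * w' t + w' t * (A0 X p (z t) / H709R2.sq (X (z t)))) t := fun t =>
      ((hwd t).const_mul L).add (hΘd t)
    have hm : MonotoneOn (fun t => L * w t + Θ t) (Icc 0 π) := by
      refine monotoneOn_of_deriv_nonneg (convex_Icc 0 π)
        (fun t _ => (hd t).continuousAt.continuousWithinAt)
        (fun t _ => (hd t).differentiableAt.differentiableWithinAt) fun t ht => ?_
      rw [interior_Icc] at ht
      rw [(hd t).deriv]
      have h1 := hw'0 t (Ioo_subset_Icc_self ht)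
      have h2 := (abs_le.1 (hq t)).1
      nlinarith
    have h1 := hm (left_mem_Icc.2 pi_pos.le) (right_mem_Icc.2 pi_pos.le) pi_pos.le
    simp only at h1
    rw [← hwπ]
    linarith
  -- the parallel directions
  have z0 : z 0 = pt p u₁ θ := by
    simp only [hz, hw, cos_zero]; congr 1; ring
  have zπ : z π = pt p u₂ θ := by
    simp only [hz, hw, cos_pi]; congr 1; ring
  have hre : ∀ t, (X (z t)).1 = ‖c t‖ * cos (Θ t) := by
    intro t
    have := congrArg Complex.re (hΘ t)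
    rw [Complex.re_ofReal_mul, Complex.exp_ofReal_mul_I_re] at this
    exact this
  have hi : ∀ t, (X (z t)).2 = ‖c t‖ * sin (Θ t) := by
    intro t
    have := congrArg Complex.im (hΘ t)
    rw [Complex.im_ofReal_mul, Complex.exp_ofReal_mul_I_im] at this
    exact this
  have hsin : sin ((Θ π + α₂) - (Θ 0 + α₁)) = 0 := by
    have h1 : wedge (rot α₁ (X (z 0))) (rot α₂ (X (z π))) =
        ‖c 0‖ * ‖c π‖ * sin ((Θ π + α₂) - (Θ 0 + α₁)) := by
      unfold rot wedge
      simp only [hre, hi]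
      rw [sin_sub, sin_add, sin_add, cos_add, cos_add]
      ring
    rw [z0, zπ, hpar] at h1
    have h2 : 0 < ‖c 0‖ * ‖c π‖ := mul_pos (norm_pos_iff.2 (hcne _)) (norm_pos_iff.2 (hcne _))
    rcases mul_eq_zero.1 h1.symm with h3 | h3
    · exact absurd h3 h2.ne'
    · exact h3
  rw [Real.sin_eq_zero_iff] at hsin
  obtain ⟨k, hk⟩ := hsin
  refine ⟨k, ?_⟩
  have e : α₂ - α₁ - k * π = -(Θ π - Θ 0) := by rw [hk]; ring
  rw [e, abs_neg, abs_le]
  exact ⟨hΘ2, hΘ1⟩

/-- comparison of two closed orbits of rotated fields which meet the same ray -/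
theorem pair {X : ℝ × ℝ → ℝ × ℝ} (hX : ContDiff ℝ 2 X) {p : ℝ × ℝ} {I : Set ℝ}
    (hI : I.OrdConnected) {L : ℝ} (hL0 : 0 ≤ L)
    (hL : ∀ z, z ≠ p → lg p z ∈ I → X z ≠ 0 ∧ |A0 X p z| ≤ L * H709R2.sq (X z))
    {α₁ α₂ : ℝ} (h1 : α₁ ∈ Ioo 0 π) (h2 : α₂ ∈ Ioo 0 π) {C₁ C₂ : Set (ℝ × ℝ)}
    (hC₁ : ClosedOrbit (rf X α₁) C₁) (hC₂ : ClosedOrbit (rf X α₂) C₂) (hp₁ : p ∉ C₁)
    (hp₂ : p ∉ C₂) (hI₁ : ∀ z ∈ C₁, lg p z ∈ I) (hI₂ : ∀ z ∈ C₂, lg p z ∈ I) {θ u₁ u₂ : ℝ}
    (hu₁ : pt p u₁ θ ∈ C₁) (hu₂ : pt p u₂ θ ∈ C₂) :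
    ∃ k : ℤ, |α₂ - α₁ - k * π| ≤ L * |u₂ - u₁| := by
  rcases eq_or_ne α₁ α₂ with hα | hα
  · refine ⟨0, ?_⟩
    rw [hα]
    simp only [sub_self, Int.cast_zero, zero_mul, abs_zero]
    positivity
  have hs : Real.sin (α₂ - α₁) ≠ 0 := by
    intro h
    rw [Real.sin_eq_zero_iff_of_lt_of_lt (by linarith [h1.1, h1.2, h2.1, h2.2])
      (by linarith [h1.1, h1.2, h2.1, h2.2])] at h
    exact hα (by linarith)
  have hdisj := HP.disjoint_rf hX hs hC₁ hC₂
  obtain ⟨γ₁, T₁, hO₁, rfl⟩ := m0 X hX α₁ C₁ hC₁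
  obtain ⟨γ₂, T₂, hO₂, rfl⟩ := m0 X hX α₂ C₂ hC₂
  obtain ⟨a, ha⟩ := hu₁
  obtain ⟨b, hb⟩ := hu₂
  have hrf : ∀ α, Continuous (rf X α) := fun α => (HP.rf_smooth hX α).continuous
  have g1 : Continuous γ₁ := continuous_iff_continuousAt.mpr fun t => (hO₁.ode t).continuousAt
  have g2 : Continuous γ₂ := continuous_iff_continuousAt.mpr fun t => (hO₂.ode t).continuousAt
  have n1 : ∀ t, γ₁ t - p ≠ 0 := fun t h => hp₁ ⟨t, sub_eq_zero.1 h⟩
  have n2 : ∀ t, γ₂ t - p ≠ 0 := fun t h => hp₂ ⟨t, sub_eq_zero.1 h⟩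
  have hρ : toC (γ₂ b - p) = ((Real.exp (u₂ - u₁) : ℝ) : ℂ) * toC (γ₁ a - p) := by
    rw [ha, hb, Real.exp_sub]
    have := (Real.exp_pos u₁).ne'
    apply Complex.ext
    · simp only [toC, pt, Prod.fst_sub, Complex.re_ofReal_mul]
      field_simp
      ring
    · simp only [toC, pt, Prod.snd_sub, Complex.im_ofReal_mul]
      field_simp
      ring
  obtain ⟨s, t, ρ, hρ0, hst, hlog, hw⟩ := contact_complex (c₁ := fun t => toC (γ₁ t - p))
    (y₁ := fun t => toC (rf X α₁ (γ₁ t))) (c₂ := fun t => toC (γ₂ t - p))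
    (y₂ := fun t => toC (rf X α₂ (γ₂ t))) hO₁.pos hO₂.pos
    (fun t => hasDerivAt_toC ((hO₁.ode t).sub_const p))
    (fun t => hasDerivAt_toC ((hO₂.ode t).sub_const p))
    (continuous_toC.comp ((hrf α₁).comp g1)) (continuous_toC.comp ((hrf α₂).comp g2))
    (fun t => by simp only [hO₁.per]) (fun t => by simp only [hO₂.per])
    (fun t => toC_ne (n1 t)) (fun t => toC_ne (n2 t))
    (fun s t h => by
      have e1 := congrArg Complex.re h
      have e2 := congrArg Complex.im h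
      simp only [toC, Prod.fst_sub, Prod.snd_sub] at e1 e2
      have e3 : γ₁ s = γ₂ t := by
        ext
        · linarith
        · linarith
      exact Set.disjoint_left.1 hdisj ⟨s, rfl⟩ (by rw [e3]; exact ⟨t, rfl⟩))
    (Real.exp_pos (u₂ - u₁)) hρ
  rw [Real.log_exp] at hlog
  -- polar coordinates of the two points
  obtain ⟨φ, hφ⟩ := exists_pt (p := p) (z := γ₁ s) (fun h => n1 s (by rw [h, sub_self]))
  set v₁ := lg p (γ₁ s) with hv₁
  set v₂ := lg p (γ₂ t) with hv₂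
  have hγ2 : γ₂ t = pt p (v₁ + Real.log ρ) φ := by
    have e1 := congrArg Complex.re hst
    have e2 := congrArg Complex.im hst
    rw [Complex.re_ofReal_mul] at e1
    rw [Complex.im_ofReal_mul] at e2
    simp only [toC, Prod.fst_sub, Prod.snd_sub] at e1 e2
    rw [hφ] at e1 e2
    simp only [pt] at e1 e2 ⊢
    rw [Real.exp_add, Real.exp_log hρ0]
    ext
    · simp only; linarith
    · simp only; linarith
  have hv2 : v₂ = v₁ + Real.log ρ := by rw [hv₂, hγ2, lg_pt]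
  rw [← hv2] at hγ2
  have hv₁I : v₁ ∈ I := hI₁ _ ⟨s, rfl⟩
  have hv₂I : v₂ ∈ I := hI₂ _ ⟨t, rfl⟩
  have hseg : ∀ a b : ℝ, a ∈ I → b ∈ I → ∀ u ∈ Icc a b,
      X (pt p u φ) ≠ 0 ∧ |A0 X p (pt p u φ)| ≤ L * H709R2.sq (X (pt p u φ)) := by
    intro a b ha hb u hu
    refine hL _ (pt_ne p u φ) ?_
    rw [lg_pt]
    exact hI.out ha hb hu
  have hwedge : wedge (rot α₁ (X (pt p v₁ φ))) (rot α₂ (X (pt p v₂ φ))) = 0 := by
    rw [← hφ, ← hγ2]
    simp only [toC, rf] at hw
    unfold wedge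
    linarith
  have hlen : |v₂ - v₁| ≤ |u₂ - u₁| := by
    have : v₂ - v₁ = Real.log ρ := by rw [hv2]; ring
    rw [this]; exact hlog
  rcases le_total v₁ v₂ with hle | hle
  · obtain ⟨k, hk⟩ := turn hX hle (hseg _ _ hv₁I hv₂I) hwedge
    refine ⟨k, hk.trans (mul_le_mul_of_nonneg_left ?_ hL0)⟩
    exact (le_abs_self _).trans hlen
  · have hwedge' : wedge (rot α₂ (X (pt p v₂ φ))) (rot α₁ (X (pt p v₁ φ))) = 0 := by
      have : wedge (rot α₂ (X (pt p v₂ φ))) (rot α₁ (X (pt p v₁ φ))) =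
          -wedge (rot α₁ (X (pt p v₁ φ))) (rot α₂ (X (pt p v₂ φ))) := by
        unfold wedge; ring
      rw [this, hwedge, neg_zero]
    obtain ⟨k, hk⟩ := turn hX hle (hseg _ _ hv₂I hv₁I) hwedge'
    refine ⟨-k, ?_⟩
    have e : α₂ - α₁ - ((-k : ℤ) : ℝ) * π = -(α₁ - α₂ - k * π) := by push_cast; ring
    rw [e, abs_neg]
    refine hk.trans (mul_le_mul_of_nonneg_left ?_ hL0)
    refine le_trans ?_ hlen
    rw [abs_sub_comm]
    exact le_abs_self _

end Pool.Agent.W960.HR
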