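import Pool.Agent.W960.HR.Class
import Pool.Agent.W960.HR.Cross

/-! All closed orbits in a zone around a zero of the field, or around infinity. -/

open Real Set MeasureTheory Topology Filter
open scoped ENNReal

namespace Pool.Agent.W960.HR

open Pool.Agent.H709R2 (rot wedge ClosedOrbit)
open Pool.Agent.H709U
open Pool.Agent.H709U.Z1aux (encard_mono' encard_biUnion)
open Pool.Agent.H709Q (Maj)

/-- the conditions on the field in a zone: `σ = 1` for the disc, `σ = -1` for its complement -/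
def ZC (X : ℝ × ℝ → ℝ × ℝ) (p : ℝ × ℝ) (σ u₀ Λ : ℝ) : Prop :=
  ∀ z, z ≠ p → σ * (lg p z - u₀) ≤ 0 → X z ≠ 0 ∧
    (∀ v, H709R2.sq (fderiv ℝ X z v) * H709R2.sq (z - p) ≤
      Λ ^ 2 * H709R2.sq (X z) * H709R2.sq v) ∧
    |A0 X p z| ≤ exp (σ * (lg p z - u₀)) * H709R2.sq (X z)

lemma hasDerivAt_lg {X : ℝ × ℝ → ℝ × ℝ} {p : ℝ × ℝ} {α : ℝ} {γ : ℝ → ℝ × ℝ} {T : ℝ}
    (hO : Orb (rf X α) γ T) (hp : ∀ t, γ t ≠ p) (t : ℝ) :
    HasDerivAt (fun t => lg p (γ t)) (W X p α (γ t) / H709R2.sq (γ t - p)) t := by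
  have hsq : ∀ t, 0 < H709R2.sq (γ t - p) := fun t => H709R2.sq_pos (sub_ne_zero.2 (hp t))
  have h := hO.ode t
  have h1 : HasDerivAt (fun t => (γ t).1 - p.1) (rot α (X (γ t))).1 t := (h.fst).sub_const _
  have h2 : HasDerivAt (fun t => (γ t).2 - p.2) (rot α (X (γ t))).2 t := (h.snd).sub_const _
  have h3 := (h1.pow 2).add (h2.pow 2)
  have h4 : HasDerivAt (fun t => H709R2.sq (γ t - p)) _ t := h3
  have h5 := (h4.log (hsq t).ne').div_const 2
  refine h5.congr_deriv ?_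
  unfold W H709U.dot
  simp only [Prod.fst_sub, Prod.snd_sub]
  have := (hsq t).ne'
  field_simp
  push_cast
  ring

/-- All closed orbits in a zone. -/
theorem zone {X : ℝ × ℝ → ℝ × ℝ} (hX : ContDiff ℝ 2 X) {p : ℝ × ℝ} {σ u₀ Λ : ℝ}
    (hσ : σ = 1 ∨ σ = -1) (hΛ : 1 ≤ Λ) (h : ZC X p σ u₀ Λ) :
    Maj (fun α => ({C | ClosedOrbit (rf X α) C ∧ p ∉ C ∧
      ∀ z ∈ C, σ * (lg p z - u₀) ≤ -Real.log Λ}.encard : ℝ≥0∞)) 4000 := by
  have hlΛ : 0 ≤ Real.log Λ := Real.log_nonneg hΛ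
  set J : ℕ := ⌈26 * (Λ + 1)⌉₊ with hJ
  have hJ1 : 26 * (Λ + 1) ≤ J := Nat.le_ceil _
  have hJ2 : (J:ℝ) ≤ 53 * Λ := by
    have := (Nat.ceil_lt_add_one (by linarith : 0 ≤ 26 * (Λ + 1))).le
    rw [← hJ] at this
    linarith
  set I : ℕ → Set ℝ := fun k => {u | σ * (u - u₀) ≤ -Real.log Λ - k} with hI
  have hIo : ∀ k, (I k).OrdConnected := by
    intro k
    constructor
    rintro x hx y hy u ⟨hu1, hu2⟩
    simp only [hI, mem_ofPred_eq] at hx hy ⊢
    rcases hσ with hs | hs <;> rw [hs] at hx hy ⊢ <;> linarith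
  set b : ℕ → ℝ := fun k => u₀ - 1 / 2 + σ * (-Real.log Λ - k - 1 / 2) - 1 with hb
  set N : ℕ → ℕ → ℝ → Set (Set (ℝ × ℝ)) := fun k j α => {C | ClosedOrbit (rf X α) C ∧ p ∉ C ∧
    (∀ z ∈ C, lg p z ∈ I k) ∧ ∃ u ∈ Icc (b k) (b k + 3), pt p u (2 * π * j / J) ∈ C} with hN
  have hNm : ∀ k j, Maj (fun α => ((N k j α).encard : ℝ≥0∞)) (36 / Λ * (1 / 2) ^ k) := by
    intro k j
    have hL : ∀ z, z ≠ p → lg p z ∈ I k →
        X z ≠ 0 ∧ |A0 X p z| ≤ exp (-Real.log Λ - k) * H709R2.sq (X z) := by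
      intro z hz hzI
      simp only [hI, mem_ofPred_eq] at hzI
      have h0 : (0:ℝ) ≤ k := Nat.cast_nonneg k
      obtain ⟨h1, -, h2⟩ := h z hz (by linarith)
      refine ⟨h1, h2.trans (mul_le_mul_of_nonneg_right (exp_le_exp.2 hzI) ?_)⟩
      unfold H709R2.sq; positivity
    have h1 := class_maj hX (hIo k) (exp_pos _).le hL (b := b k) (by norm_num : (0:ℝ) < 3)
      (2 * π * j / J)
    refine maj_mono (fun α _ => le_rfl) ?_ h1
    have h2 : exp (-Real.log Λ - k) = 1 / Λ * exp (-1) ^ k := by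
      rw [sub_eq_add_neg, exp_add, exp_neg, Real.exp_log (by linarith), ← Real.exp_nat_mul]
      congr 1
      · rw [one_div]
      · congr 1; ring
    rw [h2]
    have h3 : exp (-1) ≤ 1 / 2 := by
      rw [exp_neg, ← one_div]
      apply one_div_le_one_div_of_le (by norm_num)
      have := Real.add_one_le_exp (1:ℝ)
      linarith
    have h4 : exp (-1) ^ k ≤ (1 / 2) ^ k := pow_le_pow_left₀ (exp_pos _).le h3 k
    have h5 : (0:ℝ) ≤ 36 / Λ := by positivity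
    calc 12 * (1 / Λ * exp (-1) ^ k) * 3 = 36 / Λ * exp (-1) ^ k := by ring
      _ ≤ 36 / Λ * (1 / 2) ^ k := mul_le_mul_of_nonneg_left h4 h5
  have hk : ∀ k, Maj (fun α => ∑ j ∈ Finset.range J, ((N k j α).encard : ℝ≥0∞))
      (2000 * (1 / 2) ^ k) := by
    intro k
    have h1 := maj_sum (Finset.range J) (fun j α => ((N k j α).encard : ℝ≥0∞))
      (36 / Λ * (1 / 2) ^ k) (by positivity) fun j _ => hNm k j
    refine maj_mono (fun α _ => le_rfl) ?_ h1
    rw [Finset.card_range, ← mul_assoc]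
    refine mul_le_mul_of_nonneg_right ?_ (by positivity)
    rw [mul_div_assoc', div_le_iff₀ (by linarith)]
    nlinarith
  have hsum := maj_tsum (N := fun k α => ∑ j ∈ Finset.range J, ((N k j α).encard : ℝ≥0∞))
    (K := fun k => 2000 * (1 / 2) ^ k) (S := 4000) (fun k => by positivity) (by
      have := hasSum_geometric_two.mul_left (2000:ℝ)
      norm_num at this ⊢
      exact this) hk
  refine maj_mono (fun α _ => ?_) le_rfl hsum
  refine le_trans (encard_mono' (B := ⋃ k, ⋃ j ∈ Finset.range J, N k j α) ?_)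
    ((encard_iUnion_le _).trans (ENNReal.tsum_le_tsum fun k => encard_biUnion _ _))
  rintro C ⟨hC, hpC, hCz⟩
  obtain ⟨γ, T, hO, hCr⟩ := m0 X hX α C hC
  have hγc : Continuous γ := continuous_iff_continuousAt.mpr fun t => (hO.ode t).continuousAt
  have hγp : ∀ t, γ t ≠ p := fun t ht => hpC (by rw [hCr]; exact ⟨t, ht⟩)
  have hlc : Continuous fun t => lg p (γ t) :=
    continuous_iff_continuousAt.mpr fun t => (hasDerivAt_lg hO hγp t).continuousAt
  obtain ⟨t₀, -, ht₀⟩ := (isCompact_Icc (a := (0:ℝ)) (b := T)).exists_isMaxOn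
    ⟨0, left_mem_Icc.2 hO.pos.le⟩ ((hlc.const_mul σ).continuousOn)
  have hmax : ∀ t, σ * lg p (γ t) ≤ σ * lg p (γ t₀) := by
    intro t
    have hper : Function.Periodic γ T := hO.per
    obtain ⟨s, hs, hs'⟩ := hper.exists_mem_Ico₀ hO.pos t
    rw [hs']
    exact ht₀ ⟨hs.1, hs.2.le⟩
  have hW : W X p α (γ t₀) = 0 := by
    have h1 : IsLocalMax (fun t => σ * lg p (γ t)) t₀ := Eventually.of_forall hmax
    have h2 := h1.hasDerivAt_eq_zero ((hasDerivAt_lg hO hγp t₀).const_mul σ)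
    have h3 : 0 < H709R2.sq (γ t₀ - p) := H709R2.sq_pos (sub_ne_zero.2 (hγp t₀))
    rcases mul_eq_zero.1 h2 with h4 | h4
    · rcases hσ with hs | hs <;> rw [hs] at h4 <;> norm_num at h4
    · rcases div_eq_zero_iff.1 h4 with h5 | h5
      · exact h5
      · exact absurd h5 h3.ne'
  have hCt : ∀ t, σ * (lg p (γ t) - u₀) ≤ -Real.log Λ := fun t =>
    hCz _ (by rw [hCr]; exact ⟨t, rfl⟩)
  obtain ⟨j, hj, u, hu, hpt⟩ := cross hX hO hγp (by linarith : 0 ≤ Λ) (fun t v =>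
    (h (γ t) (hγp t) (by linarith [hCt t])).2.1 v) hW hJ1
  set w := σ * (lg p (γ t₀) - u₀) with hw
  have hw0 : 0 ≤ -Real.log Λ - w := by linarith [hCt t₀]
  set k := ⌊-Real.log Λ - w⌋₊ with hkdef
  have hk1 : (k:ℝ) ≤ -Real.log Λ - w := Nat.floor_le hw0
  have hk2 : -Real.log Λ - w < k + 1 := Nat.lt_floor_add_one _
  simp only [mem_iUnion]
  refine ⟨k, j, Finset.mem_range.2 hj, hC, hpC, ?_, u, ?_, ?_⟩
  · intro z hz
    rw [hCr] at hz
    obtain ⟨t, rfl⟩ := hz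
    simp only [hI, mem_ofPred_eq]
    have h1 := hmax t
    have h2 : σ * (lg p (γ t) - u₀) ≤ w := by
      rw [hw, mul_sub, mul_sub]; linarith
    linarith
  · rw [abs_le] at hu
    simp only [hb]
    rcases hσ with hs | hs
    · rw [hs] at hw ⊢
      constructor <;> linarith
    · rw [hs] at hw ⊢
      constructor <;> linarith
  · rw [hCr]; exact hpt

end Pool.Agent.W960.HR
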